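import Pool.Agent.Lib.MP_b525bf_ag_SA.POS
import Pool.Agent.Lib.MP_b525bf_ag_R.FWE
import Pool.Agent.Lib.MP_b525bf_ag_R.STA

/-!
# A09: elements moved by a root subgroup

RECIPE. First copy the proof of `Pool.Agent.MP_b525bf_ag_R.exists_moved` (file FWE.lean) for a
homomorphism `σ : SL(2, k) →* (A ≃ₐ[k] A)` (here `σ = ρ.comp (D.φ α)`): there are `f` in the span of
`{σ g h}` and `s` with `v f ≠ 0`, `v (σ (up s) f - f) = v f`. By
`Pool.Agent.MP_b525bf_ag_R.exists_orbit_formula σ _ ⊥ _ h _ (D.pr l α)` this span is contained in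
the span of the `σ (lo s) h` (each `c i` is a combination of these, and `σ g h = ∑ … • c i`).
Fixedness: let `γ` be positive, `γ ≠ α`, `ht α ≤ ht γ`. For all `s, s'`: `ρ (D.x γ s') (ρ (D.φ α (lo
s)) h) = ρ (D.φ α (lo s)) h`: `D.φ α (lo s) = D.x (D.neg α) s`, and `D.comm γ (D.neg α) s' s`
(`γ ≠ D.neg (D.neg α) = α`) gives `x γ s' * x (neg α) s = x (neg α) s * x γ s'` or `... = x (neg α) s
* (x γ s' * x β s'')` with `ht β = ht γ - ht α ≥ 0`, so `ht β > 0` (`D.ht_ne`); `h` is fixed by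
`x γ s'` and `x β s''` (`hU`). Then extend to the span (`Submodule.span_induction`).
-/

set_option autoImplicit false

namespace Pool.Agent.MP_b525bf_ag_SA

open Pool.Agent.MP_b525bf_ag_R (up lo dg chi IsRat)
open scoped MatrixGroups

private theorem mov_transvection01 {k : Type} [Field k] (s : k) :
    (Matrix.SpecialLinearGroup.transvection zero_ne_one s : SL(2, k)) = up s := by
  refine Pool.Agent.MP_b525bf_ag_R.ext4 ?_ ?_ ?_ ?_ <;>
    simp [Matrix.SpecialLinearGroup.transvection_coe]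

private theorem mov_transvection10 {k : Type} [Field k] (s : k) :
    (Matrix.SpecialLinearGroup.transvection one_ne_zero s : SL(2, k)) = lo s := by
  refine Pool.Agent.MP_b525bf_ag_R.ext4 ?_ ?_ ?_ ?_ <;>
    simp [Matrix.SpecialLinearGroup.transvection_coe]

private theorem mov_ind {k : Type} [Field k] (P : SL(2, k) → Prop) (hu : ∀ s, P (up s))
    (hl : ∀ s, P (lo s)) (hmul : ∀ a b, P a → P b → P (a * b)) (g : SL(2, k)) : P g := by
  refine Matrix.SL2.transvection_induction P ?_ hmul g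
  intro i j h c
  fin_cases i
  · obtain rfl : j = 1 := by fin_cases j <;> tauto
    have := hu c
    rw [← mov_transvection01] at this
    exact this
  · obtain rfl : j = 0 := by fin_cases j <;> tauto
    have := hl c
    rw [← mov_transvection10] at this
    exact this

/-- The matrix `!![0, 1; -1, 0]`. -/
private def mov_wy (k : Type) [Field k] : SL(2, k) :=
  ⟨!![0, 1; -1, 0], by simp [Matrix.det_fin_two_of]⟩

private theorem mov_lo_mul {k : Type} [Field k] (s : k) :
    lo s * mov_wy k = mov_wy k * up (-s) := by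
  have e00 : (mov_wy k).1 0 0 = 0 := rfl
  have e01 : (mov_wy k).1 0 1 = 1 := rfl
  have e10 : (mov_wy k).1 1 0 = -1 := rfl
  have e11 : (mov_wy k).1 1 1 = 0 := rfl
  refine Pool.Agent.MP_b525bf_ag_R.ext4 ?_ ?_ ?_ ?_
  · rw [Pool.Agent.MP_b525bf_ag_R.mul00, Pool.Agent.MP_b525bf_ag_R.mul00]
    simp [e00, e01, e10]
  · rw [Pool.Agent.MP_b525bf_ag_R.mul01, Pool.Agent.MP_b525bf_ag_R.mul01]
    simp [e00, e01, e11]
  · rw [Pool.Agent.MP_b525bf_ag_R.mul10, Pool.Agent.MP_b525bf_ag_R.mul10]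
    simp [e00, e11, e10]
  · rw [Pool.Agent.MP_b525bf_ag_R.mul11, Pool.Agent.MP_b525bf_ag_R.mul11]
    simp [e11, e01, e10]

private theorem mov_pow_ne {k : Type} [Field k] [Infinite k] (N : ℕ) (hN : 0 < N) :
    ∃ t : kˣ, (t : k) ^ N ≠ 1 := by
  by_contra hcon
  push Not at hcon
  have h : (Polynomial.X ^ (N + 1) : Polynomial k) = Polynomial.X := by
    refine Polynomial.funext fun a => ?_
    rw [Polynomial.eval_pow, Polynomial.eval_X, pow_succ]
    by_cases ha : a = 0
    · rw [ha, mul_zero]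
    · have h1 : a ^ N = 1 := hcon (Units.mk0 a ha)
      rw [h1, one_mul]
  have h2 := congrArg Polynomial.natDegree h
  rw [Polynomial.natDegree_X_pow, Polynomial.natDegree_X] at h2
  omega

/-- The version for one homomorphism of `SL_2(k)`. -/
private theorem mov_sl2 {k : Type} [Field k] [Infinite k] {A : Type} [CommRing A] [Algebra k A]
    (σ : SL(2, k) →* (A ≃ₐ[k] A)) {Γ : Type} [LinearOrderedCommGroupWithZero Γ]
    (v : Valuation A Γ) (hk : ∀ c : k, v (algebraMap k A c) ≤ 1) (hv : ∀ g a, v (σ g a) = v a)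
    (h : A) (n : ℤ) (hn : ∀ t : kˣ, σ (dg t) h = ((t ^ n : kˣ) : k) • h) (hpos : 0 < n) :
    ∃ g s, v (σ (up s) (σ g h) - σ g h) = v h := by
  by_contra hcon
  have hup : ∀ (s : k) (g : SL(2, k)), v (σ (up s) (σ g h) - σ g h) < v h := by
    intro s g
    have h1 : v (σ (up s) (σ g h) - σ g h) ≤ v h := by
      refine (v.map_sub _ _).trans ?_
      rw [hv, hv, max_self]
    exact lt_of_le_of_ne h1 fun h2 => hcon ⟨g, s, h2⟩
  have hall : ∀ g' g : SL(2, k), v (σ g' (σ g h) - σ g h) < v h := by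
    refine fun g' => mov_ind
      (fun g' => ∀ g : SL(2, k), v (σ g' (σ g h) - σ g h) < v h) hup ?_ ?_ g'
    · intro s g
      have h1 : σ (lo s) (σ g h) - σ g h =
          σ (mov_wy k) (σ (up (-s)) (σ ((mov_wy k)⁻¹ * g) h) - σ ((mov_wy k)⁻¹ * g) h) := by
        rw [map_sub]
        simp only [← AlgEquiv.mul_apply, ← map_mul]
        rw [mul_inv_cancel_left, ← mul_assoc, ← mov_lo_mul, mul_assoc, mul_inv_cancel_left]
      rw [h1, hv]
      exact hup _ _
    · intro a b ha hb g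
      have h1 : σ (a * b) (σ g h) - σ g h =
          (σ a (σ (b * g) h) - σ (b * g) h) + (σ b (σ g h) - σ g h) := by
        simp only [← AlgEquiv.mul_apply, ← map_mul]
        rw [mul_assoc]
        abel
      rw [h1]
      exact v.map_add_lt (ha _) (hb _)
  obtain ⟨N, hN⟩ := Int.eq_ofNat_of_zero_le hpos.le
  have hN0 : 0 < N := by omega
  obtain ⟨t, ht⟩ := mov_pow_ne (k := k) N hN0
  have h1 := hall (dg t) 1
  have h2 : σ (dg t) h = ((t : k) ^ N) • h := by
    rw [hn, hN, zpow_natCast, Units.val_pow_eq_pow_val]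
  rw [map_one, AlgEquiv.one_apply, h2] at h1
  have h3 : ((t : k) ^ N) • h - h = algebraMap k A ((t : k) ^ N - 1) * h := by
    rw [← Algebra.smul_def, sub_smul, one_smul]
  rw [h3, map_mul] at h1
  have hc : (t : k) ^ N - 1 ≠ 0 := sub_ne_zero.2 ht
  have h4 : v (algebraMap k A ((t : k) ^ N - 1)) = 1 := by
    refine le_antisymm (hk _) ?_
    have h5 : v (algebraMap k A ((t : k) ^ N - 1)) * v (algebraMap k A ((t : k) ^ N - 1)⁻¹) = 1 := by
      rw [← map_mul, ← map_mul, mul_inv_cancel₀ hc, map_one, map_one]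
    calc (1 : Γ) = v (algebraMap k A ((t : k) ^ N - 1)) *
          v (algebraMap k A ((t : k) ^ N - 1)⁻¹) := h5.symm
      _ ≤ v (algebraMap k A ((t : k) ^ N - 1)) * 1 := mul_le_mul' le_rfl (hk _)
      _ = _ := mul_one _
  rw [h4, one_mul] at h1
  exact lt_irrefl _ h1

/-- Fixedness of the translates by the lower unitriangular matrices. -/
private theorem mov_fixed_lo {k ι R G : Type} [Field k] [Fintype ι] [Group G]
    (D : RG k ι R G) {A : Type} [CommRing A] [Algebra k A] (ρ : G →* (A ≃ₐ[k] A)) (α : R) (h : A)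
    (hU : D.IsU ρ h) (γ : R) (hγ : 0 < D.ht γ) (hne : γ ≠ α) (hle : D.ht α ≤ D.ht γ) (s t : k) :
    ρ (D.x γ s) (ρ (D.φ α (lo t)) h) = ρ (D.φ α (lo t)) h := by
  have h0 : D.x γ s * D.φ α (lo t) = D.φ α (lo t) *
      (D.φ (D.neg α) (up (-t)) * D.φ γ (up s) * D.φ (D.neg α) (up t)) := by
    have h1 : D.φ (D.neg α) (up (-t)) = (D.φ α (lo t))⁻¹ := by
      have h2 := D.x_inv (D.neg α) t
      rw [RG.x, RG.x, D.neg_up α t] at h2
      exact h2.symm
    rw [h1, D.neg_up α t, RG.x]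
    group
  rw [← AlgEquiv.mul_apply, ← map_mul, h0, map_mul, AlgEquiv.mul_apply]
  congr 1
  rcases D.comm γ (D.neg α) s t (by rw [D.neg_neg]; exact hne) with h1 | ⟨β, s', -, hβ, h1⟩
  · rw [h1]
    exact hU γ hγ s
  · have hβ0 : 0 < D.ht β := by
      have h2 := D.ht_ne β
      rw [D.ht_neg] at hβ
      omega
    rw [h1, map_mul, AlgEquiv.mul_apply]
    have h3 : ρ (D.φ β (up s')) h = h := hU β hβ0 s'
    have h4 : ρ (D.φ γ (up s)) h = h := hU γ hγ s
    rw [h3, h4]

theorem exists_moved {k ι R G : Type} [Field k] [Infinite k] [Fintype ι] [Group G]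
    (D : RG k ι R G) {A : Type} [CommRing A] [Algebra k A] (ρ : G →* (A ≃ₐ[k] A))
    (hρ : D.Rat ρ) {Γ : Type} [LinearOrderedCommGroupWithZero Γ] (v : Valuation A Γ)
    (hk : ∀ c : k, v (algebraMap k A c) ≤ 1) (hv : ∀ g a, v (ρ g a) = v a) (α : R)
    (hα : 0 < D.ht α) (h : A) (hh : v h ≠ 0) (hU : D.IsU ρ h) (l : ι → ℤ) (hl : D.IsWt ρ l h)
    (hpos : 0 < D.pr l α) :
    ∃ f : A, v f ≠ 0 ∧ (∀ γ, 0 < D.ht γ → γ ≠ α → D.ht α ≤ D.ht γ → ∀ s, ρ (D.x γ s) f = f) ∧
      ∃ s, v (ρ (D.x α s) f - f) = v f := by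
  classical
  have hn : ∀ t : kˣ, (ρ.comp (D.φ α)) (dg t) h = ((t ^ D.pr l α : kˣ) : k) • h := fun t =>
    dg_wt D ρ α l h hl t
  have hh0 : h ≠ 0 := by
    rintro rfl
    exact hh v.map_zero
  obtain ⟨g, s, hgs⟩ := mov_sl2 (ρ.comp (D.φ α)) v hk (fun g a => hv _ a) h (D.pr l α) hn hpos
  have hgv : v ((ρ.comp (D.φ α)) g h) = v h := hv _ _
  obtain ⟨n', M, c, b, -, -, hcb, -, -, hform⟩ :=
    Pool.Agent.MP_b525bf_ag_R.exists_orbit_formula (ρ.comp (D.φ α)) (hρ.sl α) ⊥
      (fun g e he => by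
        rw [Submodule.mem_bot] at he ⊢
        rw [he, map_zero])
      h (by rwa [Submodule.mem_bot]) (D.pr l α) hn
      (fun s => by
        rw [Submodule.mem_bot, sub_eq_zero]
        exact hU α hα s)
  refine ⟨(ρ.comp (D.φ α)) g h, ?_, ?_, s, ?_⟩
  · rw [hgv]
    exact hh
  · intro γ hγ hne hle s'
    have hc : ∀ i, ρ (D.x γ s') (c i) = c i := by
      intro i
      rw [hcb i, Finsupp.sum, map_sum]
      refine Finset.sum_congr rfl fun t _ => ?_
      rw [map_smul]
      congr 1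
      exact mov_fixed_lo D ρ α h hU γ hγ hne hle s' t
    have h1 := hform g
    rw [Submodule.mem_bot, sub_eq_zero] at h1
    rw [h1, map_sum]
    refine Finset.sum_congr rfl fun i _ => ?_
    rw [map_smul, hc]
  · rw [hgv]
    exact hgs

end Pool.Agent.MP_b525bf_ag_SA
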