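import Pool.Agent.Lib.MP_b525bf_ag_SA.WTC
import Pool.Agent.Lib.MP_b525bf_ag_SA.OnK
import Pool.Agent.Lib.MP_b525bf_ag_R.TRT

/-!
# A11: the transcendence degree of the invariants of the unipotent group

RECIPE. Copy of `Pool.Agent.MP_b525bf_ag_R.exists_weights_trdeg` (file TRT.lean) with `SLT k m r`
replaced by `G`, `tor` by `D.T`, `IsU`, `IsWt` by those of `D`, `borel k m r` by `D.B`, and the
lemmas of EIG.lean by those of OnK.lean (`mem_invField_of` etc.), `exists_weights` from WTC.lean.
`C` is `T`-stable because `T` normalizes the root subgroups (`D.T_up`).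
-/

set_option autoImplicit false

namespace Pool.Agent.MP_b525bf_ag_SA

open Pool.Agent.MP_b525bf_ag_R (up lo dg chi IsRat)
open scoped MatrixGroups Cardinal
open Pool.Agent.MP_b525bf_ag_R (chi_zero chi_add)

open Pool.Agent.MP_b525bf_ag_E Pool.Agent.MP_b525bf_ag_ES

/-! ### Transcendence degrees as ranks of subsets of a field -/

section Rank

variable {k K : Type} [Field k] [Field K] [Algebra k K]

private theorem faithT : FaithfulSMul k K :=
  (faithfulSMul_iff_algebraMap_injective k K).2 (algebraMap k K).injective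

attribute [local instance] faithT

/-- The rank of the image of an algebra is at least its transcendence degree. -/
private theorem trdeg_le_cRkT {C : Type} [CommRing C] [Algebra k C] (φ : C →ₐ[k] K)
    (hφ : Function.Injective φ) (X : Set K) (hX : ∀ c, φ c ∈ X) :
    Algebra.trdeg k C ≤ (AlgebraicIndependent.matroid k K).cRk X := by
  have hinj : Function.Injective (algebraMap k C) := by
    intro a b hab
    apply (algebraMap k K).injective
    rw [← φ.commutes, ← φ.commutes, hab]
  have : FaithfulSMul k C := (faithfulSMul_iff_algebraMap_injective k C).2 hinj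
  have : NoZeroDivisors C := hφ.noZeroDivisors φ (map_zero _) (map_mul _)
  obtain ⟨ι, y, hy⟩ := exists_isTranscendenceBasis' k C
  rw [← hy.cardinalMk_eq_trdeg]
  have h1 : AlgebraicIndependent k (fun i => φ (y i)) := hy.1.map' hφ
  have h2 : (AlgebraicIndependent.matroid k K).Indep (Set.range fun i => φ (y i)) :=
    AlgebraicIndependent.matroid_indep_iff.2 (by
      have := h1.coe_range
      exact this)
  have h3 := h2.cardinalMk_le_cRk_of_subset (X := X) (by
    rintro _ ⟨i, rfl⟩
    exact hX _)
  rwa [Cardinal.mk_range_eq _ h1.injective] at h3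

/-- The rank of an intermediate field is at most its transcendence degree. -/
private theorem cRk_le_trdegT (M : IntermediateField k K) :
    (AlgebraicIndependent.matroid k K).cRk (M : Set K) ≤ Algebra.trdeg k M := by
  rw [Matroid.cRk_le_iff]
  intro I hI
  have h1 : AlgebraicIndepOn k id I := AlgebraicIndependent.matroid_indep_iff.1 hI.indep
  have h2 : AlgebraicIndependent k (fun i : I => (⟨i.1, hI.subset i.2⟩ : M)) :=
    AlgebraicIndependent.of_comp M.val h1
  exact h2.cardinalMk_le_trdeg

end Rank

/-! ### Linearly independent weights -/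

private theorem exists_weightsT {ι : Type} [Fintype ι] (W : Set (ι → ℤ)) :
    ∃ (n : ℕ) (l : Fin n → ι → ℤ), LinearIndependent ℤ l ∧ (∀ j, l j ∈ W) ∧
      ∀ w ∈ W, ∃ (N : ℤ) (a : Fin n → ℤ), N ≠ 0 ∧ N • w = ∑ j, a j • l j := by
  classical
  set f : (ι → ℤ) →ₗ[ℤ] (ι → ℚ) :=
    ((Int.castAddHom ℚ).toIntLinearMap).compLeft ι with hf
  have hfa : ∀ w i, f w i = (w i : ℚ) := fun w i => rfl
  have hinj : Function.Injective f := by
    intro w w' h
    funext i
    have := congrFun h i
    rw [hfa, hfa] at this
    exact_mod_cast this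
  obtain ⟨b, hb, hspan, hli⟩ := exists_linearIndependent ℚ (f '' W)
  have hfin : b.Finite := hli.setFinite
  have : Fintype b := hfin.fintype
  choose l hlW hl using fun j : Fin (Fintype.card b) =>
    hb ((Fintype.equivFin b).symm j).2
  have hli' : LinearIndependent ℚ (fun j => f (l j)) := by
    have h1 := hli.comp (Fintype.equivFin b).symm (Fintype.equivFin b).symm.injective
    have h2 : (fun j => f (l j)) = ((↑) : b → (ι → ℚ)) ∘ (Fintype.equivFin b).symm :=
      funext fun j => hl j
    rw [h2]
    exact h1
  refine ⟨Fintype.card b, l, ?_, hlW, ?_⟩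
  · have h1 : LinearIndependent ℤ (fun j => f (l j)) :=
      hli'.restrict_scalars (R := ℤ) (by
        intro a b hab
        simpa using hab)
    exact LinearIndependent.of_comp f h1
  · intro w hw
    have h1 : f w ∈ Submodule.span ℚ (Set.range fun j => f (l j)) := by
      have h2 : f w ∈ Submodule.span ℚ b := by
        rw [hspan]
        exact Submodule.subset_span ⟨w, hw, rfl⟩
      refine Submodule.span_mono ?_ h2
      intro x hx
      refine ⟨Fintype.equivFin b ⟨x, hx⟩, ?_⟩
      change f (l (Fintype.equivFin b ⟨x, hx⟩)) = x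
      rw [hl, Equiv.symm_apply_apply]
    obtain ⟨q, hq⟩ := (Submodule.mem_span_range_iff_exists_fun ℚ).1 h1
    obtain ⟨N, hN⟩ := IsLocalization.exist_integer_multiples_of_finite (nonZeroDivisors ℤ) q
    choose a ha using hN
    refine ⟨(N : ℤ), a, nonZeroDivisors.ne_zero N.2, hinj ?_⟩
    rw [map_smul, map_sum, ← hq, Finset.smul_sum]
    refine Finset.sum_congr rfl fun j _ => ?_
    rw [map_smul]
    have h3 : ((a j : ℤ) : ℚ) = (N : ℤ) • q j := ha j
    funext i
    rw [Pi.smul_apply, Pi.smul_apply, Pi.smul_apply, zsmul_eq_mul, zsmul_eq_mul, smul_eq_mul,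
      h3, zsmul_eq_mul, mul_assoc]

private theorem chi_zsmulT {k ι : Type} [Field k] [Fintype ι] (N : ℤ) (l : ι → ℤ) (t : ι → kˣ) :
    chi (N • l) t = chi l t ^ N := by
  rw [chi, chi, ← Finset.prod_zpow]
  refine Finset.prod_congr rfl fun i _ => ?_
  rw [← zpow_mul, Pi.smul_apply, smul_eq_mul, mul_comm]

private theorem chi_sumT {k ι : Type} [Field k] [Fintype ι] {n : ℕ} (a : Fin n → ℤ)
    (l : Fin n → ι → ℤ) (t : ι → kˣ) : chi (∑ j, a j • l j) t = ∏ j, chi (l j) t ^ a j := by
  classical
  have h : ∀ s : Finset (Fin n), chi (∑ j ∈ s, a j • l j) t = ∏ j ∈ s, chi (l j) t ^ a j := by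
    intro s
    induction s using Finset.induction_on with
    | empty => simp [chi_zero]
    | insert j s hj ih =>
      rw [Finset.sum_insert hj, Finset.prod_insert hj, chi_add, chi_zsmulT, ih]
  exact h Finset.univ

theorem exists_weights_trdeg {k ι R G : Type} [Field k] [Infinite k] [Fintype ι] [Group G]
    (D : RG k ι R G) {A : Type} [CommRing A] [IsDomain A] [Algebra k A] (ρ : G →* (A ≃ₐ[k] A))
    (hρ : D.Rat ρ) (C : Subalgebra k A) (hC : ∀ a, a ∈ C ↔ D.IsU ρ a) :
    ∃ (n : ℕ) (e : Fin n → A) (l : Fin n → (ι → ℤ)), LinearIndependent ℤ l ∧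
      (∀ j, e j ≠ 0 ∧ D.IsU ρ (e j) ∧ D.IsWt ρ (l j) (e j)) ∧
      Algebra.trdeg k C ≤ Algebra.trdeg k (invField (D.B.map ρ)) + n := by
  classical
  set K := FractionRing A
  set M := invField (D.B.map ρ) with hM
  have hinj : Function.Injective (algebraMap A K) := IsFractionRing.injective A K
  obtain ⟨n, l, hli, hlW, hspan⟩ := exists_weightsT
    {w : ι → ℤ | ∃ c : A, c ≠ 0 ∧ D.IsU ρ c ∧ D.IsWt ρ w c}
  choose e he0 heU hew using hlW
  refine ⟨n, e, l, hli, fun j => ⟨he0 j, heU j, hew j⟩, ?_⟩
  set E : Set K := Set.range fun j => algebraMap A K (e j) with hE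
  have hf : FaithfulSMul k K := faithT
  set 𝓜 := AlgebraicIndependent.matroid k K with h𝓜
  -- the closure
  have hclos : ∀ c : C, algebraMap A K c ∈ 𝓜.closure ((M : Set K) ∪ E) := by
    intro c
    rw [h𝓜, AlgebraicIndependent.matroid_closure_eq]
    set R := Algebra.adjoin k ((M : Set K) ∪ E) with hR
    set R' := Subalgebra.algebraicClosure R K with hR'
    have hinR : ∀ x, x ∈ (M : Set K) ∪ E → IsAlgebraic R x := fun x hx =>
      isAlgebraic_algebraMap (⟨x, Algebra.subset_adjoin hx⟩ : R)
    -- weight vectors
    have hwt : ∀ (d : A) (w : ι → ℤ), D.IsU ρ d → D.IsWt ρ w d →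
        IsAlgebraic R (algebraMap A K d) := by
      intro d w hdU hdw
      by_cases hd0 : d = 0
      · rw [hd0, map_zero]
        exact isAlgebraic_zero
      have hd0' : algebraMap A K d ≠ 0 := (map_ne_zero_iff _ hinj).2 hd0
      have he0' : ∀ j, algebraMap A K (e j) ≠ 0 := fun j => (map_ne_zero_iff _ hinj).2 (he0 j)
      obtain ⟨N, a, hN, hNa⟩ := hspan w ⟨d, hd0, hdU, hdw⟩
      set g : K := algebraMap A K d ^ N * (∏ j, algebraMap A K (e j) ^ a j)⁻¹ with hg
      have hgM : g ∈ M := by
        refine mem_invField_of D ρ g (fun t => ?_) (fun α hα s => ?_)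
        · have h1 : onK ρ (D.T t) (algebraMap A K d) =
              algebraMap k K (chi w t : k) * algebraMap A K d := by
            rw [onK_algebraMap, hdw t, Algebra.smul_def, map_mul,
              ← IsScalarTower.algebraMap_apply k A K]
          have h2 : ∀ j, onK ρ (D.T t) (algebraMap A K (e j)) =
              algebraMap k K (chi (l j) t : k) * algebraMap A K (e j) := by
            intro j
            rw [onK_algebraMap, hew j t, Algebra.smul_def, map_mul,
              ← IsScalarTower.algebraMap_apply k A K]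
          have h3 : algebraMap k K (chi w t : k) ^ N =
              ∏ j, algebraMap k K (chi (l j) t : k) ^ a j := by
            have h4 : chi w t ^ N = ∏ j, chi (l j) t ^ a j := by
              rw [← chi_zsmulT, hNa, chi_sumT]
            have h5 := congrArg (fun x : kˣ => algebraMap k K (x : k)) h4
            simpa [map_zpow₀, map_prod] using h5
          have h6 : (∏ j, algebraMap k K (chi (l j) t : k) ^ a j) ≠ 0 := by
            refine Finset.prod_ne_zero_iff.2 fun j _ => zpow_ne_zero _ ?_
            exact (map_ne_zero _).2 (Units.ne_zero _)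
          rw [hg, map_mul, map_zpow₀, map_inv₀, map_prod, h1]
          have h7 : ∏ j, onK ρ (D.T t) (algebraMap A K (e j) ^ a j) =
              (∏ j, algebraMap k K (chi (l j) t : k) ^ a j) *
                ∏ j, algebraMap A K (e j) ^ a j := by
            rw [← Finset.prod_mul_distrib]
            refine Finset.prod_congr rfl fun j _ => ?_
            rw [map_zpow₀, h2, mul_zpow]
          rw [h7, mul_zpow, h3, mul_inv]
          rw [mul_mul_mul_comm, mul_inv_cancel₀ h6, one_mul]
        · rw [hg, map_mul, map_zpow₀, map_inv₀, map_prod, onK_algebraMap, hdU α hα s]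
          congr 2
          refine Finset.prod_congr rfl fun j _ => ?_
          rw [map_zpow₀, onK_algebraMap, heU j α hα s]
      have hprod : IsAlgebraic R (∏ j, algebraMap A K (e j) ^ a j) := by
        have h1 : ∏ j, algebraMap A K (e j) ^ a j ∈ R' := by
          refine prod_mem fun j _ => ?_
          change IsAlgebraic R _
          have h2 : IsAlgebraic R (algebraMap A K (e j)) := hinR _ (Or.inr ⟨j, rfl⟩)
          obtain ⟨N', hN' | hN'⟩ := Int.eq_nat_or_neg (a j)
          · rw [hN', zpow_natCast]
            exact h2.pow N'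
          · rw [hN', zpow_neg, zpow_natCast]
            exact (h2.pow N').inv
        exact h1
      have hpow : IsAlgebraic R (algebraMap A K d ^ N) := by
        have h1 : algebraMap A K d ^ N = g * ∏ j, algebraMap A K (e j) ^ a j := by
          rw [hg, mul_assoc, inv_mul_cancel₀, mul_one]
          exact Finset.prod_ne_zero_iff.2 fun j _ => zpow_ne_zero _ (he0' j)
        rw [h1]
        exact (hinR g (Or.inl hgM)).mul hprod
      obtain ⟨N', hN' | hN'⟩ := Int.eq_nat_or_neg N
      · rw [hN', zpow_natCast] at hpow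
        exact hpow.of_pow (by omega)
      · rw [hN', zpow_neg, zpow_natCast] at hpow
        have h1 := hpow.inv
        rw [inv_inv] at h1
        exact h1.of_pow (by omega)
    -- sums of weight vectors
    obtain ⟨S, d, b, hdw, hdb, hsum⟩ := exists_weights D ρ hρ (c : A)
    have hcU : D.IsU ρ (c : A) := (hC _).1 c.2
    have h1 : algebraMap A K (c : A) ∈ R' := by
      rw [hsum, map_sum]
      refine sum_mem fun w hw => ?_
      change IsAlgebraic R _
      refine hwt _ w ?_ (hdw w hw)
      intro α hα s
      rw [hdb w hw, Finsupp.sum, map_sum]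
      refine Finset.sum_congr rfl fun t _ => ?_
      rw [map_smul]
      congr 1
      obtain ⟨s', hs'⟩ := D.T_up t⁻¹ α s
      have h2 : D.x α s * D.T t = D.T t * D.x α s' := by
        change D.T t⁻¹ * D.x α s = D.x α s' * D.T t⁻¹ at hs'
        rw [map_inv] at hs'
        calc D.x α s * D.T t = D.T t * ((D.T t)⁻¹ * D.x α s) * D.T t := by group
          _ = D.T t * (D.x α s' * (D.T t)⁻¹) * D.T t := by rw [hs']
          _ = D.T t * D.x α s' := by group
      rw [← AlgEquiv.mul_apply, ← map_mul, h2, map_mul, AlgEquiv.mul_apply, hcU α hα s']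
    exact h1
  refine (trdeg_le_cRkT (k := k) (K := K) ((IsScalarTower.toAlgHom k A K).comp C.val)
    (hinj.comp Subtype.val_injective) _ hclos).trans ?_
  rw [Matroid.cRk_closure]
  refine (le_trans le_add_self (Matroid.cRk_inter_add_cRk_union_le 𝓜 (M : Set K) E)).trans ?_
  refine add_le_add (cRk_le_trdegT M) ((Matroid.cRk_le_cardinalMk _ _).trans ?_)
  refine Cardinal.mk_range_le.trans ?_
  rw [Cardinal.mk_fin]

end Pool.Agent.MP_b525bf_ag_SA
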