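import Pool.Agent.Lib.MP_b525bf_ag_SA.UPB
import Pool.Agent.Lib.MP_b525bf_ag_SA.MOV
import Pool.Agent.Lib.MP_b525bf_ag_SA.TRD
import Pool.Agent.Lib.MP_b525bf_ag_SA.OnK
import Pool.Agent.Lib.MP_b525bf_ag_R.CHN

/-!
# A10: the invariant valuations are Abhyankar valuations

RECIPE. `ab_chain_ord`: the proof of `ab_chain` in MP_b525bf_ag_R/CHN.lean works with the weaker
hypothesis (`φ ∈ Φ j` fixes `y j'` for `j' < j`): the induction splits off `y 0`, which is fixed by
the `φ ∈ Φ j.succ`; use `ab_step`, `gauss_of_many`, `fix_sup_adjoin` from the namespace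
`Pool.Agent.MP_b525bf_ag_R`. `defLE_of_rat`: copy of `defLE_of_rational` (same file) with:
`borel k m r` replaced by `D.B`, `tor` by `D.T`, `sl i (up s)` by `D.x β s`; `trdeg_uTo` by
`trdeg_le_pos` (for `C` the subalgebra of the invariants, `trdeg_fractionRing` from CHN.lean);
`exists_highest` by the definition of `D.Pos ρ`; `exists_moved` from MOV.lean. The elements of
`D.Pos ρ` are numbered `β_0, β_1, …` by increasing height (`List.mergeSort`, or
`Tuple.sort (fun j => D.ht (E.symm j))` for an equivalence `E` with `Fin N`), `y j = f (β_j)`,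
`Φ j = {onK ρ (D.x β_j s)}`: for `j' < j` the element `f (β_j')` is fixed by `D.x β_j s` since
`β_j ≠ β_j'`, `ht β_j' ≤ ht β_j`. `exists_many_up` is applied to `ρ.comp (D.φ β)`, `hρ.sl β`.
-/

set_option autoImplicit false

namespace Pool.Agent.MP_b525bf_ag_SA

open Pool.Agent.MP_b525bf_ag_R (up lo dg chi IsRat)
open scoped MatrixGroups

open Pool.Agent.MP_b525bf_ag_ES Pool.Agent.MP_b525bf_ag_E Pool.Agent.LU2
open Pool.Agent.MP_b525bf_ag_R (Ab)
open Pool.Agent.MP_b525bf_ag_R (ab_bot ab_step gauss_of_many fix_sup_adjoin exists_ab_one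
  exists_dual chi_zpow exists_units_zpow exists_many_up)

theorem ab_chain_ord {k K : Type} [Field k] [Field K] [Algebra k K] (V : ValuationSubring K)
    (hk : ∀ c : k, algebraMap k K c ∈ V) (N : ℕ) :
    ∀ (S : IntermediateField k K) (ν : ℕ), Ab V S ν → ∀ (y : Fin N → K), (∀ j, y j ≠ 0) →
      ∀ (Φ : Fin N → Set (K ≃ₐ[k] K)),
      (∀ j, ∀ φ ∈ Φ j, ∀ x, V.valuation (φ x) = V.valuation x) →
      (∀ j, ∀ φ ∈ Φ j, ∀ x ∈ S, φ x = x) → (∀ j j', j' < j → ∀ φ ∈ Φ j, φ (y j') = y j') →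
      (∀ j (n : ℕ), ∃ φ : Fin n → (K ≃ₐ[k] K), (∀ i, φ i ∈ Φ j) ∧
        ∀ i i', i ≠ i' → V.valuation (φ i (y j) - φ i' (y j)) = V.valuation (y j)) →
      ∃ S' : IntermediateField k K, Ab V S' (ν + N) ∧
        ∀ φ : K ≃ₐ[k] K, (∀ x ∈ S, φ x = x) → (∀ j, φ (y j) = y j) → ∀ x ∈ S', φ x = x := by
  induction N with
  | zero =>
    intro S ν hS y hy Φ h1 h2 h3 h4
    exact ⟨S, hS, fun φ h _ => h⟩
  | succ N ih =>
    intro S ν hS y hy Φ h1 h2 h3 h4
    have hG : ∀ P : Polynomial K, (∀ i, P.coeff i ∈ S) → ∀ i,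
        V.valuation (P.coeff i * y 0 ^ i) ≤ V.valuation (P.eval (y 0)) := by
      intro P hP i
      refine gauss_of_many V S (y 0) (hy 0) (fun n => ?_) P hP i
      obtain ⟨φ, hφ, hφ'⟩ := h4 0 n
      exact ⟨φ, fun i x => h1 0 _ (hφ i) x, fun i x hx => h2 0 _ (hφ i) x hx, hφ'⟩
    have hS1 := ab_step V hk S ν hS (y 0) (hy 0) hG
    obtain ⟨S', hS', hfix⟩ := ih (S ⊔ IntermediateField.adjoin k {y 0}) (ν + 1) hS1
      (fun j => y j.succ) (fun j => hy _) (fun j => Φ j.succ) (fun j => h1 _)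
      (fun j φ hφ => fix_sup_adjoin S (y 0) φ (h2 _ φ hφ) (h3 _ _ (Fin.succ_pos j) φ hφ))
      (fun j j' hj φ hφ => h3 _ _ (Fin.succ_lt_succ_iff.2 hj) φ hφ)
      (fun j n => h4 _ n)
    refine ⟨S', ?_, fun φ h h' => hfix φ (fix_sup_adjoin S (y 0) φ h (h' 0)) fun j => h' _⟩
    rwa [add_assoc, add_comm 1 N] at hS'

/-- The elements invariant under the positive root subgroups. -/
private def uInv {k ι R G : Type} [Field k] [Group G] (D : RG k ι R G) {A : Type} [CommRing A]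
    [Algebra k A] (ρ : G →* (A ≃ₐ[k] A)) : Subalgebra k A where
  carrier := {a | D.IsU ρ a}
  mul_mem' := by
    intro a b ha hb α hα s
    rw [map_mul, ha α hα s, hb α hα s]
  add_mem' := by
    intro a b ha hb α hα s
    rw [map_add, ha α hα s, hb α hα s]
  algebraMap_mem' := by
    intro c α hα s
    exact AlgEquiv.commutes _ _

theorem defLE_of_rat {k ι R G : Type} [Field k] [Infinite k] [Fintype ι] [Finite R] [Group G]
    (D : RG k ι R G) {A : Type} [CommRing A] [IsDomain A] [Algebra k A] (ρ : G →* (A ≃ₐ[k] A))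
    (hρ : D.Rat ρ) (hc : Algebra.trdeg k (invField (D.B.map ρ)) ≤ 1)
    (V : ValuationSubring (FractionRing A)) (hV : IsInvariant ρ.range V) : DefLE k V 0 := by
  classical
  set K := FractionRing A
  set M := invField (D.B.map ρ) with hM
  have hk : ∀ c : k, algebraMap k K c ∈ V := by
    intro c
    rw [IsScalarTower.algebraMap_apply k A K]
    exact hV.1 _
  -- the valuation on `A`
  set v := V.valuation.comap (algebraMap A K) with hv
  have hvk : ∀ c : k, v (algebraMap k A c) ≤ 1 := by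
    intro c
    rw [hv, Valuation.comap_apply, ← IsScalarTower.algebraMap_apply k A K]
    exact (V.valuation_le_one_iff _).2 (hk c)
  have hvinv : ∀ g a, v (ρ g a) = v a := fun g a => hV.2 _ ⟨g, rfl⟩ a
  have hinj := IsFractionRing.injective A K
  -- the weight vectors
  have hC : ∀ a, a ∈ uInv D ρ ↔ D.IsU ρ a := fun a => Iff.rfl
  obtain ⟨n, e, l, hl, he, htr⟩ := exists_weights_trdeg D ρ hρ (uInv D ρ) hC
  have htr' := trdeg_le_pos D ρ hρ (uInv D ρ) hC
  -- the base
  obtain ⟨S₀, ν, hS₀, hS₀M, hν⟩ : ∃ (S₀ : IntermediateField k K) (ν : ℕ), Ab V S₀ ν ∧ S₀ ≤ M ∧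
      Algebra.trdeg k M ≤ ν := by
    by_cases halg : Algebra.IsAlgebraic k M
    · exact ⟨⊥, 0, ab_bot V hk, bot_le, by rw [_root_.trdeg_eq_zero]; simp⟩
    · obtain ⟨z, hz, hz'⟩ := exists_ab_one V hk M halg
      exact ⟨_, 1, hz', (IntermediateField.adjoin_simple_le_iff).2 hz, by simpa using hc⟩
  have hM0 : ∀ x ∈ S₀, ∀ g ∈ D.B, onK ρ g x = x := fun x hx =>
    (mem_invField_iff ρ D.B x).1 (hS₀M hx)
  -- the weight vectors are added
  choose μ hμ hμ' using fun j => exists_dual l hl j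
  obtain ⟨S₁, hS₁, hfix₁⟩ := ab_chain_ord V hk n S₀ ν hS₀ (fun j => algebraMap A K (e j))
    (fun j => (map_ne_zero_iff _ hinj).2 (he j).1)
    (fun j => Set.range fun t : kˣ => onK ρ (D.T fun i => t ^ μ j i))
    (by
      rintro j _ ⟨t, rfl⟩ x
      exact valuation_onK ρ V hV _ x)
    (by
      rintro j _ ⟨t, rfl⟩ x hx
      exact hM0 x hx _ (D.T_mem _))
    (by
      rintro j j' hj _ ⟨t, rfl⟩
      change onK ρ _ _ = _
      rw [onK_algebraMap, (he j').2.2, chi_zpow, hμ j j' hj.ne, zpow_zero, Units.val_one, one_smul])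
    (by
      intro j n'
      obtain ⟨t, ht⟩ := exists_units_zpow (k := k) (∑ i, μ j i * l j i) (hμ' j) n'
      refine ⟨fun i => onK ρ (D.T fun i' => t i ^ μ j i'), fun i => ⟨t i, rfl⟩, ?_⟩
      intro i i' hii
      rw [onK_algebraMap, onK_algebraMap, (he j).2.2, (he j).2.2, chi_zpow, chi_zpow,
        ← map_sub, ← sub_smul, Algebra.smul_def, map_mul, map_mul,
        ← IsScalarTower.algebraMap_apply k A K]
      have h1 : ((t i ^ (∑ i, μ j i * l j i) : kˣ) : k) - ((t i' ^ (∑ i, μ j i * l j i) : kˣ) : k)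
          ≠ 0 := by
        rw [sub_ne_zero]
        exact fun h => ht i i' hii (Units.ext h)
      have h2 : V.valuation (algebraMap k K (((t i ^ (∑ i, μ j i * l j i) : kˣ) : k) -
          ((t i' ^ (∑ i, μ j i * l j i) : kˣ) : k))) = 1 := by
        refine le_antisymm ((V.valuation_le_one_iff _).2 (hk _)) ?_
        have h3 := (V.valuation_le_one_iff _).2 (hk (((t i ^ (∑ i, μ j i * l j i) : kˣ) : k) -
          ((t i' ^ (∑ i, μ j i * l j i) : kˣ) : k))⁻¹)
        rw [map_inv₀, map_inv₀] at h3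
        rwa [inv_le_one₀ (by
          rw [Valuation.pos_iff]
          exact (map_ne_zero _).2 h1)] at h3
      rw [h2, one_mul])
  -- the positive roots, by increasing height
  have : Fintype (D.Pos ρ) := Fintype.ofFinite _
  set N := Fintype.card (D.Pos ρ) with hN
  set E := Fintype.equivFin (D.Pos ρ) with hE
  set σ := Tuple.sort (fun j : Fin N => D.ht (E.symm j).1) with hσ
  have hmono := Tuple.monotone_sort (fun j : Fin N => D.ht (E.symm j).1)
  rw [← hσ] at hmono
  set β : Fin N → R := fun j => (E.symm (σ j)).1 with hβ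
  have hβinj : Function.Injective β := by
    intro j j' h
    exact σ.injective (E.symm.injective (Subtype.ext h))
  have hβmem : ∀ j, β j ∈ D.Pos ρ := fun j => (E.symm (σ j)).2
  have hβmono : ∀ j j', j ≤ j' → D.ht (β j) ≤ D.ht (β j') := fun j j' h => hmono h
  -- the moved elements
  have hmoved : ∀ j : Fin N, ∃ f : A, v f ≠ 0 ∧
      (∀ γ, 0 < D.ht γ → γ ≠ β j → D.ht (β j) ≤ D.ht γ → ∀ s, ρ (D.x γ s) f = f) ∧
      ∃ s, v (ρ (D.x (β j) s) f - f) = v f := by
    intro j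
    obtain ⟨hpos, w, h, h0, hU, hw, hpr⟩ := hβmem j
    refine exists_moved D ρ hρ v hvk hvinv (β j) hpos h ?_ hU w hw hpr
    rw [hv, Valuation.comap_apply]
    exact (Valuation.ne_zero_iff _).2 ((map_ne_zero_iff _ hinj).2 h0)
  choose f hf0 hfU s₀ hs₀ using hmoved
  obtain ⟨S₂, hS₂, -⟩ := ab_chain_ord V hk N S₁ (ν + n) hS₁
    (fun j => algebraMap A K (f j))
    (fun j => by
      have h1 := hf0 j
      rwa [hv, Valuation.comap_apply, Valuation.ne_zero_iff] at h1)
    (fun j => Set.range fun s : k => onK ρ (D.x (β j) s))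
    (by
      rintro j _ ⟨s, rfl⟩ x
      exact valuation_onK ρ V hV _ x)
    (by
      rintro j _ ⟨s, rfl⟩ x hx
      refine hfix₁ _ (fun x hx => hM0 x hx _ (D.x_mem _ (hβmem j).1 _)) (fun j' => ?_) x hx
      rw [onK_algebraMap, (he j').2.1 _ (hβmem j).1])
    (by
      rintro j j' hj _ ⟨s, rfl⟩
      change onK ρ _ _ = _
      rw [onK_algebraMap, hfU j' (β j) (hβmem j).1 (fun h => hj.ne (hβinj h).symm)
        (hβmono j' j hj.le)])
    (by
      intro j n'
      obtain ⟨s, hs⟩ := exists_many_up (ρ.comp (D.φ (β j))) (hρ.sl _) v hvk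
        (fun g a => hvinv _ a) (f j) (hf0 _) (s₀ j) (hs₀ j) n'
      refine ⟨fun i => onK ρ (D.x (β j) (s i)), fun i => ⟨s i, rfl⟩, ?_⟩
      intro i i' hii
      rw [onK_algebraMap, onK_algebraMap, ← map_sub]
      exact hs i i' hii)
  obtain ⟨a, d, had, ⟨x, -, hx⟩, z, -, hz⟩ := hS₂
  refine ⟨a, d, ?_, ⟨x, hx⟩, z, hz⟩
  rw [Pool.Agent.MP_b525bf_ag_R.trdeg_fractionRing]
  refine htr'.trans ?_
  refine (add_le_add_left htr _).trans ?_
  refine (add_le_add_left (add_le_add_left hν _) _).trans ?_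
  have h1 : a + d + 0 = ν + n + (D.Pos ρ).ncard := by
    rw [add_zero, had, hN, Set.ncard_eq_toFinset_card', Set.toFinset_card]
  rw [h1]
  push_cast
  exact le_rfl

end Pool.Agent.MP_b525bf_ag_SA
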