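import Pool.Agent.Lib.MP_b525bf_ag_SA.SLN
import Pool.Agent.Lib.MP_b525bf_ag_R.SPN

/-!
# C09: the average over the torus
-/

set_option autoImplicit false

namespace Pool.Agent.MP_b525bf_ag_SA

open scoped MatrixGroups

section Avg

variable {k A : Type} [Field k] {d : ℕ} [CommRing A] [Algebra k A]

/-- The degree of the monomial in the column `b`. -/
private def colD (α : Fin (d + 1) × Fin (d + 1) →₀ ℕ) (b : Fin (d + 1)) : ℕ := ∑ a, α (a, b)

/-- The value of the monomial. -/
private def monv (X : Matrix (Fin (d + 1)) (Fin (d + 1)) k)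
    (α : Fin (d + 1) × Fin (d + 1) →₀ ℕ) : k := ∏ c, X c.1 c.2 ^ α c

private theorem evn_eq (P : MvPolynomial (Fin (d + 1) × Fin (d + 1)) A)
    (X : Matrix (Fin (d + 1)) (Fin (d + 1)) k) :
    evn P X = ∑ α ∈ P.support, monv X α • P.coeff α := by
  rw [evn, MvPolynomial.eval_eq']
  refine Finset.sum_congr rfl fun α _ => ?_
  rw [monv, Algebra.smul_def, map_prod, mul_comm]
  simp only [map_pow]

private theorem monv_mul_diagonal (X : Matrix (Fin (d + 1)) (Fin (d + 1)) k)
    (c : Fin (d + 1) → k) (α : Fin (d + 1) × Fin (d + 1) →₀ ℕ) :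
    monv (X * Matrix.diagonal c) α = (∏ b, c b ^ colD α b) * monv X α := by
  unfold monv colD
  simp only [Matrix.mul_diagonal, mul_pow]
  rw [Finset.prod_mul_distrib, mul_comm]
  congr 1
  rw [Fintype.prod_prod_type_right]
  refine Finset.prod_congr rfl fun b _ => ?_
  exact Finset.prod_pow_eq_pow_sum Finset.univ (fun a => α (a, b)) (c b)

/-- The weight of the monomial. -/
private def lwt (α : Fin (d + 1) × Fin (d + 1) →₀ ℕ) (i : Fin d) : ℤ :=
  (colD α i.castSucc : ℤ) - (colD α i.succ : ℤ)

private theorem prod_ex_pow (t : Fin d → kˣ) (D : Fin (d + 1) → ℕ) :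
    ∏ b, ex t b ^ D b = ∏ i : Fin d, t i ^ ((D i.castSucc : ℤ) - (D i.succ : ℤ)) := by
  have h1 : ∏ a, (Fin.snoc (α := fun _ => kˣ) t 1 a : kˣ) ^ D a = ∏ i, t i ^ D i.castSucc := by
    rw [Fin.prod_univ_castSucc]
    simp
  have h2 : ∏ a, (Fin.cons (α := fun _ => kˣ) 1 t a : kˣ) ^ D a = ∏ i, t i ^ D i.succ := by
    rw [Fin.prod_univ_succ]
    simp
  simp only [ex, div_pow]
  rw [Finset.prod_div_distrib, h1, h2, ← Finset.prod_div_distrib]
  refine Finset.prod_congr rfl fun i _ => ?_
  rw [zpow_sub, zpow_natCast, zpow_natCast, div_eq_mul_inv]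

private theorem monv_mul_dgn (g : SL(d + 1, k)) (t : Fin d → kˣ)
    (α : Fin (d + 1) × Fin (d + 1) →₀ ℕ) :
    monv (g * dgn t).1 α = ((MP_b525bf_ag_R.chi (lwt α) t : kˣ) : k) * monv g.1 α := by
  change monv (g.1 * (dgn t).1) α = _
  rw [dgn_coe, monv_mul_diagonal]
  congr 1
  have h := congrArg (fun u : kˣ => (u : k)) (prod_ex_pow t (colD α))
  simp only [Units.coe_prod, Units.val_pow_eq_pow_val] at h
  rw [h, MP_b525bf_ag_R.chi, Units.coe_prod]
  rfl

private theorem lwt_eq_zero_iff (α : Fin (d + 1) × Fin (d + 1) →₀ ℕ) :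
    lwt α = 0 ↔ ∀ b, colD α b = colD α 0 := by
  constructor
  · intro h b
    induction b using Fin.induction with
    | zero => rfl
    | succ i ih =>
      have h1 := congrFun h i
      unfold lwt at h1
      rw [Pi.zero_apply] at h1
      omega
  · intro h
    funext i
    unfold lwt
    rw [h i.castSucc, h i.succ, sub_self]
    rfl

private theorem colD_le (P : MvPolynomial (Fin (d + 1) × Fin (d + 1)) A)
    {α : Fin (d + 1) × Fin (d + 1) →₀ ℕ} (hα : α ∈ P.support) (b : Fin (d + 1)) :
    colD α b ≤ P.totalDegree := by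
  refine le_trans ?_ (MvPolynomial.le_totalDegree hα)
  rw [Finsupp.sum_fintype _ _ (fun _ => rfl), Fintype.sum_prod_type_right]
  exact Finset.single_le_sum (f := fun b => ∑ a, α (a, b)) (fun _ _ => Nat.zero_le _)
    (Finset.mem_univ b)

open Classical in
/-- The part of `P` of degree `D` in every column. -/
private noncomputable def hompart (P : MvPolynomial (Fin (d + 1) × Fin (d + 1)) A) (D : ℕ) :
    MvPolynomial (Fin (d + 1) × Fin (d + 1)) A :=
  ∑ α ∈ P.support.filter (fun α => ∀ b, colD α b = D), MvPolynomial.monomial α (P.coeff α)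

private theorem evn_monomial (α : Fin (d + 1) × Fin (d + 1) →₀ ℕ) (a : A)
    (X : Matrix (Fin (d + 1)) (Fin (d + 1)) k) :
    evn (MvPolynomial.monomial α a) X = monv X α • a := by
  rw [evn, MvPolynomial.eval_monomial, Finsupp.prod_fintype _ _ (fun _ => pow_zero _), monv,
    Algebra.smul_def, map_prod, mul_comm]
  simp only [map_pow]

open Classical in
private theorem evn_hompart (P : MvPolynomial (Fin (d + 1) × Fin (d + 1)) A) (D : ℕ)
    (X : Matrix (Fin (d + 1)) (Fin (d + 1)) k) :
    evn (hompart P D) X =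
      ∑ α ∈ P.support, if (∀ b, colD α b = D) then monv X α • P.coeff α else 0 := by
  rw [evn, hompart, map_sum, Finset.sum_filter]
  refine Finset.sum_congr rfl fun α _ => ?_
  split_ifs with h
  · exact evn_monomial α _ X
  · rfl

end Avg

theorem exists_avg {k A : Type} [Field k] [Infinite k] {d : ℕ} [CommRing A] [Algebra k A]
    (P : MvPolynomial (Fin (d + 1) × Fin (d + 1)) A) :
    ∃ (N₀ : ℕ) (b : (Fin d → kˣ) →₀ k)
      (PD : ℕ → MvPolynomial (Fin (d + 1) × Fin (d + 1)) A),
      (b.sum fun _ c => c) = 1 ∧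
      (∀ g : SL(d + 1, k), (b.sum fun t c => c • evn P (g * dgn t).1) =
        ∑ D ∈ Finset.range (N₀ + 1), evn (PD D) g.1) ∧
      ∀ (D : ℕ) (X : Matrix (Fin (d + 1)) (Fin (d + 1)) k) (c : Fin (d + 1) → k),
        evn (PD D) (X * Matrix.diagonal c) = (∏ a, c a) ^ D • evn (PD D) X := by
  classical
  obtain ⟨b, hb⟩ := MP_b525bf_ag_R.exists_coeff_chi k (insert 0 (P.support.image lwt)) 0
  refine ⟨P.totalDegree, b, hompart P, ?_, ?_, ?_⟩
  · have h := hb 0 (Finset.mem_insert_self _ _)
    rw [if_pos rfl] at h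
    rw [← h]
    refine Finsupp.sum_congr fun t _ => ?_
    rw [MP_b525bf_ag_R.chi_zero, Units.val_one, mul_one]
  · intro g
    have h1 : ∀ t, evn P (g * dgn t).1 = ∑ α ∈ P.support,
        ((MP_b525bf_ag_R.chi (lwt α) t : kˣ) : k) • (monv g.1 α • P.coeff α) := by
      intro t
      rw [evn_eq]
      refine Finset.sum_congr rfl fun α _ => ?_
      rw [monv_mul_dgn, mul_smul]
    have h2 : (b.sum fun t c => c • evn P (g * dgn t).1) = ∑ α ∈ P.support,
        if lwt α = 0 then monv g.1 α • P.coeff α else 0 := by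
      unfold Finsupp.sum
      simp only [h1, Finset.smul_sum]
      rw [Finset.sum_comm]
      refine Finset.sum_congr rfl fun α hα => ?_
      have h3 := hb (lwt α) (Finset.mem_insert_of_mem (Finset.mem_image_of_mem _ hα))
      unfold Finsupp.sum at h3
      rw [Finset.sum_congr rfl fun t _ => (mul_smul (b t)
        ((MP_b525bf_ag_R.chi (lwt α) t : kˣ) : k) (monv g.1 α • P.coeff α)).symm,
        ← Finset.sum_smul, h3]
      split_ifs
      · rw [one_smul]
      · rw [zero_smul]
    rw [h2]
    simp only [evn_hompart]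
    rw [Finset.sum_comm]
    refine Finset.sum_congr rfl fun α hα => ?_
    split_ifs with h3
    · rw [lwt_eq_zero_iff] at h3
      rw [Finset.sum_eq_single (colD α 0)]
      · rw [if_pos h3]
      · intro D _ hD
        rw [if_neg]
        intro h4
        exact hD (h4 0).symm
      · intro h4
        exact absurd (Finset.mem_range.2 (Nat.lt_succ_of_le (colD_le P hα 0))) h4
    · symm
      refine Finset.sum_eq_zero fun D _ => ?_
      rw [if_neg]
      intro h4
      apply h3
      rw [lwt_eq_zero_iff]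
      intro b'
      rw [h4 b', h4 0]
  · intro D X c
    rw [evn_hompart, evn_hompart, Finset.smul_sum]
    refine Finset.sum_congr rfl fun α _ => ?_
    split_ifs with h
    · rw [monv_mul_diagonal, mul_smul]
      congr 1
      rw [← Finset.prod_pow]
      exact Finset.prod_congr rfl fun a _ => by rw [h a]
    · rw [smul_zero]

end Pool.Agent.MP_b525bf_ag_SA
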