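import Pool.Agent.Lib.MP_b525bf_ag_SA.SLN

/-!
# C16: two coefficients
-/

set_option autoImplicit false

namespace Pool.Agent.MP_b525bf_ag_SA

open scoped MatrixGroups

theorem choose_eq_zero (p : ℕ) [Fact p.Prime] (k : Type) [Field k] [CharP k p] (M e : ℕ)
    (hM : M + 1 = p ^ e) (j : ℕ) (h1 : M < j) (h2 : j ≤ 2 * M) : ((j.choose M : ℕ) : k) = 0 := by
  have h : ((Polynomial.X + 1 : Polynomial k) ^ j).coeff M = ((j.choose M : ℕ) : k) :=
    Polynomial.coeff_X_add_one_pow k j M
  rw [← h]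
  have e1 : j = p ^ e + (j - p ^ e) := by omega
  have e2 : (Polynomial.X + 1 : Polynomial k) ^ j =
      Polynomial.X ^ p ^ e * (Polynomial.X + 1) ^ (j - p ^ e) +
        (Polynomial.X + 1) ^ (j - p ^ e) := by
    conv_lhs => rw [e1]
    rw [pow_add, add_pow_char_pow, one_pow, add_mul, one_mul]
  rw [e2, Polynomial.coeff_add, Polynomial.coeff_X_pow_mul', if_neg (by omega), zero_add,
    Polynomial.coeff_X_add_one_pow, Nat.choose_eq_zero_of_lt (by omega), Nat.cast_zero]

theorem coeff_lo (p : ℕ) [Fact p.Prime] (k : Type) [Field k] [CharP k p] (M e : ℕ)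
    (hM : M + 1 = p ^ e) (j : ℕ) (h2 : j ≤ 2 * M) (m : k) :
    ((Polynomial.X + Polynomial.C m : Polynomial k) ^ j).coeff M = if j = M then 1 else 0 := by
  rw [Polynomial.coeff_X_add_C_pow]
  rcases lt_trichotomy j M with h | h | h
  · rw [Nat.choose_eq_zero_of_lt h, if_neg h.ne, Nat.cast_zero, mul_zero]
  · rw [if_pos h, h, Nat.sub_self, pow_zero, Nat.choose_self, Nat.cast_one, mul_one]
  · rw [if_neg h.ne', choose_eq_zero p k M e hM j h h2, mul_zero]

theorem coeff_up (p : ℕ) [Fact p.Prime] (k : Type) [Field k] [CharP k p] (M e : ℕ)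
    (hM : M + 1 = p ^ e) (j : ℕ) (h2 : j ≤ 2 * M) (m : k) :
    ((1 + Polynomial.C m * Polynomial.X : Polynomial k) ^ (2 * M - j) *
      Polynomial.X ^ j).coeff M = if j = M then 1 else 0 := by
  have hc : (1 + Polynomial.C m * Polynomial.X : Polynomial k) ^ (2 * M - j) =
      ((1 + Polynomial.X : Polynomial k) ^ (2 * M - j)).comp
        (Polynomial.C m * Polynomial.X) := by
    simp
  rw [Polynomial.coeff_mul_X_pow']
  rcases lt_trichotomy j M with h | h | h
  · rw [if_pos h.le, if_neg h.ne, hc, Polynomial.comp_C_mul_X_coeff,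
      Polynomial.coeff_one_add_X_pow]
    have e1 : (2 * M - j).choose (M - j) = (2 * M - j).choose M := by
      apply Nat.choose_symm_of_eq_add
      omega
    rw [e1, choose_eq_zero p k M e hM (2 * M - j) (by omega) (by omega), zero_mul]
  · rw [if_pos h.le, if_pos h, hc, Polynomial.comp_C_mul_X_coeff,
      Polynomial.coeff_one_add_X_pow, h, Nat.sub_self]
    simp
  · rw [if_neg (by omega), if_neg h.ne']

end Pool.Agent.MP_b525bf_ag_SA
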