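import Pool.Agent.Lib.MP_b525bf_ag_SA.MIN

/-!
# C06: the matrix `cc z`
-/

set_option autoImplicit false

namespace Pool.Agent.MP_b525bf_ag_SA

open scoped MatrixGroups

variable {S : Type} [CommRing S] {d : ℕ} (z : Matrix (Fin (d + 1)) (Fin (d + 1)) S)

theorem cc_lower (a b : Fin (d + 1)) (h : b < a) : cc z a b = 0 := by
  change (tr ((b : ℕ) + 1) z).adjugate a b = 0
  rw [Matrix.adjugate_apply]
  refine Matrix.det_zero_of_row_eq h.ne ?_
  rw [Matrix.updateRow_self, Matrix.updateRow_ne h.ne']
  funext c
  have ha : ¬ (a : ℕ) < (b : ℕ) + 1 := by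
    have h1 : (b : ℕ) < a := h
    omega
  rw [MIN.tr_apply_left z ha, Pi.single_apply]
  simp only [eq_comm]

theorem cc_diag (b : Fin (d + 1)) : cc z b b = lm b z := by
  change (tr ((b : ℕ) + 1) z).adjugate b b = lm b z
  rw [Matrix.adjugate_apply, lm]
  let U : Matrix (Fin (d + 1)) (Fin (d + 1)) S :=
    Matrix.of fun a c => if a = c then 1 else if c = b ∧ a < b then z a b else 0
  have hU : ∀ a c, U a c = if a = c then 1 else if c = b ∧ a < b then z a b else 0 :=
    fun _ _ => rfl
  have hdet : U.det = 1 := by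
    rw [Matrix.det_of_isUpperTriangular]
    · refine Finset.prod_eq_one fun a _ => ?_
      rw [hU, if_pos rfl]
    · intro a c hac
      have h1 : c < a := hac
      rw [hU, if_neg h1.ne', if_neg]
      rintro ⟨rfl, h2⟩
      exact absurd h1 (not_lt.2 h2.le)
  have hmul : (tr ((b : ℕ) + 1) z).updateRow b (Pi.single b 1) = U * tr (b : ℕ) z := by
    ext a c
    rw [Matrix.mul_apply]
    by_cases hab : a < b
    · -- the sum has the two terms `a` and `b`
      have hab' : (a : ℕ) < b := hab
      rw [Matrix.updateRow_ne hab.ne]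
      have h1 : ∀ e, U a e * tr (b : ℕ) z e c =
          (if e = a then tr (b : ℕ) z a c else 0) + if e = b then z a b * tr (b : ℕ) z b c else 0 := by
        intro e
        rw [hU]
        by_cases he : a = e
        · subst he
          rw [if_pos rfl, if_pos rfl, if_neg hab.ne, one_mul, add_zero]
        · rw [if_neg he, if_neg (Ne.symm he), zero_add]
          by_cases he2 : e = b
          · subst he2
            rw [if_pos ⟨rfl, hab⟩, if_pos rfl]
          · rw [if_neg (fun h => he2 h.1), if_neg he2, zero_mul]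
      rw [Finset.sum_congr rfl fun e _ => h1 e, Finset.sum_add_distrib,
        Finset.sum_ite_eq' Finset.univ a, Finset.sum_ite_eq' Finset.univ b,
        if_pos (Finset.mem_univ _), if_pos (Finset.mem_univ _),
        MIN.tr_apply_left z (a := b) (b := c) (lt_irrefl _)]
      by_cases hcb : (c : ℕ) < b
      · have h2 : b ≠ c := by
          intro h; rw [h] at hcb; exact lt_irrefl _ hcb
        rw [MIN.tr_apply_lt z (by omega) (by omega), MIN.tr_apply_lt z hab' hcb, if_neg h2,
          mul_zero, add_zero]
      · rw [MIN.tr_apply_right z (b := c) hcb]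
        have h3 : a ≠ c := by
          intro h; rw [← h] at hcb; exact hcb hab'
        rw [if_neg h3, zero_add]
        by_cases hbc : b = c
        · subst hbc
          rw [MIN.tr_apply_lt z (by omega) (by omega), if_pos rfl, mul_one]
        · have h4 : ¬ (c : ℕ) < (b : ℕ) + 1 := by
            have : (b : ℕ) ≠ c := fun h => hbc (Fin.ext h)
            omega
          rw [MIN.tr_apply_right z h4, if_neg h3, if_neg hbc, mul_zero]
    · -- the row of `U` is the row of the identity
      have hab' : ¬ (a : ℕ) < b := hab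
      rw [Finset.sum_eq_single a]
      · rw [hU, if_pos rfl, one_mul, MIN.tr_apply_left z hab']
        by_cases hba : a = b
        · subst hba
          rw [Matrix.updateRow_self, Pi.single_apply]
          simp only [eq_comm]
        · have h4 : ¬ (a : ℕ) < (b : ℕ) + 1 := by
            have : (a : ℕ) ≠ b := fun h => hba (Fin.ext h)
            omega
          rw [Matrix.updateRow_ne hba, MIN.tr_apply_left z h4]
      · intro e _ he
        rw [hU, if_neg (Ne.symm he), if_neg (fun h => hab h.2), zero_mul]
      · intro h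
        exact absurd (Finset.mem_univ _) h
  rw [hmul, Matrix.det_mul, hdet, one_mul]

theorem CCL.mul_cc (a b : Fin (d + 1)) (h : a ≤ b) :
    (z * cc z) a b = (lm ((b : ℕ) + 1) z) * (1 : Matrix (Fin (d + 1)) (Fin (d + 1)) S) a b := by
  have hab : (a : ℕ) ≤ b := h
  have h1 : (z * cc z) a b = (tr ((b : ℕ) + 1) z * (tr ((b : ℕ) + 1) z).adjugate) a b := by
    rw [Matrix.mul_apply, Matrix.mul_apply]
    refine Finset.sum_congr rfl fun c _ => ?_
    have h2 : (tr ((b : ℕ) + 1) z).adjugate c b = cc z c b := rfl
    rw [h2]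
    by_cases hc : (c : ℕ) < (b : ℕ) + 1
    · rw [MIN.tr_apply_lt z (by omega) hc]
    · rw [cc_lower z c b (by rw [Fin.lt_def]; omega), mul_zero, mul_zero]
  rw [h1, Matrix.mul_adjugate, Matrix.smul_apply, smul_eq_mul, lm]

theorem mul_cc_upper (a b : Fin (d + 1)) (h : a < b) : (z * cc z) a b = 0 := by
  rw [CCL.mul_cc z a b h.le, Matrix.one_apply_ne h.ne, mul_zero]

theorem mul_cc_diag (b : Fin (d + 1)) : (z * cc z) b b = lm ((b : ℕ) + 1) z := by
  rw [CCL.mul_cc z b b le_rfl, Matrix.one_apply_eq, mul_one]

end Pool.Agent.MP_b525bf_ag_SA
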