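import Pool.Agent.Lib.MP_b525bf_ag_SA.EMB

/-!
# Coordinates on the lower unitriangular matrices adapted to a simple root: definitions
-/

set_option autoImplicit false

namespace Pool.Agent.MP_b525bf_ag_SA

open scoped MatrixGroups

variable {k : Type} [Field k] {d : ℕ}

/-- The position of the simple root number `i`. -/
def vI (i : Fin d) : Lw d := ⟨(i.succ, i.castSucc), Fin.castSucc_lt_succ⟩

/-- The coordinates of `um s' * xr i.succ i.castSucc (s (vI i))`, `s' = s` with entry `0` at
`vI i`. -/
def th (i : Fin d) (s : Lw d → k) : Lw d → k := fun c =>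
  s c + if h : c.1.2 = i.castSucc ∧ i.succ < c.1.1 then s (vI i) * s ⟨(c.1.1, i.succ), h.2⟩ else 0

/-- The coordinates of the conjugate of `um s'` by `xr i.succ i.castSucc m` (outside of `vI i`). -/
def lw (i : Fin d) (m : k) (s : Lw d → k) : Lw d → k := fun c =>
  s c + if h : c.1.1 = i.succ ∧ c.1.2 < i.castSucc then m * s ⟨(i.castSucc, c.1.2), h.2⟩ else
    if h : c.1.2 = i.castSucc ∧ i.succ < c.1.1 then -(m * s ⟨(c.1.1, i.succ), h.2⟩) else 0

/-- The coordinates of the conjugate of `um s'` by `xr i.castSucc i.succ m` (outside of `vI i`). -/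
def uw (i : Fin d) (m : k) (s : Lw d → k) : Lw d → k := fun c =>
  s c + if h : c.1.1 = i.castSucc then
    m * s ⟨(i.succ, c.1.2), (c.2.trans_eq h).trans Fin.castSucc_lt_succ⟩ else
    if h : c.1.2 = i.succ then
      -(m * s ⟨(c.1.1, i.castSucc), (Fin.castSucc_lt_succ.trans_eq h.symm).trans c.2⟩) else 0

end Pool.Agent.MP_b525bf_ag_SA
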