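import Pool.Agent.Lib.MP_b525bf_ag_SA.CDF

/-!
# C17: coordinates on the lower unitriangular matrices: matrix identities

RECIPE. Entrywise (`Subtype.ext`, `Matrix.ext`; `xr_coe`, `um_apply`; multiplication with `1 + s
E_ab` from the right adds `s` times column `a` to column `b`, from the left adds `s` times row `b`
to row `a`: `Matrix.mul_apply`/`Matrix.single_mul_apply_same` ...). `s' = Function.update s (vI i)
0`. For `um_lw`: row `i.succ` of `um s'` gets `m` times row `i.castSucc` added, then column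
`i.castSucc` gets `- m` times column `i.succ`; at `(i.succ, i.castSucc)`: `0 + m - m = 0`.
`um_uw`: row `i.castSucc` gets `m` times row `i.succ`, column `i.succ` gets `- m` times column
`i.castSucc`; at `(i.castSucc, i.succ)`: `0 + m - m = 0`, the diagonal entries stay `1` because the
entry at `vI i` is `0`.
-/

set_option autoImplicit false

namespace Pool.Agent.MP_b525bf_ag_SA

open scoped MatrixGroups

variable {k : Type} [Field k] {d : ℕ}

private theorem cn1_mul_xr (X : Matrix (Fin (d + 1)) (Fin (d + 1)) k) {p q : Fin (d + 1)}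
    (h : p ≠ q) (m : k) (a b : Fin (d + 1)) :
    (X * (xr p q m).1) a b = X a b + if b = q then X a p * m else 0 := by
  rw [xr_coe h, mul_add, mul_one, Matrix.add_apply]
  congr 1
  split_ifs with hb
  · subst hb
    rw [Matrix.mul_single_apply_same]
  · rw [Matrix.mul_single_apply_of_ne _ _ _ _ _ hb]

private theorem cn1_xr_mul (X : Matrix (Fin (d + 1)) (Fin (d + 1)) k) {p q : Fin (d + 1)}
    (h : p ≠ q) (m : k) (a b : Fin (d + 1)) :
    ((xr p q m).1 * X) a b = X a b + if a = p then m * X q b else 0 := by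
  rw [xr_coe h, add_mul, one_mul, Matrix.add_apply]
  congr 1
  split_ifs with hb
  · subst hb
    rw [Matrix.single_mul_apply_same]
  · rw [Matrix.single_mul_apply_of_ne _ _ _ _ _ hb]

private theorem cn1_lt (s : Lw d → k) {a b : Fin (d + 1)} (h : b < a) :
    (um s).1 a b = s ⟨(a, b), h⟩ := by
  rw [um_apply, dif_pos h]

private theorem cn1_gt (s : Lw d → k) {a b : Fin (d + 1)} (h : a < b) :
    (um s).1 a b = 0 := by
  rw [um_apply, dif_neg h.not_gt, if_neg h.ne]

private theorem cn1_diag (s : Lw d → k) (a : Fin (d + 1)) : (um s).1 a a = 1 := by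
  rw [um_apply, dif_neg (lt_irrefl a), if_pos rfl]

private theorem cn1_ne {i : Fin d} {s : Lw d → k} {a b : Fin (d + 1)} {h : b < a}
    (hn : a = i.succ → b ≠ i.castSucc) :
    Function.update s (vI i) 0 ⟨(a, b), h⟩ = s ⟨(a, b), h⟩ := by
  refine Function.update_of_ne (fun h1 => ?_) _ _
  have h2 := congrArg Subtype.val h1
  exact hn (congrArg Prod.fst h2) (congrArg Prod.snd h2)

private theorem cn1_vI {i : Fin d} {s : Lw d → k} {h : i.castSucc < i.succ} :
    Function.update s (vI i) 0 ⟨(i.succ, i.castSucc), h⟩ = 0 :=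
  Function.update_self _ _ _

private theorem cn1_le {i : Fin d} {a : Fin (d + 1)} (h : a < i.succ) (h' : a ≠ i.castSucc) :
    a < i.castSucc := lt_of_le_of_ne (Fin.le_castSucc_iff.2 h) h'

private theorem cn1_ge {i : Fin d} {a : Fin (d + 1)} (h : i.castSucc < a) (h' : a ≠ i.succ) :
    i.succ < a := lt_of_le_of_ne (Fin.castSucc_lt_iff_succ_le.1 h) h'.symm

theorem um_th (i : Fin d) (s : Lw d → k) :
    um (Function.update s (vI i) 0) * xr i.succ i.castSucc (s (vI i)) = um (th i s) := by
  have hi : i.castSucc < i.succ := Fin.castSucc_lt_succ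
  refine Subtype.ext ?_
  ext a b
  refine (cn1_mul_xr _ hi.ne' _ a b).trans ?_
  by_cases hb : b = i.castSucc
  · subst hb
    rw [if_pos rfl]
    rcases lt_trichotomy a i.succ with ha | ha | ha
    · rw [cn1_gt _ ha, zero_mul, add_zero]
      by_cases ha' : a = i.castSucc
      · subst ha'
        rw [cn1_diag, cn1_diag]
      · rw [cn1_gt _ (cn1_le ha ha'), cn1_gt _ (cn1_le ha ha')]
    · subst ha
      rw [cn1_diag, cn1_lt _ hi, cn1_lt _ hi, cn1_vI, th, dif_neg fun h => lt_irrefl _ h.2]
      rw [zero_add, one_mul, add_zero]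
      rfl
    · rw [cn1_lt _ ha, cn1_lt _ (hi.trans ha), cn1_lt _ (hi.trans ha), cn1_ne fun h => absurd h ha.ne',
        cn1_ne fun h => absurd h ha.ne', th, dif_pos ⟨rfl, ha⟩, mul_comm]
  · rw [if_neg hb, add_zero]
    rcases lt_trichotomy a b with ha | ha | ha
    · rw [cn1_gt _ ha, cn1_gt _ ha]
    · subst ha
      rw [cn1_diag, cn1_diag]
    · rw [cn1_lt _ ha, cn1_lt _ ha, cn1_ne fun _ => hb, th, dif_neg fun h => hb h.1, add_zero]

theorem um_lw (i : Fin d) (m : k) (s : Lw d → k) :
    xr i.succ i.castSucc m * um (Function.update s (vI i) 0) * xr i.succ i.castSucc (-m) =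
      um (Function.update (lw i m s) (vI i) 0) := by
  have hi : i.castSucc < i.succ := Fin.castSucc_lt_succ
  refine Subtype.ext ?_
  ext a b
  refine (cn1_mul_xr _ hi.ne' _ a b).trans ?_
  have h1 : ∀ a b, (xr i.succ i.castSucc m * um (Function.update s (vI i) 0)).1 a b = _ :=
    cn1_xr_mul _ hi.ne' m
  rw [h1, h1]
  by_cases ha : a = i.succ
  · subst ha
    rw [if_pos rfl, if_pos rfl]
    by_cases hb : b = i.castSucc
    · subst hb
      rw [if_pos rfl, cn1_lt _ hi, cn1_lt _ hi, cn1_vI, cn1_vI, cn1_diag, cn1_diag, cn1_gt _ hi]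
      ring
    · rw [if_neg hb, add_zero]
      rcases lt_trichotomy b i.succ with h2 | h2 | h2
      · have h3 := cn1_le h2 hb
        rw [cn1_lt _ h2, cn1_lt _ h2, cn1_lt _ h3, cn1_ne fun _ => hb, cn1_ne fun _ => hb,
          cn1_ne fun _ => hb, lw, dif_pos ⟨rfl, h3⟩]
      · subst h2
        rw [cn1_diag, cn1_diag, cn1_gt _ hi, mul_zero, add_zero]
      · rw [cn1_gt _ h2, cn1_gt _ h2, cn1_gt _ (hi.trans h2), mul_zero, add_zero]
  · rw [if_neg ha, if_neg ha, add_zero, add_zero]
    by_cases hb : b = i.castSucc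
    · subst hb
      rw [if_pos rfl]
      rcases lt_trichotomy a i.castSucc with h2 | h2 | h2
      · rw [cn1_gt _ h2, cn1_gt _ h2, cn1_gt _ (h2.trans hi), zero_mul, add_zero]
      · subst h2
        rw [cn1_diag, cn1_diag, cn1_gt _ hi, zero_mul, add_zero]
      · have h3 := cn1_ge h2 ha
        rw [cn1_lt _ h2, cn1_lt _ h2, cn1_lt _ h3, cn1_ne fun h => absurd h ha,
          cn1_ne fun h => absurd h ha, cn1_ne fun h => absurd h ha, lw, dif_neg fun h => ha h.1,
          dif_pos ⟨rfl, h3⟩]
        ring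
    · rw [if_neg hb, add_zero]
      rcases lt_trichotomy a b with h2 | h2 | h2
      · rw [cn1_gt _ h2, cn1_gt _ h2]
      · subst h2
        rw [cn1_diag, cn1_diag]
      · rw [cn1_lt _ h2, cn1_lt _ h2, cn1_ne fun _ => hb, cn1_ne fun _ => hb, lw,
          dif_neg fun h => ha h.1, dif_neg fun h => hb h.1, add_zero]

theorem um_uw (i : Fin d) (m : k) (s : Lw d → k) :
    xr i.castSucc i.succ m * um (Function.update s (vI i) 0) * xr i.castSucc i.succ (-m) =
      um (Function.update (uw i m s) (vI i) 0) := by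
  have hi : i.castSucc < i.succ := Fin.castSucc_lt_succ
  refine Subtype.ext ?_
  ext a b
  refine (cn1_mul_xr _ hi.ne _ a b).trans ?_
  have h1 : ∀ a b, (xr i.castSucc i.succ m * um (Function.update s (vI i) 0)).1 a b = _ :=
    cn1_xr_mul _ hi.ne m
  rw [h1, h1]
  have h0 : (um (Function.update s (vI i) 0)).1 i.succ i.castSucc = 0 := by
    rw [cn1_lt _ hi, cn1_vI]
  by_cases ha : a = i.castSucc
  · subst ha
    rw [if_pos rfl, if_pos rfl, h0]
    by_cases hb : b = i.succ
    · subst hb
      rw [if_pos rfl, cn1_diag, cn1_diag, cn1_gt _ hi, cn1_gt _ hi]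
      ring
    · rw [if_neg hb, add_zero]
      rcases lt_trichotomy b i.castSucc with h2 | h2 | h2
      · rw [cn1_lt _ h2, cn1_lt _ h2, cn1_lt _ (h2.trans hi), cn1_ne fun _ => h2.ne,
          cn1_ne fun _ => h2.ne, cn1_ne fun _ => h2.ne, uw, dif_pos rfl]
      · subst h2
        rw [cn1_diag, cn1_diag, h0, mul_zero, add_zero]
      · rw [cn1_gt _ h2, cn1_gt _ h2, cn1_gt _ (cn1_ge h2 hb), mul_zero, add_zero]
  · rw [if_neg ha, if_neg ha, add_zero, add_zero]
    by_cases hb : b = i.succ
    · subst hb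
      rw [if_pos rfl]
      rcases lt_trichotomy a i.succ with h2 | h2 | h2
      · rw [cn1_gt _ h2, cn1_gt _ h2, cn1_gt _ (cn1_le h2 ha), zero_mul, add_zero]
      · subst h2
        rw [cn1_diag, cn1_diag, h0, zero_mul, add_zero]
      · rw [cn1_lt _ h2, cn1_lt _ h2, cn1_lt _ (hi.trans h2), cn1_ne fun h => absurd h h2.ne',
          cn1_ne fun h => absurd h h2.ne', cn1_ne fun h => absurd h h2.ne', uw, dif_neg ha,
          dif_pos rfl]
        ring
    · rw [if_neg hb, add_zero]
      rcases lt_trichotomy a b with h2 | h2 | h2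
      · rw [cn1_gt _ h2, cn1_gt _ h2]
      · subst h2
        rw [cn1_diag, cn1_diag]
      · rw [cn1_lt _ h2, cn1_lt _ h2]
        by_cases h4 : a = i.succ ∧ b = i.castSucc
        · obtain ⟨rfl, rfl⟩ := h4
          rw [cn1_vI, cn1_vI]
        · have h5 : a = i.succ → b ≠ i.castSucc := fun h6 h7 => h4 ⟨h6, h7⟩
          rw [cn1_ne h5, cn1_ne h5, uw, dif_neg ha, dif_neg hb, add_zero]

end Pool.Agent.MP_b525bf_ag_SA
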