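import Pool.Agent.Lib.MP_b525bf_ag_SA.SLN

/-!
# C01: substitutions which do not change the coefficient of the top monomial
-/

set_option autoImplicit false

namespace Pool.Agent.MP_b525bf_ag_SA

open scoped MatrixGroups

/-- The ideal of the polynomials all of whose monomials have an exponent `≥ q`. -/
noncomputable def TOP.idl (σ A : Type) [CommRing A] (q : ℕ) : Ideal (MvPolynomial σ A) :=
  Ideal.span ((fun s => MvPolynomial.monomial s (1 : A)) ''
    (Set.range fun c : σ => Finsupp.single c q))

theorem TOP.topE_apply (σ : Type) [Fintype σ] (M : ℕ) (c : σ) : topE σ M c = M := rfl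

theorem TOP.coeff_eq_zero {σ A : Type} [Fintype σ] [CommRing A] {M q : ℕ} (h : M < q)
    {P : MvPolynomial σ A} (hP : P ∈ TOP.idl σ A q) : P.coeff (topE σ M) = 0 := by
  classical
  by_contra hne
  obtain ⟨s, ⟨c, rfl⟩, hs⟩ :=
    MvPolynomial.mem_ideal_span_monomial_image.1 hP _ (MvPolynomial.mem_support_iff.2 hne)
  have h1 := hs c
  rw [TOP.topE_apply] at h1
  simp only [Finsupp.single_eq_same] at h1
  omega

theorem TOP.pow_mem (p : ℕ) [Fact p.Prime] {σ A : Type} [CommRing A] [CharP A p] (e : ℕ)
    {Q : MvPolynomial σ A} (hQ : MvPolynomial.constantCoeff Q = 0) :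
    Q ^ p ^ e ∈ TOP.idl σ A (p ^ e) := by
  classical
  have h1 : Q ∈ TOP.idl σ A 1 := by
    refine MvPolynomial.mem_ideal_span_monomial_image.2 fun m hm => ?_
    have hm0 : m ≠ 0 := by
      rintro rfl
      rw [MvPolynomial.mem_support_iff] at hm
      exact hm hQ
    obtain ⟨c, hc⟩ := Finsupp.ne_iff.1 hm0
    refine ⟨Finsupp.single c 1, ⟨c, rfl⟩, ?_⟩
    rw [Finsupp.single_le_iff]
    rw [Finsupp.zero_apply] at hc
    omega
  have h2 := Ideal.mem_map_of_mem (iterateFrobenius (MvPolynomial σ A) p e) h1
  rw [iterateFrobenius_def] at h2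
  refine (Ideal.map_le_iff_le_comap.2 ?_ : Ideal.map (iterateFrobenius (MvPolynomial σ A) p e)
    (TOP.idl σ A 1) ≤ TOP.idl σ A (p ^ e)) h2
  rw [TOP.idl, Ideal.span_le]
  rintro _ ⟨_, ⟨c, rfl⟩, rfl⟩
  change iterateFrobenius (MvPolynomial σ A) p e (MvPolynomial.monomial (Finsupp.single c 1) 1) ∈
    TOP.idl σ A (p ^ e)
  rw [iterateFrobenius_def, MvPolynomial.monomial_pow]
  refine Ideal.subset_span ⟨Finsupp.single c (p ^ e), ⟨c, rfl⟩, ?_⟩
  simp

theorem TOP.X_pow_mem {σ A : Type} [CommRing A] (c : σ) (q : ℕ) :
    (MvPolynomial.X c : MvPolynomial σ A) ^ q ∈ TOP.idl σ A q := by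
  rw [MvPolynomial.X_pow_eq_monomial]
  exact Ideal.subset_span ⟨Finsupp.single c q, ⟨c, rfl⟩, rfl⟩

theorem TOP.coeff_of_degreeOf {σ A : Type} [Fintype σ] [CommRing A] {M : ℕ}
    {P : MvPolynomial σ A} {v : σ} (h : MvPolynomial.degreeOf v P < M) :
    P.coeff (topE σ M) = 0 := by
  classical
  by_contra hne
  have h1 := MvPolynomial.monomial_le_degreeOf v (MvPolynomial.mem_support_iff.2 hne)
  rw [TOP.topE_apply] at h1
  omega

theorem TOP.single (p : ℕ) [Fact p.Prime] {σ A : Type} [Fintype σ] [DecidableEq σ]
    [CommRing A] [CharP A p] (M e : ℕ) (hM : M + 1 = p ^ e) (v : σ)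
    (Q : MvPolynomial σ A) (hQ0 : MvPolynomial.constantCoeff Q = 0)
    (hQv : v ∉ Q.vars) (P : MvPolynomial σ A) :
    (MvPolynomial.aeval (fun w => if w = v then MvPolynomial.X v + Q else MvPolynomial.X w) P :
      MvPolynomial σ A).coeff (topE σ M) = P.coeff (topE σ M) := by
  induction P using MvPolynomial.induction_on' with
  | add P1 P2 h1 h2 => rw [map_add, MvPolynomial.coeff_add, MvPolynomial.coeff_add, h1, h2]
  | monomial u a =>
    rw [MvPolynomial.aeval_monomial, MvPolynomial.algebraMap_eq, MvPolynomial.coeff_C_mul,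
      Finsupp.prod_fintype _ _ (fun i => pow_zero _)]
    by_cases hA : ∃ c, M + 1 ≤ u c
    · obtain ⟨c, hc⟩ := hA
      have hne : u ≠ topE σ M := by
        rintro rfl
        rw [TOP.topE_apply] at hc
        omega
      rw [MvPolynomial.coeff_monomial, if_neg hne, ← Finset.mul_prod_erase _ _ (Finset.mem_univ c)]
      rw [TOP.coeff_eq_zero (q := M + 1) (by omega), mul_zero]
      refine Ideal.mul_mem_right _ _ ?_
      obtain ⟨j, hj⟩ := Nat.exists_eq_add_of_le hc
      rw [hj, pow_add]
      refine Ideal.mul_mem_right _ _ ?_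
      by_cases hcv : c = v
      · rw [if_pos hcv, hM, add_pow_char_pow]
        exact Ideal.add_mem _ (TOP.X_pow_mem v _) (TOP.pow_mem p e hQ0)
      · rw [if_neg hcv]
        exact TOP.X_pow_mem c _
    · simp only [not_exists, not_le] at hA
      have hv := hA v
      have hprod : (∏ i, (if i = v then MvPolynomial.X v + Q else MvPolynomial.X i) ^ u i :
          MvPolynomial σ A) = (MvPolynomial.X v + Q) ^ u v *
            MvPolynomial.monomial (u.erase v) 1 := by
        rw [← Finset.mul_prod_erase _ _ (Finset.mem_univ v), if_pos rfl]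
        congr 1
        rw [MvPolynomial.monomial_eq, map_one, one_mul, Finsupp.prod_fintype _ _
          (fun i => pow_zero _), ← Finset.mul_prod_erase _ _ (Finset.mem_univ v),
          Finsupp.erase_same, pow_zero, one_mul]
        refine Finset.prod_congr rfl fun i hi => ?_
        have hiv := Finset.ne_of_mem_erase hi
        rw [if_neg hiv, Finsupp.erase_ne hiv]
      have hdQ : MvPolynomial.degreeOf v Q = 0 := by
        by_contra h
        exact hQv (MvPolynomial.mem_vars_iff_degreeOf_ne_zero.2 h)
      have hdR : MvPolynomial.degreeOf v (MvPolynomial.monomial (u.erase v) (1 : A)) = 0 := by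
        refine Nat.le_zero.1 ?_
        rw [MvPolynomial.degreeOf_le_iff]
        intro m hm
        have h1 := MvPolynomial.support_monomial_subset hm
        rw [Finset.mem_singleton] at h1
        rw [h1, Finsupp.erase_same]
      have hterm : ∀ i, i < M → ∀ j n : ℕ,
          ((MvPolynomial.X v ^ i * Q ^ j * (n : MvPolynomial σ A)) *
            MvPolynomial.monomial (u.erase v) 1).coeff (topE σ M) = 0 := by
        intro i hi j n
        refine TOP.coeff_of_degreeOf (v := v) (lt_of_le_of_lt ?_ hi)
        have h1 : MvPolynomial.degreeOf v (MvPolynomial.X v ^ i : MvPolynomial σ A) ≤ i := by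
          rw [MvPolynomial.X_pow_eq_monomial, MvPolynomial.degreeOf_le_iff]
          intro m hm
          have h1 := MvPolynomial.support_monomial_subset hm
          rw [Finset.mem_singleton] at h1
          rw [h1, Finsupp.single_eq_same]
        have h2 : MvPolynomial.degreeOf v (Q ^ j) ≤ 0 := by
          refine (MvPolynomial.degreeOf_pow_le v Q j).trans ?_
          rw [hdQ, mul_zero]
        have h3 : MvPolynomial.degreeOf v (n : MvPolynomial σ A) = 0 := by
          rw [← map_natCast (MvPolynomial.C (σ := σ) (R := A)) n, MvPolynomial.degreeOf_C]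
        calc MvPolynomial.degreeOf v ((MvPolynomial.X v ^ i * Q ^ j * (n : MvPolynomial σ A)) *
            MvPolynomial.monomial (u.erase v) 1)
            ≤ MvPolynomial.degreeOf v (MvPolynomial.X v ^ i * Q ^ j * (n : MvPolynomial σ A)) +
              MvPolynomial.degreeOf v (MvPolynomial.monomial (u.erase v) (1 : A)) :=
              MvPolynomial.degreeOf_mul_le _ _ _
          _ ≤ (MvPolynomial.degreeOf v (MvPolynomial.X v ^ i * Q ^ j) +
                MvPolynomial.degreeOf v (n : MvPolynomial σ A)) +
              MvPolynomial.degreeOf v (MvPolynomial.monomial (u.erase v) (1 : A)) :=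
              Nat.add_le_add_right (MvPolynomial.degreeOf_mul_le _ _ _) _
          _ ≤ ((MvPolynomial.degreeOf v (MvPolynomial.X v ^ i : MvPolynomial σ A) +
                MvPolynomial.degreeOf v (Q ^ j)) +
                MvPolynomial.degreeOf v (n : MvPolynomial σ A)) +
              MvPolynomial.degreeOf v (MvPolynomial.monomial (u.erase v) (1 : A)) :=
              Nat.add_le_add_right (Nat.add_le_add_right (MvPolynomial.degreeOf_mul_le _ _ _) _) _
          _ ≤ i := by rw [h3, hdR]; omega
      rw [hprod, add_pow, Finset.sum_mul, MvPolynomial.coeff_sum, Finset.sum_range_succ,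
        Finset.sum_eq_zero (fun i hi => hterm i (by rw [Finset.mem_range] at hi; omega) _ _),
        zero_add, Nat.sub_self, pow_zero, mul_one, Nat.choose_self, Nat.cast_one, mul_one]
      have hmon : (MvPolynomial.X v ^ u v * MvPolynomial.monomial (u.erase v) 1 :
          MvPolynomial σ A) = MvPolynomial.monomial u 1 := by
        rw [MvPolynomial.X_pow_eq_monomial, MvPolynomial.monomial_mul, one_mul,
          Finsupp.single_add_erase]
      rw [hmon, MvPolynomial.coeff_monomial, MvPolynomial.coeff_monomial]
      split_ifs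
      · rw [mul_one]
      · rw [mul_zero]

theorem coeff_topE_subst (p : ℕ) [Fact p.Prime] {σ A : Type} [Fintype σ] [DecidableEq σ]
    [CommRing A] [CharP A p] (M e : ℕ) (hM : M + 1 = p ^ e) (V : Finset σ)
    (Q : σ → MvPolynomial σ A) (hQ0 : ∀ v ∈ V, MvPolynomial.constantCoeff (Q v) = 0)
    (hQV : ∀ v ∈ V, ∀ w ∈ V, w ∉ (Q v).vars) (P : MvPolynomial σ A) :
    (MvPolynomial.aeval (fun v => if v ∈ V then MvPolynomial.X v + Q v else MvPolynomial.X v) P :
      MvPolynomial σ A).coeff (topE σ M) = P.coeff (topE σ M) := by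
  induction V using Finset.induction_on generalizing P with
  | empty =>
    have h : (fun v : σ => if v ∈ (∅ : Finset σ) then MvPolynomial.X v + Q v
        else MvPolynomial.X v) = (MvPolynomial.X : σ → MvPolynomial σ A) := by
      funext v
      rw [if_neg (Finset.notMem_empty v)]
    rw [h, MvPolynomial.aeval_X_left_apply]
  | insert v V hv ih =>
    have ih' := ih (fun w hw => hQ0 w (Finset.mem_insert_of_mem hw))
      (fun w hw w' hw' => hQV w (Finset.mem_insert_of_mem hw) w' (Finset.mem_insert_of_mem hw')) P
    rw [← ih', ← TOP.single p M e hM v (Q v) (hQ0 v (Finset.mem_insert_self v V))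
      (hQV v (Finset.mem_insert_self v V) v (Finset.mem_insert_self v V))
      (MvPolynomial.aeval (fun v => if v ∈ V then MvPolynomial.X v + Q v
        else MvPolynomial.X v) P)]
    congr 1
    rw [← AlgHom.comp_apply, MvPolynomial.comp_aeval]
    congr 2
    funext w
    by_cases hwV : w ∈ V
    · have hwv : w ≠ v := fun h => hv (h ▸ hwV)
      rw [if_pos (Finset.mem_insert_of_mem hwV), if_pos hwV, map_add, MvPolynomial.aeval_X,
        if_neg hwv]
      congr 1
      -- `Q w` does not contain `X v`
      have hvw : v ∉ (Q w).vars :=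
        hQV w (Finset.mem_insert_of_mem hwV) v (Finset.mem_insert_self v V)
      have h1 : ((MvPolynomial.aeval (fun w => if w = v then MvPolynomial.X v + Q v
          else MvPolynomial.X w) : MvPolynomial σ A →ₐ[A] MvPolynomial σ A) : MvPolynomial σ A →+*
            MvPolynomial σ A) (Q w) = (RingHom.id _) (Q w) := by
        refine MvPolynomial.hom_congr_vars ?_ ?_ rfl
        · ext a
          simp
        · intro i hi _
          have hiv : i ≠ v := fun h => hvw (h ▸ hi)
          simp [hiv]
      exact h1.symm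
    · by_cases hwv : w = v
      · subst hwv
        rw [if_pos (Finset.mem_insert_self w V), if_neg hwV, MvPolynomial.aeval_X, if_pos rfl]
      · rw [if_neg (by rw [Finset.mem_insert, not_or]; exact ⟨hwv, hwV⟩), if_neg hwV,
          MvPolynomial.aeval_X, if_neg hwv]

end Pool.Agent.MP_b525bf_ag_SA
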