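import Pool.Agent.Lib.MP_b525bf_ag_SA.SLN
import Pool.Agent.Lib.MP_b525bf_ag_R.SPN

/-!
# C02: the combination of points which picks the top coefficient

RECIPE. `eq_of_evk`: `A` is a `k`-vector space, the functions `s ↦ ∏ v, s v ^ α v` are linearly
independent over `k` (Mathlib: `MvPolynomial.funext` for the infinite field `k`), so
`Pool.Agent.MP_b525bf_ag_R.exists_coeff` gives for each exponent `α` in `P.support ∪ Q.support` a
combination of points which picks the coefficient of `α` (`sum_smul_eq_coeff`). `exists_isTop`: the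
set of the `α` with `α.degree ≤ D` is finite; `exists_coeff` with the finset of these `α` and
`topE σ M`. `sum_evk`: expand `P` as the sum of its monomials (`MvPolynomial.eval_eq`,
`Finset.sum_comm`); `α ∈ P.support` has `α.degree ≤ P.totalDegree` (`MvPolynomial.le_totalDegree`).
`evk_res`, `totalDegree_res`: `MvPolynomial.induction_on`, or `MvPolynomial.aeval_def`,
`eval₂_eq`; the degree by `MvPolynomial.totalDegree_finset_sum`, `totalDegree_mul_le`,
`totalDegree_pow`; `tau_eq` from these.
-/

set_option autoImplicit false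

namespace Pool.Agent.MP_b525bf_ag_SA

open scoped MatrixGroups

private theorem tpb_pick {k σ : Type} [Field k] [Infinite k] [Fintype σ] [DecidableEq σ]
    (S : Finset (σ →₀ ℕ)) (j : σ →₀ ℕ) :
    ∃ b : (σ → k) →₀ k, ∀ α ∈ S,
      (b.sum fun s c => c * ∏ v, s v ^ α v) = if α = j then 1 else 0 := by
  have hind : LinearIndependent k
      (fun i : ↥(insert j S) => (fun s : σ → k => ∏ v, s v ^ (i : σ →₀ ℕ) v)) := by
    rw [linearIndependent_iff']
    intro t g hg i hi
    have h1 : (∑ a ∈ t, MvPolynomial.monomial (a : σ →₀ ℕ) (g a) : MvPolynomial σ k) = 0 := by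
      refine MvPolynomial.funext fun x => ?_
      have h2 := congrFun hg x
      rw [Finset.sum_apply] at h2
      rw [map_sum, map_zero]
      refine Eq.trans (Finset.sum_congr rfl fun a _ => ?_) h2
      rw [MvPolynomial.eval_monomial, Finsupp.prod_fintype _ _ fun _ => pow_zero _]
      rfl
    have h3 := congrArg (MvPolynomial.coeff (i : σ →₀ ℕ)) h1
    rw [MvPolynomial.coeff_sum, MvPolynomial.coeff_zero, Finset.sum_eq_single i] at h3
    · rwa [MvPolynomial.coeff_monomial, if_pos rfl] at h3
    · intro a _ hai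
      rw [MvPolynomial.coeff_monomial, if_neg fun h => hai (Subtype.ext h)]
    · intro h
      exact absurd hi h
  obtain ⟨b, hb⟩ := Pool.Agent.MP_b525bf_ag_R.exists_coeff
    (fun (α : σ →₀ ℕ) (s : σ → k) => ∏ v, s v ^ α v) (insert j S) hind j
    (Finset.mem_insert_self j S)
  exact ⟨b, fun α hα => hb α (Finset.mem_insert_of_mem hα)⟩

private theorem tpb_coeff {k σ A : Type} [Field k] [Fintype σ] [CommRing A] [Algebra k A]
    [DecidableEq σ] (b : (σ → k) →₀ k) (P : MvPolynomial σ A) (j : σ →₀ ℕ)
    (hb : ∀ α ∈ P.support, (b.sum fun s c => c * ∏ v, s v ^ α v) = if α = j then 1 else 0) :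
    (b.sum fun s c => c • evk P s) = P.coeff j := by
  have h1 : ∀ (s : σ → k) (c : k), c • evk P s =
      ∑ α ∈ P.support, (c * ∏ v, s v ^ α v) • P.coeff α := by
    intro s c
    rw [evk, MvPolynomial.eval_eq', Finset.smul_sum]
    refine Finset.sum_congr rfl fun α _ => ?_
    rw [mul_smul, Algebra.smul_def (∏ v, s v ^ α v), map_prod, mul_comm]
    simp only [map_pow]
  rw [Finsupp.sum]
  simp only [h1]
  rw [Finset.sum_comm]
  simp only [← Finset.sum_smul]
  rw [Finset.sum_congr rfl fun α hα => by
    rw [show (∑ s ∈ b.support, b s * ∏ v, s v ^ α v) = if α = j then 1 else 0 from hb α hα]]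
  simp only [ite_smul, one_smul, zero_smul]
  rw [Finset.sum_ite_eq']
  split_ifs with h
  · rfl
  · exact (MvPolynomial.notMem_support_iff.1 h).symm

theorem eq_of_evk {k σ A : Type} [Field k] [Infinite k] [Finite σ] [CommRing A] [Algebra k A]
    (P Q : MvPolynomial σ A) (h : ∀ s : σ → k, evk P s = evk Q s) : P = Q := by
  classical
  have := Fintype.ofFinite σ
  ext j
  obtain ⟨b, hb⟩ := tpb_pick (k := k) (P.support ∪ Q.support) j
  rw [← tpb_coeff b P j fun α hα => hb α (Finset.mem_union_left _ hα),
    ← tpb_coeff b Q j fun α hα => hb α (Finset.mem_union_right _ hα)]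
  simp only [h]

theorem exists_isTop (k : Type) {σ : Type} [Field k] [Infinite k] [Fintype σ] (M D : ℕ) :
    ∃ b : (σ → k) →₀ k, IsTop M D b := by
  classical
  obtain ⟨b, hb⟩ := tpb_pick (k := k) (Finsupp.finite_of_degree_le (σ := σ) D).toFinset (topE σ M)
  refine ⟨b, fun α hα => ?_⟩
  have h1 := hb α ((Set.Finite.mem_toFinset _).2 hα)
  rw [h1]
  split_ifs <;> rfl

theorem sum_evk {k σ A : Type} [Field k] [Fintype σ] [CommRing A] [Algebra k A]
    {M D : ℕ} {b : (σ → k) →₀ k} (hb : IsTop M D b) (P : MvPolynomial σ A)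
    (hP : P.totalDegree ≤ D) : (b.sum fun s c => c • evk P s) = P.coeff (topE σ M) := by
  classical
  refine tpb_coeff b P _ fun α hα => ?_
  have h1 := hb α ((MvPolynomial.le_totalDegree hα).trans hP)
  rw [h1]
  split_ifs <;> rfl

theorem evk_res {k A : Type} [Field k] {d : ℕ} [CommRing A] [Algebra k A]
    (P : MvPolynomial (Fin (d + 1) × Fin (d + 1)) A) (s : Lw d → k) :
    evk (res P) s = evn P (um s).1 := by
  induction P using MvPolynomial.induction_on with
  | C a => simp [evk, res, evn]
  | add p q hp hq =>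
    simp only [evk, res, evn, map_add] at hp hq ⊢
    rw [hp, hq]
  | mul_X p c hp =>
    simp only [evk, res, evn, map_mul] at hp ⊢
    rw [hp, MvPolynomial.aeval_X, MvPolynomial.eval_X, um_apply]
    congr 1
    obtain ⟨a, b⟩ := c
    dsimp only
    split_ifs <;> simp

theorem totalDegree_res {d : ℕ} {A : Type} [CommRing A]
    (P : MvPolynomial (Fin (d + 1) × Fin (d + 1)) A) : (res P).totalDegree ≤ P.totalDegree := by
  rw [res, MvPolynomial.aeval_def, MvPolynomial.eval₂_eq]
  refine MvPolynomial.totalDegree_finsetSum_le fun α hα => ?_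
  refine (MvPolynomial.totalDegree_mul _ _).trans ?_
  rw [show algebraMap A (MvPolynomial (Lw d) A) = MvPolynomial.C from rfl,
    MvPolynomial.totalDegree_C, zero_add]
  refine (MvPolynomial.totalDegree_finsetProd _ _).trans ?_
  refine le_trans (Finset.sum_le_sum fun c _ => ?_) (MvPolynomial.le_totalDegree hα)
  refine (MvPolynomial.totalDegree_pow _ _).trans ?_
  refine le_trans (Nat.mul_le_mul_left _ (?_ : _ ≤ 1)) (mul_one _).le
  split_ifs
  · exact MvPolynomial.totalDegree_monomial_le _ _ |>.trans (by simp)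
  · simp
  · simp

theorem tau_eq {k A : Type} [Field k] {d : ℕ} [CommRing A] [Algebra k A] {M D : ℕ}
    {b : (Lw d → k) →₀ k} (hb : IsTop M D b) (f : SL(d + 1, k) → A)
    (P : MvPolynomial (Fin (d + 1) × Fin (d + 1)) A) (hP : P.totalDegree ≤ D)
    (hf : ∀ g, f g = evn P g.1) : tau b f = (res P).coeff (topE (Lw d) M) := by
  rw [← sum_evk hb (res P) ((totalDegree_res P).trans hP), tau]
  simp only [evk_res, hf]

end Pool.Agent.MP_b525bf_ag_SA
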