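import Pool.Agent.Lib.MP_b525bf_ag_SA.CDF
import Pool.Agent.Lib.MP_b525bf_ag_SA.TOP
import Pool.Agent.Lib.MP_b525bf_ag_SA.TPB

/-!
# C18: coordinates on the lower unitriangular matrices: the top coefficient

RECIPE. `top_of_point`: `P'` equals the polynomial `aeval (fun c => if c ∈ V then X c + map
(algebraMap k A) (Q c) else X c) P` by `eq_of_evk` (evaluation is compatible with substitution),
then `coeff_topE_subst`. The other three are special cases: `V` = the set of the `c` for which the
condition in `th`, `lw`, `uw` holds (a `Finset.univ.filter`), `Q c` the corresponding monomial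
(`X (vI i) * X _`, `C m * X _`, ...), without constant term; its variables are not in `V`:
for `th`: `vI i` has `c.1.1 = i.succ`, `(c.1.1, i.succ)` has second entry `≠ i.castSucc`; for `lw`:
`(i.castSucc, _)`, `(_, i.succ)` satisfy neither condition; `uw`: the same. `lw_vI`, `uw_vI`:
`vI i` satisfies neither condition.
-/

set_option autoImplicit false

namespace Pool.Agent.MP_b525bf_ag_SA

open scoped MatrixGroups

private theorem cn2_evk_aeval {k σ A : Type} [Field k] [CommRing A] [Algebra k A]
    (g : σ → MvPolynomial σ A) (P : MvPolynomial σ A) (s : σ → k) :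
    evk (MvPolynomial.aeval g P : MvPolynomial σ A) s =
      MvPolynomial.eval (fun v => evk (g v) s) P := by
  induction P using MvPolynomial.induction_on with
  | C a => simp [evk]
  | add p q hp hq =>
    simp only [evk, map_add] at hp hq ⊢
    rw [hp, hq]
  | mul_X p c hp =>
    simp only [evk, map_mul] at hp ⊢
    rw [hp, MvPolynomial.aeval_X, MvPolynomial.eval_X]

private theorem cn2_evk_map {k σ A : Type} [Field k] [CommRing A] [Algebra k A]
    (Q : MvPolynomial σ k) (s : σ → k) :
    evk (MvPolynomial.map (algebraMap k A) Q) s = algebraMap k A (evk Q s) := by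
  induction Q using MvPolynomial.induction_on with
  | C a => simp [evk]
  | add p q hp hq =>
    simp only [evk, map_add] at hp hq ⊢
    rw [hp, hq]
  | mul_X p c hp =>
    simp only [evk, map_mul] at hp ⊢
    rw [hp]
    simp

theorem top_of_point (p : ℕ) [Fact p.Prime] {k σ A : Type} [Field k] [Infinite k] [Fintype σ]
    [DecidableEq σ] [CommRing A] [Algebra k A] [CharP A p] (M e : ℕ) (hM : M + 1 = p ^ e)
    (V : Finset σ) (Q : σ → MvPolynomial σ k)
    (hQ0 : ∀ v ∈ V, MvPolynomial.constantCoeff (Q v) = 0)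
    (hQV : ∀ v ∈ V, ∀ w ∈ V, w ∉ (Q v).vars) (P P' : MvPolynomial σ A)
    (h : ∀ s : σ → k, evk P' s = evk P fun c => if c ∈ V then s c + evk (Q c) s else s c) :
    P'.coeff (topE σ M) = P.coeff (topE σ M) := by
  have h1 : P' = MvPolynomial.aeval (fun v => if v ∈ V then
      MvPolynomial.X v + MvPolynomial.map (algebraMap k A) (Q v) else MvPolynomial.X v) P := by
    refine eq_of_evk (k := k) _ _ fun s => ?_
    rw [h s, cn2_evk_aeval, evk]
    congr 2
    funext c
    split_ifs with hc
    · rw [map_add, ← cn2_evk_map]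
      simp only [evk, map_add, MvPolynomial.eval_X]
    · simp only [evk, MvPolynomial.eval_X]
  rw [h1]
  refine coeff_topE_subst p M e hM V _ (fun v hv => ?_) (fun v hv w hw hwv => ?_) P
  · rw [MvPolynomial.constantCoeff_map, hQ0 v hv, map_zero]
  · exact hQV v hv w hw (MvPolynomial.vars_map _ _ hwv)

private theorem cn2_vars1 {k σ : Type} [Field k] (m : k) (a w : σ)
    (h : w ∈ (MvPolynomial.C m * MvPolynomial.X a : MvPolynomial σ k).vars) : w = a := by
  classical
  have h1 := MvPolynomial.vars_mul _ _ h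
  rw [MvPolynomial.vars_C, MvPolynomial.vars_X, Finset.empty_union, Finset.mem_singleton] at h1
  exact h1

private theorem cn2_vars2 {k σ : Type} [Field k] (a b w : σ)
    (h : w ∈ (MvPolynomial.X a * MvPolynomial.X b : MvPolynomial σ k).vars) : w = a ∨ w = b := by
  classical
  have h1 := MvPolynomial.vars_mul _ _ h
  rw [MvPolynomial.vars_X, MvPolynomial.vars_X, Finset.mem_union, Finset.mem_singleton,
    Finset.mem_singleton] at h1
  exact h1

private theorem cn2_ne {d : ℕ} (i : Fin d) : i.succ ≠ i.castSucc :=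
  (Fin.castSucc_lt_succ (i := i)).ne'

variable (p : ℕ) [Fact p.Prime] {k A : Type} [Field k] [Infinite k] {d : ℕ} [CommRing A]
  [Algebra k A] [CharP A p] (M e : ℕ) (hM : M + 1 = p ^ e) (i : Fin d)
  (P P' : MvPolynomial (Lw d) A)

include hM

theorem top_th (h : ∀ s : Lw d → k, evk P' s = evk P (th i s)) :
    P'.coeff (topE (Lw d) M) = P.coeff (topE (Lw d) M) := by
  obtain ⟨V, hV⟩ : ∃ V : Finset (Lw d), ∀ c, c ∈ V ↔
      (c.1.2 = i.castSucc ∧ i.succ < c.1.1) :=
    ⟨Finset.univ.filter fun c : Lw d => c.1.2 = i.castSucc ∧ i.succ < c.1.1,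
      fun c => by rw [Finset.mem_filter]; exact and_iff_right (Finset.mem_univ _)⟩
  refine top_of_point (k := k) p M e hM V
    (fun c => if h : c.1.2 = i.castSucc ∧ i.succ < c.1.1 then
      MvPolynomial.X (vI i) * MvPolynomial.X ⟨(c.1.1, i.succ), h.2⟩ else 0) ?_ ?_ P P'
    fun s => ?_
  · intro v hv
    have hv' := (hV v).1 hv
    rw [dif_pos hv']
    simp
  · intro v hv w hw hwv
    have hv' := (hV v).1 hv
    have hw' := (hV w).1 hw
    rw [dif_pos hv'] at hwv
    rcases cn2_vars2 _ _ _ hwv with rfl | rfl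
    · exact lt_irrefl _ hw'.2
    · exact cn2_ne i hw'.1
  · rw [h s]
    congr 1
    funext c
    by_cases hc : c.1.2 = i.castSucc ∧ i.succ < c.1.1
    · rw [if_pos ((hV c).2 hc), dif_pos hc, th, dif_pos hc]
      simp [evk]
    · rw [if_neg fun h' => hc ((hV c).1 h'), th, dif_neg hc, add_zero]

theorem top_lw (m : k) (h : ∀ s : Lw d → k, evk P' s = evk P (lw i m s)) :
    P'.coeff (topE (Lw d) M) = P.coeff (topE (Lw d) M) := by
  obtain ⟨V, hV⟩ : ∃ V : Finset (Lw d), ∀ c, c ∈ V ↔
      ((c.1.1 = i.succ ∧ c.1.2 < i.castSucc) ∨ (c.1.2 = i.castSucc ∧ i.succ < c.1.1)) :=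
    ⟨Finset.univ.filter fun c : Lw d => (c.1.1 = i.succ ∧ c.1.2 < i.castSucc) ∨ (c.1.2 = i.castSucc ∧ i.succ < c.1.1),
      fun c => by rw [Finset.mem_filter]; exact and_iff_right (Finset.mem_univ _)⟩
  refine top_of_point (k := k) p M e hM V
    (fun c => if h : c.1.1 = i.succ ∧ c.1.2 < i.castSucc then
      MvPolynomial.C m * MvPolynomial.X ⟨(i.castSucc, c.1.2), h.2⟩ else
      if h : c.1.2 = i.castSucc ∧ i.succ < c.1.1 then
        -(MvPolynomial.C m * MvPolynomial.X ⟨(c.1.1, i.succ), h.2⟩) else 0) ?_ ?_ P P'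
    fun s => ?_
  · intro v hv
    split_ifs <;> simp
  · intro v hv w hw hwv
    have hw' := (hV w).1 hw
    split_ifs at hwv with h1 h2
    · have h3 := cn2_vars1 _ _ _ hwv
      subst h3
      rcases hw' with h4 | h4
      · exact cn2_ne i h4.1.symm
      · exact h1.2.ne h4.1
    · rw [MvPolynomial.vars_neg] at hwv
      have h3 := cn2_vars1 _ _ _ hwv
      subst h3
      rcases hw' with h4 | h4
      · exact h2.2.ne' h4.1
      · exact cn2_ne i h4.1
    · rw [MvPolynomial.vars_0] at hwv
      exact absurd hwv (Finset.notMem_empty _)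
  · rw [h s]
    congr 1
    funext c
    rw [lw]
    by_cases h1 : c.1.1 = i.succ ∧ c.1.2 < i.castSucc
    · rw [if_pos ((hV c).2 (Or.inl h1)), dif_pos h1, dif_pos h1]
      simp [evk]
    · by_cases h2 : c.1.2 = i.castSucc ∧ i.succ < c.1.1
      · rw [if_pos ((hV c).2 (Or.inr h2)), dif_neg h1, dif_neg h1,
          dif_pos h2, dif_pos h2]
        simp [evk]
      · rw [if_neg fun h' => ((hV c).1 h').elim h1 h2, dif_neg h1, dif_neg h2,
          add_zero]

theorem top_uw (m : k) (h : ∀ s : Lw d → k, evk P' s = evk P (uw i m s)) :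
    P'.coeff (topE (Lw d) M) = P.coeff (topE (Lw d) M) := by
  obtain ⟨V, hV⟩ : ∃ V : Finset (Lw d), ∀ c, c ∈ V ↔
      (c.1.1 = i.castSucc ∨ c.1.2 = i.succ) :=
    ⟨Finset.univ.filter fun c : Lw d => c.1.1 = i.castSucc ∨ c.1.2 = i.succ,
      fun c => by rw [Finset.mem_filter]; exact and_iff_right (Finset.mem_univ _)⟩
  refine top_of_point (k := k) p M e hM V
    (fun c => if h : c.1.1 = i.castSucc then
      MvPolynomial.C m * MvPolynomial.X
        ⟨(i.succ, c.1.2), (c.2.trans_eq h).trans Fin.castSucc_lt_succ⟩ else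
      if h : c.1.2 = i.succ then
        -(MvPolynomial.C m * MvPolynomial.X
          ⟨(c.1.1, i.castSucc), (Fin.castSucc_lt_succ.trans_eq h.symm).trans c.2⟩) else 0)
    ?_ ?_ P P' fun s => ?_
  · intro v hv
    split_ifs <;> simp
  · intro v hv w hw hwv
    have hw' := (hV w).1 hw
    split_ifs at hwv with h1 h2
    · have h3 := cn2_vars1 _ _ _ hwv
      subst h3
      rcases hw' with h4 | h4
      · exact cn2_ne i h4
      · exact ((v.2.trans_eq h1).trans Fin.castSucc_lt_succ).ne h4
    · rw [MvPolynomial.vars_neg] at hwv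
      have h3 := cn2_vars1 _ _ _ hwv
      subst h3
      rcases hw' with h4 | h4
      · exact h1 h4
      · exact cn2_ne i h4.symm
    · rw [MvPolynomial.vars_0] at hwv
      exact absurd hwv (Finset.notMem_empty _)
  · rw [h s]
    congr 1
    funext c
    rw [uw]
    by_cases h1 : c.1.1 = i.castSucc
    · rw [if_pos ((hV c).2 (Or.inl h1)), dif_pos h1, dif_pos h1]
      simp [evk]
    · by_cases h2 : c.1.2 = i.succ
      · rw [if_pos ((hV c).2 (Or.inr h2)), dif_neg h1, dif_neg h1,
          dif_pos h2, dif_pos h2]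
        simp [evk]
      · rw [if_neg fun h' => ((hV c).1 h').elim h1 h2, dif_neg h1, dif_neg h2,
          add_zero]

omit hM

theorem lw_vI {k : Type} [Field k] {d : ℕ} (i : Fin d) (m : k) (s : Lw d → k) :
    lw i m s (vI i) = s (vI i) := by
  rw [lw, dif_neg fun h => lt_irrefl _ h.2, dif_neg fun h => lt_irrefl _ h.2, add_zero]

theorem uw_vI {k : Type} [Field k] {d : ℕ} (i : Fin d) (m : k) (s : Lw d → k) :
    uw i m s (vI i) = s (vI i) := by
  have h1 : ¬ (vI i).1.1 = i.castSucc := cn2_ne i
  have h2 : ¬ (vI i).1.2 = i.succ := (cn2_ne i).symm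
  rw [uw, dif_neg h1, dif_neg h2, add_zero]

end Pool.Agent.MP_b525bf_ag_SA
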