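import Pool.Agent.Lib.MP_b525bf_ag_SA.MDEF

/-!
# C05: leading minors
-/

set_option autoImplicit false

namespace Pool.Agent.MP_b525bf_ag_SA

open scoped MatrixGroups

section Ring

variable {S : Type} [CommRing S] {d : ℕ}

theorem MIN.tr_apply (j : ℕ) (z : Matrix (Fin (d + 1)) (Fin (d + 1)) S) (a b : Fin (d + 1)) :
    tr j z a b = if (a : ℕ) < j ∧ (b : ℕ) < j then z a b else if a = b then 1 else 0 := rfl

theorem MIN.tr_apply_lt {j : ℕ} (z : Matrix (Fin (d + 1)) (Fin (d + 1)) S) {a b : Fin (d + 1)}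
    (ha : (a : ℕ) < j) (hb : (b : ℕ) < j) : tr j z a b = z a b := by
  rw [MIN.tr_apply, if_pos ⟨ha, hb⟩]

theorem MIN.tr_apply_left {j : ℕ} (z : Matrix (Fin (d + 1)) (Fin (d + 1)) S) {a b : Fin (d + 1)}
    (ha : ¬ (a : ℕ) < j) : tr j z a b = if a = b then 1 else 0 := by
  rw [MIN.tr_apply, if_neg (fun h => ha h.1)]

theorem MIN.tr_apply_right {j : ℕ} (z : Matrix (Fin (d + 1)) (Fin (d + 1)) S) {a b : Fin (d + 1)}
    (hb : ¬ (b : ℕ) < j) : tr j z a b = if a = b then 1 else 0 := by
  rw [MIN.tr_apply, if_neg (fun h => hb h.2)]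

theorem lm_zero (z : Matrix (Fin (d + 1)) (Fin (d + 1)) S) : lm 0 z = 1 := by
  have h : tr 0 z = 1 := by
    ext a b
    rw [MIN.tr_apply_left z (by omega), Matrix.one_apply]
  rw [lm, h, Matrix.det_one]

theorem lm_top (z : Matrix (Fin (d + 1)) (Fin (d + 1)) S) : lm (d + 1) z = z.det := by
  have h : tr (d + 1) z = z := by
    ext a b
    rw [MIN.tr_apply_lt z a.2 b.2]
  rw [lm, h]

theorem tr_mul (j : ℕ) (l z u : Matrix (Fin (d + 1)) (Fin (d + 1)) S)
    (hl : ∀ a b, a < b → l a b = 0) (hu : ∀ a b, b < a → u a b = 0) :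
    tr j (l * z * u) = tr j l * tr j z * tr j u := by
  ext a b
  by_cases ha : (a : ℕ) < j
  · by_cases hb : (b : ℕ) < j
    · rw [MIN.tr_apply_lt _ ha hb, Matrix.mul_apply, Matrix.mul_apply]
      refine Finset.sum_congr rfl fun c _ => ?_
      by_cases hc : (c : ℕ) < j
      · rw [MIN.tr_apply_lt u hc hb, Matrix.mul_apply, Matrix.mul_apply]
        congr 1
        refine Finset.sum_congr rfl fun e _ => ?_
        by_cases he : (e : ℕ) < j
        · rw [MIN.tr_apply_lt l ha he, MIN.tr_apply_lt z he hc]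
        · have hae : a < e := by rw [Fin.lt_def]; omega
          rw [hl a e hae, MIN.tr_apply_right l he, if_neg hae.ne, zero_mul, zero_mul]
      · have hbc : b < c := by rw [Fin.lt_def]; omega
        rw [hu c b hbc, MIN.tr_apply_left u hc, if_neg hbc.ne', mul_zero, mul_zero]
    · have hab : a < b := by rw [Fin.lt_def]; omega
      rw [MIN.tr_apply_right _ hb, if_neg hab.ne, Matrix.mul_apply]
      symm
      refine Finset.sum_eq_zero fun c _ => ?_
      rw [MIN.tr_apply_right u hb]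
      by_cases hcb : c = b
      · subst hcb
        rw [if_pos rfl, mul_one, Matrix.mul_apply]
        refine Finset.sum_eq_zero fun e _ => ?_
        rw [MIN.tr_apply_right z hb]
        by_cases hec : e = c
        · subst hec
          rw [MIN.tr_apply_right l hb, if_neg hab.ne, zero_mul]
        · rw [if_neg hec, mul_zero]
      · rw [if_neg hcb, mul_zero]
  · rw [MIN.tr_apply_left _ ha, Matrix.mul_assoc, Matrix.mul_apply, Finset.sum_eq_single a]
    · rw [MIN.tr_apply_left l ha, if_pos rfl, one_mul, Matrix.mul_apply, Finset.sum_eq_single a]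
      · rw [MIN.tr_apply_left z ha, if_pos rfl, one_mul, MIN.tr_apply_left u ha]
      · intro e _ he
        rw [MIN.tr_apply_left z ha, if_neg (Ne.symm he), zero_mul]
      · intro h
        exact absurd (Finset.mem_univ _) h
    · intro e _ he
      rw [MIN.tr_apply_left l ha, if_neg (Ne.symm he), zero_mul]
    · intro h
      exact absurd (Finset.mem_univ _) h

theorem MIN.det_tr_lower (j : ℕ) (l : Matrix (Fin (d + 1)) (Fin (d + 1)) S)
    (hl : ∀ a b, a < b → l a b = 0) :
    (tr j l).det = ∏ a with (a : Fin (d + 1)).val < j, l a a := by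
  rw [Matrix.det_of_isLowerTriangular, Finset.prod_filter]
  · refine Finset.prod_congr rfl fun a _ => ?_
    split_ifs with h
    · rw [MIN.tr_apply_lt l h h]
    · rw [MIN.tr_apply_left l h, if_pos rfl]
  · intro a b hab
    have h1 : a < b := hab
    rw [MIN.tr_apply]
    split_ifs with h2 h3
    · exact hl a b h1
    · exact absurd h3 h1.ne
    · rfl

theorem MIN.det_tr_upper (j : ℕ) (u : Matrix (Fin (d + 1)) (Fin (d + 1)) S)
    (hu : ∀ a b, b < a → u a b = 0) :
    (tr j u).det = ∏ a with (a : Fin (d + 1)).val < j, u a a := by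
  rw [Matrix.det_of_isUpperTriangular, Finset.prod_filter]
  · refine Finset.prod_congr rfl fun a _ => ?_
    split_ifs with h
    · rw [MIN.tr_apply_lt u h h]
    · rw [MIN.tr_apply_left u h, if_pos rfl]
  · intro a b hab
    have h1 : b < a := hab
    rw [MIN.tr_apply]
    split_ifs with h2 h3
    · exact hu a b h1
    · exact absurd h3 h1.ne'
    · rfl

theorem lm_mul (j : ℕ) (l z u : Matrix (Fin (d + 1)) (Fin (d + 1)) S)
    (hl : ∀ a b, a < b → l a b = 0) (hu : ∀ a b, b < a → u a b = 0) :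
    lm j (l * z * u) = (∏ a with (a : Fin (d + 1)).val < j, l a a) * lm j z *
      ∏ a with (a : Fin (d + 1)).val < j, u a a := by
  rw [lm, tr_mul j l z u hl hu, Matrix.det_mul, Matrix.det_mul, MIN.det_tr_lower j l hl,
    MIN.det_tr_upper j u hu, lm]

/-- Evaluation of a ring homomorphism. -/
theorem lm_map {S' : Type} [CommRing S'] (f : S →+* S') (j : ℕ)
    (z : Matrix (Fin (d + 1)) (Fin (d + 1)) S) : lm j (z.map f) = f (lm j z) := by
  have h : tr j (z.map f) = f.mapMatrix (tr j z) := by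
    ext a b
    rw [RingHom.mapMatrix_apply, Matrix.map_apply, MIN.tr_apply, MIN.tr_apply]
    split_ifs with h1 h2
    · rfl
    · rw [map_one]
    · rw [map_zero]
  rw [lm, lm, h, RingHom.map_det]

theorem chm_map {S' : Type} [CommRing S'] (f : S →+* S')
    (z : Matrix (Fin (d + 1)) (Fin (d + 1)) S) : chm (z.map f) = f (chm z) := by
  rw [chm, chm, map_prod]
  exact Finset.prod_congr rfl fun j _ => lm_map f _ z

theorem MIN.lm_one (j : ℕ) : lm j (1 : Matrix (Fin (d + 1)) (Fin (d + 1)) S) = 1 := by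
  have h : tr j (1 : Matrix (Fin (d + 1)) (Fin (d + 1)) S) = 1 := by
    ext a b
    rw [MIN.tr_apply, Matrix.one_apply]
    split_ifs <;> rfl
  rw [lm, h, Matrix.det_one]

theorem chm_one : chm (1 : Matrix (Fin (d + 1)) (Fin (d + 1)) S) = 1 := by
  rw [chm]
  exact Finset.prod_eq_one fun j _ => MIN.lm_one _

end Ring

section Group

variable {k : Type} [Field k] {d : ℕ}

theorem prod_ex_lt (t : Fin d → kˣ) (j : Fin d) :
    ∏ a with (a : Fin (d + 1)).val < (j : ℕ) + 1, ex t a = t j := by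
  obtain ⟨j, hj⟩ := j
  change ∏ a with (a : Fin (d + 1)).val < j + 1, ex t a = _
  induction j with
  | zero =>
    have h : (Finset.univ.filter fun a : Fin (d + 1) => a.val < 0 + 1) = {0} := by
      ext a
      simp only [Finset.mem_filter, Finset.mem_univ, true_and, Finset.mem_singleton, Fin.ext_iff,
        Fin.val_zero]
      omega
    rw [h, Finset.prod_singleton, ex]
    have h0 : (0 : Fin (d + 1)) = Fin.castSucc ⟨0, hj⟩ := rfl
    rw [Fin.cons_zero, div_one, h0, Fin.snoc_castSucc]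
  | succ j ih =>
    have h : (Finset.univ.filter fun a : Fin (d + 1) => a.val < j + 1 + 1) =
        insert (⟨j + 1, by omega⟩ : Fin (d + 1))
          (Finset.univ.filter fun a : Fin (d + 1) => a.val < j + 1) := by
      ext a
      simp only [Finset.mem_filter, Finset.mem_univ, true_and, Finset.mem_insert, Fin.ext_iff]
      omega
    rw [h, Finset.prod_insert (by simp), ih (by omega), ex]
    have h1 : (⟨j + 1, by omega⟩ : Fin (d + 1)) = Fin.castSucc ⟨j + 1, hj⟩ := rfl
    have h2 : (⟨j + 1, by omega⟩ : Fin (d + 1)) = Fin.succ ⟨j, by omega⟩ := rfl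
    have h3 : (Fin.snoc (α := fun _ => kˣ) t 1 (⟨j + 1, by omega⟩ : Fin (d + 1)) : kˣ) =
        t ⟨j + 1, hj⟩ := by
      rw [h1, Fin.snoc_castSucc]
    have h4 : (Fin.cons (α := fun _ => kˣ) 1 t (⟨j + 1, by omega⟩ : Fin (d + 1)) : kˣ) =
        t ⟨j, by omega⟩ := by
      rw [h2, Fin.cons_succ]
    rw [h3, h4, div_mul_cancel]

theorem MIN.prod_ex_lt_coe (t : Fin d → kˣ) (j : Fin d) :
    ∏ a with (a : Fin (d + 1)).val < (j : ℕ) + 1, ((ex t a : kˣ) : k) = ((t j : kˣ) : k) := by
  rw [← prod_ex_lt t j, Units.coe_prod]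

theorem lm_mul_UU (j : ℕ) (z : Matrix (Fin (d + 1)) (Fin (d + 1)) k) (u : SL(d + 1, k))
    (hu : UU u) : lm j (z * u.1) = lm j z := by
  have h := lm_mul j 1 z u.1 (fun a b hab => by rw [Matrix.one_apply_ne hab.ne]) hu.1
  rw [one_mul] at h
  rw [h]
  simp [hu.2]

theorem chm_mul_UU (z : Matrix (Fin (d + 1)) (Fin (d + 1)) k) (u : SL(d + 1, k)) (hu : UU u) :
    chm (z * u.1) = chm z :=
  Finset.prod_congr rfl fun j _ => lm_mul_UU _ z u hu

theorem MIN.dgn_ne (t : Fin d → kˣ) {a b : Fin (d + 1)} (h : a ≠ b) : (dgn t).1 a b = 0 := by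
  rw [dgn_coe, Matrix.diagonal_apply_ne _ h]

theorem MIN.dgn_eq (t : Fin d → kˣ) (a : Fin (d + 1)) : (dgn t).1 a a = ((ex t a : kˣ) : k) := by
  rw [dgn_coe, Matrix.diagonal_apply_eq]

theorem chm_mul_dgn (z : Matrix (Fin (d + 1)) (Fin (d + 1)) k) (t : Fin d → kˣ) :
    chm (z * (dgn t).1) = ((∏ i, t i : kˣ) : k) * chm z := by
  rw [chm, chm, Units.coe_prod, ← Finset.prod_mul_distrib]
  refine Finset.prod_congr rfl fun j _ => ?_
  have h := lm_mul ((j : ℕ) + 1) 1 z (dgn t).1
    (fun a b hab => by rw [Matrix.one_apply_ne hab.ne]) (fun a b hab => MIN.dgn_ne t hab.ne')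
  rw [one_mul] at h
  rw [h]
  simp only [Matrix.one_apply_eq, Finset.prod_const_one, one_mul, MIN.dgn_eq]
  rw [MIN.prod_ex_lt_coe, mul_comm]

theorem chm_dgn_mul (z : Matrix (Fin (d + 1)) (Fin (d + 1)) k) (t : Fin d → kˣ) :
    chm ((dgn t).1 * z) = ((∏ i, t i : kˣ) : k) * chm z := by
  rw [chm, chm, Units.coe_prod, ← Finset.prod_mul_distrib]
  refine Finset.prod_congr rfl fun j _ => ?_
  have h := lm_mul ((j : ℕ) + 1) (dgn t).1 z 1
    (fun a b hab => MIN.dgn_ne t hab.ne) (fun a b hab => by rw [Matrix.one_apply_ne hab.ne'])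
  rw [mul_one] at h
  rw [h]
  simp only [Matrix.one_apply_eq, Finset.prod_const_one, mul_one, MIN.dgn_eq]
  rw [MIN.prod_ex_lt_coe]

/-- Lower unitriangular matrices from the left. -/
theorem chm_LU_mul (z : Matrix (Fin (d + 1)) (Fin (d + 1)) k) (l : SL(d + 1, k)) (hl : LT l)
    (h1 : ∀ a, l.1 a a = 1) : chm (l.1 * z) = chm z := by
  refine Finset.prod_congr rfl fun j _ => ?_
  have h := lm_mul ((j : ℕ) + 1) l.1 z 1 hl
    (fun a b hab => by rw [Matrix.one_apply_ne hab.ne'])
  rw [mul_one] at h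
  rw [h]
  simp [h1]

end Group

end Pool.Agent.MP_b525bf_ag_SA
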