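import Pool.Agent.Lib.MP_b525bf_ag_SA.CCL

/-!
# C10: the triangular decomposition

RECIPE. `exists_lu`: `u.1 = cc z * diagonal (fun b => (lm b z)⁻¹)`; the `lm b z`, `b : Fin (d + 1)`,
are not zero (`lm_zero`, and the factors of `chm z`), upper triangular with diagonal `1` by
`cc_lower`, `cc_diag`, so its determinant is `1` (`Matrix.det_of_isUpperTriangular`); `z * u` is
lower triangular by `mul_cc_upper`. `prod_lm`: `Fin.prod_univ_succ`, `lm_zero`. `lu_unique`:
`u⁻¹ * u' = (z * u)⁻¹ * (z * u')` is upper unitriangular and lower triangular (inverses of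
triangular matrices are triangular: see the proof for `borel` in Defs.lean,
`Matrix.blockTriangular_inv_of_blockTriangular`), so it is `1`. `UU.mul`, `UU.inv`, `LT.mul`,
`LT.inv`: the same facts.
-/

set_option autoImplicit false

namespace Pool.Agent.MP_b525bf_ag_SA

open scoped MatrixGroups

variable {k : Type} [Field k] {d : ℕ}

private theorem up_mul {M N : Matrix (Fin (d + 1)) (Fin (d + 1)) k}
    (hM : ∀ a b, b < a → M a b = 0) (hN : ∀ a b, b < a → N a b = 0) (a b : Fin (d + 1))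
    (h : b < a) : (M * N) a b = 0 := by
  have h1 : (M * N).BlockTriangular id :=
    Matrix.BlockTriangular.mul (fun c e h => hM c e h) (fun c e h => hN c e h)
  exact h1 h

private theorem up_mul_diag {M N : Matrix (Fin (d + 1)) (Fin (d + 1)) k}
    (hM : ∀ a b, b < a → M a b = 0) (hN : ∀ a b, b < a → N a b = 0) (a : Fin (d + 1)) :
    (M * N) a a = M a a * N a a := by
  rw [Matrix.mul_apply]
  refine Finset.sum_eq_single a (fun c _ hc => ?_) (fun h => absurd (Finset.mem_univ _) h)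
  rcases lt_or_gt_of_ne hc with h | h
  · rw [hM a c h, zero_mul]
  · rw [hN c a h, mul_zero]

private theorem coe_inv_eq (g : SL(d + 1, k)) : (g⁻¹).1 = (g.1)⁻¹ := by
  have h0 : g.1.det = 1 := g.2
  rw [Matrix.inv_def, h0, Ring.inverse_one, one_smul]
  rfl

private theorem up_inv {g : SL(d + 1, k)} (hg : ∀ a b, b < a → g.1 a b = 0) (a b : Fin (d + 1))
    (h : b < a) : (g⁻¹).1 a b = 0 := by
  have h0 : g.1.det = 1 := g.2
  have h1 : g.1.BlockTriangular id := fun c e h => hg c e h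
  have h2 : Invertible g.1 := Matrix.invertibleOfIsUnitDet _ (by rw [h0]; exact isUnit_one)
  have h3 : (g.1⁻¹).BlockTriangular id := Matrix.blockTriangular_inv_of_blockTriangular h1
  rw [coe_inv_eq]
  exact h3 h

theorem UU.mul {u u' : SL(d + 1, k)} (hu : UU u) (hu' : UU u') : UU (u * u') := by
  refine ⟨fun a b h => up_mul hu.1 hu'.1 a b h, fun a => ?_⟩
  have h1 : (u.1 * u'.1) a a = u.1 a a * u'.1 a a := up_mul_diag hu.1 hu'.1 a
  rw [hu.2, hu'.2, mul_one] at h1
  exact h1

theorem UU.inv {u : SL(d + 1, k)} (hu : UU u) : UU u⁻¹ := by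
  refine ⟨fun a b h => up_inv hu.1 a b h, fun a => ?_⟩
  have h1 : (u.1 * (u⁻¹).1) a a = u.1 a a * (u⁻¹).1 a a :=
    up_mul_diag hu.1 (fun a b h => up_inv hu.1 a b h) a
  have h2 : u.1 * (u⁻¹).1 = 1 := by
    have h3 : (u * u⁻¹).1 = 1 := by rw [mul_inv_cancel]; rfl
    exact h3
  rw [h2, Matrix.one_apply_eq, hu.2, one_mul] at h1
  exact h1.symm

theorem LT.mul {l l' : SL(d + 1, k)} (hl : LT l) (hl' : LT l') : LT (l * l') := by
  intro a b h
  have h1 : (l.1 * l'.1).BlockTriangular (OrderDual.toDual : Fin (d + 1) → (Fin (d + 1))ᵒᵈ) :=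
    Matrix.BlockTriangular.mul (fun c e h => hl c e h) (fun c e h => hl' c e h)
  exact h1 h

theorem LT.inv {l : SL(d + 1, k)} (hl : LT l) : LT l⁻¹ := by
  intro a b h
  have h0 : l.1.det = 1 := l.2
  have h1 : l.1.BlockTriangular (OrderDual.toDual : Fin (d + 1) → (Fin (d + 1))ᵒᵈ) :=
    fun c e h => hl c e h
  have h2 : Invertible l.1 := Matrix.invertibleOfIsUnitDet _ (by rw [h0]; exact isUnit_one)
  have h3 : (l.1⁻¹).BlockTriangular (OrderDual.toDual : Fin (d + 1) → (Fin (d + 1))ᵒᵈ) :=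
    Matrix.blockTriangular_inv_of_blockTriangular h1
  rw [coe_inv_eq]
  exact h3 h

theorem UU_xr {a b : Fin (d + 1)} (h : a < b) (s : k) : UU (xr a b s) := by
  rw [UU, xr_coe h.ne]
  constructor
  · intro i j hij
    rw [Matrix.add_apply, Matrix.one_apply_ne hij.ne', zero_add, Matrix.single_apply]
    refine if_neg fun hh => ?_
    rw [← hh.1, ← hh.2] at hij
    exact absurd hij (not_lt.2 h.le)
  · intro i
    rw [Matrix.add_apply, Matrix.one_apply_eq, Matrix.single_apply, if_neg, add_zero]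
    intro hh
    exact h.ne (hh.1.trans hh.2.symm)

theorem LT_xr {a b : Fin (d + 1)} (h : a < b) (s : k) : LT (xr b a s) := by
  rw [LT, xr_coe h.ne']
  intro i j hij
  rw [Matrix.add_apply, Matrix.one_apply_ne hij.ne, zero_add, Matrix.single_apply]
  refine if_neg fun hh => ?_
  rw [← hh.1, ← hh.2] at hij
  exact absurd hij (not_lt.2 h.le)

theorem prod_lm (z : Matrix (Fin (d + 1)) (Fin (d + 1)) k) :
    ∏ b : Fin (d + 1), lm (b : ℕ) z = chm z := by
  rw [Fin.prod_univ_succ, Fin.val_zero, lm_zero, one_mul]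
  rfl

theorem exists_lu (z : SL(d + 1, k)) (hz : chm z.1 ≠ 0) :
    ∃ u : SL(d + 1, k), UU u ∧ LT (z * u) ∧
      cc z.1 = u.1 * Matrix.diagonal fun b : Fin (d + 1) => lm (b : ℕ) z.1 := by
  have hb : ∀ b : Fin (d + 1), lm (b : ℕ) z.1 ≠ 0 := by
    intro b hb
    apply hz
    rw [← prod_lm]
    exact Finset.prod_eq_zero (Finset.mem_univ b) hb
  set M : Matrix (Fin (d + 1)) (Fin (d + 1)) k :=
    cc z.1 * Matrix.diagonal (fun b : Fin (d + 1) => (lm (b : ℕ) z.1)⁻¹) with hM
  have hMap : ∀ a b, M a b = cc z.1 a b * (lm (b : ℕ) z.1)⁻¹ := fun a b => by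
    rw [hM, Matrix.mul_diagonal]
  have hup : ∀ a b, b < a → M a b = 0 := fun a b h => by
    rw [hMap, cc_lower z.1 a b h, zero_mul]
  have hd : ∀ a, M a a = 1 := fun a => by
    rw [hMap, cc_diag, mul_inv_cancel₀ (hb a)]
  have hdet : M.det = 1 := by
    rw [Matrix.det_of_isUpperTriangular (fun a b h => hup a b h)]
    exact Finset.prod_eq_one fun a _ => hd a
  refine ⟨⟨M, hdet⟩, ⟨hup, hd⟩, ?_, ?_⟩
  · intro a b h
    change (z.1 * M) a b = 0
    rw [hM, ← Matrix.mul_assoc, Matrix.mul_diagonal, mul_cc_upper z.1 a b h, zero_mul]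
  · change cc z.1 = M * _
    ext a b
    rw [Matrix.mul_diagonal, hMap, mul_assoc, inv_mul_cancel₀ (hb b), mul_one]

theorem lu_unique (z u u' : SL(d + 1, k)) (hu : UU u) (hu' : UU u') (h : LT (z * u))
    (h' : LT (z * u')) : u = u' := by
  have h1 : UU (u⁻¹ * u') := hu.inv.mul hu'
  have h2 : LT (u⁻¹ * u') := by
    have h3 := h.inv.mul h'
    rwa [mul_inv_rev, mul_assoc, inv_mul_cancel_left] at h3
  have h3 : u⁻¹ * u' = 1 := by
    refine Subtype.ext ?_
    ext a b
    change (u⁻¹ * u').1 a b = (1 : Matrix (Fin (d + 1)) (Fin (d + 1)) k) a b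
    rcases lt_trichotomy a b with hab | hab | hab
    · rw [h2 a b hab, Matrix.one_apply_ne hab.ne]
    · rw [hab, h1.2 b, Matrix.one_apply_eq]
    · rw [h1.1 a b hab, Matrix.one_apply_ne hab.ne']
  have h4 : u * (u⁻¹ * u') = u := by rw [h3, mul_one]
  rw [mul_inv_cancel_left] at h4
  exact h4.symm

end Pool.Agent.MP_b525bf_ag_SA
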