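import Pool.Agent.Lib.MP_b525bf_ag_SA.MDEF
import Pool.Agent.Lib.MP_b525bf_ag_SA.ULU

/-!
# C11: the longest element

RECIPE. `w0_inv_apply`: the inverse of `diagonal s * P` is `P⁻¹ * diagonal s` with `P⁻¹ = P` (check
that the product of the given matrix with `w0` is `1`, `wsgn_sq`). `w0_conj_dgn`: the entry of `w0⁻¹
* dgn t * w0` at `(a, a)` is `ex t (rev a)` `= t_(rev a) / t_(rev a - 1)`, which is `ex t' a` for
`t' i = (t (rev i))⁻¹`. `w0_conj_xr`: the entry of `E_ab` goes to `(rev a, rev b)` with the sign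
`wsgn a * wsgn b`.
-/

set_option autoImplicit false

namespace Pool.Agent.MP_b525bf_ag_SA

open scoped MatrixGroups

variable {k : Type} [Field k] {d : ℕ}

private theorem w0_inv_eq :
    ((w0 k d)⁻¹).1 = Matrix.of fun a b : Fin (d + 1) => if b = Fin.rev a then wsgn k b else 0 := by
  set V : Matrix (Fin (d + 1)) (Fin (d + 1)) k :=
    Matrix.of fun a b : Fin (d + 1) => if b = Fin.rev a then wsgn k b else 0 with hV
  have h1 : V * (w0 k d).1 = 1 := by
    ext a b
    rw [Matrix.mul_apply, Finset.sum_eq_single (Fin.rev a)]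
    · rw [w0_apply, Fin.rev_rev, hV, Matrix.of_apply, if_pos rfl, Matrix.one_apply]
      by_cases h : b = a
      · rw [if_pos h, if_pos h.symm, wsgn_sq]
      · rw [if_neg h, if_neg (Ne.symm h), mul_zero]
    · intro c _ hc
      rw [hV, Matrix.of_apply, if_neg hc, zero_mul]
    · intro h
      exact absurd (Finset.mem_univ _) h
  have h2 : (w0 k d).1 * ((w0 k d)⁻¹).1 = 1 := by
    have h3 : (w0 k d * (w0 k d)⁻¹).1 = 1 := by rw [mul_inv_cancel]; rfl
    exact h3
  calc ((w0 k d)⁻¹).1 = (V * (w0 k d).1) * ((w0 k d)⁻¹).1 := by rw [h1, Matrix.one_mul]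
    _ = V := by rw [Matrix.mul_assoc, h2, Matrix.mul_one]

theorem w0_inv_apply (a b : Fin (d + 1)) :
    ((w0 k d)⁻¹).1 a b = if b = Fin.rev a then wsgn k b else 0 := by
  rw [w0_inv_eq, Matrix.of_apply]

private theorem ex_rev (t : Fin d → kˣ) (a : Fin (d + 1)) :
    ex t (Fin.rev a) = ex (fun i => (t (Fin.rev i))⁻¹) a := by
  have h1 : (Fin.snoc (α := fun _ => kˣ) t 1 (Fin.rev a) : kˣ) =
      (Fin.cons (α := fun _ => kˣ) 1 (fun i => (t (Fin.rev i))⁻¹) a : kˣ)⁻¹ := by
    refine Fin.cases ?_ (fun i => ?_) a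
    · simp
    · rw [Fin.rev_succ, Fin.snoc_castSucc, Fin.cons_succ, inv_inv]
  have h2 : (Fin.cons (α := fun _ => kˣ) 1 t (Fin.rev a) : kˣ) =
      (Fin.snoc (α := fun _ => kˣ) (fun i => (t (Fin.rev i))⁻¹) 1 a : kˣ)⁻¹ := by
    refine Fin.lastCases ?_ (fun i => ?_) a
    · simp
    · rw [Fin.rev_castSucc, Fin.snoc_castSucc, Fin.cons_succ, inv_inv]
  rw [ex, ex, h1, h2, div_eq_mul_inv, div_eq_mul_inv, inv_inv, mul_comm]

theorem w0_conj_dgn (t : Fin d → kˣ) :
    (w0 k d)⁻¹ * dgn t * w0 k d = dgn fun i => (t (Fin.rev i))⁻¹ := by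
  refine Subtype.ext ?_
  change ((w0 k d)⁻¹).1 * (dgn t).1 * (w0 k d).1 = (dgn fun i => (t (Fin.rev i))⁻¹).1
  rw [dgn_coe, dgn_coe]
  ext a b
  rw [Matrix.mul_apply, Finset.sum_eq_single (Fin.rev a)]
  · rw [Matrix.mul_diagonal, w0_inv_apply, if_pos rfl, w0_apply, Fin.rev_rev,
      Matrix.diagonal_apply]
    by_cases h : b = a
    · rw [if_pos h, if_pos h.symm, ← ex_rev, mul_right_comm, wsgn_sq, one_mul]
    · rw [if_neg h, if_neg (Ne.symm h), mul_zero]
  · intro c _ hc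
    rw [Matrix.mul_diagonal, w0_inv_apply, if_neg hc, zero_mul, zero_mul]
  · intro h
    exact absurd (Finset.mem_univ _) h

theorem w0_conj_xr (a b : Fin (d + 1)) (h : a ≠ b) (s : k) :
    (w0 k d)⁻¹ * xr a b s * w0 k d = xr (Fin.rev a) (Fin.rev b) (wsgn k a * wsgn k b * s) := by
  have hne : Fin.rev a ≠ Fin.rev b := fun hh => h (Fin.rev_injective hh)
  refine Subtype.ext ?_
  change ((w0 k d)⁻¹).1 * (xr a b s).1 * (w0 k d).1 = (xr (Fin.rev a) (Fin.rev b) _).1
  rw [xr_coe h, xr_coe hne, Matrix.mul_add, Matrix.add_mul, Matrix.mul_one]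
  congr 1
  · have h3 : ((w0 k d)⁻¹ * w0 k d).1 = 1 := by rw [inv_mul_cancel]; rfl
    exact h3
  · ext i j
    rw [Matrix.mul_apply, Finset.sum_eq_single b]
    · rw [Matrix.mul_single_apply_same, w0_inv_apply, w0_apply, Matrix.single_apply]
      by_cases h1 : a = Fin.rev i
      · by_cases h2 : j = Fin.rev b
        · have h4 : Fin.rev a = i := by rw [h1, Fin.rev_rev]
          rw [if_pos h1, if_pos h2, if_pos ⟨h4, h2.symm⟩]
          ring
        · rw [if_neg h2, mul_zero, if_neg]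
          exact fun hh => h2 hh.2.symm
      · rw [if_neg h1, zero_mul, zero_mul, if_neg]
        intro hh
        apply h1
        rw [← hh.1, Fin.rev_rev]
    · intro c _ hc
      rw [Matrix.mul_single_apply_of_ne, zero_mul]
      exact hc
    · intro h
      exact absurd (Finset.mem_univ _) h

end Pool.Agent.MP_b525bf_ag_SA
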