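import Pool.Agent.Lib.MP_b525bf_ag_SA.LEI
import Pool.Agent.Lib.MP_b525bf_ag_SA.MIN
import Pool.Agent.Lib.MP_b525bf_ag_SA.W0L

/-!
# C25: the top coefficient of the product of the minors

RECIPE. Call `(P, W₁, W₂, μ)` special if all `α` in the support of `P` have `ht1 α = W₁`, `W₂ ≤ ht2
α`, equality only for `α = μ`, and `P.coeff μ ≠ 0`. Products of special tuples are special with
`(W₁ + W₁', W₂ + W₂', μ + μ')` (`ht1`, `ht2` are additive; `MvPolynomial.coeff_mul`,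
`support_mul`), so `chm (wumX k d) ^ M = (∏ j, lm (j + 1) (wumX k d)) ^ M` is special (`LEI`) with
`μ = M • ∑_(1 ≤ j ≤ d) dgE j = topE (Lw d) M` (each `c` is on exactly one diagonal) and `W₁ = ht1
(topE (Lw d) M)`. In `(chm (wumX k d) ^ M * P).coeff top = ∑ coeff α * P.coeff β` (`α + β = top`)
the first factor is zero unless `ht1 α = ht1 top`, so `ht1 β = 0`, `β = 0`. `evk_wumX`: `chm_map`
for the evaluation homomorphism and `w0_inv_apply`.
-/

set_option autoImplicit false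

namespace Pool.Agent.MP_b525bf_ag_SA

open scoped MatrixGroups

section Special

variable {k : Type} [Field k] {d : ℕ}

private theorem ht1_add (α β : Lw d →₀ ℕ) : ht1 (α + β) = ht1 α + ht1 β := by
  simp only [ht1, Finsupp.add_apply, add_mul, Finset.sum_add_distrib]

private theorem ht2_add (α β : Lw d →₀ ℕ) : ht2 (α + β) = ht2 α + ht2 β := by
  simp only [ht2, Finsupp.add_apply, add_mul, Finset.sum_add_distrib]

private theorem eq_zero_of_ht1 (α : Lw d →₀ ℕ) (h : ht1 α = 0) : α = 0 := by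
  ext c
  have h1 := (Finset.sum_eq_zero_iff.1 h) c (Finset.mem_univ c)
  rcases Nat.mul_eq_zero.1 h1 with h2 | h2
  · exact h2
  · exfalso
    have h3 : (c.1.2 : ℕ) < c.1.1 := c.2
    omega

/-- All exponents have height `W₁` and quadratic height at least `W₂`, with equality only for
`μ`. -/
private def Sp (P : MvPolynomial (Lw d) k) (W₁ W₂ : ℕ) (μ : Lw d →₀ ℕ) : Prop :=
  (∀ α ∈ P.support, ht1 α = W₁ ∧ W₂ ≤ ht2 α ∧ (ht2 α = W₂ → α = μ)) ∧ P.coeff μ ≠ 0 ∧ ht2 μ = W₂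

private theorem Sp.mul {P P' : MvPolynomial (Lw d) k} {W₁ W₂ W₁' W₂' : ℕ} {μ μ' : Lw d →₀ ℕ}
    (h : Sp P W₁ W₂ μ) (h' : Sp P' W₁' W₂' μ') :
    Sp (P * P') (W₁ + W₁') (W₂ + W₂') (μ + μ') := by
  classical
  refine ⟨fun α hα => ?_, ?_, ?_⟩
  · obtain ⟨α₁, h1, α₂, h2, rfl⟩ := Finset.mem_add.1 (MvPolynomial.support_mul P P' hα)
    obtain ⟨a1, a2, a3⟩ := h.1 α₁ h1
    obtain ⟨b1, b2, b3⟩ := h'.1 α₂ h2
    rw [ht1_add, ht2_add]
    refine ⟨by omega, by omega, fun hh => ?_⟩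
    rw [a3 (by omega), b3 (by omega)]
  · rw [MvPolynomial.coeff_mul, Finset.sum_eq_single (μ, μ')]
    · exact mul_ne_zero h.2.1 h'.2.1
    · rintro ⟨a, b⟩ hab hne
      rw [Finset.HasAntidiagonal.mem_antidiagonal] at hab
      by_contra hc
      obtain ⟨c1, c2⟩ := ne_zero_and_ne_zero_of_mul hc
      obtain ⟨a1, a2, a3⟩ := h.1 a (MvPolynomial.mem_support_iff.2 c1)
      obtain ⟨b1, b2, b3⟩ := h'.1 b (MvPolynomial.mem_support_iff.2 c2)
      have e := congrArg ht2 hab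
      simp only [ht2_add] at e
      rw [h.2.2, h'.2.2] at e
      exact hne (by rw [a3 (by omega), b3 (by omega)])
    · intro hh
      refine absurd ?_ hh
      rw [Finset.HasAntidiagonal.mem_antidiagonal]
  · rw [ht2_add, h.2.2, h'.2.2]

private theorem Sp.one : Sp (1 : MvPolynomial (Lw d) k) 0 0 0 := by
  classical
  refine ⟨fun α hα => ?_, ?_, ?_⟩
  · rw [MvPolynomial.mem_support_iff, MvPolynomial.coeff_one] at hα
    have h : α = 0 := by
      by_contra hc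
      exact hα (if_neg fun hh => hc hh.symm)
    subst h
    simp [ht1, ht2]
  · rw [MvPolynomial.coeff_one, if_pos rfl]
    exact one_ne_zero
  · simp [ht2]

private theorem Sp.prod {ι : Type} (S : Finset ι) (P : ι → MvPolynomial (Lw d) k)
    (W₁ W₂ : ι → ℕ) (μ : ι → Lw d →₀ ℕ) (h : ∀ i ∈ S, Sp (P i) (W₁ i) (W₂ i) (μ i)) :
    Sp (∏ i ∈ S, P i) (∑ i ∈ S, W₁ i) (∑ i ∈ S, W₂ i) (∑ i ∈ S, μ i) := by
  classical
  induction S using Finset.induction_on with
  | empty => exact Sp.one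
  | insert a S ha ih =>
    rw [Finset.prod_insert ha, Finset.sum_insert ha, Finset.sum_insert ha, Finset.sum_insert ha]
    exact (h a (Finset.mem_insert_self a S)).mul
      (ih fun i hi => h i (Finset.mem_insert_of_mem hi))

private theorem Sp.pow {P : MvPolynomial (Lw d) k} {W₁ W₂ : ℕ} {μ : Lw d →₀ ℕ}
    (h : Sp P W₁ W₂ μ) (n : ℕ) : Sp (P ^ n) (n * W₁) (n * W₂) (n • μ) := by
  induction n with
  | zero =>
    rw [pow_zero, zero_mul, zero_mul, zero_smul]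
    exact Sp.one
  | succ n ih =>
    rw [pow_succ, Nat.succ_mul, Nat.succ_mul, succ_nsmul]
    exact ih.mul h

private theorem ht2_dgE (j : ℕ) :
    ht2 (dgE j : Lw d →₀ ℕ) = (d + 1 - j) * ht1 (dgE j : Lw d →₀ ℕ) := by
  rw [ht2, ht1, Finset.mul_sum]
  refine Finset.sum_congr rfl fun c _ => ?_
  have h1 : (dgE j : Lw d →₀ ℕ) c = if (c.1.1 : ℕ) + j = c.1.2 + (d + 1) then 1 else 0 := rfl
  rw [h1]
  split_ifs with h
  · have h2 : (c.1.1 : ℕ) - c.1.2 = d + 1 - j := by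
      have h3 : (c.1.2 : ℕ) < c.1.1 := c.2
      omega
    rw [h2, one_mul, one_mul, sq]
  · rw [zero_mul, zero_mul, mul_zero]

private theorem sp_lm (k : Type) [Field k] (d : ℕ) (j : Fin d) :
    Sp (lm ((j : ℕ) + 1) (wumX k d)) (((j : ℕ) + 1) * (d + 1 - (j + 1)))
      (((j : ℕ) + 1) * (d + 1 - (j + 1)) ^ 2) (dgE ((j : ℕ) + 1)) := by
  have h1 : 1 ≤ (j : ℕ) + 1 := by omega
  have h2 : (j : ℕ) + 1 ≤ d := j.2
  have hc := lei_coeff k d ((j : ℕ) + 1) h1 h2
  refine ⟨fun α hα => lei_support k d ((j : ℕ) + 1) h1 h2 α hα, hc, ?_⟩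
  rw [ht2_dgE, (lei_support k d ((j : ℕ) + 1) h1 h2 _ (MvPolynomial.mem_support_iff.2 hc)).1]
  ring

private theorem sum_dgE (d : ℕ) (c : Lw d) :
    ∑ j : Fin d, (dgE ((j : ℕ) + 1) : Lw d →₀ ℕ) c = 1 := by
  have h3 : (c.1.2 : ℕ) < c.1.1 := c.2
  have h4 : (c.1.1 : ℕ) < d + 1 := c.1.1.2
  have h5 : d + (c.1.2 : ℕ) - c.1.1 < d := by omega
  rw [Finset.sum_eq_single ⟨d + (c.1.2 : ℕ) - c.1.1, h5⟩]
  · change (if (c.1.1 : ℕ) + (d + (c.1.2 : ℕ) - c.1.1 + 1) = c.1.2 + (d + 1) then 1 else 0) = 1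
    rw [if_pos (by omega)]
  · intro j _ hj
    change (if (c.1.1 : ℕ) + ((j : ℕ) + 1) = c.1.2 + (d + 1) then 1 else 0) = 0
    rw [if_neg]
    intro hh
    exact hj (Fin.ext (by change (j : ℕ) = d + (c.1.2 : ℕ) - c.1.1; omega))
  · intro hh
    exact absurd (Finset.mem_univ _) hh

end Special

theorem exists_c0 (k : Type) [Field k] (d M : ℕ) :
    ∃ c₀ : k, c₀ ≠ 0 ∧ ∀ P : MvPolynomial (Lw d) k,
      (chm (wumX k d) ^ M * P).coeff (topE (Lw d) M) = c₀ * MvPolynomial.constantCoeff P := by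
  classical
  have h1 := (Sp.prod Finset.univ (fun j : Fin d => lm ((j : ℕ) + 1) (wumX k d)) _ _ _
    (fun j _ => sp_lm k d j)).pow M
  have h2 : M • ∑ j : Fin d, (dgE ((j : ℕ) + 1) : Lw d →₀ ℕ) = topE (Lw d) M := by
    ext c
    rw [Finsupp.smul_apply, Finsupp.finsetSum_apply, sum_dgE, smul_eq_mul, mul_one]
    rfl
  rw [h2] at h1
  have h3 : (chm (wumX k d)) = ∏ j : Fin d, lm ((j : ℕ) + 1) (wumX k d) := rfl
  rw [← h3] at h1
  set Q := chm (wumX k d) ^ M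
  refine ⟨Q.coeff (topE (Lw d) M), h1.2.1, fun P => ?_⟩
  rw [MvPolynomial.coeff_mul, Finset.sum_eq_single (topE (Lw d) M, 0)]
  · rfl
  · rintro ⟨a, b⟩ hab hne
    rw [Finset.HasAntidiagonal.mem_antidiagonal] at hab
    by_contra hc
    obtain ⟨c1, -⟩ := ne_zero_and_ne_zero_of_mul hc
    have e1 := (h1.1 a (MvPolynomial.mem_support_iff.2 c1)).1
    have e2 := (h1.1 _ (MvPolynomial.mem_support_iff.2 h1.2.1)).1
    have e3 : ht1 a + ht1 b = ht1 (topE (Lw d) M) := by rw [← ht1_add, hab]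
    have hb : b = 0 := eq_zero_of_ht1 b (by omega)
    subst hb
    rw [add_zero] at hab
    have hab' : a = topE (Lw d) M := hab
    exact hne (by rw [hab'])
  · intro hh
    refine absurd ?_ hh
    rw [Finset.HasAntidiagonal.mem_antidiagonal, add_zero]

theorem evk_wumX (k : Type) [Field k] (d M : ℕ) (s : Lw d → k) :
    evk (chm (wumX k d) ^ M) s = chm ((w0 k d)⁻¹ * um s).1 ^ M := by
  rw [evk, map_pow, ← chm_map]
  congr 2
  ext a b
  have h2 : ((w0 k d)⁻¹ * um s).1 a b = ∑ c, ((w0 k d)⁻¹).1 a c * (um s).1 c b :=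
    Matrix.mul_apply
  rw [h2, Finset.sum_eq_single (Fin.rev a), w0_inv_apply, if_pos rfl, Matrix.map_apply, wumX,
    Matrix.of_apply, map_mul, MvPolynomial.eval_C, um_apply, umX, Matrix.of_apply]
  · congr 1
    split_ifs
    · rw [MvPolynomial.eval_X]
      rfl
    · rw [map_one]
    · rw [map_zero]
  · intro c _ hc
    rw [w0_inv_apply, if_neg hc, zero_mul]
  · intro hh
    exact absurd (Finset.mem_univ _) hh

end Pool.Agent.MP_b525bf_ag_SA
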