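import Pool.Agent.Lib.MP_b525bf_ag_SA.SLN

/-!
# C07: generation of `SL_(d+1)(k)` by transvections
-/

set_option autoImplicit false

namespace Pool.Agent.MP_b525bf_ag_SA

open scoped MatrixGroups

variable {k : Type} [Field k] {d : ℕ}

theorem xr_mul_xr (a b : Fin (d + 1)) (s s' : k) :
    xr a b s * xr a b s' = xr a b (s + s') := by
  by_cases h : a ≠ b
  · simp only [xr, dif_pos h]
    exact (Matrix.SpecialLinearGroup.transvection_add h s s').symm
  · simp only [xr, dif_neg h, one_mul]

theorem xr_zero (a b : Fin (d + 1)) : xr a b (0 : k) = 1 := by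
  by_cases h : a ≠ b
  · simp only [xr, dif_pos h]
    exact Matrix.SpecialLinearGroup.transvection_coeff_zero h
  · simp only [xr, dif_neg h]

private theorem xr_inv (a b : Fin (d + 1)) (s : k) : (xr a b s)⁻¹ = xr a b (-s) := by
  refine inv_eq_of_mul_eq_one_right ?_
  rw [xr_mul_xr, add_neg_cancel, xr_zero]

private theorem weyl {a b : Fin (d + 1)} (h : a ≠ b) (s : k) (hs : s ≠ 0) :
    (xr a b s * xr b a (-s⁻¹) * xr a b s).1 =
      1 - Matrix.single a a 1 - Matrix.single b b 1 + Matrix.single a b s +
        Matrix.single b a (-s⁻¹) := by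
  rw [Matrix.SpecialLinearGroup.coe_mul, Matrix.SpecialLinearGroup.coe_mul, xr_coe h,
    xr_coe h.symm]
  simp only [mul_add, add_mul, mul_one, one_mul, Matrix.single_mul_single_same,
    Matrix.single_mul_single_of_ne _ _ _ _ h.symm, Matrix.single_mul_single_of_ne _ _ _ _ h,
    Matrix.single_mul_single_of_ne, add_zero, zero_mul]
  have h1 : s * -s⁻¹ = -1 := by field_simp
  have h2 : -s⁻¹ * s = -1 := by field_simp
  have hn : ∀ (i j : Fin (d + 1)) (x : k), Matrix.single i j (-x) = -Matrix.single i j x := by
    intro i j x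
    ext i' j'
    simp only [Matrix.single_apply, Matrix.neg_apply]
    split_ifs <;> simp
  rw [h1, h2]
  simp only [neg_mul, one_mul, hn]
  abel

private theorem weyl_mul {a b : Fin (d + 1)} (h : a ≠ b) (c : k) (hc : c ≠ 0) :
    Matrix.SpecialLinearGroup.diag2n h c hc =
      (xr a b c * xr b a (-c⁻¹) * xr a b c) * (xr a b (-1) * xr b a (-(-1)⁻¹) * xr a b (-1)) := by
  refine Subtype.ext ?_
  rw [Matrix.SpecialLinearGroup.coe_mul, weyl h c hc, weyl h (-1 : k) (neg_ne_zero.2 one_ne_zero),
    Matrix.SpecialLinearGroup.diag2n_coe]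
  ext i j
  simp only [mul_add, add_mul, mul_sub, sub_mul, mul_one, one_mul, Matrix.single_mul_single_same,
    Matrix.single_mul_single_of_ne _ _ _ _ h.symm, Matrix.single_mul_single_of_ne _ _ _ _ h,
    add_zero, zero_add, sub_zero, Matrix.add_apply, Matrix.sub_apply, Matrix.single_apply,
    Matrix.diagonal_apply, Matrix.one_apply, Matrix.zero_apply]
  by_cases h1 : a = i <;> by_cases h2 : b = i <;> by_cases h3 : a = j <;> by_cases h4 : b = j <;>
    by_cases h5 : i = j <;>
    simp_all [Ne.symm, eq_comm]

theorem eq_top_of_xr (H : Subgroup SL(d + 1, k)) (h : ∀ a b, a ≠ b → ∀ s, xr a b s ∈ H) :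
    H = ⊤ := by
  rw [eq_top_iff]
  intro g _
  rcases Nat.eq_zero_or_pos d with hd | hd
  · subst hd
    have hg : g = 1 := by
      refine Subtype.ext ?_
      ext i j
      have hi : i = 0 := Subsingleton.elim (α := Fin 1) i 0
      have hj : j = 0 := Subsingleton.elim (α := Fin 1) j 0
      have h1 := g.2
      rw [hi, hj]
      have h2 : Matrix.det g.1 = g.1 0 0 := Matrix.det_fin_one g.1
      rw [h2] at h1
      rw [h1]
      rfl
    rw [hg]
    exact H.one_mem
  · haveI : Nontrivial (Fin (d + 1)) := Fin.nontrivial_iff_two_le.2 (by omega)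
    refine Matrix.SpecialLinearGroup.diagonal_transvection_induction' (fun g => g ∈ H) g ?_ ?_ ?_
    · intro i j hij c hc
      rw [weyl_mul hij c hc]
      have hx := h i j hij
      have hy := h j i hij.symm
      exact H.mul_mem (H.mul_mem (H.mul_mem (hx _) (hy _)) (hx _))
        (H.mul_mem (H.mul_mem (hx _) (hy _)) (hx _))
    · intro i j hij s
      have := h i j hij s
      rwa [xr, dif_pos hij] at this
    · intro A B hA hB
      exact H.mul_mem hA hB

private theorem xr_comm {a b c : Fin (d + 1)} (hab : a ≠ b) (hbc : b ≠ c) (hac : a ≠ c) (s t : k) :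
    xr a b s * xr b c t * xr a b (-s) * xr b c (-t) = xr a c (s * t) := by
  refine Subtype.ext ?_
  rw [Matrix.SpecialLinearGroup.coe_mul, Matrix.SpecialLinearGroup.coe_mul,
    Matrix.SpecialLinearGroup.coe_mul, xr_coe hab, xr_coe hbc, xr_coe hab, xr_coe hbc, xr_coe hac]
  simp only [mul_add, add_mul, mul_one, one_mul, Matrix.single_mul_single_same,
    Matrix.single_mul_single_of_ne _ _ _ _ hab.symm, Matrix.single_mul_single_of_ne _ _ _ _ hab,
    Matrix.single_mul_single_of_ne _ _ _ _ hbc.symm, Matrix.single_mul_single_of_ne _ _ _ _ hbc,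
    Matrix.single_mul_single_of_ne _ _ _ _ hac.symm, Matrix.single_mul_single_of_ne _ _ _ _ hac,
    add_zero, zero_mul]
  have hn : ∀ (i j : Fin (d + 1)) (x : k), Matrix.single i j (-x) = -Matrix.single i j x := by
    intro i j x
    ext i' j'
    simp only [Matrix.single_apply, Matrix.neg_apply]
    split_ifs <;> simp
  simp only [neg_mul, mul_neg, hn]
  abel

theorem eq_top_of_simple (H : Subgroup SL(d + 1, k))
    (hu : ∀ (i : Fin d) s, xr i.castSucc i.succ s ∈ H)
    (hl : ∀ (i : Fin d) s, xr i.succ i.castSucc s ∈ H) : H = ⊤ := by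
  refine eq_top_of_xr H ?_
  have key : ∀ n : ℕ, ∀ a b : Fin (d + 1), (b : ℕ) = a + (n + 1) →
      (∀ s : k, xr a b s ∈ H) ∧ (∀ s : k, xr b a s ∈ H) := by
    intro n
    induction n with
    | zero =>
      intro a b hab
      have hd : (a : ℕ) < d := by omega
      have ha : a = (⟨a, hd⟩ : Fin d).castSucc := by ext; rfl
      have hb : b = (⟨a, hd⟩ : Fin d).succ := by
        ext
        rw [Fin.val_succ]
        omega
      constructor
      · intro s
        rw [ha, hb]
        exact hu _ s
      · intro s
        rw [ha, hb]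
        exact hl _ s
    | succ n ih =>
      intro a b hab
      have hc : (a : ℕ) + (n + 1) < d + 1 := by omega
      obtain ⟨c, hcv⟩ : ∃ c : Fin (d + 1), (c : ℕ) = a + (n + 1) := ⟨⟨_, hc⟩, rfl⟩
      have h1 := ih a c hcv
      have h2 : (∀ s : k, xr c b s ∈ H) ∧ (∀ s : k, xr b c s ∈ H) := by
        have hd : (c : ℕ) < d := by omega
        have hb : b = (⟨c, hd⟩ : Fin d).succ := by
          refine Fin.ext ?_
          change (b : ℕ) = (c : ℕ) + 1
          omega
        have ha : c = (⟨c, hd⟩ : Fin d).castSucc := by ext; rfl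
        constructor
        · intro s
          rw [ha, hb]
          exact hu _ s
        · intro s
          rw [ha, hb]
          exact hl _ s
      have hac : a ≠ c := by
        intro h
        have := congrArg Fin.val h
        omega
      have hcb : c ≠ b := by
        intro h
        have := congrArg Fin.val h
        omega
      have hab' : a ≠ b := by
        intro h
        have := congrArg Fin.val h
        omega
      constructor
      · intro s
        have := xr_comm hac hcb hab' s 1
        rw [mul_one] at this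
        rw [← this]
        exact H.mul_mem (H.mul_mem (H.mul_mem (h1.1 _) (h2.1 _)) (h1.1 _)) (h2.1 _)
      · intro s
        have := xr_comm hcb.symm hac.symm hab'.symm s 1
        rw [mul_one] at this
        rw [← this]
        exact H.mul_mem (H.mul_mem (H.mul_mem (h2.2 _) (h1.2 _)) (h2.2 _)) (h1.2 _)
  intro a b hab s
  rcases lt_trichotomy a b with h | h | h
  · have h' : (a : ℕ) < b := h
    exact (key ((b : ℕ) - a - 1) a b (by omega)).1 s
  · exact absurd h hab
  · have h' : (b : ℕ) < a := h
    exact (key ((a : ℕ) - b - 1) b a (by omega)).2 s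

theorem exists_list (g : SL(d + 1, k)) :
    ∃ L : List (Fin (d + 1) × Fin (d + 1) × k), (∀ x ∈ L, x.1 ≠ x.2.1) ∧
      g = (L.map fun x => xr x.1 x.2.1 x.2.2).prod := by
  let H : Subgroup SL(d + 1, k) :=
    { carrier := {g | ∃ L : List (Fin (d + 1) × Fin (d + 1) × k), (∀ x ∈ L, x.1 ≠ x.2.1) ∧
        g = (L.map fun x => xr x.1 x.2.1 x.2.2).prod}
      mul_mem' := by
        rintro _ _ ⟨L, hL, rfl⟩ ⟨L', hL', rfl⟩
        refine ⟨L ++ L', ?_, ?_⟩
        · intro x hx
          rcases List.mem_append.1 hx with h | h
          · exact hL x h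
          · exact hL' x h
        · rw [List.map_append, List.prod_append]
      one_mem' := ⟨[], by simp, by simp⟩
      inv_mem' := by
        rintro _ ⟨L, hL, rfl⟩
        induction L with
        | nil => exact ⟨[], by simp, by simp⟩
        | cons y L ih =>
          obtain ⟨L', hL', h'⟩ := ih fun x hx => hL x (List.mem_cons_of_mem _ hx)
          refine ⟨L' ++ [(y.1, y.2.1, -y.2.2)], ?_, ?_⟩
          · intro x hx
            rcases List.mem_append.1 hx with h | h
            · exact hL' x h
            · rw [List.mem_singleton.1 h]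
              exact hL y List.mem_cons_self
          · rw [List.map_cons, List.prod_cons, mul_inv_rev, h', List.map_append, List.prod_append,
              xr_inv]
            simp }
  have hH : H = ⊤ := by
    refine eq_top_of_xr H fun a b hab s => ⟨[(a, b, s)], ?_, ?_⟩
    · intro x hx
      rw [List.mem_singleton.1 hx]
      exact hab
    · simp
  have : g ∈ H := by rw [hH]; exact Subgroup.mem_top g
  exact this

private theorem xr_pow (a b : Fin (d + 1)) (s : k) (n : ℕ) :
    xr a b s ^ n = xr a b (n * s) := by
  induction n with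
  | zero => rw [pow_zero, Nat.cast_zero, zero_mul, xr_zero]
  | succ n ih => rw [pow_succ, ih, xr_mul_xr, Nat.cast_succ, add_mul, one_mul]

theorem hom_eq_one (p : ℕ) [Fact p.Prime] [CharP k p] (χ : SL(d + 1, k) →* k)
    (g : SL(d + 1, k)) : χ g = 1 := by
  have hH : χ.ker = ⊤ := by
    refine eq_top_of_xr _ fun a b _ s => ?_
    rw [MonoidHom.mem_ker]
    have h1 : χ (xr a b s) ^ p = 1 := by
      rw [← map_pow, xr_pow, CharP.cast_eq_zero, zero_mul, xr_zero, map_one]
    have h2 : frobenius k p (χ (xr a b s)) = frobenius k p 1 := by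
      rw [frobenius_def, frobenius_def, h1, one_pow]
    exact frobenius_inj k p h2
  have : g ∈ χ.ker := by rw [hH]; exact Subgroup.mem_top g
  exact this

end Pool.Agent.MP_b525bf_ag_SA
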