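import Pool.Agent.Lib.MP_b525bf_ag_SA.TA1
import Pool.Agent.Lib.MP_b525bf_ag_SA.GEN

/-!
# C23: invariance of `tau`
-/

set_option autoImplicit false

namespace Pool.Agent.MP_b525bf_ag_SA

open scoped MatrixGroups

theorem SI.left {k A : Type} [Field k] {d : ℕ} [CommRing A] [Algebra k A] {m : ℕ}
    {f : SL(d + 1, k) → A} (hf : SI m f) (h : SL(d + 1, k)) : SI m fun x => f (h * x) := by
  refine ⟨fun x a b s hab => ?_, fun x t => ?_⟩
  · change f (h * (x * xr a b s)) = f (h * x)
    rw [← mul_assoc, hf.1 _ a b s hab]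
  · change f (h * (x * dgn t)) = _ • f (h * x)
    rw [← mul_assoc, hf.2]

theorem SI.smul_fn {k A : Type} [Field k] {d : ℕ} [CommRing A] [Algebra k A] {m m' : ℕ}
    {g : SL(d + 1, k) → k} {f : SL(d + 1, k) → A} (hg : SI m g) (hf : SI m' f) :
    SI (m + m') fun x => g x • f x := by
  refine ⟨fun x a b s hab => ?_, fun x t => ?_⟩
  · change g (x * xr a b s) • f (x * xr a b s) = g x • f x
    rw [hg.1 _ a b s hab, hf.1 _ a b s hab]
  · change g (x * dgn t) • f (x * dgn t) = _ • (g x • f x)
    rw [hg.2, hf.2, smul_smul, smul_smul, smul_eq_mul, pow_add]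
    congr 1
    ring

theorem tau_translate (p : ℕ) [Fact p.Prime] {k A : Type} [Field k] [Infinite k] [CharP k p]
    {d : ℕ} [CommRing A] [Algebra k A] [CharP A p] (M e : ℕ) (hM : M + 1 = p ^ e) {D : ℕ}
    {b : (Lw d → k) →₀ k} (hb : IsTop M D b) (f : SL(d + 1, k) → A) (hf : PolyFn D f)
    (hsi : SI (2 * M) f) (h : SL(d + 1, k)) : tau b (fun x => f (h * x)) = tau b f := by
  let H : Subgroup SL(d + 1, k) :=
    { carrier := {h | ∀ f : SL(d + 1, k) → A, PolyFn D f → SI (2 * M) f →
        tau b (fun x => f (h * x)) = tau b f}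
      one_mem' := fun f _ _ => by simp only [one_mul]
      mul_mem' := fun {h h'} hh hh' f hf hsi => by
        have h1 := hh' (fun x => f (h * x)) (hf.left h) (hsi.left h)
        have h2 := hh f hf hsi
        rw [← h2, ← h1]
        simp only [mul_assoc]
      inv_mem' := fun {h} hh f hf hsi => by
        have h1 := hh (fun x => f (h⁻¹ * x)) (hf.left h⁻¹) (hsi.left h⁻¹)
        rw [← h1]
        simp only [inv_mul_cancel_left] }
  have hH : H = ⊤ := eq_top_of_simple H
    (fun i s f hf hsi => (tau_simple p M e hM hb f hf hsi i s).2)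
    (fun i s f hf hsi => (tau_simple p M e hM hb f hf hsi i s).1)
  have h1 : h ∈ H := by
    rw [hH]
    exact Subgroup.mem_top h
  exact h1 f hf hsi

end Pool.Agent.MP_b525bf_ag_SA
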