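import Pool.Agent.Lib.MP_b525bf_ag_SA.FDV
import Pool.Agent.Lib.MP_b525bf_ag_SA.CZE
import Pool.Agent.Lib.MP_b525bf_ag_SA.TA2
import Pool.Agent.Lib.MP_b525bf_ag_SA.TPB

/-!
# C27: the reproducing formula

RECIPE. `rep`: `f x := chm (w0⁻¹ * (y⁻¹ * x)).1 ^ M * ψ x` is in `PolyFn D` (`polyFn_chm_pow` with
`g = w0⁻¹ * y⁻¹`, `PolyFn.mul`, `.mono`) and `SI (2 * M)` (`SI_chm_pow`, `SI.smul_fn`), so by
`tau_translate` (`A = k`, `h = y`) the left side is `tau b (fun x => f (y * x))`, `f (y * x) = chm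
(w0⁻¹ * x).1 ^ M * ψ (y * x)`. Let `ψ (y * x) = evn P x` (`PolyFn.left`), `f (y * x) = evn P' x`
of degree `≤ D`; by `tau_eq` the value is `(res P').coeff top`, and `res P' = chm (wumX k d) ^ M *
res P` by `eq_of_evk`, `evk_res`, `evk_wumX`; `hc₀`; `constantCoeff (res P) = evk (res P) 0 = ψ (y *
um 0) = ψ y` (`um 0 = 1`). `gram_ne_zero`: otherwise there is `ξ ≠ 0` with `∑ a, ξ a * tau b (ψ a * ψ
b') = 0` for all `b'` (`Matrix.exists_mulVec_eq_zero_iff`, or `exists_vecMul`); `ψ = ∑ ξ a • ψ a`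
satisfies `tau b (ψ * χ) = 0` for all `χ` in the span of the `ψ b'`, in particular for `χ x = chm
(w0⁻¹ * (y⁻¹ * x)).1 ^ M` (`hspan` with `g = w0⁻¹ * y⁻¹`), so `c₀ * ψ y = 0` for all `y`: `ψ = 0`,
against the linear independence.
-/

set_option autoImplicit false

namespace Pool.Agent.MP_b525bf_ag_SA

open scoped MatrixGroups

private theorem um_zero (k : Type) [Field k] (d : ℕ) : um (0 : Lw d → k) = 1 := by
  refine Subtype.ext ?_
  ext a b
  rw [um_apply]
  change _ = (1 : Matrix (Fin (d + 1)) (Fin (d + 1)) k) a b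
  by_cases h : b < a
  · rw [dif_pos h, Matrix.one_apply, if_neg h.ne']
    rfl
  · rw [dif_neg h, Matrix.one_apply]

theorem rep (p : ℕ) [Fact p.Prime] {k : Type} [Field k] [Infinite k] [CharP k p] {d : ℕ}
    (M e : ℕ) (hM : M + 1 = p ^ e) {D : ℕ} {b : (Lw d → k) →₀ k} (hb : IsTop M D b)
    (hD : 2 * (M * (d * ((d + 1) * 1))) ≤ D) (c₀ : k)
    (hc₀ : ∀ P : MvPolynomial (Lw d) k,
      (chm (wumX k d) ^ M * P).coeff (topE (Lw d) M) = c₀ * MvPolynomial.constantCoeff P)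
    (ψ : SL(d + 1, k) → k) (hψ : PolyFn (M * (d * ((d + 1) * 1))) ψ) (hsi : SI M ψ)
    (y : SL(d + 1, k)) :
    tau b (fun x => chm ((w0 k d)⁻¹ * (y⁻¹ * x)).1 ^ M * ψ x) = c₀ * ψ y := by
  set f : SL(d + 1, k) → k := fun x => chm ((w0 k d)⁻¹ * (y⁻¹ * x)).1 ^ M * ψ x with hf
  have hfe : f = fun x => chm (((w0 k d)⁻¹ * y⁻¹) * x).1 ^ M * ψ x := by
    funext x
    rw [hf]
    simp only [mul_assoc]
  have hfP : PolyFn D f := by
    rw [hfe]
    exact ((polyFn_chm_pow k d M ((w0 k d)⁻¹ * y⁻¹)).mul hψ).mono (by omega)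
  have hfS : SI (2 * M) f := by
    rw [hfe, two_mul]
    exact SI.smul_fn (SI_chm_pow k d M ((w0 k d)⁻¹ * y⁻¹)) hsi
  have h1 := tau_translate p M e hM hb f hfP hfS y
  have hfy : ∀ x, f (y * x) = chm ((w0 k d)⁻¹ * x).1 ^ M * ψ (y * x) := by
    intro x
    rw [hf]
    simp only [inv_mul_cancel_left]
  obtain ⟨P, hP, hPe⟩ := hψ.left y
  obtain ⟨P', hP', hPe'⟩ := hfP.left y
  rw [← h1, tau_eq hb (fun x => f (y * x)) P' hP' hPe']
  have h2 : res P' = chm (wumX k d) ^ M * res P := by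
    refine eq_of_evk (k := k) _ _ fun s => ?_
    have h3 : evk (chm (wumX k d) ^ M * res P) s =
        evk (chm (wumX k d) ^ M) s * evk (res P) s := by
      unfold evk
      rw [map_mul]
    rw [h3, evk_res, ← hPe' (um s), evk_res, ← hPe (um s), evk_wumX]
    exact hfy (um s)
  rw [h2, hc₀]
  congr 1
  have h3 : MvPolynomial.constantCoeff (res P) = evk (res P) (0 : Lw d → k) := by
    unfold evk
    have h4 : (fun c : Lw d => algebraMap k k ((0 : Lw d → k) c)) = fun _ => 0 := by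
      funext c
      simp
    rw [h4, MvPolynomial.eval_zero']
  rw [h3, evk_res, ← hPe, um_zero]
  change ψ (y * 1) = ψ y
  rw [mul_one]

/-- `tau b` as a linear map. -/
private noncomputable def tauL {k : Type} [Field k] {d : ℕ} (b : (Lw d → k) →₀ k) :
    (SL(d + 1, k) → k) →ₗ[k] k where
  toFun f := tau b f
  map_add' f g := by
    unfold tau
    rw [← Finsupp.sum_add]
    exact Finsupp.sum_congr fun s _ => by rw [Pi.add_apply, smul_add]
  map_smul' c f := by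
    unfold tau
    rw [RingHom.id_apply, Finsupp.smul_sum]
    exact Finsupp.sum_congr fun s _ => by rw [Pi.smul_apply, smul_comm]

theorem gram_ne_zero (p : ℕ) [Fact p.Prime] {k : Type} [Field k] [Infinite k] [CharP k p] {d : ℕ}
    (M e : ℕ) (hM : M + 1 = p ^ e) {D : ℕ} {b : (Lw d → k) →₀ k} (hb : IsTop M D b)
    (hD : 2 * (M * (d * ((d + 1) * 1))) ≤ D) {N : ℕ} (ψ : Fin (N + 1) → SL(d + 1, k) → k)
    (hli : LinearIndependent k ψ) (hψ : ∀ a, PolyFn (M * (d * ((d + 1) * 1))) (ψ a))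
    (hsi : ∀ a, SI M (ψ a))
    (hspan : ∀ g : SL(d + 1, k), (fun x => chm (g * x).1 ^ M) ∈
      Submodule.span k (Set.range ψ)) :
    (Matrix.of fun a a' => tau b fun x => ψ a x * ψ a' x).det ≠ 0 := by
  intro hdet
  obtain ⟨ξ, hξ0, hξ⟩ := Matrix.exists_vecMul_eq_zero_iff.2 hdet
  obtain ⟨c₀, hc₀, hcc⟩ := exists_c0 k d M
  set Ψ : SL(d + 1, k) → k := fun x => ∑ a, ξ a • ψ a x with hΨ
  have hΨP : PolyFn (M * (d * ((d + 1) * 1))) Ψ :=
    polyFn_sum Finset.univ _ fun a _ => (hψ a).const_smul (ξ a)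
  have hΨS : SI M Ψ := by
    refine ⟨fun x a b' s h => ?_, fun x t => ?_⟩
    · rw [hΨ]
      exact Finset.sum_congr rfl fun c _ => by rw [(hsi c).1 x a b' s h]
    · rw [hΨ]
      change ∑ a, ξ a • ψ a (x * dgn t) = _ • ∑ a, ξ a • ψ a x
      rw [Finset.smul_sum]
      exact Finset.sum_congr rfl fun c _ => by rw [(hsi c).2 x t, smul_comm]
  -- the functions in the span are orthogonal to `Ψ`
  have horth : ∀ χ ∈ Submodule.span k (Set.range ψ), tau b (fun x => χ x * Ψ x) = 0 := by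
    intro χ hχ
    have key : ∀ χ : SL(d + 1, k) → k, (fun x => χ x * Ψ x) = χ * Ψ := fun χ => rfl
    rw [key]
    change tauL b (χ * Ψ) = 0
    refine Submodule.span_induction (p := fun χ _ => tauL b (χ * Ψ) = 0) ?_ ?_ ?_ ?_ hχ
    · rintro _ ⟨a', rfl⟩
      have h1 : ψ a' * Ψ = ∑ a, ξ a • (ψ a * ψ a') := by
        funext x
        rw [Pi.mul_apply, Finset.sum_apply, hΨ]
        simp only [Pi.smul_apply, Pi.mul_apply, smul_eq_mul]
        rw [Finset.mul_sum]
        exact Finset.sum_congr rfl fun a _ => by ring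
      rw [h1, map_sum]
      simp only [map_smul]
      have h2 := congrFun hξ a'
      rw [Matrix.vecMul, dotProduct] at h2
      exact h2
    · rw [zero_mul, map_zero]
    · intro f g _ _ hf hg
      rw [add_mul, map_add, hf, hg, add_zero]
    · intro c f _ hf
      rw [smul_mul_assoc, map_smul, hf, smul_zero]
  have hΨ0 : ∀ y, Ψ y = 0 := by
    intro y
    have h1 := rep p M e hM hb hD c₀ hcc Ψ hΨP hΨS y
    have h2 := horth _ (hspan ((w0 k d)⁻¹ * y⁻¹))
    have h3 : (fun x => chm ((w0 k d)⁻¹ * (y⁻¹ * x)).1 ^ M * Ψ x) =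
        fun x => chm (((w0 k d)⁻¹ * y⁻¹) * x).1 ^ M * Ψ x := by
      funext x
      simp only [mul_assoc]
    rw [h3, h2] at h1
    exact (mul_eq_zero.1 h1.symm).resolve_left hc₀
  apply hξ0
  funext a
  refine Fintype.linearIndependent_iff.1 hli ξ ?_ a
  funext x
  rw [Finset.sum_apply]
  exact hΨ0 x

end Pool.Agent.MP_b525bf_ag_SA
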