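import Pool.Agent.Lib.MP_b525bf_ag_SA.PH3
import Pool.Agent.Lib.MP_b525bf_ag_SA.REP
import Pool.Agent.Lib.MP_b525bf_ag_R.GRC

/-!
# C28: geometric reductivity of `SL_(d+1)(k)`
-/

set_option autoImplicit false

namespace Pool.Agent.MP_b525bf_ag_SA

open scoped MatrixGroups

private theorem COR_swap {k A : Type} [Field k] {d : ℕ} [CommRing A] [Algebra k A]
    (b : (Lw d → k) →₀ k) (G : SL(d + 1, k) → SL(d + 1, k) → A) :
    tau b (fun x => tau b (fun y => G x y)) = tau b (fun y => tau b (fun x => G x y)) := by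
  unfold tau
  simp only [Finsupp.sum, Finset.smul_sum]
  rw [Finset.sum_comm]
  refine Finset.sum_congr rfl fun i _ => Finset.sum_congr rfl fun j _ => ?_
  rw [smul_comm]

private theorem COR_congr {k A : Type} [Field k] {d : ℕ} [CommRing A] [Algebra k A]
    (b : (Lw d → k) →₀ k) {f g : SL(d + 1, k) → A} (h : ∀ x, f x = g x) : tau b f = tau b g := by
  have : f = g := funext h
  rw [this]

private theorem COR_smul {k A : Type} [Field k] {d : ℕ} [CommRing A] [Algebra k A]
    (b : (Lw d → k) →₀ k) (c : k) (f : SL(d + 1, k) → A) :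
    tau b (fun x => c • f x) = c • tau b f := by
  unfold tau
  simp only [Finsupp.sum, Finset.smul_sum]
  refine Finset.sum_congr rfl fun i _ => ?_
  rw [smul_comm]

private theorem COR_smul_w {k A : Type} [Field k] {d : ℕ} [CommRing A] [Algebra k A]
    (b : (Lw d → k) →₀ k) (w : A) (f : SL(d + 1, k) → k) :
    tau b (fun x => f x • w) = tau b f • w := by
  unfold tau
  simp only [Finsupp.sum, Finset.sum_smul]
  refine Finset.sum_congr rfl fun i _ => ?_
  rw [smul_eq_mul, mul_smul]

private theorem COR_mul {k : Type} [Field k] {d : ℕ}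
    (b : (Lw d → k) →₀ k) (c : k) (f : SL(d + 1, k) → k) :
    tau b (fun x => c * f x) = c * tau b f := COR_smul b c f

private theorem COR_sum {k A : Type} [Field k] {d : ℕ} [CommRing A] [Algebra k A]
    (b : (Lw d → k) →₀ k) {τ : Type} (s : Finset τ) (f : τ → SL(d + 1, k) → A) :
    tau b (fun x => ∑ i ∈ s, f i x) = ∑ i ∈ s, tau b (f i) := by
  unfold tau
  simp only [Finsupp.sum, Finset.smul_sum]
  rw [Finset.sum_comm]

private theorem COR_map {k A : Type} [Field k] {d : ℕ} [CommRing A] [Algebra k A]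
    (b : (Lw d → k) →₀ k) (φ : A ≃ₐ[k] A) (f : SL(d + 1, k) → A) :
    φ (tau b f) = tau b (fun x => φ (f x)) := by
  unfold tau
  simp only [Finsupp.sum, map_sum, map_smul]

private theorem COR_sub_mem {k A : Type} [Field k] {d : ℕ} [CommRing A] [Algebra k A]
    (b : (Lw d → k) →₀ k) (E : Submodule k A) (f g : SL(d + 1, k) → A)
    (h : ∀ x, f x - g x ∈ E) : tau b f - tau b g ∈ E := by
  unfold tau
  simp only [Finsupp.sum]
  rw [← Finset.sum_sub_distrib]
  refine Submodule.sum_mem _ fun i _ => ?_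
  rw [← smul_sub]
  exact Submodule.smul_mem _ _ (h _)

theorem gr_core (p : ℕ) [Fact p.Prime] {k : Type} [Field k] [IsAlgClosed k] [CharP k p] {d : ℕ}
    {A : Type} [CommRing A] [Algebra k A] (F : SL(d + 1, k) → A)
    (P : MvPolynomial (Fin (d + 1) × Fin (d + 1)) A) (hF : ∀ g, F g = evn P g.1) (w : A)
    (E : Submodule k A) (hE : ∀ g, F g - w ∈ E) :
    ∃ (N : ℕ) (l : A), l - w ^ (N + 1) ∈ E * (Submodule.span k {w} ⊔ E) ^ N ∧
      ∀ (φ : A ≃ₐ[k] A) (h : SL(d + 1, k)) (c : k), (∀ g, φ (F g) = c • F (h * g)) →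
        φ l = c ^ (N + 1) • l := by
  rcases subsingleton_or_nontrivial A with hA | hA
  · refine ⟨0, w, ?_, fun φ h c _ => Subsingleton.elim _ _⟩
    rw [Subsingleton.elim (w - w ^ (0 + 1)) 0]
    exact Submodule.zero_mem _
  have : Infinite k := IsAlgClosed.instInfinite
  have : CharP A p := charP_of_injective_algebraMap (algebraMap k A).injective p
  obtain ⟨N₀, hN₀⟩ := exists_phi F P hF
  have hp2 : 2 ≤ p := (Fact.out : p.Prime).two_le
  have hlt : N₀ < p ^ N₀ := Nat.lt_pow_self hp2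
  obtain ⟨M, hM⟩ : ∃ M, M + 1 = p ^ N₀ := ⟨p ^ N₀ - 1, by omega⟩
  have hMN : N₀ ≤ M := by omega
  obtain ⟨Φ, D₁, hΦx, hΦy, hSx, hSy, hΦφ, hΦE⟩ := hN₀ M hMN
  obtain ⟨N, ψ, hli, hψ, hsi, hspan, hR⟩ := exists_basis p k d M
  obtain ⟨c₀, hc₀ne, hc₀⟩ := exists_c0 k d M
  obtain ⟨b, hb⟩ := exists_isTop k (σ := Lw d) M (D₁ + 2 * (M * (d * ((d + 1) * 1))))
  have hD : 2 * (M * (d * ((d + 1) * 1))) ≤ D₁ + 2 * (M * (d * ((d + 1) * 1))) := by omega
  set B : Matrix (Fin (N + 1)) (Fin (N + 1)) A := Matrix.of fun a a' =>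
    tau b (fun x => tau b (fun y => (ψ a x * ψ a' y) • Φ x (y * w0 k d))) with hBdef
  have hB : ∀ a a', B a a' =
    tau b (fun x => tau b (fun y => (ψ a x * ψ a' y) • Φ x (y * w0 k d))) := fun a a' => rfl
  set gr : Matrix (Fin (N + 1)) (Fin (N + 1)) k :=
    Matrix.of fun a a' => tau b fun x => ψ a x * ψ a' x with hgr
  have hgr0 : gr.det ≠ 0 := gram_ne_zero p M N₀ hM hb hD ψ hli hψ hsi hspan
  -- (2)
  have h2 : ∀ a a', B a a' - (c₀ • gr) a a' • w ∈ E := by
    intro a a'
    have h21 : tau b (fun x => tau b (fun y =>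
        (ψ a x * ψ a' y) • (chm ((y * w0 k d)⁻¹ * x).1 ^ M • w))) = (c₀ • gr) a a' • w := by
      have h22 : ∀ x : SL(d + 1, k), tau b (fun y =>
          (ψ a x * ψ a' y) • (chm ((y * w0 k d)⁻¹ * x).1 ^ M • w)) =
          tau b (fun y => ψ a' y * (chm ((w0 k d)⁻¹ * (y⁻¹ * x)).1 ^ M * ψ a x)) • w := by
        intro x
        rw [← COR_smul_w]
        refine COR_congr b fun y => ?_
        rw [smul_smul, mul_inv_rev, mul_assoc (w0 k d)⁻¹]
        congr 1
        ring
      rw [COR_congr b h22, COR_smul_w, COR_swap b (fun x y =>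
        ψ a' y * (chm ((w0 k d)⁻¹ * (y⁻¹ * x)).1 ^ M * ψ a x))]
      congr 1
      have h23 : ∀ y : SL(d + 1, k), tau b (fun x =>
          ψ a' y * (chm ((w0 k d)⁻¹ * (y⁻¹ * x)).1 ^ M * ψ a x)) = c₀ * (ψ a y * ψ a' y) := by
        intro y
        rw [COR_mul, rep p M N₀ hM hb hD c₀ hc₀ (ψ a) (hψ a) (hsi a) y]
        ring
      rw [COR_congr b h23, COR_mul]
      rfl
    rw [← h21, hB]
    refine COR_sub_mem b E _ _ fun x => COR_sub_mem b E _ _ fun y => ?_
    rw [← smul_sub]
    exact Submodule.smul_mem _ _ (hΦE w E hE x (y * w0 k d))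
  have h3 := Pool.Agent.MP_b525bf_ag_R.det_sub_mem B (c₀ • gr) w E h2
  have hdet : (c₀ • gr).det ≠ 0 := by
    rw [Matrix.det_smul]
    exact mul_ne_zero (pow_ne_zero _ hc₀ne) hgr0
  refine ⟨N, (c₀ • gr).det⁻¹ • B.det, ?_, ?_⟩
  · have h4 : (c₀ • gr).det⁻¹ • B.det - w ^ (N + 1) =
        (c₀ • gr).det⁻¹ • (B.det - (c₀ • gr).det • w ^ (N + 1)) := by
      rw [smul_sub, smul_smul, inv_mul_cancel₀ hdet, one_smul]
    rw [h4]
    exact Submodule.smul_mem _ _ h3
  · intro φ h c hφ
    obtain ⟨R, hRdet, hRψ⟩ := hR h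
    have hΦ' := hΦφ φ c h hφ
    -- the translated integrand, in the variable y and in the variable x
    have hy : ∀ (a a' : Fin (N + 1)) (x x' : SL(d + 1, k)),
        tau b (fun y => (ψ a x * ψ a' y) • Φ x' (h * y * w0 k d)) =
        tau b (fun y => (ψ a x * ψ a' (h⁻¹ * y)) • Φ x' (y * w0 k d)) := by
      intro a a' x x'
      have h5 := (((hψ a').left h⁻¹).smul_fn ((hΦy x').right (w0 k d))).mono
        (show (M * (d * ((d + 1) * 1))) + D₁ ≤ D₁ + 2 * (M * (d * ((d + 1) * 1))) by omega)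
      have h6 := ((hsi a').left h⁻¹).smul_fn (hSy x')
      have h7 := tau_translate p M N₀ hM hb _ h5 (by rw [two_mul]; exact h6) h
      have h8 : ∀ y : SL(d + 1, k), (ψ a x * ψ a' y) • Φ x' (h * y * w0 k d) =
          ψ a x • (ψ a' (h⁻¹ * (h * y)) • Φ x' (h * y * w0 k d)) := by
        intro y
        rw [inv_mul_cancel_left, smul_smul]
      have h9 : ∀ y : SL(d + 1, k), (ψ a x * ψ a' (h⁻¹ * y)) • Φ x' (y * w0 k d) =
          ψ a x • (ψ a' (h⁻¹ * y) • Φ x' (y * w0 k d)) := by
        intro y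
        rw [smul_smul]
      rw [COR_congr b h8, COR_congr b h9, COR_smul, COR_smul, h7]
    have hx : ∀ (a : Fin (N + 1)) (r : k) (y : SL(d + 1, k)),
        tau b (fun x => (ψ a x * r) • Φ (h * x) y) =
        tau b (fun x => (ψ a (h⁻¹ * x) * r) • Φ x y) := by
      intro a r y
      have h5 := (((hψ a).left h⁻¹).smul_fn (hΦx y)).mono
        (show (M * (d * ((d + 1) * 1))) + D₁ ≤ D₁ + 2 * (M * (d * ((d + 1) * 1))) by omega)
      have h6 := ((hsi a).left h⁻¹).smul_fn (hSx y)
      have h7 := tau_translate p M N₀ hM hb _ h5 (by rw [two_mul]; exact h6) h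
      have h8 : ∀ x : SL(d + 1, k), (ψ a x * r) • Φ (h * x) y =
          r • (ψ a (h⁻¹ * (h * x)) • Φ (h * x) y) := by
        intro x
        rw [inv_mul_cancel_left, smul_smul, mul_comm]
      have h9 : ∀ x : SL(d + 1, k), (ψ a (h⁻¹ * x) * r) • Φ x y =
          r • (ψ a (h⁻¹ * x) • Φ x y) := by
        intro x
        rw [smul_smul, mul_comm]
      rw [COR_congr b h8, COR_congr b h9, COR_smul, COR_smul, h7]
    have h10 : ∀ a a', φ (B a a') = c • ∑ e, ∑ e', (R e a * R e' a') • B e e' := by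
      intro a a'
      rw [hB, COR_map]
      have h11 : ∀ x : SL(d + 1, k),
          φ (tau b (fun y => (ψ a x * ψ a' y) • Φ x (y * w0 k d))) =
          c • tau b (fun y => (ψ a x * ψ a' (h⁻¹ * y)) • Φ (h * x) (y * w0 k d)) := by
        intro x
        rw [COR_map, ← hy, ← COR_smul]
        refine COR_congr b fun y => ?_
        rw [map_smul, hΦ', smul_comm, mul_assoc h]
      rw [COR_congr b h11, COR_smul, COR_swap b (fun x y =>
        (ψ a x * ψ a' (h⁻¹ * y)) • Φ (h * x) (y * w0 k d))]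
      rw [COR_congr b (fun y => hx a (ψ a' (h⁻¹ * y)) (y * w0 k d))]
      rw [← COR_swap b (fun x y => (ψ a (h⁻¹ * x) * ψ a' (h⁻¹ * y)) • Φ x (y * w0 k d))]
      congr 1
      have h12 : ∀ x y : SL(d + 1, k), (ψ a (h⁻¹ * x) * ψ a' (h⁻¹ * y)) • Φ x (y * w0 k d) =
          ∑ e, ∑ e', (R e a * R e' a') • ((ψ e x * ψ e' y) • Φ x (y * w0 k d)) := by
        intro x y
        rw [hRψ, hRψ, Finset.sum_mul_sum, Finset.sum_smul]
        refine Finset.sum_congr rfl fun e _ => ?_
        rw [Finset.sum_smul]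
        refine Finset.sum_congr rfl fun e' _ => ?_
        rw [smul_smul]
        congr 1
        ring
      rw [COR_congr b (fun x => COR_congr b (h12 x))]
      have h13 : ∀ x : SL(d + 1, k), tau b (fun y =>
          ∑ e, ∑ e', (R e a * R e' a') • ((ψ e x * ψ e' y) • Φ x (y * w0 k d))) =
          ∑ e, ∑ e', (R e a * R e' a') • tau b (fun y =>
            ((ψ e x * ψ e' y) • Φ x (y * w0 k d))) := by
        intro x
        rw [COR_sum]
        refine Finset.sum_congr rfl fun e _ => ?_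
        rw [COR_sum]
        refine Finset.sum_congr rfl fun e' _ => ?_
        rw [COR_smul]
      rw [COR_congr b h13, COR_sum]
      refine Finset.sum_congr rfl fun e _ => ?_
      rw [COR_sum]
      refine Finset.sum_congr rfl fun e' _ => ?_
      rw [COR_smul]
      rfl
    have h14 : φ B.det = c ^ (N + 1) • B.det := by
      have h15 : B.map φ = algebraMap k A c •
          ((R.map (algebraMap k A)).transpose * B * R.map (algebraMap k A)) := by
        ext a a'
        rw [Matrix.map_apply, h10, Matrix.smul_apply, Matrix.mul_apply, Algebra.smul_def,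
          smul_eq_mul]
        congr 1
        rw [Finset.sum_comm]
        refine Finset.sum_congr rfl fun e' _ => ?_
        rw [Matrix.mul_apply, Finset.sum_mul]
        refine Finset.sum_congr rfl fun e _ => ?_
        rw [Matrix.transpose_apply, Matrix.map_apply, Matrix.map_apply, Algebra.smul_def, map_mul]
        ring
      have h16 : φ B.det = (B.map φ).det := by
        have := (φ : A ≃+* A).toRingHom.map_det B
        exact this
      have h17 : (R.map (algebraMap k A)).det = 1 := by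
        have := (algebraMap k A).map_det R
        rw [hRdet, map_one] at this
        exact this.symm
      rw [h16, h15, Matrix.det_smul, Matrix.det_mul, Matrix.det_mul, Matrix.det_transpose, h17,
        one_mul, mul_one, Fintype.card_fin, Algebra.smul_def, map_pow]
    rw [map_smul, h14, smul_comm]

end Pool.Agent.MP_b525bf_ag_SA
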