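import Pool.Agent.Lib.MP_b525bf_ag_SA.DLM

/-!
# The root group data of `SL_(d 0 + 1)(k) × ⋯ × (k^*)^r`
-/

set_option autoImplicit false

namespace Pool.Agent.MP_b525bf_ag_SA

open Pool.Agent.MP_b525bf_ag_R (up lo dg chi IsRat)
open scoped MatrixGroups

/-- The root group data. -/
def dataA (k : Type) [Field k] {m : ℕ} (d : Fin m → ℕ) (r : ℕ) :
    RG k (IA d r) (RA d) (SLA k d r) where
  T := torA
  φ := phiA k r
  neg := negA
  co := coAA r
  ht := htA
  neg_neg _ := rfl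
  neg_up := phiA_neg_up
  co_neg := coAA_neg
  ht_neg α := by
    change ((α.1.2.1 : ℕ) : ℤ) - (α.1.2.2 : ℕ) = -(((α.1.2.2 : ℕ) : ℤ) - (α.1.2.1 : ℕ))
    ring
  ht_ne := htA_ne
  φ_dg := phiA_dg
  T_up := torA_up
  comm := phiA_comm
  gen := gen_A

end Pool.Agent.MP_b525bf_ag_SA
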