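import Pool.Agent.Lib.MP_b525bf_ag_SA.DAT
import Pool.Agent.Lib.MP_b525bf_ag_SA.ULU

/-!
# D02: the Borel subgroup

RECIPE. `≥`: the generators of `(dataA k d r).B` are upper triangular (`dgn_coe`, `xr_coe`,
`0 < htA α` means `a < b`). `≤`: let `g` be in `borel`. It is the product of the `slf i (g.1 i)` and
an element of the torus, so it is enough that `slf i u ∈ B` for each upper triangular `u ∈ SL(d + 1,
k)` (write the product of the `slf i (g.1 i)` as `Finset.noncommProd`, or by induction on the set
of the `i` with `g.1 i ≠ 1`). `u = dgn t * u'` with `u'` upper unitriangular (`t` = the partial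
products of the diagonal entries of `u`, `prod_ex_lt`), and `u'` is a product of `xr a b s`, `a <
b`: clear the entries above the diagonal column by column (induction on the number of nonzero entries
above the diagonal, or: `u'` is the product over `b` of the matrices `∏_(a < b) xr a b (s_ab)`).
-/

set_option autoImplicit false

namespace Pool.Agent.MP_b525bf_ag_SA

open Pool.Agent.MP_b525bf_ag_R (up lo dg chi IsRat)
open scoped MatrixGroups

/-- A diagonal matrix of determinant one is in the torus. -/
theorem exists_dgn (k : Type) [Field k] (d : ℕ) (w : Fin (d + 1) → kˣ) (hw : ∏ a, w a = 1) :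
    ∃ t : Fin d → kˣ, ∀ a, ex t a = w a := by
  -- partial products
  let P : ℕ → kˣ := fun n => ∏ a ∈ Finset.univ.filter (fun a : Fin (d + 1) => (a : ℕ) < n), w a
  have hP0 : P 0 = 1 := by
    simp [P]
  have hPd : P (d + 1) = 1 := by
    have h : Finset.univ.filter (fun a : Fin (d + 1) => (a : ℕ) < d + 1) = Finset.univ := by
      ext a
      simp only [Finset.mem_filter, Finset.mem_univ, true_and, iff_true]
      exact a.2
    change ∏ a ∈ Finset.univ.filter (fun a : Fin (d + 1) => (a : ℕ) < d + 1), w a = 1
    rw [h, hw]
  have hPs : ∀ a : Fin (d + 1), P ((a : ℕ) + 1) = P a * w a := by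
    intro a
    have h : Finset.univ.filter (fun b : Fin (d + 1) => (b : ℕ) < (a : ℕ) + 1) =
        insert a (Finset.univ.filter (fun b : Fin (d + 1) => (b : ℕ) < (a : ℕ))) := by
      ext b
      simp only [Finset.mem_filter, Finset.mem_univ, true_and, Finset.mem_insert, Fin.ext_iff]
      omega
    change ∏ b ∈ Finset.univ.filter (fun b : Fin (d + 1) => (b : ℕ) < (a : ℕ) + 1), w b = _
    rw [h, Finset.prod_insert (by simp), mul_comm]
  refine ⟨fun i => P ((i : ℕ) + 1), fun a => ?_⟩
  have h1 : (Fin.snoc (α := fun _ => kˣ) (fun i : Fin d => P ((i : ℕ) + 1)) 1 a : kˣ) =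
      P ((a : ℕ) + 1) := by
    refine Fin.lastCases ?_ (fun i => ?_) a
    · rw [Fin.snoc_last, Fin.val_last, hPd]
    · rw [Fin.snoc_castSucc, Fin.val_castSucc]
  have h2 : (Fin.cons (α := fun _ => kˣ) 1 (fun i : Fin d => P ((i : ℕ) + 1)) a : kˣ) =
      P (a : ℕ) := by
    refine Fin.cases ?_ (fun i => ?_) a
    · rw [Fin.cons_zero, Fin.val_zero, hP0]
    · rw [Fin.cons_succ, Fin.val_succ]
  rw [ex, h1, h2, hPs, mul_div_cancel_left]

theorem upper_mem (k : Type) [Field k] (d : ℕ) (H : Subgroup SL(d + 1, k))
    (hT : ∀ t : Fin d → kˣ, dgn t ∈ H) (hx : ∀ a b s, a < b → xr a b s ∈ H)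
    (u : SL(d + 1, k)) (hu : ∀ a b, b < a → u.1 a b = 0) : u ∈ H := by
  -- the diagonal entries are not zero
  have hdiag : ∀ u : SL(d + 1, k), (∀ a b, b < a → u.1 a b = 0) → ∀ a, u.1 a a ≠ 0 := by
    intro u hu a
    have h1 : u.1.BlockTriangular id := fun c e h => hu c e h
    have h2 : u.1.det = ∏ i, u.1 i i := Matrix.det_of_isUpperTriangular h1
    rw [u.2] at h2
    intro h3
    have h4 : ∏ i, u.1 i i = 0 := Finset.prod_eq_zero (Finset.mem_univ a) h3
    rw [h4] at h2
    exact one_ne_zero h2
  have key : ∀ (n : ℕ) (u : SL(d + 1, k)), (∀ a b, b < a → u.1 a b = 0) →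
      (∀ a b : Fin (d + 1), a < b → (a : ℕ) * (d + 1) + b + n < (d + 1) * (d + 1) →
        u.1 a b = 0) → u ∈ H := by
    intro n
    induction n with
    | zero =>
      intro u hu hz
      have hdg := hdiag u hu
      have h0 : ∀ a b : Fin (d + 1), a < b → u.1 a b = 0 := by
        intro a b hab
        refine hz a b hab ?_
        have h1 : (a : ℕ) < d + 1 := a.2
        have h2 : (b : ℕ) < d + 1 := b.2
        have h3 : ((a : ℕ) + 1) * (d + 1) ≤ (d + 1) * (d + 1) := Nat.mul_le_mul_right _ h1
        rw [Nat.add_mul, Nat.one_mul] at h3
        omega
      have h1 : u.1.BlockTriangular id := fun c e h => hu c e h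
      have h2 : u.1.det = ∏ i, u.1 i i := Matrix.det_of_isUpperTriangular h1
      rw [u.2] at h2
      obtain ⟨t, ht⟩ := exists_dgn k d (fun a => Units.mk0 (u.1 a a) (hdg a)) (by
        refine Units.ext ?_
        rw [Units.coe_prod, Units.val_one]
        exact h2.symm)
      have h3 : u = dgn t := by
        refine Subtype.ext ?_
        rw [dgn_coe]
        ext a b
        rw [Matrix.diagonal_apply]
        split_ifs with hab
        · subst hab
          rw [ht, Units.val_mk0]
        · rcases lt_or_gt_of_ne hab with h | h
          · exact h0 a b h
          · exact hu a b h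
      rw [h3]
      exact hT t
    | succ n ih =>
      intro u hu hz
      by_cases hn : n + 1 ≤ (d + 1) * (d + 1)
      · -- the position `M`
        set M : ℕ := (d + 1) * (d + 1) - (n + 1) with hM
        have hMlt : M < (d + 1) * (d + 1) := by omega
        have ha : M / (d + 1) < d + 1 := Nat.div_lt_of_lt_mul hMlt
        have hb : M % (d + 1) < d + 1 := Nat.mod_lt _ (Nat.succ_pos d)
        have hab : M / (d + 1) * (d + 1) + M % (d + 1) = M := Nat.div_add_mod' M (d + 1)
        set a : Fin (d + 1) := ⟨M / (d + 1), ha⟩ with hadef
        set b : Fin (d + 1) := ⟨M % (d + 1), hb⟩ with hbdef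
        have hab' : (a : ℕ) * (d + 1) + b = M := hab
        -- the comparison of positions
        have hcmp : ∀ i j : Fin (d + 1), (i : ℕ) * (d + 1) + j ≤ M →
            (i : ℕ) < a ∨ (i = a ∧ (j : ℕ) ≤ b) := by
          intro i j hij
          rcases lt_trichotomy (i : ℕ) a with h | h | h
          · exact Or.inl h
          · refine Or.inr ⟨Fin.ext h, ?_⟩
            rw [h] at hij
            omega
          · exfalso
            have h1 : ((a : ℕ) + 1) * (d + 1) ≤ (i : ℕ) * (d + 1) := Nat.mul_le_mul_right _ h
            rw [Nat.add_mul, Nat.one_mul] at h1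
            have h2 : (b : ℕ) < d + 1 := b.2
            omega
        by_cases hlt : a < b
        · have hbb := hdiag u hu b
          have hne : a ≠ b := ne_of_lt hlt
          have hmul : ∀ (s : k) (i j : Fin (d + 1)), (xr a b s * u).1 i j =
              u.1 i j + if i = a then s * u.1 b j else 0 := by
            intro s i j
            change ((xr a b s).1 * u.1) i j = _
            rw [xr_coe hne, Matrix.add_mul, Matrix.one_mul, Matrix.add_apply]
            congr 1
            split_ifs with h
            · rw [h, Matrix.single_mul_apply_same]
            · rw [Matrix.single_mul_apply_of_ne _ _ _ _ _ h]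
          have hin : xr a b (-(u.1 a b / u.1 b b)) * u ∈ H := by
            refine ih _ ?_ ?_
            · intro i j hji
              rw [hmul, hu i j hji, zero_add]
              split_ifs with h
              · rw [hu b j (lt_trans hji (by rw [h]; exact hlt)), mul_zero]
              · rfl
            · intro i j hij hpos
              have hpos' : (i : ℕ) * (d + 1) + j ≤ M := by omega
              rw [hmul]
              rcases hcmp i j hpos' with h | ⟨h, h'⟩
              · have hi : i ≠ a := by
                  intro h2
                  rw [h2] at h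
                  exact lt_irrefl _ h
                rw [if_neg hi, add_zero]
                refine hz i j hij ?_
                have h1 : ((i : ℕ) + 1) * (d + 1) ≤ (a : ℕ) * (d + 1) := Nat.mul_le_mul_right _ h
                rw [Nat.add_mul, Nat.one_mul] at h1
                have h2 : (j : ℕ) < d + 1 := j.2
                omega
              · rw [if_pos h]
                rcases lt_or_eq_of_le h' with h2 | h2
                · rw [hu b j h2, mul_zero, add_zero]
                  refine hz i j hij ?_
                  rw [h]
                  omega
                · have h3 : j = b := Fin.ext h2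
                  rw [h3, h]
                  field_simp
                  ring
          have h5 := H.mul_mem (H.inv_mem (hx a b (-(u.1 a b / u.1 b b)) hlt)) hin
          rwa [inv_mul_cancel_left] at h5
        · refine ih u hu ?_
          intro i j hij hpos
          have hpos' : (i : ℕ) * (d + 1) + j ≤ M := by omega
          refine hz i j hij ?_
          rcases lt_or_eq_of_le hpos' with h | h
          · omega
          · exfalso
            rcases hcmp i j hpos' with h1 | ⟨h1, h2⟩
            · have h3 : ((i : ℕ) + 1) * (d + 1) ≤ (a : ℕ) * (d + 1) := Nat.mul_le_mul_right _ h1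
              rw [Nat.add_mul, Nat.one_mul] at h3
              have h4 : (j : ℕ) < d + 1 := j.2
              omega
            · rw [h1] at h
              have h3 : (j : ℕ) = b := by omega
              have h4 : j = b := Fin.ext h3
              rw [h1, h4] at hij
              exact hlt hij
      · refine ih u hu ?_
        intro i j hij hpos
        exfalso
        omega
  exact key ((d + 1) * (d + 1)) u hu (by
    intro a b _ h
    exfalso
    omega)

theorem borel_eq (k : Type) [Field k] {m : ℕ} (d : Fin m → ℕ) (r : ℕ) :
    borel k d r = (dataA k d r).B := by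
  apply le_antisymm
  · -- `≤`
    have hsl : ∀ (i : Fin m) (u : SL(d i + 1, k)), (∀ a b, b < a → u.1 a b = 0) →
        slf (r := r) i u ∈ (dataA k d r).B := by
      intro i u hu
      refine upper_mem k (d i) ((dataA k d r).B.comap (slf (r := r) i)) ?_ ?_ u hu
      · intro t
        rw [Subgroup.mem_comap]
        have h : slf (r := r) i (dgn t) = (dataA k d r).T (fun x => match x with
            | Sum.inl c => if h : c.1 = i then t (h ▸ c.2) else 1
            | Sum.inr _ => 1) := by
          refine Prod.ext (funext fun j => ?_) ?_
          · by_cases hj : j = i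
            · subst hj
              rw [slf_fst_same]
              change dgn t = dgn _
              congr 1
              funext c
              simp
            · rw [slf_fst_ne i j hj]
              change 1 = dgn _
              have h1 : (fun c : Fin (d j) => (if h : j = i then t (h ▸ c) else (1 : kˣ))) =
                  1 := by
                funext c
                rw [dif_neg hj]
                rfl
              change 1 = dgn (fun c : Fin (d j) => (if h : j = i then t (h ▸ c) else (1 : kˣ)))
              rw [h1, map_one]
          · rfl
        rw [h]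
        exact (dataA k d r).T_mem _
      · intro a b s hab
        rw [Subgroup.mem_comap]
        have h : slf (r := r) i (xr a b s) =
            (dataA k d r).x (⟨⟨i, (a, b)⟩, ne_of_lt hab⟩ : RA d) s := by
          change _ = slf (r := r) i (emb a b _ (up s))
          rw [emb_up]
        rw [h]
        refine (dataA k d r).x_mem _ ?_ s
        change (0 : ℤ) < ((b : ℕ) : ℤ) - ((a : ℕ) : ℤ)
        have : (a : ℕ) < b := hab
        omega
    have key : ∀ (s : Finset (Fin m)) (g : SLA k d r), (∀ i a b, b < a → (g.1 i).1 a b = 0) →
        (∀ i, i ∉ s → g.1 i = 1) → g ∈ (dataA k d r).B := by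
      intro s
      induction s using Finset.induction_on with
      | empty =>
        intro g _ hg
        have h : g = (dataA k d r).T (fun x => match x with
            | Sum.inl _ => 1
            | Sum.inr j => g.2 j) := by
          refine Prod.ext (funext fun j => ?_) ?_
          · rw [hg j (Finset.notMem_empty j)]
            change 1 = dgn (1 : Fin (d j) → kˣ)
            rw [map_one]
          · rfl
        rw [h]
        exact (dataA k d r).T_mem _
      | insert i s his ih =>
        intro g hg hs
        have h1 : (slf (r := r) i (g.1 i))⁻¹ * g ∈ (dataA k d r).B := by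
          refine ih _ ?_ ?_
          · intro j
            by_cases hj : j = i
            · subst hj
              intro a b hab
              have h2 : ((slf (r := r) j (g.1 j))⁻¹ * g).1 j = 1 := by
                change ((slf (r := r) j (g.1 j)).1 j)⁻¹ * g.1 j = 1
                rw [slf_fst_same, inv_mul_cancel]
              rw [h2]
              exact Matrix.one_apply_ne (ne_of_gt hab)
            · intro a b hab
              have h2 : ((slf (r := r) i (g.1 i))⁻¹ * g).1 j = g.1 j := by
                change ((slf (r := r) i (g.1 i)).1 j)⁻¹ * g.1 j = g.1 j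
                rw [slf_fst_ne i j hj, inv_one, one_mul]
              rw [h2]
              exact hg j a b hab
          · intro j hj
            by_cases hji : j = i
            · subst hji
              change ((slf (r := r) j (g.1 j)).1 j)⁻¹ * g.1 j = 1
              rw [slf_fst_same, inv_mul_cancel]
            · change ((slf (r := r) i (g.1 i)).1 j)⁻¹ * g.1 j = 1
              rw [slf_fst_ne i j hji, inv_one, one_mul]
              refine hs j ?_
              rw [Finset.mem_insert]
              rintro (h | h)
              · exact hji h
              · exact hj h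
        have h2 := (dataA k d r).B.mul_mem (hsl i (g.1 i) (hg i)) h1
        rwa [mul_inv_cancel_left] at h2
    intro g hg
    exact key Finset.univ g hg fun i hi => absurd (Finset.mem_univ i) hi
  · -- `≥`
    refine (dataA k d r).B_le _ ?_ ?_
    · intro t i a b hab
      change (dgn _).1 a b = 0
      rw [dgn_coe, Matrix.diagonal_apply_ne _ (ne_of_gt hab)]
    · intro α hα s i a b hab
      have hlt : α.1.2.1 < α.1.2.2 := by
        have h : (0 : ℤ) < ((α.1.2.2 : ℕ) : ℤ) - ((α.1.2.1 : ℕ) : ℤ) := hα
        have h' : (α.1.2.1 : ℕ) < (α.1.2.2 : ℕ) := by omega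
        exact h'
      change ((slf (r := r) α.1.1 (emb α.1.2.1 α.1.2.2 α.2 (up s))).1 i).1 a b = 0
      rw [emb_up]
      by_cases hi : i = α.1.1
      · subst hi
        rw [slf_fst_same, xr_coe α.2, Matrix.add_apply, Matrix.one_apply_ne (ne_of_gt hab),
          zero_add]
        refine Matrix.single_apply_of_ne _ _ _ _ _ ?_
        rintro ⟨h1, h2⟩
        rw [← h1, ← h2] at hab
        exact lt_asymm hab hlt
      · rw [slf_fst_ne _ _ hi]
        exact Matrix.one_apply_ne (ne_of_gt hab)

end Pool.Agent.MP_b525bf_ag_SA
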