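import Pool.Agent.Lib.MP_b525bf_ag_ES.StmtDefs

/-!
# Rational actions of products of special linear groups and tori: definitions
-/

set_option autoImplicit false

namespace Pool.Agent.MP_b525bf_ag_SA

open Matrix.SpecialLinearGroup
open scoped MatrixGroups

/-- The group `SL_(d 0 + 1)(k) × ⋯ × SL_(d (m - 1) + 1)(k) × (k^*)^r`. -/
abbrev SLA (k : Type) [Field k] {m : ℕ} (d : Fin m → ℕ) (r : ℕ) : Type :=
  ((i : Fin m) → SL(d i + 1, k)) × (Fin r → kˣ)

section Defs

variable {k : Type} [Field k] {m : ℕ} {d : Fin m → ℕ} {r : ℕ}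

/-- The coordinates of an element of `SL_(d 0 + 1)(k) × ⋯ × (k^*)^r`: the entries of the matrices,
the elements of `k^*` and their inverses. -/
def coord (g : SLA k d r) :
    (Σ i : Fin m, Fin (d i + 1) × Fin (d i + 1)) ⊕ (Fin r ⊕ Fin r) → k
  | Sum.inl ⟨i, c⟩ => (g.1 i).1 c.1 c.2
  | Sum.inr (Sum.inl j) => (g.2 j : k)
  | Sum.inr (Sum.inr j) => ((g.2 j)⁻¹ : kˣ)

/-- The Borel subgroup of `SL_(d 0 + 1)(k) × ⋯ × (k^*)^r`: the matrices are upper triangular. -/
def borel (k : Type) [Field k] {m : ℕ} (d : Fin m → ℕ) (r : ℕ) : Subgroup (SLA k d r) where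
  carrier := {g | ∀ i a b, b < a → (g.1 i).1 a b = 0}
  mul_mem' := by
    intro a b ha hb i
    have h : ((a.1 i).1 * (b.1 i).1).BlockTriangular id :=
      Matrix.BlockTriangular.mul (fun c e h => ha i c e h) (fun c e h => hb i c e h)
    intro c e hce
    exact h hce
  one_mem' := by
    intro i a b hab
    exact Matrix.one_apply_ne (ne_of_gt hab)
  inv_mem' := by
    intro g hg i
    have h0 : (g.1 i).1.det = 1 := (g.1 i).2
    have h1 : (g.1 i).1.BlockTriangular id := fun c e h => hg i c e h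
    have h2 : Invertible (g.1 i).1 := Matrix.invertibleOfIsUnitDet _ (by rw [h0]; exact isUnit_one)
    have h3 : ((g.1 i).1⁻¹).BlockTriangular id := Matrix.blockTriangular_inv_of_blockTriangular h1
    have h4 : (g.1 i).1⁻¹ = (g.1 i).1.adjugate := by
      rw [Matrix.inv_def, h0, Ring.inverse_one, one_smul]
    intro c e hce
    have h5 := h3 hce
    rw [h4] at h5
    exact h5

/-- The action `ρ` of `SL_(d 0 + 1)(k) × ⋯ × (k^*)^r` on `A` is rational: for each `a` in `A`, `g a`
is a polynomial in the coordinates of `g`, with coefficients in `A`. -/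
def IsRational {A : Type} [CommRing A] [Algebra k A] (ρ : SLA k d r →* (A ≃ₐ[k] A)) : Prop :=
  ∀ a : A, ∃ P : MvPolynomial ((Σ i : Fin m, Fin (d i + 1) × Fin (d i + 1)) ⊕ (Fin r ⊕ Fin r)) A,
    ∀ g : SLA k d r, ρ g a = MvPolynomial.eval (fun c => algebraMap k A (coord g c)) P

end Defs

end Pool.Agent.MP_b525bf_ag_SA
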