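import Pool.Agent.Lib.MP_b525bf_ag_R.Basic
import Pool.Agent.Lib.MP_b525bf_ag_SA.Defs

/-!
# Root group data and rational actions
-/

set_option autoImplicit false

namespace Pool.Agent.MP_b525bf_ag_SA

open Pool.Agent.MP_b525bf_ag_R (up lo dg chi IsRat)
open scoped MatrixGroups

/-- Root group data: a torus `T`, for each root `α` a homomorphism `φ α` of `SL_2(k)` with root
subgroup `φ α (up s)`, the opposite root `neg α`, the coroot `co α`, the height `ht α`, and the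
commutator relations. -/
structure RG (k ι R G : Type) [Field k] [Group G] where
  T : (ι → kˣ) →* G
  φ : R → (SL(2, k) →* G)
  neg : R → R
  co : R → ι → ℤ
  ht : R → ℤ
  neg_neg : ∀ α, neg (neg α) = α
  neg_up : ∀ α s, φ (neg α) (up s) = φ α (lo s)
  co_neg : ∀ α, co (neg α) = -co α
  ht_neg : ∀ α, ht (neg α) = -ht α
  ht_ne : ∀ α, ht α ≠ 0
  φ_dg : ∀ α t, φ α (dg t) = T (fun i => t ^ co α i)
  T_up : ∀ t α s, ∃ s' : k, T t * φ α (up s) = φ α (up s') * T t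
  comm : ∀ γ δ s t, γ ≠ neg δ →
    φ δ (up (-t)) * φ γ (up s) * φ δ (up t) = φ γ (up s) ∨
    ∃ β s', co β = co γ + co δ ∧ ht β = ht γ + ht δ ∧
      φ δ (up (-t)) * φ γ (up s) * φ δ (up t) = φ γ (up s) * φ β (up s')
  gen : ∀ H : Subgroup G, (∀ t, T t ∈ H) → (∀ α s, φ α (up s) ∈ H) → H = ⊤

namespace RG

variable {k ι R G : Type} [Field k] [Group G] (D : RG k ι R G)

/-- The root subgroups. -/
def x (α : R) (s : k) : G := D.φ α (up s)

/-- The pairing of a weight with a coroot. -/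
def pr [Fintype ι] (l : ι → ℤ) (α : R) : ℤ := ∑ i, D.co α i * l i

/-- The Borel subgroup. -/
def B : Subgroup G :=
  Subgroup.closure ({g | ∃ t, g = D.T t} ∪ {g | ∃ α s, 0 < D.ht α ∧ g = D.x α s})

variable {A : Type} [CommRing A] [Algebra k A]

/-- Rational actions. -/
structure Rat [Fintype ι] (ρ : G →* (A ≃ₐ[k] A)) : Prop where
  sl : ∀ α, IsRat (ρ.comp (D.φ α))
  tor : ∀ a : A, ∃ (S : Finset (ι → ℤ)) (c : (ι → ℤ) → A),
    ∀ t, ρ (D.T t) a = ∑ l ∈ S, (chi l t : k) • c l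

/-- `a` is a weight vector of weight `l`. -/
def IsWt [Fintype ι] (ρ : G →* (A ≃ₐ[k] A)) (l : ι → ℤ) (a : A) : Prop :=
  ∀ t, ρ (D.T t) a = (chi l t : k) • a

/-- `a` is invariant under the positive root subgroups. -/
def IsU (ρ : G →* (A ≃ₐ[k] A)) (a : A) : Prop :=
  ∀ α, 0 < D.ht α → ∀ s, ρ (D.x α s) a = a

/-- The elements which are fixed modulo `E` by the root subgroups of the roots in `Γ`. -/
def Fx (ρ : G →* (A ≃ₐ[k] A)) (E : Submodule k A) (Γ : Set R) : Submodule k A where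
  carrier := {a | ∀ γ ∈ Γ, ∀ s, ρ (D.x γ s) a - a ∈ E}
  zero_mem' := by
    intro γ _ s
    rw [map_zero, sub_zero]
    exact E.zero_mem
  add_mem' := by
    intro a b ha hb γ hγ s
    rw [map_add, add_sub_add_comm]
    exact E.add_mem (ha γ hγ s) (hb γ hγ s)
  smul_mem' := by
    intro c a ha γ hγ s
    rw [map_smul, ← smul_sub]
    exact E.smul_mem c (ha γ hγ s)

/-- The positive roots which pair positively with the weight of some invariant weight vector. -/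
def Pos [Fintype ι] (ρ : G →* (A ≃ₐ[k] A)) : Set R :=
  {α | 0 < D.ht α ∧ ∃ l h, h ≠ 0 ∧ D.IsU ρ h ∧ D.IsWt ρ l h ∧ 0 < D.pr l α}

/-- The property proved with the geometric reductivity. -/
def EV [Fintype ι] (ρ : G →* (A ≃ₐ[k] A)) : Prop :=
  ∀ (Γ : Type) [LinearOrderedCommGroupWithZero Γ] (v : Valuation A Γ),
    (∀ c : k, v (algebraMap k A c) ≤ 1) → (∀ g a, v (ρ g a) = v a) → ∀ a : A, v a ≠ 0 →
    ∃ (N : ℕ) (l : A), l ∈ Submodule.span k (Set.range fun g => ρ g a) ^ (N + 1) ∧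
      v l = v a ^ (N + 1) ∧ D.IsU ρ l ∧ ∃ e, D.IsWt ρ e l

theorem mem_Fx (ρ : G →* (A ≃ₐ[k] A)) (E : Submodule k A) (Γ : Set R) (a : A) :
    a ∈ D.Fx ρ E Γ ↔ ∀ γ ∈ Γ, ∀ s, ρ (D.x γ s) a - a ∈ E := Iff.rfl

theorem x_zero (α : R) : D.x α 0 = 1 := by
  rw [x, Pool.Agent.MP_b525bf_ag_R.up_zero, map_one]

theorem x_add (α : R) (s s' : k) : D.x α (s + s') = D.x α s * D.x α s' := by
  rw [x, Pool.Agent.MP_b525bf_ag_R.up_add, map_mul]
  rfl

theorem x_inv (α : R) (s : k) : (D.x α s)⁻¹ = D.x α (-s) := by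
  rw [inv_eq_iff_mul_eq_one, ← x_add, add_neg_cancel, x_zero]

theorem lo_eq (α : R) (s : k) : D.φ α (lo s) = D.x (D.neg α) s := (D.neg_up α s).symm

theorem T_mem (t : ι → kˣ) : D.T t ∈ D.B := Subgroup.subset_closure (Or.inl ⟨t, rfl⟩)

theorem x_mem (α : R) (hα : 0 < D.ht α) (s : k) : D.x α s ∈ D.B :=
  Subgroup.subset_closure (Or.inr ⟨α, s, hα, rfl⟩)

theorem B_le (H : Subgroup G) (hT : ∀ t, D.T t ∈ H) (hx : ∀ α, 0 < D.ht α → ∀ s, D.x α s ∈ H) :
    D.B ≤ H := by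
  rw [B, Subgroup.closure_le]
  rintro _ (⟨t, rfl⟩ | ⟨α, s, hα, rfl⟩)
  · exact hT t
  · exact hx α hα s

end RG

end Pool.Agent.MP_b525bf_ag_SA
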