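import Pool.Agent.Lib.MP_b525bf_ag_SA.EMD
import Pool.Agent.Lib.MP_b525bf_ag_SA.RG

/-!
# The root group data of `SL_(d 0 + 1)(k) × ⋯ × (k^*)^r`: definitions
-/

set_option autoImplicit false

namespace Pool.Agent.MP_b525bf_ag_SA

open Pool.Agent.MP_b525bf_ag_R (up lo dg chi IsRat)
open scoped MatrixGroups

variable {k : Type} [Field k] {m : ℕ} {d : Fin m → ℕ} {r : ℕ}

/-- The embedding of the factor number `i`. -/
def slf (i : Fin m) : SL(d i + 1, k) →* SLA k d r :=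
  (MonoidHom.inl ((i : Fin m) → SL(d i + 1, k)) (Fin r → kˣ)).comp
    (MonoidHom.mulSingle (fun i => SL(d i + 1, k)) i)

theorem slf_fst_same (i : Fin m) (g : SL(d i + 1, k)) : (slf (r := r) i g).1 i = g := by
  change (Pi.mulSingle i g : (i : Fin m) → SL(d i + 1, k)) i = g
  rw [Pi.mulSingle_eq_same]

theorem slf_fst_ne (i j : Fin m) (h : j ≠ i) (g : SL(d i + 1, k)) :
    (slf (r := r) i g).1 j = 1 := by
  change (Pi.mulSingle i g : (i : Fin m) → SL(d i + 1, k)) j = 1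
  rw [Pi.mulSingle_eq_of_ne h]

theorem slf_snd (i : Fin m) (g : SL(d i + 1, k)) : (slf (r := r) i g).2 = 1 := rfl

/-- The index set of the torus. -/
abbrev IA {m : ℕ} (d : Fin m → ℕ) (r : ℕ) : Type := (Σ i : Fin m, Fin (d i)) ⊕ Fin r

/-- The diagonal torus. -/
def torA : (IA d r → kˣ) →* SLA k d r where
  toFun t := (fun i => dgn fun j => t (Sum.inl ⟨i, j⟩), fun j => t (Sum.inr j))
  map_one' := by
    refine Prod.ext (funext fun i => ?_) rfl
    exact map_one (dgn (k := k) (d := d i))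
  map_mul' t t' := by
    refine Prod.ext (funext fun i => ?_) rfl
    exact map_mul (dgn (k := k) (d := d i)) (fun j => t (Sum.inl ⟨i, j⟩))
      fun j => t' (Sum.inl ⟨i, j⟩)

/-- The roots: `(i, (a, b))`, `a ≠ b`. -/
abbrev RA {m : ℕ} (d : Fin m → ℕ) : Type :=
  {α : Σ i : Fin m, Fin (d i + 1) × Fin (d i + 1) // α.2.1 ≠ α.2.2}

/-- The homomorphisms of `SL_2(k)`. -/
def phiA (k : Type) [Field k] {m : ℕ} {d : Fin m → ℕ} (r : ℕ) (α : RA d) :
    SL(2, k) →* SLA k d r :=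
  (slf α.1.1).comp (emb α.1.2.1 α.1.2.2 α.2)

/-- The opposite root. -/
def negA (α : RA d) : RA d := ⟨⟨α.1.1, (α.1.2.2, α.1.2.1)⟩, α.2.symm⟩

/-- The coroot. -/
def coAA (r : ℕ) (α : RA d) : IA d r → ℤ
  | Sum.inl c => if c.1 = α.1.1 then
      (if (α.1.2.1 : ℕ) ≤ (c.2 : ℕ) then 1 else 0) - (if (α.1.2.2 : ℕ) ≤ (c.2 : ℕ) then 1 else 0)
      else 0
  | Sum.inr _ => 0

/-- The height. -/
def htA (α : RA d) : ℤ := (α.1.2.2 : ℕ) - (α.1.2.1 : ℕ)

end Pool.Agent.MP_b525bf_ag_SA
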