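import Pool.Agent.Lib.MP_b525bf_ag_SA.SLN

/-!
# C03: polynomial functions on `SL_(d+1)(k)`, first part

RECIPE. Give the polynomial in each case (`evn` is `MvPolynomial.eval`, so `map_add`, `map_mul`;
degrees by `MvPolynomial.totalDegree_add`, `totalDegree_mul`, `totalDegree_pow`,
`totalDegree_finset_sum`, `totalDegree_X`, `totalDegree_C`). `polyFn_left`: substitute `X (a, b)
↦ ∑ c, C (h a c) * X (c, b)` (`MvPolynomial.aeval` or `bind₁`); the total degree does not grow: write
the polynomial as the sum of its monomials. `polyFn_smul_fn`: multiply `P` with the image of the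
polynomial of `g` under `MvPolynomial.map (algebraMap k A)`. `polyFn_map`: `MvPolynomial.map`.
`polyFn_comb`: a finite combination.
-/

set_option autoImplicit false

namespace Pool.Agent.MP_b525bf_ag_SA

open scoped MatrixGroups

variable {k A : Type} [Field k] {d : ℕ} [CommRing A] [Algebra k A]

private theorem tdeg_map_le {σ R S : Type} [CommRing R] [CommRing S] (f : R →+* S)
    (P : MvPolynomial σ R) : (MvPolynomial.map f P).totalDegree ≤ P.totalDegree :=
  Finset.sup_mono (MvPolynomial.support_map_subset f P)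

theorem polyFn_const (D : ℕ) (c : A) : PolyFn (k := k) (d := d) D fun _ => c := by
  refine ⟨MvPolynomial.C c, ?_, fun g => ?_⟩
  · rw [MvPolynomial.totalDegree_C]
    exact Nat.zero_le _
  · rw [evn, MvPolynomial.eval_C]

theorem polyFn_entry (a b : Fin (d + 1)) :
    PolyFn (k := k) 1 fun g : SL(d + 1, k) => algebraMap k A (g.1 a b) := by
  refine ⟨MvPolynomial.X (a, b), ?_, fun g => ?_⟩
  · rcases subsingleton_or_nontrivial A with h | h
    · have h1 : (MvPolynomial.X (a, b) : MvPolynomial (Fin (d + 1) × Fin (d + 1)) A) = 0 :=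
        Subsingleton.elim _ _
      rw [h1, MvPolynomial.totalDegree_zero]
      exact Nat.zero_le _
    · rw [MvPolynomial.totalDegree_X]
  · rw [evn, MvPolynomial.eval_X]

theorem PolyFn.mono {D D' : ℕ} {f : SL(d + 1, k) → A} (hf : PolyFn D f) (h : D ≤ D') :
    PolyFn D' f := by
  obtain ⟨P, hP, hf⟩ := hf
  exact ⟨P, hP.trans h, hf⟩

theorem PolyFn.add {D : ℕ} {f g : SL(d + 1, k) → A} (hf : PolyFn D f) (hg : PolyFn D g) :
    PolyFn D fun x => f x + g x := by
  obtain ⟨P, hP, hf⟩ := hf
  obtain ⟨P', hP', hg⟩ := hg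
  refine ⟨P + P', (MvPolynomial.totalDegree_add _ _).trans (max_le hP hP'), fun x => ?_⟩
  change f x + g x = _
  rw [hf, hg, evn, evn, evn, map_add]

theorem polyFn_sum {D : ℕ} {τ : Type} (s : Finset τ) (f : τ → SL(d + 1, k) → A)
    (hf : ∀ i ∈ s, PolyFn D (f i)) : PolyFn D fun x => ∑ i ∈ s, f i x := by
  classical
  induction s using Finset.induction_on with
  | empty =>
    simp only [Finset.sum_empty]
    exact polyFn_const D 0
  | insert a s ha ih =>
    simp only [Finset.sum_insert ha]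
    exact (hf a (Finset.mem_insert_self a s)).add
      (ih fun i hi => hf i (Finset.mem_insert_of_mem hi))

theorem PolyFn.mul {D D' : ℕ} {f g : SL(d + 1, k) → A} (hf : PolyFn D f) (hg : PolyFn D' g) :
    PolyFn (D + D') fun x => f x * g x := by
  obtain ⟨P, hP, hf⟩ := hf
  obtain ⟨P', hP', hg⟩ := hg
  refine ⟨P * P', (MvPolynomial.totalDegree_mul _ _).trans (add_le_add hP hP'), fun x => ?_⟩
  change f x * g x = _
  rw [hf, hg, evn, evn, evn, map_mul]

theorem PolyFn.pow {D : ℕ} {f : SL(d + 1, k) → A} (hf : PolyFn D f) (n : ℕ) :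
    PolyFn (n * D) fun x => f x ^ n := by
  obtain ⟨P, hP, hf⟩ := hf
  refine ⟨P ^ n, (MvPolynomial.totalDegree_pow _ _).trans (Nat.mul_le_mul_left n hP), fun x => ?_⟩
  change f x ^ n = _
  rw [hf, evn, evn, map_pow]

private theorem polyFn_prod {τ : Type} (s : Finset τ) (D : τ → ℕ) (f : τ → SL(d + 1, k) → A)
    (hf : ∀ i ∈ s, PolyFn (D i) (f i)) : PolyFn (∑ i ∈ s, D i) fun x => ∏ i ∈ s, f i x := by
  classical
  induction s using Finset.induction_on with
  | empty =>
    simp only [Finset.prod_empty]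
    exact polyFn_const _ 1
  | insert a s ha ih =>
    simp only [Finset.prod_insert ha, Finset.sum_insert ha]
    exact (hf a (Finset.mem_insert_self a s)).mul
      (ih fun i hi => hf i (Finset.mem_insert_of_mem hi))

/-- Substitution of polynomial functions of degree at most one. -/
private theorem polyFn_subst (P : MvPolynomial (Fin (d + 1) × Fin (d + 1)) A) {D : ℕ}
    (hP : P.totalDegree ≤ D) (f : Fin (d + 1) × Fin (d + 1) → SL(d + 1, k) → A)
    (hf : ∀ c, PolyFn 1 (f c)) : PolyFn D fun x => MvPolynomial.eval (fun c => f c x) P := by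
  simp only [MvPolynomial.eval_eq]
  refine polyFn_sum _ _ fun α hα => ?_
  have h1 : PolyFn (∑ i ∈ α.support, α i * 1) fun x => ∏ i ∈ α.support, f i x ^ α i :=
    polyFn_prod _ _ _ fun i _ => (hf i).pow (α i)
  have h2 : ∑ i ∈ α.support, α i * 1 ≤ D := by
    simp only [mul_one]
    exact (MvPolynomial.le_totalDegree hα).trans hP
  have h3 := (polyFn_const (k := k) (d := d) 0 (MvPolynomial.coeff α P)).mul (h1.mono h2)
  rwa [zero_add] at h3

theorem PolyFn.const_smul {D : ℕ} {f : SL(d + 1, k) → A} (hf : PolyFn D f) (c : k) :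
    PolyFn D fun x => c • f x := by
  have h3 := (polyFn_const (k := k) (d := d) 0 (algebraMap k A c)).mul hf
  rw [zero_add] at h3
  simpa only [Algebra.smul_def] using h3

theorem PolyFn.smul_fn {D D' : ℕ} {g : SL(d + 1, k) → k} {f : SL(d + 1, k) → A}
    (hg : PolyFn D g) (hf : PolyFn D' f) : PolyFn (D + D') fun x => g x • f x := by
  have h1 : PolyFn D fun x => algebraMap k A (g x) := by
    obtain ⟨P, hP, hg⟩ := hg
    refine ⟨MvPolynomial.map (algebraMap k A) P, (tdeg_map_le _ _).trans hP, fun x => ?_⟩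
    change algebraMap k A (g x) = _
    rw [hg, evn, evn, MvPolynomial.eval_map, MvPolynomial.eval₂_comp]
    rfl
  simpa only [Algebra.smul_def] using h1.mul hf

theorem PolyFn.left {D : ℕ} {f : SL(d + 1, k) → A} (hf : PolyFn D f) (h : SL(d + 1, k)) :
    PolyFn D fun x => f (h * x) := by
  obtain ⟨P, hP, hf⟩ := hf
  have key : ∀ c : Fin (d + 1) × Fin (d + 1),
      PolyFn 1 fun x : SL(d + 1, k) => algebraMap k A ((h * x).1 c.1 c.2) := by
    intro c
    have h1 : (fun x : SL(d + 1, k) => algebraMap k A ((h * x).1 c.1 c.2)) =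
        fun x => ∑ e, h.1 c.1 e • algebraMap k A (x.1 e c.2) := by
      ext x
      have h2 : (h * x).1 c.1 c.2 = ∑ e, h.1 c.1 e * x.1 e c.2 := Matrix.mul_apply
      rw [h2, map_sum]
      exact Finset.sum_congr rfl fun e _ => by rw [map_mul, Algebra.smul_def]
    rw [h1]
    exact polyFn_sum _ _ fun e _ => (polyFn_entry e c.2).const_smul _
  obtain ⟨P', hP', h'⟩ := polyFn_subst P hP _ key
  exact ⟨P', hP', fun x => (hf (h * x)).trans (h' x)⟩

theorem PolyFn.right {D : ℕ} {f : SL(d + 1, k) → A} (hf : PolyFn D f) (h : SL(d + 1, k)) :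
    PolyFn D fun x => f (x * h) := by
  obtain ⟨P, hP, hf⟩ := hf
  have key : ∀ c : Fin (d + 1) × Fin (d + 1),
      PolyFn 1 fun x : SL(d + 1, k) => algebraMap k A ((x * h).1 c.1 c.2) := by
    intro c
    have h1 : (fun x : SL(d + 1, k) => algebraMap k A ((x * h).1 c.1 c.2)) =
        fun x => ∑ e, h.1 e c.2 • algebraMap k A (x.1 c.1 e) := by
      ext x
      have h2 : (x * h).1 c.1 c.2 = ∑ e, x.1 c.1 e * h.1 e c.2 := Matrix.mul_apply
      rw [h2, map_sum]
      exact Finset.sum_congr rfl fun e _ => by rw [map_mul, Algebra.smul_def, mul_comm]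
    rw [h1]
    exact polyFn_sum _ _ fun e _ => (polyFn_entry c.1 e).const_smul _
  obtain ⟨P', hP', h'⟩ := polyFn_subst P hP _ key
  exact ⟨P', hP', fun x => (hf (x * h)).trans (h' x)⟩

theorem PolyFn.map {D : ℕ} {f : SL(d + 1, k) → A} (hf : PolyFn D f) (φ : A ≃ₐ[k] A) :
    PolyFn D fun x => φ (f x) := by
  obtain ⟨P, hP, hf⟩ := hf
  refine ⟨MvPolynomial.map (φ : A →+* A) P, (tdeg_map_le _ _).trans hP, fun x => ?_⟩
  change (φ : A →+* A) (f x) = _
  rw [hf, evn, evn, MvPolynomial.eval_map, MvPolynomial.eval₂_comp]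
  congr 1
  ext c
  exact φ.commutes _

/-- A finite combination. -/
theorem polyFn_comb {D : ℕ} {X : Type} (b : X →₀ k) (f : X → SL(d + 1, k) → A)
    (hf : ∀ i, PolyFn D (f i)) : PolyFn D fun x => b.sum fun i c => c • f i x :=
  polyFn_sum b.support _ fun i _ => (hf i).const_smul _

end Pool.Agent.MP_b525bf_ag_SA
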