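import Pool.Agent.Lib.MP_b525bf_ag_SA.MIN
import Pool.Agent.Lib.MP_b525bf_ag_SA.GEN
import Pool.Agent.Lib.MP_b525bf_ag_SA.PLA
import Pool.Agent.Lib.MP_b525bf_ag_R.SPN

/-!
# C08: density
-/

set_option autoImplicit false

namespace Pool.Agent.MP_b525bf_ag_SA

open scoped MatrixGroups

/-- The entries of the curve are polynomials. -/
private theorem exists_curve {k : Type} [Field k] {d : ℕ}
    (L : List (Fin (d + 1) × Fin (d + 1) × k)) :
    ∃ M : Matrix (Fin (d + 1)) (Fin (d + 1)) (Polynomial k), ∀ s : k,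
      ((L.map fun y => xr y.1 y.2.1 (s * y.2.2)).prod).1 = M.map (Polynomial.evalRingHom s) := by
  induction L with
  | nil =>
    refine ⟨1, fun s => ?_⟩
    rw [List.map_nil, List.prod_nil, Matrix.map_one _ (map_zero _) (map_one _)]
    rfl
  | cons y L ih =>
    obtain ⟨M, hM⟩ := ih
    obtain ⟨M', hM'⟩ : ∃ M' : Matrix (Fin (d + 1)) (Fin (d + 1)) (Polynomial k), ∀ s : k,
        (xr y.1 y.2.1 (s * y.2.2)).1 = M'.map (Polynomial.evalRingHom s) := by
      by_cases h : y.1 = y.2.1
      · refine ⟨1, fun s => ?_⟩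
        rw [Matrix.map_one _ (map_zero _) (map_one _), xr, dif_neg (not_not.2 h)]
        rfl
      · refine ⟨1 + Matrix.single y.1 y.2.1 (Polynomial.X * Polynomial.C y.2.2), fun s => ?_⟩
        rw [xr_coe h, Matrix.map_add _ (map_add _), Matrix.map_one _ (map_zero _) (map_one _),
          Matrix.map_single]
        congr 2
        rw [Polynomial.coe_evalRingHom, Polynomial.eval_mul, Polynomial.eval_X,
          Polynomial.eval_C]
    refine ⟨M' * M, fun s => ?_⟩
    rw [List.map_cons, List.prod_cons, Matrix.map_mul, ← hM, ← hM']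
    rfl

private theorem map_C_map {k : Type} [Field k] {d : ℕ} (X : Matrix (Fin (d + 1)) (Fin (d + 1)) k)
    (s : k) : (X.map Polynomial.C).map (Polynomial.evalRingHom s) = X := by
  ext i j
  simp

/-- The values of a polynomial along a polynomial curve of matrices. -/
private theorem evn_curve {k A : Type} [Field k] {d : ℕ} [CommRing A] [Algebra k A]
    (P : MvPolynomial (Fin (d + 1) × Fin (d + 1)) A)
    (M : Matrix (Fin (d + 1)) (Fin (d + 1)) (Polynomial k)) :
    ∃ R : Polynomial A, ∀ s : k,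
      evn P (M.map (Polynomial.evalRingHom s)) = R.eval (algebraMap k A s) := by
  refine ⟨MvPolynomial.eval₂ Polynomial.C (fun c => (M c.1 c.2).map (algebraMap k A)) P,
    fun s => ?_⟩
  have h := MvPolynomial.eval₂_comp_left (Polynomial.evalRingHom (algebraMap k A s))
    Polynomial.C (fun c : Fin (d + 1) × Fin (d + 1) => (M c.1 c.2).map (algebraMap k A)) P
  rw [Polynomial.coe_evalRingHom] at h
  rw [h, evn, MvPolynomial.eval, MvPolynomial.coe_eval₂Hom]
  congr 1
  · ext a
    simp
  · funext c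
    simp only [Matrix.map_apply, Function.comp_apply, Polynomial.coe_evalRingHom]
    rw [Polynomial.eval_map]
    exact (Polynomial.eval₂_at_apply _ _).symm

theorem density {k A : Type} [Field k] [Infinite k] {d : ℕ} [CommRing A] [Algebra k A] {D : ℕ}
    (f : SL(d + 1, k) → A) (hf : PolyFn D f) (z : SL(d + 1, k)) (E : Submodule k A)
    (h : ∀ x, chm (z * x).1 ≠ 0 → f x ∈ E) (x : SL(d + 1, k)) : f x ∈ E := by
  classical
  obtain ⟨L, -, hL⟩ := exists_list (z * x)⁻¹
  obtain ⟨M, hM⟩ := exists_curve L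
  set c : k → SL(d + 1, k) := fun s => (L.map fun y => xr y.1 y.2.1 (s * y.2.2)).prod with hc
  have hM2 : ∀ s, (c s).1 = M.map (Polynomial.evalRingHom s) := hM
  have hc0 : c 0 = 1 := by
    simp only [hc, zero_mul, xr_zero]
    simp
  have hc1 : c 1 = (z * x)⁻¹ := by
    rw [hL]
    simp only [hc, one_mul]
  -- the polynomial `q`
  obtain ⟨q, hq⟩ : ∃ q : Polynomial k, ∀ s, chm (z * (x * c s)).1 = q.eval s := by
    refine ⟨chm ((z * x).1.map Polynomial.C * M), fun s => ?_⟩
    have h1 : (z * (x * c s)).1 =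
        ((z * x).1.map Polynomial.C * M).map (Polynomial.evalRingHom s) := by
      rw [Matrix.map_mul, ← hM2, ← mul_assoc, map_C_map]
      rfl
    rw [h1, chm_map]
    rfl
  have hq1 : q.eval 1 = 1 := by
    rw [← hq, hc1, ← mul_assoc, mul_inv_cancel]
    exact chm_one
  have hq0 : q ≠ 0 := by
    rintro rfl
    rw [Polynomial.eval_zero] at hq1
    exact zero_ne_one hq1
  -- the polynomial `R`
  obtain ⟨P, -, hP⟩ := hf
  obtain ⟨R, hR⟩ := evn_curve (A := A) P (x.1.map Polynomial.C * M)
  have hR2 : ∀ s, f (x * c s) = R.eval (algebraMap k A s) := by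
    intro s
    rw [hP, ← hR, Matrix.map_mul, ← hM2, map_C_map]
    rfl
  set T : Set k := {s | q.eval s ≠ 0} with hT
  have hTinf : T.Infinite := by
    have h1 : T = {s | q.IsRoot s}ᶜ := by
      ext s
      rfl
    rw [h1]
    exact (Polynomial.finite_setOfPred_isRoot hq0).infinite_compl
  obtain ⟨b, hb1, hb2⟩ := MP_b525bf_ag_R.exists_coeff_pow_on T hTinf R.natDegree 0 (Nat.zero_le _)
  have h1 := MP_b525bf_ag_R.sum_smul_eq_coeff (fun (i : ℕ) (s : k) => s ^ i)
    (Finset.range (R.natDegree + 1)) 0 (Finset.mem_range.2 (Nat.succ_pos _)) b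
    (fun i hi => hb2 i (Nat.lt_succ_iff.1 (Finset.mem_range.1 hi))) (fun s => f (x * c s))
    (fun i => R.coeff i) (fun s => by
      rw [hR2, Polynomial.eval_eq_sum_range]
      refine Finset.sum_congr rfl fun i _ => ?_
      rw [Algebra.smul_def, map_pow, mul_comm])
  have h2 : f x = R.coeff 0 := by
    have h3 := hR2 0
    rw [hc0, mul_one, map_zero] at h3
    rw [h3, Polynomial.coeff_zero_eq_eval_zero]
  rw [h2, ← h1]
  refine Submodule.sum_mem _ fun s hs => Submodule.smul_mem _ _ (h _ ?_)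
  rw [hq]
  exact hb1 hs

end Pool.Agent.MP_b525bf_ag_SA
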