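import Pool.Agent.Lib.MP_b525bf_ag_SA.FXS
import Pool.Agent.Lib.MP_b525bf_ag_R.FIX

/-!
# A02: a vector fixed modulo a subspace by a closed set of positive root subgroups

RECIPE. Prove by induction on the number of elements of `Γ'`: for each `Γ' ⊆ Γ` such that
`∀ β ∈ Γ', ∀ γ ∈ Γ, D.ht β < D.ht γ → γ ∈ Γ'` there is `w ∈ W`, `w ∉ E`, `w ∈ D.Fx ρ E Γ'`.
`Γ' = ∅`: `w = a`. Otherwise let `β ∈ Γ'` have least height (`Finset.exists_min_image`), `Γ'' =
Γ'.erase β`, which has the same property, `x` from the induction hypothesis for `Γ''`. Apply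
`Pool.Agent.MP_b525bf_ag_R.exists_fixed_mod_one (ρ.comp (D.φ β)) (hρ.sl β) E x hx`: the
combination `w` of the `ρ (D.x β s) x` is not in `E` and fixed modulo `E` by `X_β`. It is in `W`
(`hW`) and in `D.Fx ρ E Γ''` by `fx_x` (`Γ''`, `δ = β`): `γ ≠ D.neg β` since
`ht γ, ht β > 0` (`D.ht_neg`); if `β' = γ + β` then `β' ∈ Γ` by `hΓ` and its height is larger
than `ht β`, so `β' ∈ Γ'`, `β' ≠ β`. Submodules contain finite combinations
(`Submodule.sum_mem`, `Finsupp.sum`).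
-/

set_option autoImplicit false

namespace Pool.Agent.MP_b525bf_ag_SA

open Pool.Agent.MP_b525bf_ag_R (up lo dg chi IsRat)
open scoped MatrixGroups

theorem exists_fx {k ι R G : Type} [Field k] [Infinite k] [Fintype ι] [DecidableEq R] [Group G]
    (D : RG k ι R G) {A : Type} [CommRing A] [Algebra k A] (ρ : G →* (A ≃ₐ[k] A))
    (hρ : D.Rat ρ) (W E : Submodule k A) (Γ : Finset R) (hpos : ∀ γ ∈ Γ, 0 < D.ht γ)
    (hΓ : ∀ γ ∈ Γ, ∀ δ ∈ Γ, ∀ β, D.co β = D.co γ + D.co δ → D.ht β = D.ht γ + D.ht δ → β ∈ Γ)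
    (hW : ∀ γ ∈ Γ, ∀ s, ∀ a ∈ W, ρ (D.x γ s) a ∈ W)
    (hE : ∀ γ ∈ Γ, ∀ s, ∀ a ∈ E, ρ (D.x γ s) a ∈ E) (a : A) (haW : a ∈ W) (haE : a ∉ E) :
    ∃ w ∈ W, w ∉ E ∧ w ∈ D.Fx ρ E (Γ : Set R) := by
  have main : ∀ (n : ℕ) (Γ' : Finset R), Γ' ⊆ Γ → Γ'.card = n →
      (∀ β ∈ Γ', ∀ γ ∈ Γ, D.ht β < D.ht γ → γ ∈ Γ') →
      ∃ w ∈ W, w ∉ E ∧ w ∈ D.Fx ρ E (Γ' : Set R) := by
    intro n
    induction n with
    | zero =>
      intro Γ' _ hc _
      have h0 : Γ' = ∅ := Finset.card_eq_zero.1 hc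
      subst h0
      refine ⟨a, haW, haE, ?_⟩
      rw [RG.mem_Fx]
      intro γ hγ
      simp at hγ
    | succ n ih =>
      intro Γ' hsub hc hcl
      have hne : Γ'.Nonempty := Finset.card_pos.1 (by omega)
      obtain ⟨β, hβ, hmin⟩ := Finset.exists_min_image Γ' D.ht hne
      have hcl' : ∀ β' ∈ Γ'.erase β, ∀ γ ∈ Γ, D.ht β' < D.ht γ → γ ∈ Γ'.erase β := by
        intro β' hβ' γ hγ hlt
        have h1 := Finset.mem_of_mem_erase hβ'
        refine Finset.mem_erase.2 ⟨?_, hcl β' h1 γ hγ hlt⟩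
        rintro rfl
        exact absurd (hmin β' h1) (not_le.2 hlt)
      obtain ⟨x, hxW, hxE, hxF⟩ := ih (Γ'.erase β) ((Finset.erase_subset β Γ').trans hsub)
        (by rw [Finset.card_erase_of_mem hβ, hc]; rfl) hcl'
      obtain ⟨b, hb1, hb2⟩ := Pool.Agent.MP_b525bf_ag_R.exists_fixed_mod_one (ρ.comp (D.φ β))
        (hρ.sl β) E x hxE
      have hmem : ∀ V : Submodule k A, (∀ s, ρ (D.x β s) x ∈ V) →
          (b.sum fun s c => c • (ρ.comp (D.φ β)) (up s) x) ∈ V := by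
        intro V hV
        rw [Finsupp.sum]
        exact Submodule.sum_mem _ fun s _ => V.smul_mem _ (hV s)
      refine ⟨b.sum fun s c => c • (ρ.comp (D.φ β)) (up s) x,
        hmem W fun s => hW β (hsub hβ) s x hxW, hb1, ?_⟩
      have hF : (b.sum fun s c => c • (ρ.comp (D.φ β)) (up s) x) ∈
          D.Fx ρ E ((Γ'.erase β : Finset R) : Set R) := by
        refine hmem _ fun s => ?_
        refine fx_x D ρ E _ β ?_ (hE β (hsub hβ)) ?_ ?_ s x hxF
        · intro γ hγ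
          exact hE γ (hsub (Finset.mem_of_mem_erase hγ))
        · rintro γ hγ rfl
          have h1 := hpos _ (hsub (Finset.mem_of_mem_erase hγ))
          have h2 := hpos β (hsub hβ)
          rw [D.ht_neg] at h1
          omega
        · intro γ hγ β' hco hht
          have h1 := hsub (Finset.mem_of_mem_erase hγ)
          have h2 := hpos γ h1
          have h3 : β' ∈ Γ := hΓ γ h1 β (hsub hβ) β' hco hht
          refine Finset.mem_erase.2 ⟨?_, hcl β hβ β' h3 (by omega)⟩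
          rintro rfl
          omega
      rw [RG.mem_Fx] at hF ⊢
      intro γ hγ s
      by_cases h : γ = β
      · subst h
        exact hb2 s
      · exact hF γ (Finset.mem_erase.2 ⟨h, hγ⟩) s
  exact main Γ.card Γ (Finset.Subset.refl Γ) rfl fun _ _ γ hγ _ => hγ

end Pool.Agent.MP_b525bf_ag_SA
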