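import Pool.Agent.Lib.MP_b525bf_ag_SA.SLN

/-!
# Leading minors, the matrix `cc z`, the longest element: definitions
-/

set_option autoImplicit false

namespace Pool.Agent.MP_b525bf_ag_SA

open scoped MatrixGroups

section Minors

variable {S : Type} [CommRing S] {d : ℕ}

/-- The matrix `z` in the rows and columns `< j`, the identity elsewhere. -/
def tr (j : ℕ) (z : Matrix (Fin (d + 1)) (Fin (d + 1)) S) : Matrix (Fin (d + 1)) (Fin (d + 1)) S :=
  Matrix.of fun a b => if (a : ℕ) < j ∧ (b : ℕ) < j then z a b else if a = b then 1 else 0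

/-- The leading minor of order `j`. -/
def lm (j : ℕ) (z : Matrix (Fin (d + 1)) (Fin (d + 1)) S) : S := (tr j z).det

/-- The product of the leading minors of orders `1, …, d`. -/
def chm (z : Matrix (Fin (d + 1)) (Fin (d + 1)) S) : S := ∏ j : Fin d, lm ((j : ℕ) + 1) z

/-- The upper triangular matrix `cc z`, for which `z * cc z` is lower triangular. -/
def cc (z : Matrix (Fin (d + 1)) (Fin (d + 1)) S) : Matrix (Fin (d + 1)) (Fin (d + 1)) S :=
  Matrix.of fun a b => (tr ((b : ℕ) + 1) z).adjugate a b

end Minors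

section Group

variable {k : Type} [Field k] {d : ℕ}

/-- Upper unitriangular matrices. -/
def UU (u : SL(d + 1, k)) : Prop := (∀ a b, b < a → u.1 a b = 0) ∧ ∀ a, u.1 a a = 1

/-- Lower triangular matrices. -/
def LT (l : SL(d + 1, k)) : Prop := ∀ a b, a < b → l.1 a b = 0

/-- The signs in the longest element: the sign of the reversal at `0`. -/
def wsgn (k : Type) [Field k] {d : ℕ} (a : Fin (d + 1)) : k :=
  if a = 0 then (((Equiv.Perm.sign (Fin.revPerm : Equiv.Perm (Fin (d + 1))) : ℤˣ) : ℤ) : k) else 1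

theorem wsgn_sq (a : Fin (d + 1)) : wsgn k a * wsgn k a = 1 := by
  unfold wsgn
  split_ifs
  · rw [← Int.cast_mul, ← Units.val_mul, Int.units_mul_self]
    simp
  · rw [mul_one]

/-- The longest element: an antidiagonal matrix of determinant one. -/
def w0 (k : Type) [Field k] (d : ℕ) : SL(d + 1, k) :=
  ⟨Matrix.diagonal (wsgn k) * (Fin.revPerm : Equiv.Perm (Fin (d + 1))).permMatrix k, by
    rw [Matrix.det_mul, Matrix.det_diagonal, Matrix.det_permutation,
      Finset.prod_eq_single (0 : Fin (d + 1))]
    · rw [wsgn, if_pos rfl, ← Int.cast_mul, ← Units.val_mul, Int.units_mul_self]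
      simp
    · intro b _ hb
      rw [wsgn, if_neg hb]
    · intro h
      exact absurd (Finset.mem_univ _) h⟩

theorem w0_apply (a b : Fin (d + 1)) : (w0 k d).1 a b = if b = Fin.rev a then wsgn k a else 0 := by
  change ((Matrix.diagonal (wsgn k) * (Fin.revPerm : Equiv.Perm (Fin (d + 1))).permMatrix k :
    Matrix (Fin (d + 1)) (Fin (d + 1)) k)) a b = _
  rw [Matrix.diagonal_mul, Equiv.Perm.permMatrix, PEquiv.toMatrix_apply]
  simp [eq_comm]

end Group

end Pool.Agent.MP_b525bf_ag_SA
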