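import Pool.Agent.Lib.MP_b525bf_ag_SA.PLA
import Pool.Agent.Lib.MP_b525bf_ag_SA.MDEF

/-!
# C04: polynomial functions on `SL_(d+1)(k)`, second part

`polyFn_evn`: for a monomial by `PolyFn.mul`, `PolyFn.pow`, `smul_fn`; then the sum of
the monomials of `P`; the entries are functions to `k` with the algebra `k` over itself.
`polyFn_det`: `Matrix.det_apply` (sum over permutations of signs times products).
`polyFn_adjugate`: `Matrix.adjugate_apply` (determinant of `updateRow`). `polyFn_inv`: `(x⁻¹).1 =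
x.1.adjugate` (`Matrix.SpecialLinearGroup.coe_inv`) and `polyFn_evn`. `polyFn_lm`, `polyFn_chm`,
`polyFn_cc`: `lm`, `cc` are a determinant and entries of adjugates of matrices with entries `X x a b`
or `0`, `1`.
-/

set_option autoImplicit false

namespace Pool.Agent.MP_b525bf_ag_SA

open scoped MatrixGroups

variable {k A : Type} [Field k] {d : ℕ} [CommRing A] [Algebra k A]

private theorem plb_prod {E : ℕ} {τ : Type} (s : Finset τ) (n : τ → ℕ)
    (f : τ → SL(d + 1, k) → A) (hf : ∀ i ∈ s, PolyFn E (f i)) :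
    PolyFn ((∑ i ∈ s, n i) * E) fun x => ∏ i ∈ s, f i x ^ n i := by
  classical
  induction s using Finset.induction_on with
  | empty =>
    simp only [Finset.sum_empty, Finset.prod_empty]
    exact polyFn_const _ 1
  | insert i s hi ih =>
    simp only [Finset.sum_insert hi, Finset.prod_insert hi, add_mul]
    exact ((hf i (Finset.mem_insert_self i s)).pow (n i)).mul
      (ih fun j hj => hf j (Finset.mem_insert_of_mem hj))

private theorem plb_tr {E : ℕ} (X : SL(d + 1, k) → Matrix (Fin (d + 1)) (Fin (d + 1)) k)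
    (hX : ∀ a b, PolyFn (A := k) E fun x => X x a b) (j : ℕ) (a b : Fin (d + 1)) :
    PolyFn (A := k) E fun x => tr j (X x) a b := by
  by_cases h : (a : ℕ) < j ∧ (b : ℕ) < j
  · simpa only [tr, Matrix.of_apply, if_pos h] using hX a b
  · simpa only [tr, Matrix.of_apply, if_neg h] using polyFn_const E (if a = b then (1 : k) else 0)

theorem polyFn_evn {E : ℕ} (P : MvPolynomial (Fin (d + 1) × Fin (d + 1)) A)
    (X : SL(d + 1, k) → Matrix (Fin (d + 1)) (Fin (d + 1)) k)
    (hX : ∀ a b, PolyFn (A := k) E fun x => X x a b) :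
    PolyFn (P.totalDegree * E) fun x => evn P (X x) := by
  have h1 : (fun x : SL(d + 1, k) => evn P (X x)) = fun x => ∑ m ∈ P.support,
      (∏ c, (X x c.1 c.2) ^ m c) • P.coeff m := by
    funext x
    rw [evn, MvPolynomial.eval_eq']
    refine Finset.sum_congr rfl fun m _ => ?_
    rw [Algebra.smul_def, map_prod, mul_comm]
    simp only [map_pow]
  rw [h1]
  refine polyFn_sum _ _ fun m hm => ?_
  have h2 : PolyFn (A := k) ((∑ c, m c) * E)
      fun x : SL(d + 1, k) => ∏ c, (X x c.1 c.2) ^ m c :=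
    plb_prod Finset.univ m (fun c x => X x c.1 c.2) fun c _ => hX c.1 c.2
  refine (h2.smul_fn (polyFn_const 0 (P.coeff m))).mono ?_
  rw [add_zero]
  refine Nat.mul_le_mul_right E ?_
  have h3 := MvPolynomial.le_totalDegree hm
  rwa [Finsupp.sum_fintype _ _ fun _ => rfl] at h3

theorem polyFn_det {E : ℕ} (X : SL(d + 1, k) → Matrix (Fin (d + 1)) (Fin (d + 1)) k)
    (hX : ∀ a b, PolyFn (A := k) E fun x => X x a b) :
    PolyFn (A := k) ((d + 1) * E) fun x => (X x).det := by
  have h1 : (fun x : SL(d + 1, k) => (X x).det) = fun x =>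
      ∑ σ : Equiv.Perm (Fin (d + 1)), (((Equiv.Perm.sign σ : ℤˣ) : ℤ) : k) •
        ∏ i, X x (σ i) i ^ (1 : ℕ) := by
    funext x
    rw [Matrix.det_apply']
    simp only [pow_one, smul_eq_mul]
  rw [h1]
  refine polyFn_sum _ _ fun σ _ => PolyFn.const_smul ?_ _
  have h2 := plb_prod (E := E) Finset.univ (fun _ => 1)
    (fun (i : Fin (d + 1)) (x : SL(d + 1, k)) => X x (σ i) i) fun i _ => hX (σ i) i
  simpa using h2

theorem polyFn_adjugate {E : ℕ} (X : SL(d + 1, k) → Matrix (Fin (d + 1)) (Fin (d + 1)) k)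
    (hX : ∀ a b, PolyFn (A := k) E fun x => X x a b) (a b : Fin (d + 1)) :
    PolyFn (A := k) ((d + 1) * E) fun x => (X x).adjugate a b := by
  simp only [Matrix.adjugate_apply]
  refine polyFn_det (fun x => (X x).updateRow b (Pi.single a 1)) fun i j => ?_
  by_cases h : i = b
  · subst h
    simpa only [Matrix.updateRow_self] using
      polyFn_const E ((Pi.single a (1 : k) : Fin (d + 1) → k) j)
  · simpa only [Matrix.updateRow_ne h] using hX i j

theorem PolyFn.inv {D : ℕ} {f : SL(d + 1, k) → A} (hf : PolyFn D f) :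
    PolyFn (D * (d + 1)) fun x => f x⁻¹ := by
  obtain ⟨P, hP, h⟩ := hf
  have h1 : (fun x : SL(d + 1, k) => f x⁻¹) = fun x => evn P x.1.adjugate := by
    funext x
    rw [h, Matrix.SpecialLinearGroup.coe_inv]
  rw [h1]
  refine (polyFn_evn (E := (d + 1) * 1) P (fun x => x.1.adjugate) fun a b =>
    polyFn_adjugate (fun x => x.1) (fun i j => ?_) a b).mono ?_
  · exact polyFn_entry (A := k) i j
  · rw [mul_one]
    exact Nat.mul_le_mul_right _ hP

theorem polyFn_lm {E : ℕ} (X : SL(d + 1, k) → Matrix (Fin (d + 1)) (Fin (d + 1)) k)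
    (hX : ∀ a b, PolyFn (A := k) E fun x => X x a b) (j : ℕ) :
    PolyFn (A := k) ((d + 1) * E) fun x => lm j (X x) :=
  polyFn_det (fun x => tr j (X x)) (plb_tr X hX j)

theorem polyFn_chm {E : ℕ} (X : SL(d + 1, k) → Matrix (Fin (d + 1)) (Fin (d + 1)) k)
    (hX : ∀ a b, PolyFn (A := k) E fun x => X x a b) :
    PolyFn (A := k) (d * ((d + 1) * E)) fun x => chm (X x) := by
  have h2 := plb_prod (E := (d + 1) * E) Finset.univ (fun _ => 1)
    (fun (j : Fin d) (x : SL(d + 1, k)) => lm ((j : ℕ) + 1) (X x))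
    fun j _ => polyFn_lm X hX ((j : ℕ) + 1)
  simpa [chm] using h2

theorem polyFn_cc {E : ℕ} (X : SL(d + 1, k) → Matrix (Fin (d + 1)) (Fin (d + 1)) k)
    (hX : ∀ a b, PolyFn (A := k) E fun x => X x a b) (a b : Fin (d + 1)) :
    PolyFn (A := k) ((d + 1) * E) fun x => cc (X x) a b :=
  polyFn_adjugate (fun x => tr ((b : ℕ) + 1) (X x)) (plb_tr X hX ((b : ℕ) + 1)) a b

end Pool.Agent.MP_b525bf_ag_SA
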