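import Pool.Agent.Lib.MP_b525bf_ag_SA.COR
import Pool.Agent.Lib.MP_b525bf_ag_SA.PLB
import Pool.Agent.Lib.MP_b525bf_ag_R.Basic

/-!
# C29: lifting eigenvectors

RECIPE. Let `W` = span of the `ρ g w`; with `ρ g w = evn P g` it is contained in the span of the
coefficients of `P`, finite-dimensional. The image of `W` in `A ⧸ E` has a basis; choose `w_a ∈ W`
(`a : Fin n`) which map to it and linear functionals `ℓ_a : A →ₗ[k] k` which vanish on `E` and with
`ℓ_a (w_b) = δ_ab` (extend the dual basis from the image of `W` to `A ⧸ E`). `f_a g := ℓ_a (ρ g w)`: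
`ρ g w - ∑ f_a g • w_a ∈ E`, and `f_a` is a polynomial function to `k` (apply `ℓ_a` to the
coefficients of `P`). `F g := ∑ f_a g⁻¹ • ρ g w_a` is a polynomial function (`PolyFn.inv`,
`PolyFn.smul_fn`, `hρ w_a`), `F g - w = ρ g (∑ f_a g⁻¹ • w_a - ρ g⁻¹ w) ∈ E`. If `ρ h w - c • w ∈
E`, `c ≠ 0`, then `f_a (g * h) = c * f_a g` (`ρ g` preserves `E`), so `ρ h (F g) = ∑ f_a g⁻¹ • ρ (h
* g) w_a = c • F (h * g)` (`f_a g⁻¹ = f_a ((h * g)⁻¹ * h)`). Apply `gr_core` to `F`, `w`, `E`: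
`ρ (xr a b s) l = l`, `ρ (dgn t) l = χ ^ (N + 1) • l`. For `φ` commuting with `ρ` and `φ w = c • w`:
`φ = c` on `W`, so `φ (F g) = c • F g = c • F (1 * g)`.
-/

set_option autoImplicit false

namespace Pool.Agent.MP_b525bf_ag_SA

open scoped MatrixGroups

open Pool.Agent.MP_b525bf_ag_R (chi)

private theorem lft_eval {k A : Type} [Field k] {d : ℕ} [CommRing A] [Algebra k A]
    (P : MvPolynomial (Fin (d + 1) × Fin (d + 1)) A)
    (X : Matrix (Fin (d + 1)) (Fin (d + 1)) k) :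
    evn P X = ∑ α ∈ P.support, (∏ c : Fin (d + 1) × Fin (d + 1), X c.1 c.2 ^ α c) •
      P.coeff α := by
  rw [evn, MvPolynomial.eval_eq']
  refine Finset.sum_congr rfl fun α _ => ?_
  rw [Algebra.smul_def, map_prod, mul_comm]
  simp only [map_pow]

private theorem lft_fun {k A : Type} [Field k] {d : ℕ} [CommRing A] [Algebra k A]
    (ℓ : A →ₗ[k] k) (P : MvPolynomial (Fin (d + 1) × Fin (d + 1)) A) :
    ∃ Q : MvPolynomial (Fin (d + 1) × Fin (d + 1)) k,
      ∀ X : Matrix (Fin (d + 1)) (Fin (d + 1)) k, ℓ (evn P X) = evn Q X := by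
  refine ⟨∑ α ∈ P.support, MvPolynomial.monomial α (ℓ (P.coeff α)), fun X => ?_⟩
  rw [lft_eval, map_sum, evn, map_sum]
  refine Finset.sum_congr rfl fun α _ => ?_
  rw [map_smul, MvPolynomial.eval_monomial, Finsupp.prod_fintype _ _ fun _ => pow_zero _,
    smul_eq_mul, mul_comm]
  rfl

private theorem lft_lin {k A : Type} [Field k] [AddCommGroup A] [Module k A] (E W : Submodule k A)
    [FiniteDimensional k W] :
    ∃ (n : ℕ) (ℓ : Fin n → (A →ₗ[k] k)) (v : Fin n → A), (∀ i, v i ∈ W) ∧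
      (∀ i, ∀ e ∈ E, ℓ i e = 0) ∧ ∀ x ∈ W, (∑ i, ℓ i x • v i) - x ∈ E := by
  obtain ⟨r, hr⟩ := LinearMap.exists_rightInverse_of_surjective
    (E.mkQ.domRestrict W).rangeRestrict (LinearMap.range_rangeRestrict _)
  obtain ⟨g, hg⟩ := LinearMap.exists_extend r
  refine ⟨Module.finrank k W, fun i => ((Module.finBasis k W).coord i).comp (g.comp E.mkQ),
    fun i => (Module.finBasis k W i : A), fun i => (Module.finBasis k W i).2, ?_, ?_⟩
  · intro i e he
    rw [LinearMap.comp_apply, LinearMap.comp_apply, Submodule.mkQ_apply,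
      (Submodule.Quotient.mk_eq_zero E).2 he, map_zero, map_zero]
  · intro x hx
    have h1 : (∑ i, ((Module.finBasis k W).coord i).comp (g.comp E.mkQ) x •
        (Module.finBasis k W i : A)) = ((g (E.mkQ x) : W) : A) := by
      have h2 := (Module.finBasis k W).sum_repr (g (E.mkQ x))
      have h3 := congrArg (W.subtype) h2
      rw [map_sum] at h3
      simpa using h3
    rw [h1]
    have h4 : g (E.mkQ x) = r ((E.mkQ.domRestrict W).rangeRestrict ⟨x, hx⟩) := by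
      rw [← hg]
      rfl
    have h5 := congrArg Subtype.val
      (LinearMap.congr_fun hr ((E.mkQ.domRestrict W).rangeRestrict ⟨x, hx⟩))
    have h6 : E.mkQ ((g (E.mkQ x) : W) : A) = E.mkQ x := by
      rw [h4]
      exact h5
    rw [← sub_eq_zero, ← map_sub] at h6
    exact (Submodule.Quotient.mk_eq_zero E).1 h6

theorem exists_eigen_lift (p : ℕ) [Fact p.Prime] {k : Type} [Field k] [IsAlgClosed k] [CharP k p]
    {d : ℕ} {A : Type} [CommRing A] [Algebra k A] (ρ : SL(d + 1, k) →* (A ≃ₐ[k] A))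
    (hρ : IsRatN ρ) (E : Submodule k A) (hE : ∀ g, ∀ e ∈ E, ρ g e ∈ E) (w : A) (l₀ : Fin d → ℤ)
    (hl : ∀ t : Fin d → kˣ, ρ (dgn t) w = (chi l₀ t : k) • w)
    (hu : ∀ a b s, a < b → ρ (xr a b s) w - w ∈ E) :
    ∃ (N : ℕ) (l : A), l - w ^ (N + 1) ∈ E * (Submodule.span k {w} ⊔ E) ^ N ∧
      (∀ a b s, a < b → ρ (xr a b s) l = l) ∧
      (∀ t : Fin d → kˣ, ρ (dgn t) l = ((chi l₀ t ^ (N + 1) : kˣ) : k) • l) ∧
      ∀ φ : A ≃ₐ[k] A, (∀ g a, φ (ρ g a) = ρ g (φ a)) → ∀ c : k, φ w = c • w →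
        φ l = c ^ (N + 1) • l := by
  classical
  obtain ⟨P, hP⟩ := hρ w
  obtain ⟨W, hW⟩ : ∃ W : Submodule k A, W = Submodule.span k (Set.range fun g => ρ g w) :=
    ⟨_, rfl⟩
  have hgW : ∀ g, ρ g w ∈ W := fun g => by
    rw [hW]
    exact Submodule.subset_span ⟨g, rfl⟩
  have hfin : FiniteDimensional k W := by
    have h1 : W ≤ Submodule.span k (P.support.image P.coeff : Finset A) := by
      rw [hW, Submodule.span_le]
      rintro _ ⟨g, rfl⟩
      change ρ g w ∈ Submodule.span k ((P.support.image P.coeff : Finset A) : Set A)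
      rw [hP, lft_eval]
      exact Submodule.sum_mem _ fun α hα => Submodule.smul_mem _ _
        (Submodule.subset_span (Finset.mem_coe.2 (Finset.mem_image_of_mem _ hα)))
    exact Submodule.finiteDimensional_of_le h1
  obtain ⟨n, ℓ, v, hv, hℓE, hℓW⟩ := lft_lin E W
  obtain ⟨T, hT⟩ : ∃ T : A → A, ∀ x, T x = ∑ i, ℓ i x • v i := ⟨_, fun _ => rfl⟩
  have hTE : ∀ (x e : A) (c : k), e ∈ E → T (c • x + e) = c • T x := by
    intro x e c he
    rw [hT, hT, Finset.smul_sum]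
    refine Finset.sum_congr rfl fun i _ => ?_
    rw [map_add, map_smul, hℓE i e he, add_zero, smul_assoc]
  have hTW : ∀ x, T x ∈ W := fun x => by
    rw [hT]
    exact W.sum_mem fun i _ => W.smul_mem _ (hv i)
  obtain ⟨F, hF⟩ : ∃ F : SL(d + 1, k) → A, ∀ g, F g = ρ g (T (ρ g⁻¹ w)) := ⟨_, fun _ => rfl⟩
  have hFpoly : ∃ Q : MvPolynomial (Fin (d + 1) × Fin (d + 1)) A, ∀ g, F g = evn Q g.1 := by
    choose Q hQ using fun i => lft_fun (ℓ i) P
    choose R hR using fun i => hρ (v i)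
    have h1 : ∀ i, ∃ D, PolyFn D fun g : SL(d + 1, k) => ℓ i (ρ g⁻¹ w) • ρ g (v i) := by
      intro i
      have h2 : PolyFn (A := k) (Q i).totalDegree fun g : SL(d + 1, k) => ℓ i (ρ g w) :=
        ⟨Q i, le_rfl, fun g => (congrArg (ℓ i) (hP g)).trans (hQ i g.1)⟩
      have h3 : PolyFn (R i).totalDegree fun g : SL(d + 1, k) => ρ g (v i) :=
        ⟨R i, le_rfl, fun g => hR i g⟩
      exact ⟨_, h2.inv.smul_fn h3⟩
    choose D hD using h1
    have h4 : PolyFn (∑ i, D i) fun g : SL(d + 1, k) => ∑ i, ℓ i (ρ g⁻¹ w) • ρ g (v i) :=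
      polyFn_sum _ _ fun i _ => (hD i).mono (Finset.single_le_sum (fun _ _ => Nat.zero_le _)
        (Finset.mem_univ i))
    obtain ⟨S, -, hS⟩ := h4
    refine ⟨S, fun g => ?_⟩
    rw [← hS, hF, hT, map_sum]
    exact Finset.sum_congr rfl fun i _ => map_smul _ _ _
  obtain ⟨Q, hQ⟩ := hFpoly
  have hFE : ∀ g, F g - w ∈ E := by
    intro g
    have h1 : F g - w = ρ g (T (ρ g⁻¹ w) - ρ g⁻¹ w) := by
      rw [hF, map_sub, ← AlgEquiv.mul_apply, ← map_mul, mul_inv_cancel, map_one,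
        AlgEquiv.one_apply]
    rw [h1, hT]
    exact hE g _ (hℓW _ (hgW _))
  have hmove : ∀ (h : SL(d + 1, k)) (c : k), ρ h w - c • w ∈ E →
      ∀ g, ρ h (F g) = c • F (h * g) := by
    intro h c hc g
    have h1 : ρ g⁻¹ w = c • ρ (h * g)⁻¹ w + ρ (h * g)⁻¹ (ρ h w - c • w) := by
      rw [map_sub, map_smul, ← AlgEquiv.mul_apply, ← map_mul]
      rw [show (h * g)⁻¹ * h = g⁻¹ by group]
      abel
    rw [hF, h1, hTE _ _ _ (hE _ _ hc), map_smul, map_smul, hF, ← AlgEquiv.mul_apply, ← map_mul]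
  obtain ⟨N, l, hl1, hl2⟩ := gr_core p F Q hQ w E hFE
  refine ⟨N, l, hl1, fun a b s hab => ?_, fun t => ?_, fun φ hφ c hc => ?_⟩
  · have h1 := hl2 (ρ (xr a b s)) (xr a b s) 1 (hmove _ 1 (by
      rw [one_smul]
      exact hu a b s hab))
    rwa [one_pow, one_smul] at h1
  · have h1 := hl2 (ρ (dgn t)) (dgn t) (chi l₀ t : k) (hmove _ _ (by
      rw [hl, sub_self]
      exact E.zero_mem))
    rw [h1, Units.val_pow_eq_pow_val]
  · refine hl2 φ 1 c fun g => ?_
    have h1 : ∀ x ∈ W, φ x = c • x := by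
      intro x hx
      rw [hW] at hx
      induction hx using Submodule.span_induction with
      | mem x hx =>
        obtain ⟨g, rfl⟩ := hx
        beta_reduce
        rw [hφ, hc, map_smul]
      | zero => rw [map_zero, smul_zero]
      | add x y _ _ hx hy => rw [map_add, hx, hy, smul_add]
      | smul a x _ hx => rw [map_smul, hx, smul_comm]
    rw [one_mul, hF, hφ, h1 _ (hTW _), map_smul]

end Pool.Agent.MP_b525bf_ag_SA
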