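import Pool.Agent.Lib.MP_b525bf_ag_SA.RG
import Pool.Agent.Lib.MP_b525bf_ag_R.SPN
import Pool.Agent.Lib.MP_b525bf_ag_R.TWT

/-!
# A03: weight vectors
-/

set_option autoImplicit false

namespace Pool.Agent.MP_b525bf_ag_SA

open Pool.Agent.MP_b525bf_ag_R (up lo dg chi IsRat)
open scoped MatrixGroups

variable {k ι R G : Type} [Field k] [Infinite k] [Fintype ι] [Group G] (D : RG k ι R G) {A : Type}
  [CommRing A] [Algebra k A] (ρ : G →* (A ≃ₐ[k] A))

theorem exists_weights (hρ : D.Rat ρ) (a : A) :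
    ∃ (S : Finset (ι → ℤ)) (c : (ι → ℤ) → A) (b : (ι → ℤ) → ((ι → kˣ) →₀ k)),
      (∀ l ∈ S, D.IsWt ρ l (c l)) ∧
      (∀ l ∈ S, c l = (b l).sum fun t x => x • ρ (D.T t) a) ∧ a = ∑ l ∈ S, c l := by
  classical
  obtain ⟨S, c, hc⟩ := hρ.tor a
  have hb := fun l => Pool.Agent.MP_b525bf_ag_R.exists_coeff_chi k S l
  choose b hb using hb
  have hcb : ∀ l ∈ S, c l = (b l).sum fun t x => x • ρ (D.T t) a := fun l hl =>
    (Pool.Agent.MP_b525bf_ag_R.sum_smul_eq_coeff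
      (fun (l : ι → ℤ) (t : ι → kˣ) => (chi l t : k)) S l hl
      (b l) (hb l) (fun t => ρ (D.T t) a) c hc).symm
  refine ⟨S, c, b, fun l hl t => ?_, hcb, ?_⟩
  · have h1 := Pool.Agent.MP_b525bf_ag_R.sum_smul_eq_coeff (fun (l : ι → ℤ) (t : ι → kˣ) =>
      (chi l t : k)) S l hl (b l) (hb l) (fun t' => ρ (D.T t) (ρ (D.T t') a))
      (fun l => (chi l t : k) • c l) (by
        intro t'
        rw [← AlgEquiv.mul_apply, ← map_mul, ← map_mul, hc]
        refine Finset.sum_congr rfl fun l' _ => ?_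
        rw [Pool.Agent.MP_b525bf_ag_R.chi_mul, Units.val_mul, mul_comm, mul_smul])
    rw [← h1]
    conv_lhs => rw [hcb l hl]
    rw [Finsupp.sum, Finsupp.sum, map_sum]
    refine Finset.sum_congr rfl fun t' _ => ?_
    rw [map_smul]
  · have h1 := hc 1
    rw [map_one, map_one, AlgEquiv.one_apply] at h1
    rw [h1]
    refine Finset.sum_congr rfl fun l _ => ?_
    rw [Pool.Agent.MP_b525bf_ag_R.chi_one, Units.val_one, one_smul]

theorem exists_wt_not_mem (hρ : D.Rat ρ) (W E : Submodule k A)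
    (hW : ∀ t, ∀ a ∈ W, ρ (D.T t) a ∈ W) (w : A) (hw : w ∈ W) (hwE : w ∉ E) :
    ∃ w' ∈ W, w' ∉ E ∧ ∃ l, D.IsWt ρ l w' := by
  obtain ⟨S, c, b, hwt, hcb, hsum⟩ := exists_weights D ρ hρ w
  by_contra hcon
  push Not at hcon
  apply hwE
  rw [hsum]
  refine E.sum_mem fun l hl => ?_
  by_contra hlE
  refine hcon (c l) ?_ hlE l (hwt l hl)
  rw [hcb l hl, Finsupp.sum]
  exact W.sum_mem fun t _ => W.smul_mem _ (hW t w hw)

end Pool.Agent.MP_b525bf_ag_SA
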