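import Pool.Agent.Lib.MP_b525bf_ag_SA.DRA
import Pool.Agent.Lib.MP_b525bf_ag_SA.FXG
import Pool.Agent.Lib.MP_b525bf_ag_SA.WTC
import Pool.Agent.Lib.MP_b525bf_ag_SA.LFT

/-!
# D04: eigenvectors in the powers of the span of an orbit, with the right value

RECIPE. Adaptation of MP_b525bf_ag_R/APM.lean (`exists_eigen_val`): `O` = span of the orbit, `E Q =
{x ∈ O ^ Q : v x < v a ^ Q}` as there. `w`: `exists_fx` for `W = O`, `E = E 1`, `Γ` = all positive
roots (`Finset.univ.filter`), made a weight vector with `exists_wt_not_mem` for `O ⊓ Fx ρ (E 1) Γ`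
(`fx_T`). Induction over the factors: step with `exists_eigen_lift p (ρ.comp (slf i)) (isRatN_slf ρ
hρ i) (E (Q + 1))`; the weight of `x` for `dgn t` in the factor `i` is `fun j => e (Sum.inl ⟨i,
j⟩)` (`slf i (dgn t) = torA (...)`); for `a < b` the root `(i, a, b)` is positive. The commuting
automorphisms: `ρ (slf j g)`, `j ≠ i`, and `ρ (torA t)` for `t` trivial on the factor `i`.
-/

set_option autoImplicit false

namespace Pool.Agent.MP_b525bf_ag_SA

open Pool.Agent.MP_b525bf_ag_R (up lo dg chi IsRat)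
open scoped MatrixGroups

section aux

variable {k : Type} [Field k] {m : ℕ} {d : Fin m → ℕ} {r : ℕ}

/-- parameters in one factor -/
private def extA (i : Fin m) (t : Fin (d i) → kˣ) : IA d r → kˣ
  | Sum.inl c => if h : c.1 = i then t (h ▸ c.2) else 1
  | Sum.inr _ => 1

private theorem extA_same (i : Fin m) (t : Fin (d i) → kˣ) (j : Fin (d i)) :
    extA (r := r) i t (Sum.inl ⟨i, j⟩) = t j := by
  simp [extA]

private theorem extA_ne (i i' : Fin m) (h : i' ≠ i) (t : Fin (d i) → kˣ) (j : Fin (d i')) :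
    extA (r := r) i t (Sum.inl ⟨i', j⟩) = 1 := by
  simp [extA, h]

private theorem torA_fst (t : IA d r → kˣ) (i : Fin m) :
    (torA t).1 i = dgn fun j => t (Sum.inl ⟨i, j⟩) := rfl

private theorem torA_extA (i : Fin m) (t : Fin (d i) → kˣ) :
    torA (extA (r := r) i t) = slf i (dgn t) := by
  refine Prod.ext (funext fun i' => ?_) (funext fun j => rfl)
  rw [torA_fst]
  by_cases h : i' = i
  · subst h
    rw [slf_fst_same]
    congr 1
    ext j
    rw [extA_same]
  · rw [slf_fst_ne i i' h]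
    have h1 : (fun j => extA (r := r) i t (Sum.inl ⟨i', j⟩)) = (1 : Fin (d i') → kˣ) := by
      ext j
      rw [extA_ne i i' h]
      rfl
    rw [h1, map_one]

private theorem chi_extA (e : IA d r → ℤ) (i : Fin m) (t : Fin (d i) → kˣ) :
    chi e (extA i t) = chi (fun j => e (Sum.inl ⟨i, j⟩)) t := by
  unfold chi
  rw [Fintype.prod_sum_type, Fintype.prod_sigma]
  have h1 : ∏ x : Fin r, extA (d := d) i t (Sum.inr x) ^ e (Sum.inr x) = 1 := by
    refine Finset.prod_eq_one fun x _ => ?_
    rw [show extA (d := d) i t (Sum.inr x) = 1 from rfl, one_zpow]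
  rw [h1, mul_one, Finset.prod_eq_single i]
  · exact Finset.prod_congr rfl fun j _ => by rw [extA_same]
  · intro i' _ h
    refine Finset.prod_eq_one fun j _ => ?_
    rw [extA_ne i i' h, one_zpow]
  · intro h
    exact absurd (Finset.mem_univ _) h

private theorem torA_comm_slf (i : Fin m) (t : IA d r → kˣ) (ht : ∀ j, t (Sum.inl ⟨i, j⟩) = 1)
    (g : SL(d i + 1, k)) : torA t * slf i g = slf i g * torA t := by
  refine Prod.ext (funext fun i' => ?_) ?_
  · rw [Prod.fst_mul, Prod.fst_mul, Pi.mul_apply, Pi.mul_apply]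
    by_cases h : i' = i
    · subst h
      have h1 : (torA t).1 i' = 1 := by
        rw [torA_fst]
        have h2 : (fun j => t (Sum.inl ⟨i', j⟩)) = (1 : Fin (d i') → kˣ) := funext ht
        rw [h2, map_one]
      rw [h1, one_mul, mul_one]
    · rw [slf_fst_ne i i' h, one_mul, mul_one]
  · rw [Prod.snd_mul, Prod.snd_mul, slf_snd, one_mul, mul_one]

private theorem slf_comm {i j : Fin m} (h : j ≠ i) (g : SL(d j + 1, k)) (g' : SL(d i + 1, k)) :
    slf (r := r) j g * slf i g' = slf i g' * slf j g := by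
  refine Prod.ext (funext fun c => ?_) ?_
  · rw [Prod.fst_mul, Prod.fst_mul, Pi.mul_apply, Pi.mul_apply]
    by_cases hc : c = j
    · subst hc
      rw [slf_fst_ne i c h, one_mul, mul_one]
    · rw [slf_fst_ne j c hc, one_mul, mul_one]
  · rw [Prod.snd_mul, Prod.snd_mul, slf_snd, slf_snd]

end aux

theorem ev_A (p : ℕ) [Fact p.Prime] {k : Type} [Field k] [IsAlgClosed k] [CharP k p]
    {m : ℕ} {d : Fin m → ℕ} {r : ℕ} {A : Type} [CommRing A] [Algebra k A]
    (ρ : SLA k d r →* (A ≃ₐ[k] A)) (hρ : IsRational ρ) : (dataA k d r).EV ρ := by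
  classical
  intro Γ _ v hk hv a ha
  have : Infinite k := inferInstance
  have hrat : (dataA k d r).Rat ρ := rat_of ρ hρ
  have hρmul : ∀ (g h : SLA k d r) (x : A), ρ g (ρ h x) = ρ (g * h) x := by
    intro g h x
    rw [map_mul]
    rfl
  have hγ0 : ∀ Q : ℕ, 0 < v a ^ Q := fun Q => pow_pos (zero_lt_iff.mpr ha) Q
  have hvsmul : ∀ (c : k) (x : A), v (c • x) ≤ v x := by
    intro c x
    rw [Algebra.smul_def, map_mul]
    calc v (algebraMap k A c) * v x ≤ 1 * v x := by
          gcongr
          exact hk c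
      _ = v x := one_mul _
  set O : Submodule k A := Submodule.span k (Set.range fun g => ρ g a) with hO
  -- the values on the powers of `O`
  let L : Γ → Submodule k A := fun δ =>
    { carrier := {x | v x ≤ δ}
      add_mem' := by
        intro x y hx hy
        exact v.map_add_le hx hy
      zero_mem' := by
        simp only [Set.mem_ofPred_eq, map_zero]
        exact zero_le
      smul_mem' := by
        intro c x hx
        exact le_trans (hvsmul c x) hx }
  have hL : ∀ δ x, x ∈ L δ ↔ v x ≤ δ := fun δ x => Iff.rfl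
  have hOL : ∀ Q : ℕ, O ^ Q ≤ L (v a ^ Q) := by
    intro Q
    induction Q with
    | zero =>
      intro x hx
      rw [pow_zero] at hx
      obtain ⟨c, rfl⟩ := Submodule.mem_one.mp hx
      rw [hL, pow_zero]
      exact hk c
    | succ Q ih =>
      rw [pow_succ]
      refine Submodule.mul_le.2 fun x hx y hy => ?_
      have hy' : y ∈ L (v a) := by
        have hle : O ≤ L (v a) := by
          rw [hO, Submodule.span_le]
          rintro _ ⟨g, rfl⟩
          exact (hv g a).le
        exact hle hy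
      rw [hL, map_mul, pow_succ]
      exact mul_le_mul' ((hL _ _).1 (ih hx)) ((hL _ _).1 hy')
  let E : ℕ → Submodule k A := fun Q =>
    { carrier := {x | x ∈ O ^ Q ∧ v x < v a ^ Q}
      add_mem' := by
        intro x y hx hy
        exact ⟨Submodule.add_mem _ hx.1 hy.1, v.map_add_lt hx.2 hy.2⟩
      zero_mem' := by
        refine ⟨Submodule.zero_mem _, ?_⟩
        rw [map_zero]
        exact hγ0 Q
      smul_mem' := by
        intro c x hx
        exact ⟨Submodule.smul_mem _ _ hx.1, lt_of_le_of_lt (hvsmul c x) hx.2⟩ }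
  have hE : ∀ Q x, x ∈ E Q ↔ x ∈ O ^ Q ∧ v x < v a ^ Q := fun Q x => Iff.rfl
  have hEmul : ∀ (Q R : ℕ) (x y : A), x ∈ E Q → y ∈ O ^ R → x * y ∈ E (Q + R) := by
    intro Q R x y hx hy
    rw [hE, pow_add, pow_add, map_mul]
    refine ⟨Submodule.mul_mem_mul hx.1 hy, ?_⟩
    calc v x * v y ≤ v x * v a ^ R := by
          gcongr
          exact hOL R hy
      _ < v a ^ Q * v a ^ R := by
          have := hx.2
          have h2 := hγ0 R
          gcongr
  -- powers of congruent elements are congruent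
  have hEpow : ∀ (Q N : ℕ) (x y : A), x ∈ O ^ Q → y ∈ O ^ Q → x - y ∈ E Q →
      x ^ (N + 1) - y ^ (N + 1) ∈ E (Q * (N + 1)) := by
    intro Q N x y hx hy hxy
    induction N with
    | zero => simpa using hxy
    | succ N ih =>
      have h1 : x ^ (N + 1 + 1) - y ^ (N + 1 + 1) =
          (x ^ (N + 1) - y ^ (N + 1)) * x + (x - y) * y ^ (N + 1) := by ring
      rw [h1]
      refine Submodule.add_mem _ ?_ ?_
      · have := hEmul _ _ _ _ ih hx
        have e : Q * (N + 1) + Q = Q * (N + 1 + 1) := by ring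
        rwa [e] at this
      · have hy2 : y ^ (N + 1) ∈ O ^ (Q * (N + 1)) := by
          rw [pow_mul]
          exact Submodule.pow_mem_pow _ hy _
        have := hEmul _ _ _ _ hxy hy2
        have e : Q + Q * (N + 1) = Q * (N + 1 + 1) := by ring
        rwa [e] at this
  -- stability
  have hOst : ∀ (g : SLA k d r) (Q : ℕ), ∀ x ∈ O ^ Q, ρ g x ∈ O ^ Q := by
    intro g Q x hx
    have h1 : O.map (ρ g).toAlgHom.toLinearMap ≤ O := by
      rw [hO, Submodule.map_span_le]
      rintro _ ⟨h, rfl⟩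
      refine Submodule.subset_span ⟨g * h, ?_⟩
      exact (hρmul g h a).symm
    have h2 : (O ^ Q).map (ρ g).toAlgHom.toLinearMap = (O.map (ρ g).toAlgHom.toLinearMap) ^ Q :=
      Submodule.map_pow (f := (ρ g).toAlgHom) O Q
    have h3 : (ρ g).toAlgHom.toLinearMap x ∈ (O ^ Q).map (ρ g).toAlgHom.toLinearMap :=
      Submodule.mem_map_of_mem hx
    rw [h2] at h3
    exact pow_le_pow_left' h1 Q h3
  have hOst1 : ∀ (g : SLA k d r), ∀ x ∈ O, ρ g x ∈ O := by
    intro g x hx
    have := hOst g 1 x (by rw [pow_one]; exact hx)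
    rwa [pow_one] at this
  have hEst : ∀ (Q : ℕ) (g : SLA k d r), ∀ x ∈ E Q, ρ g x ∈ E Q := by
    intro Q g x hx
    refine ⟨hOst g Q x hx.1, ?_⟩
    rw [hv]
    exact hx.2
  have haO : a ∈ O := Submodule.subset_span ⟨1, by simp⟩
  have haE : a ∉ E 1 := by
    intro h
    have := h.2
    rw [pow_one] at this
    exact lt_irrefl _ this
  -- the vector `w`
  let P : Finset (RA d) := Finset.univ.filter fun α => 0 < (dataA k d r).ht α
  have hP : ∀ α, α ∈ P ↔ 0 < (dataA k d r).ht α := fun α => by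
    rw [Finset.mem_filter]
    exact ⟨fun h => h.2, fun h => ⟨Finset.mem_univ _, h⟩⟩
  obtain ⟨w1, hw1O, hw1E, hw1F⟩ := exists_fx (dataA k d r) ρ hrat O (E 1) P
    (fun γ hγ => (hP γ).1 hγ)
    (fun γ hγ δ hδ β _ hht => (hP β).2 (by
      have h1 := (hP γ).1 hγ
      have h2 := (hP δ).1 hδ
      rw [hht]
      exact add_pos h1 h2))
    (fun γ _ s x hx => hOst1 _ x hx) (fun γ _ s x hx => hEst 1 _ x hx) a haO haE
  obtain ⟨w, hwOF, hwE, e0, he0⟩ := exists_wt_not_mem (dataA k d r) ρ hrat
    (O ⊓ (dataA k d r).Fx ρ (E 1) (P : Set (RA d))) (E 1)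
    (fun t x hx => ⟨hOst1 _ x hx.1, fx_T (dataA k d r) ρ (E 1) (P : Set (RA d))
      (fun t y hy => hEst 1 _ y hy) t x hx.2⟩) w1 ⟨hw1O, hw1F⟩ hw1E
  have hwO : w ∈ O := hwOF.1
  have hwu : ∀ (i : Fin m) (a b : Fin (d i + 1)) (s : k), a < b →
      ρ (slf i (xr a b s)) w - w ∈ E 1 := by
    intro i a' b' s hab
    have h1 := ((dataA k d r).mem_Fx ρ (E 1) (P : Set (RA d)) w).1 hwOF.2
      ⟨⟨i, (a', b')⟩, hab.ne⟩ (Finset.mem_coe.2 ((hP _).2 (by
        change (0 : ℤ) < ((b' : ℕ) : ℤ) - (a' : ℕ)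
        have : (a' : ℕ) < (b' : ℕ) := hab
        omega))) s
    have h2 : (dataA k d r).x ⟨⟨i, (a', b')⟩, hab.ne⟩ s = slf i (xr a' b' s) :=
      phiA_up (r := r) ⟨⟨i, (a', b')⟩, hab.ne⟩ s
    rwa [h2] at h1
  have hvw : v w = v a := by
    have h1 : v w ≤ v a ^ 1 := hOL 1 (by rw [pow_one]; exact hwO)
    rw [pow_one] at h1
    rcases h1.lt_or_eq with h2 | h2
    · exact absurd ⟨by rw [pow_one]; exact hwO, by rw [pow_one]; exact h2⟩ hwE
    · exact h2
  have hwpow : ∀ Q : ℕ, w ^ Q ∈ O ^ Q := fun Q => Submodule.pow_mem_pow _ hwO _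
  have hmain : ∀ m' : ℕ, m' ≤ m → ∃ (N : ℕ) (x : A), x ∈ O ^ (N + 1) ∧
      x - w ^ (N + 1) ∈ E (N + 1) ∧ (∃ e, (dataA k d r).IsWt ρ e x) ∧
      ∀ i : Fin m, (i : ℕ) < m' → ∀ (a b : Fin (d i + 1)) (s : k), a < b →
        ρ (slf i (xr a b s)) x = x := by
    intro m'
    induction m' with
    | zero =>
      intro _
      refine ⟨0, w, ?_, ?_, ⟨e0, he0⟩, ?_⟩
      · simpa using hwO
      · simp
      · intro i hi
        exact absurd hi (Nat.not_lt_zero _)
    | succ m' ih =>
      intro hm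
      obtain ⟨Q, x, hxO, hxE, ⟨e, he⟩, hxu⟩ := ih (by omega)
      let i : Fin m := ⟨m', by omega⟩
      have hst : ∀ g, ∀ y ∈ E (Q + 1), (ρ.comp (slf i)) g y ∈ E (Q + 1) :=
        fun g y hy => hEst (Q + 1) _ y hy
      have hn : ∀ t : Fin (d i) → kˣ, (ρ.comp (slf i)) (dgn t) x =
          ((chi (fun j => e (Sum.inl ⟨i, j⟩)) t : kˣ) : k) • x := by
        intro t
        have h1 : (ρ.comp (slf i)) (dgn t) x = ρ (slf i (dgn t)) x := rfl
        have h2 : ρ (torA (extA i t)) x = ((chi e (extA i t) : kˣ) : k) • x := he (extA i t)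
        rw [h1, ← torA_extA (r := r) i t, h2, chi_extA]
      have hu : ∀ (a b : Fin (d i + 1)) (s : k), a < b →
          (ρ.comp (slf i)) (xr a b s) x - x ∈ E (Q + 1) := by
        intro a' b' s hab
        have h1 : (ρ.comp (slf i)) (xr a' b' s) x - x =
            (ρ (slf i (xr a' b' s)) (x - w ^ (Q + 1)) - (x - w ^ (Q + 1))) +
              ((ρ (slf i (xr a' b' s)) w) ^ (Q + 1) - w ^ (Q + 1)) := by
          rw [map_sub, map_pow]
          simp only [MonoidHom.comp_apply]
          ring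
        rw [h1]
        refine Submodule.add_mem _ (Submodule.sub_mem _ (hEst _ _ _ hxE) hxE) ?_
        have hw1 : w ∈ O ^ 1 := by rw [pow_one]; exact hwO
        have := hEpow 1 Q (ρ (slf i (xr a' b' s)) w) w (hOst _ 1 w hw1) hw1
          (hwu i a' b' s hab)
        rwa [one_mul] at this
      obtain ⟨N, l, hl1, hl2, hl3, hl4⟩ := exists_eigen_lift p (ρ.comp (slf i))
        (isRatN_slf ρ hρ i) (E (Q + 1)) hst x (fun j => e (Sum.inl ⟨i, j⟩)) hn hu
      have hl1' : l - x ^ (N + 1) ∈ E ((Q + 1) * (N + 1)) := by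
        have hle : E (Q + 1) * (Submodule.span k {x} ⊔ E (Q + 1)) ^ N ≤
            E ((Q + 1) * (N + 1)) := by
          refine Submodule.mul_le.2 fun y hy z hz => ?_
          have hz' : z ∈ O ^ ((Q + 1) * N) := by
            rw [pow_mul]
            have hsup : Submodule.span k {x} ⊔ E (Q + 1) ≤ O ^ (Q + 1) := by
              refine sup_le ?_ fun y hy => hy.1
              rw [Submodule.span_singleton_le_iff_mem]
              exact hxO
            exact pow_le_pow_left' hsup N hz
          have := hEmul _ _ _ _ hy hz'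
          have e' : Q + 1 + (Q + 1) * N = (Q + 1) * (N + 1) := by ring
          rwa [e'] at this
        exact hle hl1
      have hidx : (Q + 1) * (N + 1) = ((Q + 1) * (N + 1) - 1) + 1 := by
        have : 0 < (Q + 1) * (N + 1) := by positivity
        omega
      refine ⟨(Q + 1) * (N + 1) - 1, l, ?_, ?_, ?_, ?_⟩
      · rw [← hidx]
        have h1 : l = (l - x ^ (N + 1)) + x ^ (N + 1) := by ring
        rw [h1]
        refine Submodule.add_mem _ hl1'.1 ?_
        rw [pow_mul]
        exact Submodule.pow_mem_pow _ hxO _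
      · rw [← hidx]
        have h1 : l - w ^ ((Q + 1) * (N + 1)) = (l - x ^ (N + 1)) +
            (x ^ (N + 1) - (w ^ (Q + 1)) ^ (N + 1)) := by
          rw [← pow_mul]
          ring
        rw [h1]
        exact Submodule.add_mem _ hl1' (hEpow _ _ _ _ hxO (hwpow _) hxE)
      · refine ⟨(N + 1) • e, fun t => ?_⟩
        set t1 : IA d r → kˣ := extA i (fun j => t (Sum.inl ⟨i, j⟩)) with ht1
        have htt : t = t1 * (t1⁻¹ * t) := by rw [mul_inv_cancel_left]
        have ht1' : ∀ j, (t1⁻¹ * t) (Sum.inl ⟨i, j⟩) = 1 := by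
          intro j
          rw [Pi.mul_apply, Pi.inv_apply, ht1, extA_same, inv_mul_cancel]
        have h1 : ρ (torA (t1⁻¹ * t)) l = ((chi e (t1⁻¹ * t) : kˣ) : k) ^ (N + 1) • l := by
          refine hl4 (ρ (torA (t1⁻¹ * t))) ?_ _ (he _)
          intro g y
          change ρ (torA (t1⁻¹ * t)) (ρ (slf i g) y) = ρ (slf i g) (ρ (torA (t1⁻¹ * t)) y)
          rw [hρmul, hρmul, torA_comm_slf i _ ht1']
        have h2 : ρ (torA t1) l = ((chi (fun j => e (Sum.inl ⟨i, j⟩))
            (fun j => t (Sum.inl ⟨i, j⟩)) ^ (N + 1) : kˣ) : k) • l := by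
          have := hl3 (fun j => t (Sum.inl ⟨i, j⟩))
          rw [ht1, torA_extA]
          exact this
        have h3 : (chi ((N + 1) • e) t : kˣ) = chi (fun j => e (Sum.inl ⟨i, j⟩))
            (fun j => t (Sum.inl ⟨i, j⟩)) ^ (N + 1) * (chi e (t1⁻¹ * t)) ^ (N + 1) := by
          rw [← mul_pow, ← chi_extA e i, ← ht1, ← Pool.Agent.MP_b525bf_ag_R.chi_mul, ← htt]
          simp only [chi, Pi.smul_apply, ← Finset.prod_pow]
          refine Finset.prod_congr rfl fun j _ => ?_
          rw [nsmul_eq_mul, mul_comm, zpow_mul, zpow_natCast]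
        change ρ (torA t) l = ((chi ((N + 1) • e) t : kˣ) : k) • l
        calc ρ (torA t) l = ρ (torA t1) (ρ (torA (t1⁻¹ * t)) l) := by
              rw [hρmul, ← map_mul, ← htt]
          _ = ((chi ((N + 1) • e) t : kˣ) : k) • l := by
              rw [h1, map_smul, h2, smul_smul, h3]
              congr 1
              push_cast
              ring
      · intro j hj a' b' s hab
        by_cases hji : j = i
        · subst hji
          exact hl2 a' b' s hab
        · have hj' : (j : ℕ) < m' := by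
            have h1 : (j : ℕ) ≠ m' := fun h => hji (Fin.ext h)
            omega
          have := hl4 (ρ (slf j (xr a' b' s))) (fun g y => by
              change ρ (slf j (xr a' b' s)) (ρ (slf i g) y) =
                ρ (slf i g) (ρ (slf j (xr a' b' s)) y)
              rw [hρmul, hρmul, slf_comm hji]) 1
            (by rw [hxu j hj' a' b' s hab, one_smul])
          simpa using this
  obtain ⟨N, x, hxO, hxE, hxe, hxu⟩ := hmain m le_rfl
  refine ⟨N, x, hxO, ?_, ?_, hxe⟩
  · have h1 : x = w ^ (N + 1) + (x - w ^ (N + 1)) := by ring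
    have h2 : v (w ^ (N + 1)) = v a ^ (N + 1) := by rw [map_pow, hvw]
    rw [h1, v.map_add_eq_of_lt_left (by rw [h2]; exact hxE.2), h2]
  · intro α hα s
    have hlt : α.1.2.1 < α.1.2.2 := by
      have h1 : (0 : ℤ) < ((α.1.2.2 : ℕ) : ℤ) - (α.1.2.1 : ℕ) := hα
      have h2 : (α.1.2.1 : ℕ) < (α.1.2.2 : ℕ) := by omega
      exact h2
    have h2 : (dataA k d r).x α s = slf α.1.1 (xr α.1.2.1 α.1.2.2 s) := phiA_up (r := r) α s
    rw [h2]
    exact hxu α.1.1 α.1.1.2 _ _ s hlt

end Pool.Agent.MP_b525bf_ag_SA
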