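import Pool.Agent.Lib.MP_b525bf_ag_SA.DDF
import Pool.Agent.Lib.MP_b525bf_ag_SA.GEN

/-!
# D01: the properties of the root group data

RECIPE. `phiA_up`, `phiA_lo`: `emb_up`, `emb_lo`. `phiA_dg`: `emb_dg`; compare the components of
`torA (fun i => t ^ coAA r α i)`: in the factor `α.1.1` it is `dgn (fun j => t ^ coA a b j)`, in the
others `dgn 1`. `torA_up`: `dgn_xr` in the factor `α.1.1`. `phiA_comm`: `γ = (i, a, b)`, `δ = (i',
e, f)`; for `i ≠ i'` the elements commute (`Pi.mulSingle` with different indices); for `i = i'`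
(`subst`/`obtain rfl`) use `xr_comm_eq` (`b = e`, `a ≠ f`), `xr_comm_eq'` (`a = f`, `b ≠ e`),
`xr_comm_ne` (`b ≠ e`, `a ≠ f`); `b = e`, `a = f` is excluded by `γ ≠ negA δ`; if `γ` and `δ` are
equal the last one applies too. The equations for `coAA` and `htA` are by computation.
`gen_A`: `H.comap (slf i) = ⊤` by `eq_top_of_xr`, and an element is the product of the
`slf i (g.1 i)` and `torA` of an element of the second factor (`Finset.noncommProd`, or induct over
the number of the factors, compare `top_le` in MP_b525bf_ag_R/TCM.lean).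
-/

set_option autoImplicit false

namespace Pool.Agent.MP_b525bf_ag_SA

open Pool.Agent.MP_b525bf_ag_R (up lo dg chi IsRat)
open scoped MatrixGroups

variable {k : Type} [Field k] {m : ℕ} {d : Fin m → ℕ} {r : ℕ}

theorem phiA_up (α : RA d) (s : k) :
    phiA k r α (up s) = slf α.1.1 (xr α.1.2.1 α.1.2.2 s) := by
  change slf α.1.1 (emb α.1.2.1 α.1.2.2 α.2 (up s)) = _
  rw [emb_up]

private theorem phiA_lo (α : RA d) (s : k) :
    phiA k r α (lo s) = slf α.1.1 (xr α.1.2.2 α.1.2.1 s) := by
  change slf α.1.1 (emb α.1.2.1 α.1.2.2 α.2 (lo s)) = _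
  rw [emb_lo]

theorem phiA_neg_up (α : RA d) (s : k) : phiA k r (negA α) (up s) = phiA k r α (lo s) := by
  rw [phiA_up, phiA_lo]
  rfl

theorem coAA_neg (α : RA d) : coAA r (negA α) = -coAA r α := by
  funext c
  rcases c with c | c
  · change (if c.1 = α.1.1 then (if (α.1.2.2 : ℕ) ≤ (c.2 : ℕ) then (1 : ℤ) else 0) -
      (if (α.1.2.1 : ℕ) ≤ (c.2 : ℕ) then 1 else 0) else 0) =
      -(if c.1 = α.1.1 then (if (α.1.2.1 : ℕ) ≤ (c.2 : ℕ) then (1 : ℤ) else 0) -
      (if (α.1.2.2 : ℕ) ≤ (c.2 : ℕ) then 1 else 0) else 0)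
    by_cases h : c.1 = α.1.1
    · rw [if_pos h, if_pos h, neg_sub]
    · rw [if_neg h, if_neg h, neg_zero]
  · simp [coAA]

theorem htA_ne (α : RA d) : htA α ≠ 0 := by
  intro h
  apply α.2
  unfold htA at h
  apply Fin.ext
  omega

private theorem sla_ext {g h : SLA k d r} (h1 : ∀ i, g.1 i = h.1 i) (h2 : g.2 = h.2) : g = h :=
  Prod.ext (funext h1) h2

theorem phiA_dg (α : RA d) (t : kˣ) : phiA k r α (dg t) = torA fun i => t ^ coAA r α i := by
  obtain ⟨⟨i, a, b⟩, hab⟩ := α
  change slf i (emb a b hab (dg t)) = _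
  rw [emb_dg]
  refine sla_ext (fun j => ?_) ?_
  · change _ = dgn fun c => t ^ coAA r _ (Sum.inl ⟨j, c⟩)
    by_cases h : j = i
    · subst h
      rw [slf_fst_same]
      congr 1
      funext c
      simp [coAA, coA]
    · rw [slf_fst_ne i j h]
      have h1 : (fun c : Fin (d j) => t ^ coAA r (⟨⟨i, a, b⟩, hab⟩ : RA d) (Sum.inl ⟨j, c⟩)) =
          1 := by
        funext c
        simp [coAA, h]
      rw [h1, map_one]
  · rw [slf_snd]
    funext c
    change (1 : kˣ) = t ^ coAA r (⟨⟨i, a, b⟩, hab⟩ : RA d) (Sum.inr c)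
    simp [coAA]

theorem torA_up (t : IA d r → kˣ) (α : RA d) (s : k) :
    ∃ s' : k, torA t * phiA k r α (up s) = phiA k r α (up s') * torA t := by
  obtain ⟨⟨i, a, b⟩, hab⟩ := α
  refine ⟨((ex (fun c => t (Sum.inl ⟨i, c⟩)) a / ex (fun c => t (Sum.inl ⟨i, c⟩)) b : kˣ) : k) * s,
    ?_⟩
  rw [phiA_up, phiA_up]
  refine sla_ext (fun j => ?_) ?_
  · change (torA t).1 j * (slf i (xr a b s)).1 j = (slf i (xr a b _)).1 j * (torA t).1 j
    by_cases h : j = i
    · subst h
      rw [slf_fst_same, slf_fst_same]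
      exact dgn_xr _ a b s
    · rw [slf_fst_ne i j h, slf_fst_ne i j h, mul_one, one_mul]
  · change (torA t).2 * (slf i (xr a b s)).2 = (slf i (xr a b _)).2 * (torA t).2
    rw [slf_snd, slf_snd, mul_one, one_mul]

private theorem slf_comm {i j : Fin m} (h : i ≠ j) (g : SL(d i + 1, k)) (g' : SL(d j + 1, k)) :
    slf (r := r) i g * slf j g' = slf j g' * slf i g := by
  refine sla_ext (fun c => ?_) ?_
  · change (slf (r := r) i g).1 c * (slf (r := r) j g').1 c =
      (slf (r := r) j g').1 c * (slf (r := r) i g).1 c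
    by_cases hc : c = i
    · subst hc
      rw [slf_fst_ne j c h, mul_one, one_mul]
    · rw [slf_fst_ne i c hc, mul_one, one_mul]
  · change (slf (r := r) i g).2 * (slf (r := r) j g').2 =
      (slf (r := r) j g').2 * (slf (r := r) i g).2
    rw [slf_snd, slf_snd]

theorem phiA_comm (γ δ : RA d) (s t : k) (h : γ ≠ negA δ) :
    phiA k r δ (up (-t)) * phiA k r γ (up s) * phiA k r δ (up t) = phiA k r γ (up s) ∨
    ∃ β s', coAA r β = coAA r γ + coAA r δ ∧ htA β = htA γ + htA δ ∧
      phiA k r δ (up (-t)) * phiA k r γ (up s) * phiA k r δ (up t) =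
        phiA k r γ (up s) * phiA k r β (up s') := by
  obtain ⟨⟨i, a, b⟩, hab⟩ := γ
  obtain ⟨⟨i', e, f⟩, hef⟩ := δ
  have hab' : a ≠ b := hab
  have hef' : e ≠ f := hef
  by_cases hi : i = i'
  · subst hi
    by_cases h1 : b = e
    · subst h1
      by_cases h2 : a = f
      · subst h2
        exact absurd rfl h
      · right
        refine ⟨⟨⟨i, a, f⟩, h2⟩, s * t, ?_, ?_, ?_⟩
        · funext c
          rcases c with c | c
          · simp only [coAA, Pi.add_apply]
            split_ifs <;> simp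
          · simp [coAA]
        · simp only [htA]
          ring
        · simp only [phiA_up]
          rw [← map_mul, ← map_mul, ← map_mul]
          congr 1
          exact xr_comm_eq a b f hab' hef' h2 s t
    · by_cases h2 : a = f
      · subst h2
        right
        refine ⟨⟨⟨i, e, b⟩, Ne.symm h1⟩, -(s * t), ?_, ?_, ?_⟩
        · funext c
          rcases c with c | c
          · simp only [coAA, Pi.add_apply]
            split_ifs <;> simp
          · simp [coAA]
        · simp only [htA]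
          ring
        · simp only [phiA_up]
          rw [← map_mul, ← map_mul, ← map_mul]
          congr 1
          exact xr_comm_eq' a b e hab' h1 (Ne.symm hef') s t
      · left
        simp only [phiA_up]
        rw [← map_mul, ← map_mul]
        congr 1
        exact xr_comm_ne a b e f hab' hef' h1 h2 s t
  · left
    simp only [phiA_up]
    rw [slf_comm (Ne.symm hi), mul_assoc, ← map_mul, xr_mul_xr, neg_add_cancel, xr_zero, map_one,
      mul_one]

/-- The factors generate. -/
theorem slf_gen (H : Subgroup (SLA k d r)) (hT : ∀ t, torA t ∈ H) (h : ∀ i g, slf i g ∈ H) :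
    H = ⊤ := by
  rw [eq_top_iff]
  intro g _
  have h1 : MonoidHom.inl ((i : Fin m) → SL(d i + 1, k)) (Fin r → kˣ) g.1 ∈ H := by
    have h2 : g.1 ∈ H.comap (MonoidHom.inl ((i : Fin m) → SL(d i + 1, k)) (Fin r → kˣ)) :=
      Subgroup.pi_mem_of_mulSingle_mem g.1 fun i => h i (g.1 i)
    exact h2
  have h3 : g = MonoidHom.inl ((i : Fin m) → SL(d i + 1, k)) (Fin r → kˣ) g.1 *
      torA (Sum.elim (fun _ => 1) g.2) := by
    refine sla_ext (fun j => ?_) ?_
    · change g.1 j = g.1 j * dgn (1 : Fin (d j) → kˣ)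
      rw [map_one, mul_one]
    · change g.2 = 1 * g.2
      rw [one_mul]
  rw [h3]
  exact H.mul_mem h1 (hT _)

theorem gen_A (H : Subgroup (SLA k d r)) (hT : ∀ t, torA t ∈ H)
    (h : ∀ α s, phiA k r α (up s) ∈ H) : H = ⊤ := by
  refine slf_gen H hT fun i g => ?_
  have h1 : H.comap (slf i) = ⊤ := by
    refine eq_top_of_xr _ fun a b hab s => ?_
    have h2 := h ⟨⟨i, a, b⟩, hab⟩ s
    rw [phiA_up] at h2
    exact h2
  have h2 : g ∈ H.comap (slf i) := by
    rw [h1]
    exact Subgroup.mem_top g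
  exact h2

end Pool.Agent.MP_b525bf_ag_SA
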