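import Pool.Agent.Lib.MP_b525bf_ag_SA.DAT
import Pool.Agent.Lib.MP_b525bf_ag_R.TWT

/-!
# D03: rationality
-/

set_option autoImplicit false

namespace Pool.Agent.MP_b525bf_ag_SA

open Pool.Agent.MP_b525bf_ag_R (up lo dg chi IsRat)
open scoped MatrixGroups

variable {k : Type} [Field k] {m : ℕ} {d : Fin m → ℕ} {r : ℕ} {A : Type} [CommRing A]
  [Algebra k A]

private theorem eval_bind {σ τ : Type} (P : MvPolynomial σ A) (f : σ → MvPolynomial τ A)
    (x : τ → A) : MvPolynomial.eval x (MvPolynomial.bind₁ f P) =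
      MvPolynomial.eval (fun c => MvPolynomial.eval x (f c)) P :=
  MvPolynomial.eval₂Hom_bind₁ (RingHom.id A) x f P

theorem isRatN_slf (ρ : SLA k d r →* (A ≃ₐ[k] A)) (hρ : IsRational ρ) (i : Fin m) :
    IsRatN (ρ.comp (slf i)) := by
  classical
  intro a
  obtain ⟨P, hP⟩ := hρ a
  have h1 : ∀ c : (Σ i : Fin m, Fin (d i + 1) × Fin (d i + 1)) ⊕ (Fin r ⊕ Fin r),
      ∃ q : MvPolynomial (Fin (d i + 1) × Fin (d i + 1)) A, ∀ g : SL(d i + 1, k),
        MvPolynomial.eval (fun c' => algebraMap k A (g.1 c'.1 c'.2)) q =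
          algebraMap k A (coord (slf (r := r) i g) c) := by
    rintro (⟨j, c⟩ | (j | j))
    · by_cases hj : j = i
      · subst hj
        refine ⟨MvPolynomial.X c, fun g => ?_⟩
        rw [MvPolynomial.eval_X]
        change _ = algebraMap k A (((slf (r := r) j g).1 j).1 c.1 c.2)
        rw [slf_fst_same]
      · refine ⟨MvPolynomial.C (if c.1 = c.2 then 1 else 0), fun g => ?_⟩
        rw [MvPolynomial.eval_C]
        change _ = algebraMap k A (((slf (r := r) i g).1 j).1 c.1 c.2)
        rw [slf_fst_ne i j hj]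
        change _ = algebraMap k A ((1 : Matrix (Fin (d j + 1)) (Fin (d j + 1)) k) c.1 c.2)
        rw [Matrix.one_apply]
        split_ifs
        · rw [map_one]
        · rw [map_zero]
    · refine ⟨1, fun g => ?_⟩
      change _ = algebraMap k A (((slf (r := r) i g).2 j : kˣ) : k)
      rw [slf_snd, Pi.one_apply, Units.val_one, map_one, map_one]
    · refine ⟨1, fun g => ?_⟩
      change _ = algebraMap k A ((((slf (r := r) i g).2 j)⁻¹ : kˣ) : k)
      rw [slf_snd, Pi.one_apply, inv_one, Units.val_one, map_one, map_one]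
  choose q hq using h1
  refine ⟨MvPolynomial.bind₁ q P, fun g => ?_⟩
  rw [MonoidHom.comp_apply, hP, evn, eval_bind]
  congr 2
  funext c
  exact (hq c g).symm

/-- The restriction to the embedded `SL_2(k)`. -/
private theorem isRat_emb {n : ℕ} (ρ : SL(n + 1, k) →* (A ≃ₐ[k] A)) (hρ : IsRatN ρ)
    (a b : Fin (n + 1)) (h : a ≠ b) : IsRat (ρ.comp (emb a b h)) := by
  classical
  intro x
  obtain ⟨P, hP⟩ := hρ x
  let q : Fin (n + 1) × Fin (n + 1) → MvPolynomial (Fin 2 × Fin 2) A := fun c =>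
    MvPolynomial.C ((1 : Matrix (Fin (n + 1)) (Fin (n + 1)) A) c.1 c.2) +
    (MvPolynomial.X (0, 0) - 1) *
      MvPolynomial.C ((Matrix.single a a (1 : A)) c.1 c.2) +
    MvPolynomial.X (0, 1) * MvPolynomial.C ((Matrix.single a b (1 : A)) c.1 c.2) +
    MvPolynomial.X (1, 0) * MvPolynomial.C ((Matrix.single b a (1 : A)) c.1 c.2) +
    (MvPolynomial.X (1, 1) - 1) *
      MvPolynomial.C ((Matrix.single b b (1 : A)) c.1 c.2)
  refine ⟨MvPolynomial.bind₁ q P, fun g => ?_⟩
  rw [MonoidHom.comp_apply, hP, evn, MP_b525bf_ag_R.ev, eval_bind]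
  congr 2
  funext c
  have h1 : ∀ i j : Fin (n + 1), algebraMap k A ((Matrix.single i j (1 : k)) c.1 c.2) =
      (Matrix.single i j (1 : A)) c.1 c.2 := by
    intro i j
    rw [Matrix.single_apply, Matrix.single_apply]
    split_ifs
    · rw [map_one]
    · rw [map_zero]
  have h2 : algebraMap k A ((1 : Matrix (Fin (n + 1)) (Fin (n + 1)) k) c.1 c.2) =
      (1 : Matrix (Fin (n + 1)) (Fin (n + 1)) A) c.1 c.2 := by
    rw [Matrix.one_apply, Matrix.one_apply]
    split_ifs
    · rw [map_one]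
    · rw [map_zero]
  rw [emb_coe]
  simp only [Matrix.add_apply, Matrix.smul_apply, smul_eq_mul, map_add, map_mul, map_sub, map_one,
    h1, h2, q, MvPolynomial.eval_C, MvPolynomial.eval_X]

section Tor

variable {ι : Type} [Fintype ι]

/-- The character `chi · t` as a monoid homomorphism with values in `A`. -/
private def chiHom (A : Type) [CommRing A] [Algebra k A] (t : ι → kˣ) :
    Multiplicative (ι → ℤ) →* A where
  toFun l := algebraMap k A (chi l.toAdd t : k)
  map_one' := by
    rw [toAdd_one, MP_b525bf_ag_R.chi_zero, Units.val_one, map_one]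
  map_mul' l l' := by
    rw [toAdd_mul, MP_b525bf_ag_R.chi_add, Units.val_mul, map_mul]

private noncomputable def evT (t : ι → kˣ) : AddMonoidAlgebra A (ι → ℤ) →ₐ[A] A :=
  AddMonoidAlgebra.lift A A (ι → ℤ) (chiHom A t)

private theorem evT_single (t : ι → kˣ) (l : ι → ℤ) (a : A) :
    evT (k := k) t (AddMonoidAlgebra.single l a) = a * algebraMap k A (chi l t : k) := by
  rw [evT, AddMonoidAlgebra.lift_single, smul_eq_mul]
  rfl

/-- Polynomials in characters are finite sums of characters. -/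
private theorem exists_chars {σ : Type} (P : MvPolynomial σ A) (F : (ι → kˣ) → σ → k)
    (hF : ∀ c, (∀ t, F t c = 0) ∨ ∃ l : ι → ℤ, ∀ t, F t c = (chi l t : k)) :
    ∃ (S : Finset (ι → ℤ)) (c : (ι → ℤ) → A), ∀ t,
      MvPolynomial.eval (fun i => algebraMap k A (F t i)) P =
        ∑ l ∈ S, (chi l t : k) • c l := by
  classical
  have h1 : ∀ c, ∃ u : AddMonoidAlgebra A (ι → ℤ), ∀ t,
      evT (k := k) t u = algebraMap k A (F t c) := by
    intro c
    rcases hF c with h | ⟨l, h⟩
    · exact ⟨0, fun t => by rw [map_zero, h, map_zero]⟩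
    · exact ⟨AddMonoidAlgebra.single l 1, fun t => by rw [evT_single, one_mul, h]⟩
  choose u hu using h1
  let x : AddMonoidAlgebra A (ι → ℤ) := MvPolynomial.aeval u P
  have h2 : ∀ t, evT (k := k) t x = MvPolynomial.eval (fun i => algebraMap k A (F t i)) P := by
    intro t
    have h3 := MvPolynomial.comp_aeval_apply (R := A) u (evT (k := k) t) P
    rw [h3]
    simp only [hu]
    rfl
  refine ⟨x.coeff.support, fun l => x.coeff l, fun t => ?_⟩
  rw [← h2, evT, AddMonoidAlgebra.lift_apply]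
  refine Finset.sum_congr rfl fun l _ => ?_
  change x.coeff l • algebraMap k A (chi l t : k) = (chi l t : k) • x.coeff l
  rw [smul_eq_mul, Algebra.smul_def, mul_comm]

private theorem chi_single [DecidableEq ι] (x : ι) (t : ι → kˣ) :
    chi (Pi.single x 1 : ι → ℤ) t = t x := by
  rw [chi, Finset.prod_eq_single x]
  · rw [Pi.single_eq_same, zpow_one]
  · intro y _ hy
    rw [Pi.single_eq_of_ne hy, zpow_zero]
  · intro h
    exact absurd (Finset.mem_univ x) h

private theorem chi_sub' (l l' : ι → ℤ) (t : ι → kˣ) : chi (l - l') t = chi l t / chi l' t := by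
  rw [sub_eq_add_neg, MP_b525bf_ag_R.chi_add, MP_b525bf_ag_R.chi_neg, div_eq_mul_inv]

private theorem ex_char {n : ℕ} (f : Fin n → ι) (a : Fin (n + 1)) :
    ∃ l : ι → ℤ, ∀ t : ι → kˣ, ex (fun j => t (f j)) a = chi l t := by
  classical
  have h1 : ∃ l : ι → ℤ, ∀ t : ι → kˣ,
      (Fin.snoc (α := fun _ => kˣ) (fun j => t (f j)) 1 a : kˣ) = chi l t := by
    refine Fin.lastCases ?_ (fun j => ?_) a
    · exact ⟨0, fun t => by rw [Fin.snoc_last, MP_b525bf_ag_R.chi_zero]⟩
    · exact ⟨Pi.single (f j) 1, fun t => by rw [Fin.snoc_castSucc, chi_single]⟩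
  have h2 : ∃ l : ι → ℤ, ∀ t : ι → kˣ,
      (Fin.cons (α := fun _ => kˣ) 1 (fun j => t (f j)) a : kˣ) = chi l t := by
    refine Fin.cases ?_ (fun j => ?_) a
    · exact ⟨0, fun t => by rw [Fin.cons_zero, MP_b525bf_ag_R.chi_zero]⟩
    · exact ⟨Pi.single (f j) 1, fun t => by rw [Fin.cons_succ, chi_single]⟩
  obtain ⟨l1, h1⟩ := h1
  obtain ⟨l2, h2⟩ := h2
  exact ⟨l1 - l2, fun t => by rw [ex, h1, h2, chi_sub']⟩

end Tor

theorem rat_of (ρ : SLA k d r →* (A ≃ₐ[k] A)) (hρ : IsRational ρ) : (dataA k d r).Rat ρ := by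
  classical
  refine ⟨fun α => ?_, fun a => ?_⟩
  · exact isRat_emb (ρ.comp (slf α.1.1)) (isRatN_slf ρ hρ α.1.1) α.1.2.1 α.1.2.2 α.2
  · obtain ⟨P, hP⟩ := hρ a
    obtain ⟨S, c, hc⟩ := exists_chars (ι := IA d r) P
      (fun t => coord (torA t : SLA k d r)) (by
        rintro (⟨i, x⟩ | (j | j))
        · by_cases hx : x.1 = x.2
          · right
            obtain ⟨l, hl⟩ := ex_char (k := k) (ι := IA d r) (fun j => Sum.inl ⟨i, j⟩) x.1
            refine ⟨l, fun t => ?_⟩
            rw [← hl]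
            change (dgn fun j => t (Sum.inl ⟨i, j⟩)).1 x.1 x.2 = _
            rw [dgn_coe, ← hx, Matrix.diagonal_apply_eq]
          · left
            intro t
            change (dgn fun j => t (Sum.inl ⟨i, j⟩)).1 x.1 x.2 = _
            rw [dgn_coe, Matrix.diagonal_apply_ne _ hx]
        · right
          refine ⟨Pi.single (Sum.inr j) 1, fun t => ?_⟩
          rw [chi_single]
          rfl
        · right
          refine ⟨-Pi.single (Sum.inr j) 1, fun t => ?_⟩
          rw [MP_b525bf_ag_R.chi_neg, chi_single]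
          rfl)
    refine ⟨S, c, fun t => ?_⟩
    rw [← hc]
    exact hP (torA t)

end Pool.Agent.MP_b525bf_ag_SA
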