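import Mathlib

/-!
# The group `SL_(d+1)(k)`: transvections, torus, polynomial functions, lower unitriangular matrices
-/

set_option autoImplicit false

namespace Pool.Agent.MP_b525bf_ag_SA

open scoped MatrixGroups

section Group

variable {k : Type} [Field k] {d : ℕ}

/-- The matrix `1 + s E_ab` (the identity if `a = b`). -/
def xr (a b : Fin (d + 1)) (s : k) : SL(d + 1, k) :=
  if h : a ≠ b then Matrix.SpecialLinearGroup.transvection h s else 1

theorem xr_coe {a b : Fin (d + 1)} (h : a ≠ b) (s : k) :
    (xr a b s).1 = 1 + Matrix.single a b s := by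
  rw [xr, dif_pos h]
  rfl

/-- The diagonal entries of the element of the torus with parameters `t`: `t_a / t_(a-1)`. -/
def ex (t : Fin d → kˣ) (a : Fin (d + 1)) : kˣ :=
  (Fin.snoc (α := fun _ => kˣ) t 1 a : kˣ) / (Fin.cons (α := fun _ => kˣ) 1 t a : kˣ)

theorem prod_ex (t : Fin d → kˣ) : ∏ a, ex t a = 1 := by
  have h1 : ∏ a, (Fin.snoc (α := fun _ => kˣ) t 1 a : kˣ) = ∏ i, t i := by
    rw [Fin.prod_univ_castSucc]
    simp
  have h2 : ∏ a, (Fin.cons (α := fun _ => kˣ) 1 t a : kˣ) = ∏ i, t i := by
    rw [Fin.prod_univ_succ]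
    simp
  simp only [ex]
  rw [Finset.prod_div_distrib, h1, h2, div_self']

/-- The torus of `SL_(d+1)(k)`, parametrized by the simple coroots. -/
def dgn : (Fin d → kˣ) →* SL(d + 1, k) where
  toFun t := ⟨Matrix.diagonal fun a => ((ex t a : kˣ) : k), by
    rw [Matrix.det_diagonal, ← Units.coe_prod, prod_ex, Units.val_one]⟩
  map_one' := by
    refine Subtype.ext ?_
    change Matrix.diagonal _ = 1
    rw [← Matrix.diagonal_one]
    congr 1
    ext a
    have h1 : (Fin.snoc (α := fun _ => kˣ) (1 : Fin d → kˣ) 1 a : kˣ) = 1 := by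
      refine Fin.lastCases ?_ (fun i => ?_) a <;> simp
    have h2 : (Fin.cons (α := fun _ => kˣ) 1 (1 : Fin d → kˣ) a : kˣ) = 1 := by
      refine Fin.cases ?_ (fun i => ?_) a <;> simp
    rw [ex, h1, h2]
    simp
  map_mul' t t' := by
    refine Subtype.ext ?_
    change Matrix.diagonal _ = Matrix.diagonal _ * Matrix.diagonal _
    rw [Matrix.diagonal_mul_diagonal]
    congr 1
    ext a
    have h1 : (Fin.snoc (α := fun _ => kˣ) (t * t') 1 a : kˣ) =
        Fin.snoc (α := fun _ => kˣ) t 1 a * Fin.snoc (α := fun _ => kˣ) t' 1 a := by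
      refine Fin.lastCases ?_ (fun i => ?_) a <;> simp
    have h2 : (Fin.cons (α := fun _ => kˣ) 1 (t * t') a : kˣ) =
        Fin.cons (α := fun _ => kˣ) 1 t a * Fin.cons (α := fun _ => kˣ) 1 t' a := by
      refine Fin.cases ?_ (fun i => ?_) a <;> simp
    rw [ex, ex, ex, h1, h2, mul_div_mul_comm, Units.val_mul]

theorem dgn_coe (t : Fin d → kˣ) : (dgn t).1 = Matrix.diagonal fun a => ((ex t a : kˣ) : k) := rfl

/-- The positions below the diagonal. -/
abbrev Lw (d : ℕ) : Type := {c : Fin (d + 1) × Fin (d + 1) // c.2 < c.1}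

/-- The lower unitriangular matrix with entries `s`. -/
def um (s : Lw d → k) : SL(d + 1, k) :=
  ⟨Matrix.of fun a b => if h : b < a then s ⟨(a, b), h⟩ else if a = b then 1 else 0, by
    rw [Matrix.det_of_isLowerTriangular]
    · refine Finset.prod_eq_one fun a _ => ?_
      simp
    · intro a b hab
      have h1 : a < b := hab
      simp [not_lt.2 h1.le, h1.ne]⟩

theorem um_apply (s : Lw d → k) (a b : Fin (d + 1)) :
    (um s).1 a b = if h : b < a then s ⟨(a, b), h⟩ else if a = b then 1 else 0 := rfl

end Group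

section Poly

variable {k : Type} [Field k] {d : ℕ} {A : Type} [CommRing A] [Algebra k A]

/-- The value of the polynomial `P` in the matrix entries at the matrix `X`. -/
noncomputable def evn (P : MvPolynomial (Fin (d + 1) × Fin (d + 1)) A)
    (X : Matrix (Fin (d + 1)) (Fin (d + 1)) k) : A :=
  MvPolynomial.eval (fun c => algebraMap k A (X c.1 c.2)) P

/-- The value of the polynomial `Q` at the point `s`. -/
noncomputable def evk {σ : Type} (Q : MvPolynomial σ A) (s : σ → k) : A :=
  MvPolynomial.eval (fun c => algebraMap k A (s c)) Q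

/-- `f` is a polynomial function of degree at most `D` of the matrix entries. -/
def PolyFn (D : ℕ) (f : SL(d + 1, k) → A) : Prop :=
  ∃ P : MvPolynomial (Fin (d + 1) × Fin (d + 1)) A, P.totalDegree ≤ D ∧ ∀ g, f g = evn P g.1

/-- Rational actions of `SL_(d+1)(k)`. -/
def IsRatN (ρ : SL(d + 1, k) →* (A ≃ₐ[k] A)) : Prop :=
  ∀ a : A, ∃ P : MvPolynomial (Fin (d + 1) × Fin (d + 1)) A, ∀ g, ρ g a = evn P g.1

/-- The restriction of a polynomial to the lower unitriangular matrices. -/
noncomputable def res (P : MvPolynomial (Fin (d + 1) × Fin (d + 1)) A) : MvPolynomial (Lw d) A :=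
  MvPolynomial.aeval (fun c => if h : c.2 < c.1 then MvPolynomial.X ⟨c, h⟩ else
    if c.1 = c.2 then 1 else 0) P

/-- All exponents are `M`. -/
noncomputable def topE (σ : Type) [Fintype σ] (M : ℕ) : σ →₀ ℕ :=
  Finsupp.equivFunOnFinite.symm fun _ => M

/-- The combination `b` of points picks the coefficient of the monomial with exponents `M` of the
polynomials of degree at most `D`. -/
def IsTop {σ : Type} [Fintype σ] (M D : ℕ) (b : (σ → k) →₀ k) : Prop :=
  ∀ α : σ →₀ ℕ, α.degree ≤ D →
    (b.sum fun s c => c * ∏ v, s v ^ α v) = if α = topE σ M then 1 else 0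

/-- The combination of the values of `f` at the lower unitriangular matrices. -/
noncomputable def tau (b : (Lw d → k) →₀ k) (f : SL(d + 1, k) → A) : A :=
  b.sum fun s c => c • f (um s)

/-- `f` is invariant under right multiplication with the upper unitriangular matrices and has weight
`m` times the half sum of the positive roots under the torus. -/
def SI (m : ℕ) (f : SL(d + 1, k) → A) : Prop :=
  (∀ x a b s, a < b → f (x * xr a b s) = f x) ∧
    ∀ x (t : Fin d → kˣ), f (x * dgn t) = ((∏ i, t i : kˣ) : k) ^ m • f x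

end Poly

end Pool.Agent.MP_b525bf_ag_SA
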