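import Pool.Agent.Lib.MP_b525bf_ag_R.Basic
import Pool.Agent.Lib.MP_b525bf_ag_SA.SLN

/-!
# The embeddings `SL_2(k) → SL_(d+1)(k)`, the longest element, minors
-/

set_option autoImplicit false

namespace Pool.Agent.MP_b525bf_ag_SA

open Pool.Agent.MP_b525bf_ag_R (up lo dg)
open scoped MatrixGroups Matrix

section Emb

variable {k : Type} [Field k] {d : ℕ}

/-- The matrix with columns `e_a`, `e_b`. -/
def jm (k : Type) [Field k] {d : ℕ} (a b : Fin (d + 1)) : Matrix (Fin (d + 1)) (Fin 2) k :=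
  Matrix.of fun i j => if i = (if j = 0 then a else b) then 1 else 0

theorem jm_mul (a b : Fin (d + 1)) (h : a ≠ b) : (jm k a b)ᵀ * jm k a b = 1 := by
  ext i j
  rw [Matrix.mul_apply]
  fin_cases i <;> fin_cases j <;> simp [jm, Matrix.transpose_apply, h, h.symm]

/-- The embedding of `SL_2(k)` in the rows and columns `a`, `b`. -/
def emb (a b : Fin (d + 1)) (h : a ≠ b) : SL(2, k) →* SL(d + 1, k) where
  toFun g := ⟨1 + jm k a b * (g.1 - 1) * (jm k a b)ᵀ, by
    rw [Matrix.mul_assoc, Matrix.det_one_add_mul_comm, Matrix.mul_assoc, jm_mul a b h,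
      Matrix.mul_one, add_sub_cancel]
    exact g.2⟩
  map_one' := by
    refine Subtype.ext ?_
    change 1 + jm k a b * ((1 : SL(2, k)).1 - 1) * (jm k a b)ᵀ = 1
    rw [Matrix.SpecialLinearGroup.coe_one, sub_self, Matrix.mul_zero, Matrix.zero_mul, add_zero]
  map_mul' g g' := by
    refine Subtype.ext ?_
    change 1 + jm k a b * ((g * g').1 - 1) * (jm k a b)ᵀ =
      (1 + jm k a b * (g.1 - 1) * (jm k a b)ᵀ) * (1 + jm k a b * (g'.1 - 1) * (jm k a b)ᵀ)
    have h1 : jm k a b * (g.1 - 1) * (jm k a b)ᵀ * (jm k a b * (g'.1 - 1) * (jm k a b)ᵀ) =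
        jm k a b * ((g.1 - 1) * (g'.1 - 1)) * (jm k a b)ᵀ := by
      calc _ = jm k a b * (g.1 - 1) * ((jm k a b)ᵀ * jm k a b) * (g'.1 - 1) * (jm k a b)ᵀ := by
            simp only [Matrix.mul_assoc]
        _ = _ := by rw [jm_mul a b h, Matrix.mul_one]; simp only [Matrix.mul_assoc]
    rw [Matrix.SpecialLinearGroup.coe_mul, add_mul, mul_add, mul_add, h1, one_mul, mul_one, one_mul]
    have h2 : g.1 * g'.1 - 1 = (g.1 - 1) + (g'.1 - 1) + (g.1 - 1) * (g'.1 - 1) := by
      noncomm_ring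
    rw [h2, Matrix.mul_add, Matrix.mul_add, Matrix.add_mul, Matrix.add_mul]
    abel

theorem emb_coe (a b : Fin (d + 1)) (h : a ≠ b) (g : SL(2, k)) :
    (emb a b h g).1 = 1 + (g.1 0 0 - 1) • Matrix.single a a 1 + g.1 0 1 • Matrix.single a b 1 +
      g.1 1 0 • Matrix.single b a 1 + (g.1 1 1 - 1) • Matrix.single b b 1 := by
  change 1 + jm k a b * (g.1 - 1) * (jm k a b)ᵀ = _
  ext i j
  simp only [jm, Matrix.add_apply, Matrix.mul_apply, Matrix.transpose_apply, Matrix.of_apply,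
    Matrix.smul_apply, Matrix.single_apply, Fin.sum_univ_two, Matrix.sub_apply]
  simp only [Fin.isValue, if_true, one_ne_zero, if_false, Matrix.one_apply_eq, Matrix.one_apply_ne,
    ne_eq, zero_ne_one, not_false_eq_true, smul_eq_mul, sub_zero]
  by_cases h1 : i = a <;> by_cases h2 : i = b <;> by_cases h3 : j = a <;> by_cases h4 : j = b <;>
    simp [h1, h2, h3, h4, h, h.symm, Ne.symm]

theorem emb_up (a b : Fin (d + 1)) (h : a ≠ b) (s : k) : emb a b h (up s) = xr a b s := by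
  refine Subtype.ext ?_
  rw [emb_coe, xr_coe h]
  simp [Matrix.smul_single]

theorem emb_lo (a b : Fin (d + 1)) (h : a ≠ b) (s : k) : emb a b h (lo s) = xr b a s := by
  refine Subtype.ext ?_
  rw [emb_coe, xr_coe h.symm]
  simp [Matrix.smul_single]

end Emb

end Pool.Agent.MP_b525bf_ag_SA
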