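import Pool.Agent.Lib.MP_b525bf_ag_SA.EMB

/-!
# C20: the torus and the transvections of `SL_(d+1)(k)`

RECIPE. `emb_dg`: both sides are diagonal matrices (`emb_coe`, `dgn_coe`); `ex (t ^ co) a' =
t ^ (co a' - co (a' - 1)) = t ^ (δ_(a a') - δ_(b a'))` (`Fin.cases`/`Fin.lastCases` on `a'`, or
compare the partial products). `dgn_xr`: conjugation of `1 + s E_ab` with a diagonal matrix.
`xr_comm`: the commutator relations: for `(a, b) ≠ (f, e)`: `(1 - t E_ef) (1 + s E_ab) (1 + t E_ef)`
is `1 + s E_ab` if `b ≠ e`, `a ≠ f`; `(1 + s E_ab) (1 + s t E_af)` if `b = e` (`a ≠ f`); `(1 + s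
E_ab) (1 - s t E_eb)` if `a = f` (`b ≠ e`).
-/

set_option autoImplicit false

namespace Pool.Agent.MP_b525bf_ag_SA

open scoped MatrixGroups

open Pool.Agent.MP_b525bf_ag_R (up lo dg)

variable {k : Type} [Field k] {d : ℕ}

/-- The coroot of the root `(a, b)` in the basis of the simple coroots. -/
def coA (a b : Fin (d + 1)) (i : Fin d) : ℤ :=
  (if (a : ℕ) ≤ i then 1 else 0) - if (b : ℕ) ≤ i then 1 else 0

theorem coA_swap (a b : Fin (d + 1)) : coA b a = -coA a b := by
  ext i
  simp [coA]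

theorem coA_add (a b c : Fin (d + 1)) : coA a c = coA a b + coA b c := by
  ext i
  simp [coA]

private theorem ex_pow_coA (a b c : Fin (d + 1)) (t : kˣ) :
    ex (fun i : Fin d => t ^ coA a b i) c =
      t ^ ((if a = c then 1 else 0) - (if b = c then 1 else 0) : ℤ) := by
  have h1 : (Fin.snoc (α := fun _ => kˣ) (fun i : Fin d => t ^ coA a b i) 1 c : kˣ) =
      t ^ ((if (a : ℕ) ≤ c then 1 else 0) - (if (b : ℕ) ≤ c then 1 else 0) : ℤ) := by
    refine Fin.lastCases ?_ (fun i => ?_) c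
    · rw [Fin.snoc_last, Fin.val_last, if_pos (Nat.lt_succ_iff.1 a.2), if_pos
        (Nat.lt_succ_iff.1 b.2), sub_self, zpow_zero]
    · rw [Fin.snoc_castSucc]
      rfl
  have h2 : (Fin.cons (α := fun _ => kˣ) 1 (fun i : Fin d => t ^ coA a b i) c : kˣ) =
      t ^ ((if (a : ℕ) < c then 1 else 0) - (if (b : ℕ) < c then 1 else 0) : ℤ) := by
    refine Fin.cases ?_ (fun i => ?_) c
    · rw [Fin.cons_zero, Fin.val_zero, if_neg (Nat.not_lt_zero _), if_neg (Nat.not_lt_zero _),
        sub_self, zpow_zero]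
    · rw [Fin.cons_succ, coA, Fin.val_succ]
      simp only [Nat.lt_succ_iff]
  rw [ex, h1, h2, div_eq_mul_inv, ← zpow_sub]
  congr 1
  have h3 : ∀ x : Fin (d + 1), ((if (x : ℕ) ≤ c then 1 else 0 : ℤ) - if (x : ℕ) < c then 1 else 0) =
      if x = c then 1 else 0 := by
    intro x
    rcases lt_trichotomy x c with h | h | h
    · have h' : (x : ℕ) < c := h
      rw [if_pos h'.le, if_pos h', if_neg h.ne, sub_self]
    · subst h
      simp
    · have h' : (c : ℕ) < x := h
      rw [if_neg (not_le.2 h'), if_neg (not_lt.2 h'.le), if_neg h.ne', sub_self]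
  rw [← h3 a, ← h3 b]
  ring

theorem emb_dg (a b : Fin (d + 1)) (h : a ≠ b) (t : kˣ) :
    emb a b h (dg t) = dgn fun i => t ^ coA a b i := by
  refine Subtype.ext ?_
  rw [emb_coe, dgn_coe]
  ext i j
  simp only [Pool.Agent.MP_b525bf_ag_R.dg00, Pool.Agent.MP_b525bf_ag_R.dg01,
    Pool.Agent.MP_b525bf_ag_R.dg10, Pool.Agent.MP_b525bf_ag_R.dg11, zero_smul, add_zero,
    Matrix.add_apply, Matrix.smul_apply, Matrix.single_apply, Matrix.diagonal_apply,
    Matrix.one_apply, ex_pow_coA]
  by_cases hij : i = j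
  · subst hij
    by_cases h1 : a = i
    · subst h1
      simp [h.symm]
    · by_cases h2 : b = i
      · subst h2
        simp [h]
      · simp [h1, h2]
  · have h1 : ¬ (a = i ∧ a = j) := fun hh => hij (hh.1.symm.trans hh.2)
    have h2 : ¬ (b = i ∧ b = j) := fun hh => hij (hh.1.symm.trans hh.2)
    simp [hij, h1, h2]

theorem emb_dg_simple (i : Fin d) (h : i.castSucc ≠ i.succ) (t : kˣ) :
    emb i.castSucc i.succ h (dg t) = dgn (Pi.mulSingle i t) := by
  rw [emb_dg]
  congr 1
  ext j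
  rw [coA, Fin.val_castSucc, Fin.val_succ, Pi.mulSingle_apply]
  by_cases hij : j = i
  · subst hij
    simp
  · rw [if_neg hij]
    have h3 : ((i : ℕ) ≤ j) ↔ ((i : ℕ) + 1 ≤ j) := by
      constructor
      · intro h4
        rcases Nat.lt_or_eq_of_le h4 with h5 | h5
        · exact h5
        · exact absurd (Fin.ext h5.symm) hij
      · intro h4
        omega
    by_cases h4 : (i : ℕ) ≤ j
    · rw [if_pos h4, if_pos (h3.1 h4), sub_self, zpow_zero]
    · rw [if_neg h4, if_neg (fun h5 => h4 (h3.2 h5)), sub_self, zpow_zero]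

theorem dgn_xr (t : Fin d → kˣ) (a b : Fin (d + 1)) (s : k) :
    dgn t * xr a b s = xr a b (((ex t a / ex t b : kˣ) : k) * s) * dgn t := by
  by_cases h : a = b
  · subst h
    simp [xr]
  · refine Subtype.ext ?_
    change (dgn t).1 * (xr a b s).1 = (xr a b _).1 * (dgn t).1
    rw [xr_coe h, xr_coe h, dgn_coe, mul_add, add_mul, mul_one, one_mul]
    congr 1
    ext i j
    rw [Matrix.diagonal_mul, Matrix.mul_diagonal, Matrix.single_apply, Matrix.single_apply]
    by_cases h1 : a = i ∧ b = j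
    · rw [if_pos h1, if_pos h1, ← h1.1, ← h1.2, Units.val_div_eq_div_val]
      have h2 : ((ex t b : kˣ) : k) ≠ 0 := Units.ne_zero _
      field_simp
    · rw [if_neg h1, if_neg h1, mul_zero, zero_mul]

private theorem conj_aux {R : Type} [Ring R] (X Y : R) (hYY : Y * Y = 0) (hYXY : Y * X * Y = 0) :
    (1 + -Y) * (1 + X) * (1 + Y) = 1 + X + X * Y - Y * X := by
  calc (1 + -Y) * (1 + X) * (1 + Y) = 1 + X + X * Y - Y * X - Y * Y - Y * X * Y := by noncomm_ring
    _ = _ := by rw [hYY, hYXY, sub_zero, sub_zero]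

private theorem single_neg' (a b : Fin (d + 1)) (t : k) :
    Matrix.single a b (-t) = -Matrix.single a b t := by
  ext i j
  rw [Matrix.neg_apply, Matrix.single_apply, Matrix.single_apply]
  split_ifs <;> simp

theorem xr_comm_eq (a b e : Fin (d + 1)) (hab : a ≠ b) (hbe : b ≠ e) (hae : a ≠ e) (s t : k) :
    xr b e (-t) * xr a b s * xr b e t = xr a b s * xr a e (s * t) := by
  refine Subtype.ext ?_
  change (xr b e (-t)).1 * (xr a b s).1 * (xr b e t).1 = (xr a b s).1 * (xr a e (s * t)).1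
  rw [xr_coe hbe, xr_coe hab, xr_coe hbe, xr_coe hae, single_neg', conj_aux]
  · rw [Matrix.single_mul_single_same, Matrix.single_mul_single_of_ne _ _ _ _ hae.symm, sub_zero,
      add_mul, mul_add, mul_add, Matrix.single_mul_single_of_ne _ _ _ _ hab.symm]
    simp only [mul_one, one_mul]
    abel
  · exact Matrix.single_mul_single_of_ne _ _ _ _ hbe.symm _
  · rw [Matrix.single_mul_single_of_ne _ _ _ _ hae.symm, zero_mul]

theorem xr_comm_eq' (a b e : Fin (d + 1)) (hab : a ≠ b) (hbe : b ≠ e) (hae : a ≠ e) (s t : k) :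
    xr e a (-t) * xr a b s * xr e a t = xr a b s * xr e b (-(s * t)) := by
  refine Subtype.ext ?_
  change (xr e a (-t)).1 * (xr a b s).1 * (xr e a t).1 = (xr a b s).1 * (xr e b (-(s * t))).1
  rw [xr_coe hae.symm, xr_coe hab, xr_coe hae.symm, xr_coe hbe.symm, single_neg', conj_aux]
  · rw [Matrix.single_mul_single_same, Matrix.single_mul_single_of_ne _ _ _ _ hbe, single_neg',
      add_mul, mul_add, mul_add, mul_neg, mul_neg, Matrix.single_mul_single_of_ne _ _ _ _ hbe,
      mul_comm t s]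
    simp only [mul_one, one_mul]
    abel
  · exact Matrix.single_mul_single_of_ne _ _ _ _ hae _
  · rw [mul_assoc, Matrix.single_mul_single_of_ne _ _ _ _ hbe, mul_zero]

theorem xr_comm_ne (a b e f : Fin (d + 1)) (hab : a ≠ b) (hef : e ≠ f) (hbe : b ≠ e)
    (haf : a ≠ f) (s t : k) : xr e f (-t) * xr a b s * xr e f t = xr a b s := by
  refine Subtype.ext ?_
  change (xr e f (-t)).1 * (xr a b s).1 * (xr e f t).1 = (xr a b s).1
  rw [xr_coe hef, xr_coe hab, xr_coe hef, single_neg', conj_aux]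
  · rw [Matrix.single_mul_single_of_ne _ _ _ _ hbe, Matrix.single_mul_single_of_ne _ _ _ _
      haf.symm, sub_zero, add_zero]
  · exact Matrix.single_mul_single_of_ne _ _ _ _ hef.symm _
  · rw [mul_assoc, Matrix.single_mul_single_of_ne _ _ _ _ hbe, mul_zero]

end Pool.Agent.MP_b525bf_ag_SA
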