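import Pool.Agent.Lib.MP_b525bf_ag_SA.MIN
import Pool.Agent.Lib.MP_b525bf_ag_SA.ULU
import Pool.Agent.Lib.MP_b525bf_ag_SA.GEN
import Pool.Agent.Lib.MP_b525bf_ag_SA.PLB
import Pool.Agent.Lib.MP_b525bf_ag_SA.TA2

/-!
# C26: the space spanned by the translates of `chm ^ M`
-/

set_option autoImplicit false

namespace Pool.Agent.MP_b525bf_ag_SA

open scoped MatrixGroups

theorem polyFn_chm_pow (k : Type) [Field k] (d M : ℕ) (g : SL(d + 1, k)) :
    PolyFn (A := k) (M * (d * ((d + 1) * 1))) fun x : SL(d + 1, k) => chm (g * x).1 ^ M := by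
  have h1 : PolyFn (A := k) (d * ((d + 1) * 1)) fun x : SL(d + 1, k) => chm x.1 :=
    polyFn_chm (fun x => x.1) fun a b => polyFn_entry a b
  exact (h1.pow M).left g

theorem SI_chm_pow (k : Type) [Field k] (d M : ℕ) (g : SL(d + 1, k)) :
    SI (A := k) M fun x : SL(d + 1, k) => chm (g * x).1 ^ M := by
  have h : SI (A := k) M fun x : SL(d + 1, k) => chm x.1 ^ M := by
    refine ⟨fun x a b s hab => ?_, fun x t => ?_⟩
    · change chm (x.1 * (xr a b s).1) ^ M = chm x.1 ^ M
      rw [chm_mul_UU _ _ (UU_xr hab s)]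
    · change chm (x.1 * (dgn t).1) ^ M = ((∏ i, t i : kˣ) : k) ^ M • chm x.1 ^ M
      rw [chm_mul_dgn, mul_pow, smul_eq_mul]
  exact h.left g

/-- Left translation of functions by `h⁻¹`. -/
def ltr (k : Type) [Field k] (d : ℕ) :
    SL(d + 1, k) →* Module.End k (SL(d + 1, k) → k) where
  toFun h :=
    { toFun := fun f x => f (h⁻¹ * x)
      map_add' := fun _ _ => rfl
      map_smul' := fun _ _ => rfl }
  map_one' := by
    refine LinearMap.ext fun f => funext fun x => ?_
    change f ((1 : SL(d + 1, k))⁻¹ * x) = f x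
    rw [inv_one, one_mul]
  map_mul' h h' := by
    refine LinearMap.ext fun f => funext fun x => ?_
    change f ((h * h')⁻¹ * x) = f (h'⁻¹ * (h⁻¹ * x))
    rw [mul_inv_rev, mul_assoc]

theorem ltr_apply {k : Type} [Field k] {d : ℕ} (h : SL(d + 1, k)) (f : SL(d + 1, k) → k)
    (x : SL(d + 1, k)) : ltr k d h f x = f (h⁻¹ * x) := rfl

/-- The span of the translates. -/
def spV (k : Type) [Field k] (d M : ℕ) : Submodule k (SL(d + 1, k) → k) :=
  Submodule.span k (Set.range fun g : SL(d + 1, k) => fun x : SL(d + 1, k) => chm (g * x).1 ^ M)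

/-- The evaluation of polynomials on `SL`. -/
noncomputable def evL (k : Type) [Field k] (d : ℕ) :
    MvPolynomial (Fin (d + 1) × Fin (d + 1)) k →ₗ[k] (SL(d + 1, k) → k) where
  toFun P g := evn P g.1
  map_add' P Q := by
    funext g
    change evn (P + Q) g.1 = evn P g.1 + evn Q g.1
    simp only [evn, map_add]
  map_smul' c P := by
    funext g
    change evn (c • P) g.1 = c • evn P g.1
    simp only [evn, MvPolynomial.smul_eval, smul_eq_mul]

theorem mem_evL {k : Type} [Field k] {d D : ℕ} {f : SL(d + 1, k) → k} :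
    f ∈ (MvPolynomial.restrictTotalDegree (Fin (d + 1) × Fin (d + 1)) k D).map (evL k d) ↔
      PolyFn D f := by
  constructor
  · rintro ⟨P, hP, rfl⟩
    exact ⟨P, (MvPolynomial.mem_restrictTotalDegree _ _ _).1 hP, fun g => rfl⟩
  · rintro ⟨P, hP, h⟩
    exact ⟨P, (MvPolynomial.mem_restrictTotalDegree _ _ _).2 hP, funext fun g => (h g).symm⟩

theorem spV_le (k : Type) [Field k] (d M : ℕ) :
    spV k d M ≤ (MvPolynomial.restrictTotalDegree (Fin (d + 1) × Fin (d + 1)) k
      (M * (d * ((d + 1) * 1)))).map (evL k d) := by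
  refine Submodule.span_le.2 ?_
  rintro _ ⟨g, rfl⟩
  exact mem_evL.2 (polyFn_chm_pow k d M g)

theorem SI_of_mem {k : Type} [Field k] {d M : ℕ} {f : SL(d + 1, k) → k} (hf : f ∈ spV k d M) :
    SI M f := by
  refine Submodule.span_induction ?_ ?_ ?_ ?_ hf
  · rintro _ ⟨g, rfl⟩
    exact SI_chm_pow k d M g
  · refine ⟨fun x a b s _ => rfl, fun x t => ?_⟩
    change (0 : k) = ((∏ i, t i : kˣ) : k) ^ M • (0 : k)
    rw [smul_zero]
  · intro f g _ _ hf hg
    refine ⟨fun x a b s hab => ?_, fun x t => ?_⟩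
    · change f (x * xr a b s) + g (x * xr a b s) = f x + g x
      rw [hf.1 x a b s hab, hg.1 x a b s hab]
    · change f (x * dgn t) + g (x * dgn t) = ((∏ i, t i : kˣ) : k) ^ M • (f x + g x)
      rw [hf.2 x t, hg.2 x t, smul_add]
  · intro c f _ hf
    refine ⟨fun x a b s hab => ?_, fun x t => ?_⟩
    · change c • f (x * xr a b s) = c • f x
      rw [hf.1 x a b s hab]
    · change c • f (x * dgn t) = ((∏ i, t i : kˣ) : k) ^ M • (c • f x)
      rw [hf.2 x t, smul_comm]

theorem ltr_mem {k : Type} [Field k] {d M : ℕ} (h : SL(d + 1, k)) :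
    spV k d M ≤ (spV k d M).comap (ltr k d h) := by
  refine Submodule.span_le.2 ?_
  rintro _ ⟨g, rfl⟩
  refine Submodule.subset_span ⟨g * h⁻¹, ?_⟩
  funext x
  change chm (g * h⁻¹ * x).1 ^ M = chm (g * (h⁻¹ * x)).1 ^ M
  rw [mul_assoc]

/-- Left translation on the span. -/
def ltV (k : Type) [Field k] (d M : ℕ) : SL(d + 1, k) →* Module.End k (spV k d M) where
  toFun h := (ltr k d h).restrict (ltr_mem h)
  map_one' := by
    refine LinearMap.ext fun f => Subtype.ext ?_
    change ltr k d 1 f.1 = f.1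
    rw [map_one]
    rfl
  map_mul' h h' := by
    refine LinearMap.ext fun f => Subtype.ext ?_
    change ltr k d (h * h') f.1 = ltr k d h (ltr k d h' f.1)
    rw [map_mul]
    rfl

theorem exists_basis (p : ℕ) [Fact p.Prime] (k : Type) [Field k] [CharP k p] (d M : ℕ) :
    ∃ (N : ℕ) (ψ : Fin (N + 1) → SL(d + 1, k) → k), LinearIndependent k ψ ∧
      (∀ b, PolyFn (M * (d * ((d + 1) * 1))) (ψ b)) ∧ (∀ b, SI M (ψ b)) ∧
      (∀ g : SL(d + 1, k), (fun x => chm (g * x).1 ^ M) ∈ Submodule.span k (Set.range ψ)) ∧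
      ∀ h : SL(d + 1, k), ∃ R : Matrix (Fin (N + 1)) (Fin (N + 1)) k, R.det = 1 ∧
        ∀ b x, ψ b (h⁻¹ * x) = ∑ a, R a b * ψ a x := by
  classical
  have hfd : FiniteDimensional k (spV k d M) :=
    Submodule.finiteDimensional_of_le (spV_le k d M)
  have hne : 0 < Module.finrank k (spV k d M) := by
    have hmem : (fun x : SL(d + 1, k) => chm ((1 : SL(d + 1, k)) * x).1 ^ M) ∈ spV k d M :=
      Submodule.subset_span ⟨1, rfl⟩
    have h0 : (⟨_, hmem⟩ : spV k d M) ≠ 0 := by
      intro h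
      have h1 := congrFun (congrArg Subtype.val h) 1
      change chm ((1 : SL(d + 1, k)) * 1).1 ^ M = (0 : k) at h1
      rw [mul_one, Matrix.SpecialLinearGroup.coe_one, chm_one, one_pow] at h1
      exact one_ne_zero h1
    have : Nontrivial (spV k d M) := ⟨_, _, h0⟩
    exact Module.finrank_pos
  obtain ⟨N, hN⟩ : ∃ N, Module.finrank k (spV k d M) = N + 1 := ⟨_, (Nat.succ_pred_eq_of_pos hne).symm⟩
  let B := Module.finBasisOfFinrankEq k (spV k d M) hN
  refine ⟨N, fun b => (B b).1, ?_, ?_, ?_, ?_, ?_⟩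
  · exact B.linearIndependent.map' (spV k d M).subtype (Submodule.ker_subtype _)
  · intro b
    exact mem_evL.1 (spV_le k d M (B b).2)
  · intro b
    exact SI_of_mem (B b).2
  · intro g
    have h1 : Submodule.span k (Set.range fun b => (B b).1) = spV k d M := by
      have h2 : (Set.range fun b => (B b).1) = (spV k d M).subtype '' Set.range B := by
        rw [← Set.range_comp]
        rfl
      rw [h2, Submodule.span_image, B.span_eq, Submodule.map_top, Submodule.range_subtype]
    rw [h1]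
    exact Submodule.subset_span ⟨g, rfl⟩
  · intro h
    refine ⟨LinearMap.toMatrix B B (ltV k d M h), ?_, ?_⟩
    · rw [LinearMap.det_toMatrix]
      exact hom_eq_one p (LinearMap.det.comp (ltV k d M)) h
    · intro b x
      have h1 := B.sum_repr (ltV k d M h (B b))
      have h2 := congrFun (congrArg Subtype.val h1) x
      change _ = (B b).1 (h⁻¹ * x) at h2
      refine h2.symm.trans ?_
      rw [Submodule.coe_sum, Finset.sum_apply]
      refine Finset.sum_congr rfl fun a _ => ?_
      rw [LinearMap.toMatrix_apply]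
      rfl

end Pool.Agent.MP_b525bf_ag_SA
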