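import Pool.Agent.Lib.MP_b525bf_ag_SA.RG
import Pool.Agent.Lib.MP_b525bf_ag_R.GIX

/-!
# A14: the group has no proper subgroups of finite index

RECIPE. Copy of MP_b525bf_ag_R/GIX.lean: `D.gen` replaces `top_le`; `D.φ α (dg u) = D.T _`
(`D.φ_dg`) is in `H`; then `D.φ α (dg u * up s' * (dg u)⁻¹ * (up s')⁻¹) = D.φ α (up s)`.
-/

set_option autoImplicit false

namespace Pool.Agent.MP_b525bf_ag_SA

open Pool.Agent.MP_b525bf_ag_R (up lo dg chi IsRat)
open scoped MatrixGroups

private theorem gix_pow {k ι : Type} [Field k] [IsAlgClosed k]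
    (t : ι → kˣ) (M : ℕ) (hM : M ≠ 0) :
    ∃ t' : ι → kˣ, t' ^ M = t := by
  have h : ∀ i, ∃ u : kˣ, u ^ M = t i := by
    intro i
    obtain ⟨z, hz⟩ := IsAlgClosed.exists_pow_nat_eq ((t i : kˣ) : k) (Nat.pos_of_ne_zero hM)
    have hz0 : z ≠ 0 := by
      rintro rfl
      rw [zero_pow hM] at hz
      exact (t i).ne_zero hz.symm
    refine ⟨Units.mk0 z hz0, ?_⟩
    ext
    simpa using hz
  choose u hu using h
  exact ⟨u, funext hu⟩

private theorem gix_exists_unit (k : Type) [Field k] [IsAlgClosed k] :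
    ∃ t : kˣ, (t : k) ^ 2 - 1 ≠ 0 := by
  classical
  have : Infinite k := IsAlgClosed.instInfinite
  obtain ⟨x, hx⟩ := Infinite.exists_notMem_finset ({0, 1, -1} : Finset k)
  simp only [Finset.mem_insert, Finset.mem_singleton, not_or] at hx
  refine ⟨Units.mk0 x hx.1, ?_⟩
  intro h
  have h2 : (x - 1) * (x + 1) = 0 := by
    rw [Units.val_mk0] at h
    linear_combination h
  rcases mul_eq_zero.1 h2 with h3 | h3
  · exact hx.2.1 (sub_eq_zero.1 h3)
  · exact hx.2.2 (eq_neg_of_add_eq_zero_left h3)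

private theorem gix_normal {k ι R G : Type} [Field k] [IsAlgClosed k] [Group G]
    (D : RG k ι R G) (H : Subgroup G) (hn : H.Normal) (hH : H.FiniteIndex) : H = ⊤ := by
  have ht : ∀ t, D.T t ∈ H := by
    intro t
    obtain ⟨t', ht'⟩ := gix_pow t H.index hH.index_ne_zero
    rw [← ht', map_pow]
    exact H.pow_index_mem _
  obtain ⟨u, hu⟩ := gix_exists_unit k
  refine D.gen H ht ?_
  intro α s
  have h1 : D.φ α (dg u) ∈ H := by
    rw [D.φ_dg]
    exact ht _
  have h2 := hn.conj_mem _ (H.inv_mem h1) (D.φ α (up (s / ((u : k) ^ 2 - 1))))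
  have h3 := H.mul_mem h1 h2
  have h4 : dg u * (up (s / ((u : k) ^ 2 - 1)) * (dg u)⁻¹ * (up (s / ((u : k) ^ 2 - 1)))⁻¹) =
      up s := by
    have h5 : dg u * up (s / ((u : k) ^ 2 - 1)) =
        up s * up (s / ((u : k) ^ 2 - 1)) * dg u := by
      rw [Pool.Agent.MP_b525bf_ag_R.dg_mul_up, ← Pool.Agent.MP_b525bf_ag_R.up_add]
      congr 2
      field_simp
      ring
    rw [← mul_assoc, ← mul_assoc, h5]
    group
  rw [← h4]
  simpa only [map_mul, map_inv, mul_assoc] using h3

theorem eq_top_of_finiteIndex {k ι R G : Type} [Field k] [IsAlgClosed k] [Group G]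
    (D : RG k ι R G) (H : Subgroup G) (hH : H.FiniteIndex) : H = ⊤ := by
  have := hH
  have h1 : H.normalCore = ⊤ := gix_normal D _ inferInstance inferInstance
  rw [eq_top_iff, ← h1]
  exact H.normalCore_le

theorem range_eq_top_of_finiteIndex {k ι R G : Type} [Field k] [IsAlgClosed k] [Group G]
    (D : RG k ι R G) {G' : Type} [Group G'] (ρ : G →* G') (H : Subgroup ρ.range)
    (hH : H.FiniteIndex) : H = ⊤ := by
  have h1 : H.comap ρ.rangeRestrict = ⊤ := by
    refine eq_top_of_finiteIndex D _ ⟨?_⟩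
    rw [Subgroup.index_comap_of_surjective H ρ.rangeRestrict_surjective]
    exact hH.index_ne_zero
  rw [Subgroup.eq_top_iff']
  intro x
  obtain ⟨y, rfl⟩ := ρ.rangeRestrict_surjective x
  have h2 : y ∈ H.comap ρ.rangeRestrict := by
    rw [h1]; trivial
  exact h2

end Pool.Agent.MP_b525bf_ag_SA
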