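import Pool.Agent.Lib.MP_b525bf_ag_SA.RG

/-!
# A01: vectors fixed modulo a subspace by root subgroups

RECIPE. `fx_x`: put `x = D.x`. Let `γ ∈ Γ`, `s : k`. By `D.comm γ δ s t` (`hne`) and
`D.x_inv`: `x γ s * x δ t = x δ t * x γ s`, or `x γ s * x δ t = x δ t * (x γ s * x β s')` with
`β = γ + δ`, which is in `Γ` by `hΓ`. Second case: `ρ (x γ s) (ρ (x δ t) a) - ρ (x δ t) a =
ρ (x δ t) (ρ (x γ s) (ρ (x β s') a) - a)` and `ρ (x γ s) (ρ (x β s') a) - a =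
ρ (x γ s) (ρ (x β s') a - a) + (ρ (x γ s) a - a)` is in `E` by `hE` and `ha`; then `hδ`.
`fx_T`: from `D.T_up t⁻¹ γ s` get `x γ s * T t = T t * x γ s'` for some `s'`. `le_fx`: trivial.
-/

set_option autoImplicit false

namespace Pool.Agent.MP_b525bf_ag_SA

open Pool.Agent.MP_b525bf_ag_R (up lo dg chi IsRat)
open scoped MatrixGroups

variable {k ι R G : Type} [Field k] [Group G] (D : RG k ι R G) {A : Type} [CommRing A]
  [Algebra k A] (ρ : G →* (A ≃ₐ[k] A)) (E : Submodule k A) (Γ : Set R)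

theorem fx_x (δ : R) (hE : ∀ γ ∈ Γ, ∀ s, ∀ e ∈ E, ρ (D.x γ s) e ∈ E)
    (hδ : ∀ s, ∀ e ∈ E, ρ (D.x δ s) e ∈ E) (hne : ∀ γ ∈ Γ, γ ≠ D.neg δ)
    (hΓ : ∀ γ ∈ Γ, ∀ β, D.co β = D.co γ + D.co δ → D.ht β = D.ht γ + D.ht δ → β ∈ Γ) (t : k)
    (a : A) (ha : a ∈ D.Fx ρ E Γ) : ρ (D.x δ t) a ∈ D.Fx ρ E Γ := by
  have hmul : ∀ (g h : G) (b : A), ρ (g * h) b = ρ g (ρ h b) := by
    intro g h b
    rw [map_mul]
    rfl
  rw [RG.mem_Fx]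
  intro γ hγ s
  have hx : ∀ α r, D.φ α (up r) = D.x α r := fun _ _ => rfl
  rcases D.comm γ δ s t (hne γ hγ) with h | ⟨β, s', hco, hht, h⟩
  · have h1 : D.x γ s * D.x δ t = D.x δ t * D.x γ s := by
      rw [hx, hx, hx, ← D.x_inv] at h
      calc D.x γ s * D.x δ t = D.x δ t * ((D.x δ t)⁻¹ * D.x γ s * D.x δ t) := by group
        _ = D.x δ t * D.x γ s := by rw [h]
    have h2 : ρ (D.x γ s) (ρ (D.x δ t) a) - ρ (D.x δ t) a = ρ (D.x δ t) (ρ (D.x γ s) a - a) := by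
      rw [← hmul, h1, hmul, map_sub]
    rw [h2]
    exact hδ t _ (ha γ hγ s)
  · have h1 : D.x γ s * D.x δ t = D.x δ t * (D.x γ s * D.x β s') := by
      rw [hx, hx, hx, hx, ← D.x_inv] at h
      calc D.x γ s * D.x δ t = D.x δ t * ((D.x δ t)⁻¹ * D.x γ s * D.x δ t) := by group
        _ = D.x δ t * (D.x γ s * D.x β s') := by rw [h]
    have h2 : ρ (D.x γ s) (ρ (D.x δ t) a) - ρ (D.x δ t) a =
        ρ (D.x δ t) (ρ (D.x γ s) (ρ (D.x β s') a - a) + (ρ (D.x γ s) a - a)) := by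
      rw [← hmul, h1, hmul, hmul, map_sub, map_add, map_sub, map_sub, sub_add_sub_cancel]
    rw [h2]
    refine hδ t _ (E.add_mem (hE γ hγ s _ (ha β (hΓ γ hγ β hco hht) s')) (ha γ hγ s))

theorem fx_T (hT : ∀ t, ∀ e ∈ E, ρ (D.T t) e ∈ E) (t : ι → kˣ) (a : A) (ha : a ∈ D.Fx ρ E Γ) :
    ρ (D.T t) a ∈ D.Fx ρ E Γ := by
  have hmul : ∀ (g h : G) (b : A), ρ (g * h) b = ρ g (ρ h b) := by
    intro g h b
    rw [map_mul]
    rfl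
  rw [RG.mem_Fx]
  intro γ hγ s
  obtain ⟨s', hs'⟩ := D.T_up t⁻¹ γ s
  have h1 : D.x γ s * D.T t = D.T t * D.x γ s' := by
    have h0 : D.T t⁻¹ * D.x γ s = D.x γ s' * D.T t⁻¹ := hs'
    rw [map_inv] at h0
    calc D.x γ s * D.T t = D.T t * ((D.T t)⁻¹ * D.x γ s) * D.T t := by group
      _ = D.T t * (D.x γ s' * (D.T t)⁻¹) * D.T t := by rw [h0]
      _ = D.T t * D.x γ s' := by group
  have h2 : ρ (D.x γ s) (ρ (D.T t) a) - ρ (D.T t) a = ρ (D.T t) (ρ (D.x γ s') a - a) := by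
    rw [← hmul, h1, hmul, map_sub]
  rw [h2]
  exact hT t _ (ha γ hγ s')

theorem le_fx (hE : ∀ γ ∈ Γ, ∀ s, ∀ e ∈ E, ρ (D.x γ s) e ∈ E) : E ≤ D.Fx ρ E Γ := by
  intro e he γ hγ s
  exact E.sub_mem (hE γ hγ s e he) he

end Pool.Agent.MP_b525bf_ag_SA
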