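import Pool.Agent.Lib.MP_b525bf_ag_SA.QJD

/-!
# C24: the minors of the lower left corner

RECIPE. Let `1 ≤ j ≤ d`, `W = wumX k d`. Leibniz formula (`Matrix.det_apply`) for `lm j W = det (tr j
W)`: the terms are `± ∏ a, (tr j W) (σ a) a`; a term is zero unless `σ a = a` for `a ≥ j`, and then it
is `± ∏_(a < j) (sign) umX (rev (σ a)) a`; the row `rev (σ a)` has number `d - σ a`. If for some `a
< j` the entry is above the diagonal the term is `0`; an entry on the diagonal is `1`; so a nonzero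
term is `±` the monomial `∏_(a < j) X (d - σ a, a)` (without the factors on the diagonal), of
`ht1 = ∑_(a<j) (d - σ a - a) = j d - j (j - 1) = j (d + 1 - j)` and `ht2 = ∑_(a<j) (d - σ a - a)^2 =
j (d + 1 - j)^2 + ∑_(a<j) (j - 1 - σ a - a)^2` (as `∑ (j - 1 - σ a - a) = 0`), with equality only for
`σ a = j - 1 - a` (`a < j`), whose monomial is `dgE j`; the coefficient of `dgE j` is `±1` (product
of the signs). It may be more convenient to write `lm j W` as a determinant over `Fin j` first.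
-/

set_option autoImplicit false

namespace Pool.Agent.MP_b525bf_ag_SA

open scoped MatrixGroups

section aux

variable {k : Type} [Field k] {d j : ℕ} {σ : Equiv.Perm (Fin (d + 1))}

private theorem sum_lt (h : j ≤ d) (f : ℕ → ℤ) :
    ∑ a : Fin (d + 1), (if (a : ℕ) < j then f a else 0) = ∑ i ∈ Finset.range j, f i := by
  rw [Fin.sum_univ_eq_sum_range (fun i => if i < j then f i else 0) (d + 1), ← Finset.sum_filter]
  congr 1
  ext i
  simp only [Finset.mem_filter, Finset.mem_range]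
  omega

/-- The permutations with a nonzero term. -/
private def Gd (j : ℕ) (σ : Equiv.Perm (Fin (d + 1))) : Prop :=
  (∀ a : Fin (d + 1), j ≤ (a : ℕ) → σ a = a) ∧
    ∀ a : Fin (d + 1), (a : ℕ) < j → (a : ℕ) + (σ a : ℕ) ≤ d

private theorem Gd.lt (h : Gd j σ) {a : Fin (d + 1)} (ha : (a : ℕ) < j) : (σ a : ℕ) < j := by
  by_contra hc
  push Not at hc
  have h1 := σ.injective (h.1 (σ a) hc)
  rw [h1] at hc
  omega

private theorem Gd.sum (h : Gd j σ) :
    ∑ a : Fin (d + 1), (if (a : ℕ) < j then ((σ a : ℕ) : ℤ) else 0) =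
      ∑ a : Fin (d + 1), (if (a : ℕ) < j then ((a : ℕ) : ℤ) else 0) := by
  rw [← Equiv.sum_comp σ fun a : Fin (d + 1) => if (a : ℕ) < j then ((a : ℕ) : ℤ) else 0]
  refine Finset.sum_congr rfl fun a _ => ?_
  rcases lt_or_ge (a : ℕ) j with ha | ha
  · rw [if_pos ha, if_pos (h.lt ha)]
  · rw [if_neg (by omega), h.1 a ha, if_neg (not_lt.2 ha)]

/-- The differences. -/
private def ee (σ : Equiv.Perm (Fin (d + 1))) (a : Fin (d + 1)) : ℤ :=
  (d : ℤ) - (σ a : ℕ) - (a : ℕ)

private theorem sum_ee (hj : j ≤ d) (h : Gd j σ) :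
    ∑ a : Fin (d + 1), (if (a : ℕ) < j then ee σ a else 0) = (j : ℤ) * ((d : ℤ) + 1 - j) := by
  have h1 : ∀ a : Fin (d + 1), (if (a : ℕ) < j then ee σ a else 0) =
      (if (a : ℕ) < j then (d : ℤ) else 0) - (if (a : ℕ) < j then ((σ a : ℕ) : ℤ) else 0) -
        (if (a : ℕ) < j then ((a : ℕ) : ℤ) else 0) := by
    intro a
    unfold ee
    split_ifs <;> ring
  rw [Finset.sum_congr rfl fun a _ => h1 a, Finset.sum_sub_distrib, Finset.sum_sub_distrib, h.sum,
    sum_lt hj (fun _ => (d : ℤ)), sum_lt hj (fun i => (i : ℤ))]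
  rw [Finset.sum_const, Finset.card_range, nsmul_eq_mul]
  have h2 : (∑ i ∈ Finset.range j, (i : ℤ)) * 2 = (j : ℤ) * (j - 1) := by
    clear h h1 hj
    induction j with
    | zero => simp
    | succ j ih =>
      rw [Finset.sum_range_succ, add_mul, ih]
      push_cast
      ring
  linear_combination -h2

private theorem sum_ee2 (hj : j ≤ d) (h : Gd j σ) :
    ∑ a : Fin (d + 1), (if (a : ℕ) < j then ee σ a ^ 2 else 0) =
      (j : ℤ) * ((d : ℤ) + 1 - j) ^ 2 +
        ∑ a : Fin (d + 1), (if (a : ℕ) < j then (ee σ a - ((d : ℤ) + 1 - j)) ^ 2 else 0) := by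
  have h1 : ∀ a : Fin (d + 1), (if (a : ℕ) < j then (ee σ a - ((d : ℤ) + 1 - j)) ^ 2 else 0) =
      (if (a : ℕ) < j then ee σ a ^ 2 else 0) -
        2 * ((d : ℤ) + 1 - j) * (if (a : ℕ) < j then ee σ a else 0) +
        (if (a : ℕ) < j then ((d : ℤ) + 1 - j) ^ 2 else 0) := by
    intro a
    split_ifs <;> ring
  rw [Finset.sum_congr rfl fun a _ => h1 a, Finset.sum_add_distrib, Finset.sum_sub_distrib,
    ← Finset.mul_sum, sum_ee hj h, sum_lt hj (fun _ => ((d : ℤ) + 1 - j) ^ 2), Finset.sum_const,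
    Finset.card_range, nsmul_eq_mul]
  ring

/-- The exponent of the factor number `a`. -/
private noncomputable def fe (j : ℕ) (σ : Equiv.Perm (Fin (d + 1))) (a : Fin (d + 1)) :
    Lw d →₀ ℕ :=
  if h : (a : ℕ) < j ∧ a < Fin.rev (σ a) then Finsupp.single ⟨(Fin.rev (σ a), a), h.2⟩ 1 else 0

private noncomputable def al (j : ℕ) (σ : Equiv.Perm (Fin (d + 1))) : Lw d →₀ ℕ := ∑ a, fe j σ a

private theorem wh_sum (w : Lw d → ℕ) (f : Fin (d + 1) → Lw d →₀ ℕ) :
    ∑ c : Lw d, (∑ a, f a) c * w c = ∑ a, ∑ c : Lw d, f a c * w c := by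
  rw [Finset.sum_comm]
  refine Finset.sum_congr rfl fun c _ => ?_
  rw [Finsupp.finsetSum_apply, Finset.sum_mul]

private theorem rev_val (a : Fin (d + 1)) : ((Fin.rev a : Fin (d + 1)) : ℕ) = d - (a : ℕ) := by
  rw [Fin.val_rev]
  omega

private theorem wh_fe (h : Gd j σ) (a : Fin (d + 1)) (e : ℕ) (he : e ≠ 0) :
    ((∑ c : Lw d, fe j σ a c * ((c.1.1 : ℕ) - (c.1.2 : ℕ)) ^ e : ℕ) : ℤ) =
      if (a : ℕ) < j then ee σ a ^ e else 0 := by
  unfold fe
  split_ifs with h1 h2 h2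
  · rw [Finset.sum_eq_single (⟨(Fin.rev (σ a), a), h1.2⟩ : Lw d)]
    · rw [Finsupp.single_eq_same, one_mul]
      have h3 := h.2 a h2
      change ((((Fin.rev (σ a) : Fin (d + 1)) : ℕ) - (a : ℕ)) ^ e : ℕ) = ee σ a ^ e
      rw [rev_val]
      unfold ee
      rw [Nat.cast_pow]
      congr 1
      omega
    · intro c _ hc
      rw [Finsupp.single_eq_of_ne hc, zero_mul]
    · exact fun hc => absurd (Finset.mem_univ _) hc
  · exact absurd h1.1 h2
  · have h3 := h.2 a h2
    have h4 : ¬ a < Fin.rev (σ a) := fun h5 => h1 ⟨h2, h5⟩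
    rw [Fin.lt_def, rev_val] at h4
    have h5 : ee σ a = 0 := by
      unfold ee
      omega
    rw [h5, zero_pow he]
    simp
  · simp

private theorem ht1_al (hj : j ≤ d) (h : Gd j σ) : ht1 (al j σ) = j * (d + 1 - j) := by
  have h1 : ((ht1 (al j σ) : ℕ) : ℤ) = (j : ℤ) * ((d : ℤ) + 1 - j) := by
    unfold ht1 al
    rw [wh_sum, Nat.cast_sum, ← sum_ee hj h]
    refine Finset.sum_congr rfl fun a _ => ?_
    have h2 := wh_fe h a 1 one_ne_zero
    simpa using h2
  have h2 : (((j * (d + 1 - j) : ℕ)) : ℤ) = (j : ℤ) * ((d : ℤ) + 1 - j) := by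
    rw [Nat.cast_mul, Nat.cast_sub (by omega)]
    push_cast
    ring
  exact_mod_cast h1.trans h2.symm

private theorem ht2_al (hj : j ≤ d) (h : Gd j σ) :
    ((ht2 (al j σ) : ℕ) : ℤ) = (((j * (d + 1 - j) ^ 2 : ℕ)) : ℤ) +
      ∑ a : Fin (d + 1), (if (a : ℕ) < j then (ee σ a - ((d : ℤ) + 1 - j)) ^ 2 else 0) := by
  have h2 : (((j * (d + 1 - j) ^ 2 : ℕ)) : ℤ) = (j : ℤ) * ((d : ℤ) + 1 - j) ^ 2 := by
    rw [Nat.cast_mul, Nat.cast_pow, Nat.cast_sub (by omega)]
    push_cast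
    ring
  rw [h2, ← sum_ee2 hj h]
  unfold ht2 al
  rw [wh_sum, Nat.cast_sum]
  exact Finset.sum_congr rfl fun a _ => wh_fe h a 2 two_ne_zero

private theorem sq_nn (σ : Equiv.Perm (Fin (d + 1))) (a : Fin (d + 1)) :
    0 ≤ (if (a : ℕ) < j then (ee σ a - ((d : ℤ) + 1 - j)) ^ 2 else 0) := by
  split_ifs <;> positivity

private theorem sum_of_ht2 (hj : j ≤ d) (h : Gd j σ) (h2 : ht2 (al j σ) = j * (d + 1 - j) ^ 2)
    (a : Fin (d + 1)) (ha : (a : ℕ) < j) : (σ a : ℕ) + (a : ℕ) + 1 = j := by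
  have h3 := ht2_al hj h
  rw [h2] at h3
  have h4 : ∑ a : Fin (d + 1), (if (a : ℕ) < j then (ee σ a - ((d : ℤ) + 1 - j)) ^ 2 else 0) = 0 := by
    linarith
  have h5 := (Finset.sum_eq_zero_iff_of_nonneg fun a _ => sq_nn σ a).1 h4 a (Finset.mem_univ a)
  rw [if_pos ha] at h5
  have h6 := pow_eq_zero_iff (two_ne_zero) |>.1 h5
  unfold ee at h6
  omega

private theorem al_eq (hj : j ≤ d)
    (hσ : ∀ a : Fin (d + 1), (a : ℕ) < j → (σ a : ℕ) + (a : ℕ) + 1 = j) : al j σ = dgE j := by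
  ext c
  obtain ⟨⟨r, b⟩, hc⟩ := c
  have hd : (dgE j : Lw d →₀ ℕ) ⟨(r, b), hc⟩ = if (r : ℕ) + j = (b : ℕ) + (d + 1) then 1 else 0 := rfl
  rw [hd]
  unfold al
  rw [Finsupp.finsetSum_apply, Finset.sum_eq_single b]
  · unfold fe
    have hr := r.2
    split_ifs with h3 h4 h4
    · have h5 := hσ b h3.1
      rw [Finsupp.single_apply, if_pos]
      refine Subtype.ext (Prod.ext (Fin.ext ?_) rfl)
      change ((Fin.rev (σ b) : Fin (d + 1)) : ℕ) = r
      rw [rev_val]
      omega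
    · have h5 := hσ b h3.1
      rw [Finsupp.single_apply, if_neg]
      intro h6
      have h7 : Fin.rev (σ b) = r := congrArg (fun c : Lw d => c.1.1) h6
      have h8 := congrArg (fun x : Fin (d + 1) => (x : ℕ)) h7
      simp only [rev_val] at h8
      omega
    · exfalso
      have hb : (b : ℕ) < j := by omega
      have h5 := hσ b hb
      refine h3 ⟨hb, ?_⟩
      rw [Fin.lt_def, rev_val]
      omega
    · rfl
  · intro a _ ha
    unfold fe
    split_ifs with h3
    · rw [Finsupp.single_apply, if_neg]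
      intro h6
      exact ha (congrArg (fun c : Lw d => c.1.2) h6)
    · rfl
  · exact fun hc => absurd (Finset.mem_univ _) hc

private theorem wsgn_ne (a : Fin (d + 1)) : wsgn k a ≠ 0 := by
  intro h
  have h1 := wsgn_sq (k := k) a
  rw [h, mul_zero] at h1
  exact zero_ne_one h1

/-- The term of a good permutation. -/
private theorem term_good (h : Gd j σ) :
    ∃ c : k, c ≠ 0 ∧ ∏ a, tr j (wumX k d) (σ a) a = MvPolynomial.monomial (al j σ) c := by
  refine ⟨∏ a : Fin (d + 1), (if (a : ℕ) < j then wsgn k (Fin.rev (σ a)) else 1), ?_, ?_⟩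
  · refine Finset.prod_ne_zero_iff.2 fun a _ => ?_
    split_ifs
    · exact wsgn_ne _
    · exact one_ne_zero
  · have h1 : ∀ a : Fin (d + 1), tr j (wumX k d) (σ a) a =
        MvPolynomial.C (if (a : ℕ) < j then wsgn k (Fin.rev (σ a)) else 1) *
          MvPolynomial.monomial (fe j σ a) 1 := by
      intro a
      unfold tr wumX umX fe
      simp only [Matrix.of_apply]
      rcases lt_or_ge (a : ℕ) j with ha | ha
      · have h2 := h.lt ha
        have h3 := h.2 a ha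
        rw [if_pos ⟨h2, ha⟩, if_pos ha]
        congr 1
        by_cases h4 : a < Fin.rev (σ a)
        · rw [dif_pos h4, dif_pos ⟨ha, h4⟩]
          rfl
        · rw [dif_neg h4, dif_neg (fun h5 => h4 h5.2), if_pos]
          · rfl
          · refine Fin.ext ?_
            rw [Fin.lt_def, rev_val] at h4
            rw [rev_val]
            omega
      · rw [if_neg (by omega), if_pos (h.1 a ha), if_neg (by omega), dif_neg (fun h5 => by omega)]
        simp
    rw [Finset.prod_congr rfl fun a _ => h1 a, Finset.prod_mul_distrib, ← map_prod]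
    unfold al
    rw [← MvPolynomial.monomial_sum_one, MvPolynomial.C_mul_monomial, mul_one]

/-- The term of a bad permutation. -/
private theorem term_bad (h : ¬ Gd j σ) : ∏ a, tr j (wumX k d) (σ a) a = 0 := by
  unfold Gd at h
  by_cases h1 : ∀ a : Fin (d + 1), j ≤ (a : ℕ) → σ a = a
  · have h2 : ∃ a : Fin (d + 1), (a : ℕ) < j ∧ d < (a : ℕ) + (σ a : ℕ) := by
      by_contra hc
      push Not at hc
      exact h ⟨h1, hc⟩
    obtain ⟨a, ha, hd⟩ := h2
    refine Finset.prod_eq_zero (Finset.mem_univ a) ?_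
    unfold tr wumX umX
    simp only [Matrix.of_apply]
    split_ifs with h3 h4 h5 h6
    · exfalso
      rw [Fin.lt_def, rev_val] at h4
      omega
    · exfalso
      have h6 := congrArg (fun x : Fin (d + 1) => (x : ℕ)) h5
      simp only [rev_val] at h6
      have := (σ a).2
      omega
    · rw [mul_zero]
    · exfalso
      rw [h6] at h3
      exact h3 ⟨ha, ha⟩
    · rfl
  · push Not at h1
    obtain ⟨a, ha, hne⟩ := h1
    refine Finset.prod_eq_zero (Finset.mem_univ a) ?_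
    unfold tr
    simp only [Matrix.of_apply]
    rw [if_neg (by omega), if_neg hne]

private theorem coeff_lm (α : Lw d →₀ ℕ) : (lm j (wumX k d)).coeff α =
    ∑ σ : Equiv.Perm (Fin (d + 1)),
      (((Equiv.Perm.sign σ : ℤˣ) : ℤ) : k) * (∏ a, tr j (wumX k d) (σ a) a).coeff α := by
  unfold lm
  rw [Matrix.det_apply', MvPolynomial.coeff_sum]
  refine Finset.sum_congr rfl fun σ _ => ?_
  have e : ((((Equiv.Perm.sign σ : ℤˣ) : ℤ)) : MvPolynomial (Lw d) k) =
      MvPolynomial.C ((((Equiv.Perm.sign σ : ℤˣ) : ℤ)) : k) := by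
    rw [map_intCast]
  rw [e, MvPolynomial.coeff_C_mul]

private theorem sign_ne (σ : Equiv.Perm (Fin (d + 1))) :
    (((Equiv.Perm.sign σ : ℤˣ) : ℤ) : k) ≠ 0 := by
  rcases Int.units_eq_one_or (Equiv.Perm.sign σ) with h | h <;> rw [h] <;> simp

private theorem exists_of_coeff {α : Lw d →₀ ℕ}
    (h : (∏ a, tr j (wumX k d) (σ a) a).coeff α ≠ 0) : Gd j σ ∧ α = al j σ := by
  by_cases h1 : Gd j σ
  · obtain ⟨c, hc, h2⟩ := term_good (k := k) h1
    rw [h2, MvPolynomial.coeff_monomial] at h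
    refine ⟨h1, ?_⟩
    by_contra h3
    exact h (if_neg (Ne.symm h3))
  · rw [term_bad h1] at h
    exact absurd (MvPolynomial.coeff_zero α) h

/-- The permutation of the diagonal term. -/
private theorem exists_refl (hj : j ≤ d) : ∃ σ : Equiv.Perm (Fin (d + 1)), Gd j σ ∧
    ∀ a : Fin (d + 1), (a : ℕ) < j → (σ a : ℕ) + (a : ℕ) + 1 = j := by
  have h1 : Function.Involutive (fun a : Fin (d + 1) =>
      if h : (a : ℕ) < j then (⟨j - 1 - (a : ℕ), by omega⟩ : Fin (d + 1)) else a) := by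
    intro a
    by_cases ha : (a : ℕ) < j
    · have h2 : j - 1 - (a : ℕ) < j := by omega
      simp only [dif_pos ha, dif_pos h2]
      refine Fin.ext ?_
      change j - 1 - (j - 1 - (a : ℕ)) = a
      omega
    · simp only [dif_neg ha]
  refine ⟨h1.toPerm, ⟨fun a ha => ?_, fun a ha => ?_⟩, fun a ha => ?_⟩
  · change (if h : (a : ℕ) < j then (⟨j - 1 - (a : ℕ), by omega⟩ : Fin (d + 1)) else a) = a
    rw [dif_neg (by omega)]
  · change (a : ℕ) + ((if h : (a : ℕ) < j then (⟨j - 1 - (a : ℕ), by omega⟩ : Fin (d + 1)) else a :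
      Fin (d + 1)) : ℕ) ≤ d
    rw [dif_pos ha]
    change (a : ℕ) + (j - 1 - (a : ℕ)) ≤ d
    omega
  · change ((if h : (a : ℕ) < j then (⟨j - 1 - (a : ℕ), by omega⟩ : Fin (d + 1)) else a :
      Fin (d + 1)) : ℕ) + (a : ℕ) + 1 = j
    rw [dif_pos ha]
    change (j - 1 - (a : ℕ)) + (a : ℕ) + 1 = j
    omega

end aux

theorem lei_support (k : Type) [Field k] (d j : ℕ) (h1 : 1 ≤ j) (h2 : j ≤ d)
    (α : Lw d →₀ ℕ) (hα : α ∈ (lm j (wumX k d)).support) :
    ht1 α = j * (d + 1 - j) ∧ j * (d + 1 - j) ^ 2 ≤ ht2 α ∧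
      (ht2 α = j * (d + 1 - j) ^ 2 → α = dgE j) := by
  rw [MvPolynomial.mem_support_iff, coeff_lm] at hα
  obtain ⟨σ, -, hσ⟩ := Finset.exists_ne_zero_of_sum_ne_zero hα
  obtain ⟨hg, rfl⟩ := exists_of_coeff (right_ne_zero_of_mul hσ)
  refine ⟨ht1_al h2 hg, ?_, fun h3 => al_eq h2 (sum_of_ht2 h2 hg h3)⟩
  have h3 := ht2_al h2 hg
  have h4 : 0 ≤ ∑ a : Fin (d + 1),
      (if (a : ℕ) < j then (ee σ a - ((d : ℤ) + 1 - j)) ^ 2 else 0) :=
    Finset.sum_nonneg fun a _ => sq_nn σ a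
  have h5 : (((j * (d + 1 - j) ^ 2 : ℕ)) : ℤ) ≤ ((ht2 (al j σ) : ℕ) : ℤ) := by
    rw [h3]; linarith
  exact_mod_cast h5

theorem lei_coeff (k : Type) [Field k] (d j : ℕ) (h1 : 1 ≤ j) (h2 : j ≤ d) :
    (lm j (wumX k d)).coeff (dgE j) ≠ 0 := by
  obtain ⟨σ₀, hg₀, hσ₀⟩ := exists_refl (d := d) h2
  have e₀ := al_eq h2 hσ₀
  have hh : ht2 (dgE j : Lw d →₀ ℕ) = j * (d + 1 - j) ^ 2 := by
    have h3 := ht2_al h2 hg₀
    have h4 : ∑ a : Fin (d + 1),
        (if (a : ℕ) < j then (ee σ₀ a - ((d : ℤ) + 1 - j)) ^ 2 else 0) = 0 := by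
      refine Finset.sum_eq_zero fun a _ => ?_
      split_ifs with ha
      · have h5 := hσ₀ a ha
        have h6 : ee σ₀ a - ((d : ℤ) + 1 - j) = 0 := by
          unfold ee
          omega
        rw [h6]
        simp
      · rfl
    rw [h4, add_zero, e₀] at h3
    exact_mod_cast h3
  rw [coeff_lm, Finset.sum_eq_single σ₀]
  · obtain ⟨c, hc, h3⟩ := term_good (k := k) hg₀
    rw [h3, MvPolynomial.coeff_monomial, if_pos e₀]
    exact mul_ne_zero (sign_ne _) hc
  · intro σ _ hσ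
    by_contra h3
    obtain ⟨hg, he⟩ := exists_of_coeff (right_ne_zero_of_mul h3)
    have h4 := sum_of_ht2 h2 hg (by rw [← he]; exact hh)
    refine hσ (Equiv.ext fun a => Fin.ext ?_)
    rcases lt_or_ge (a : ℕ) j with ha | ha
    · have h5 := h4 a ha
      have h6 := hσ₀ a ha
      omega
    · rw [hg.1 a ha, hg₀.1 a ha]
  · exact fun hc => absurd (Finset.mem_univ _) hc

end Pool.Agent.MP_b525bf_ag_SA
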