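import Pool.Agent.Lib.MP_b525bf_ag_SA.RG
import Pool.Agent.Lib.MP_b525bf_ag_R.STA
import Pool.Agent.Lib.MP_b525bf_ag_R.DUA

/-!
# A04: positivity

RECIPE. `pr_nonneg`: apply `Pool.Agent.MP_b525bf_ag_R.exists_orbit_formula` to
`ρ.comp (D.φ α)`, `hρ.sl α`, with `n = D.pr l α`: `ρ (D.φ α (dg t)) w = ρ (D.T (t ^ co)) w =
chi l (fun i => t ^ D.co α i) • w` and `Pool.Agent.MP_b525bf_ag_R.chi_zpow l (D.co α) t`. It gives
`n = n'` natural, so `0 ≤ n`; if `n' = 0` the sum over `range 1` is `(g00 ^ 0 * g10 ^ 0) • c 0 =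
w`. `dominant`: `E = ⊥`.
-/

set_option autoImplicit false

namespace Pool.Agent.MP_b525bf_ag_SA

open Pool.Agent.MP_b525bf_ag_R (up lo dg chi IsRat)
open scoped MatrixGroups

variable {k ι R G : Type} [Field k] [Infinite k] [Fintype ι] [Group G] (D : RG k ι R G) {A : Type}
  [CommRing A] [Algebra k A] (ρ : G →* (A ≃ₐ[k] A))

theorem dg_wt (α : R) (l : ι → ℤ) (w : A) (hl : D.IsWt ρ l w) (t : kˣ) :
    ρ (D.φ α (dg t)) w = ((t ^ D.pr l α : kˣ) : k) • w := by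
  rw [D.φ_dg, hl, Pool.Agent.MP_b525bf_ag_R.chi_zpow]
  rfl

theorem pr_nonneg (hρ : D.Rat ρ) (α : R) (E : Submodule k A)
    (hE : ∀ g, ∀ e ∈ E, ρ (D.φ α g) e ∈ E) (w : A) (hw : w ∉ E) (l : ι → ℤ)
    (hl : D.IsWt ρ l w) (hu : ∀ s, ρ (D.x α s) w - w ∈ E) :
    0 ≤ D.pr l α ∧ (D.pr l α = 0 → ∀ g, ρ (D.φ α g) w - w ∈ E) := by
  obtain ⟨n', M, c, b, h1, -, -, h3, -, h4⟩ :=
    Pool.Agent.MP_b525bf_ag_R.exists_orbit_formula (ρ.comp (D.φ α)) (hρ.sl α) E hE w hw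
      (D.pr l α) (fun t => dg_wt D ρ α l w hl t) hu
  refine ⟨by rw [h1]; exact Int.natCast_nonneg _, fun h0 g => ?_⟩
  have hn : n' = 0 := by
    rw [h1] at h0
    exact_mod_cast h0
  subst hn
  have h5 := h4 g
  simpa [h3] using h5

theorem dominant (hρ : D.Rat ρ) (h : A) (hh : h ≠ 0) (hU : D.IsU ρ h) (l : ι → ℤ)
    (hl : D.IsWt ρ l h) (α : R) (hα : 0 < D.ht α) : 0 ≤ D.pr l α := by
  refine (pr_nonneg D ρ hρ α ⊥ (fun g e he => ?_) h (fun h1 => hh ((Submodule.mem_bot k).1 h1)) l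
    hl (fun s => ?_)).1
  · rw [Submodule.mem_bot] at he ⊢
    rw [he, map_zero]
  · rw [Submodule.mem_bot, sub_eq_zero]
    exact hU α hα s

end Pool.Agent.MP_b525bf_ag_SA
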