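import Pool.Agent.Lib.MP_b525bf_ag_SA.FXS
import Pool.Agent.Lib.MP_b525bf_ag_SA.POS

/-!
# A06: the roots in `Pos` (first part)

RECIPE. Let `Φ = D.Pos ρ`. `pos_add`: if `γ ∈ Φ` with `l, h`, and `0 ≤ pr l' δ` for all weights
`l'` of invariant vectors, `β = γ + δ`: `pr l β = pr l γ + pr l δ > 0` (`D.co β = D.co γ + D.co δ`,
sums); if `ht β < 0` then `D.neg β` is positive with `pr l (neg β) = - pr l β < 0`, against
`dominant`; so `0 < ht β` (`D.ht_ne`), `β ∈ Φ`. `inv_pos_x`: `D.Fx ρ ⊥ Φ` is stable under `X_δ` if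
`δ` is positive (`dominant`) or `D.neg δ` is positive and not in `Φ` (then `pr l (neg δ) = 0` for
all weights `l` of invariant vectors, by `dominant` and the definition of `Pos`): `fx_x` with
`E = ⊥`; `γ ≠ D.neg δ` as `ht γ > 0`, respectively `D.neg δ ∉ Φ`. `compl_add`: sums of positive
roots not in `Φ` are positive and not in `Φ`: `pr l ψ = 0` for all these `l`.
-/

set_option autoImplicit false

namespace Pool.Agent.MP_b525bf_ag_SA

open Pool.Agent.MP_b525bf_ag_R (up lo dg chi IsRat)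
open scoped MatrixGroups

variable {k ι R G : Type} [Field k] [Infinite k] [Fintype ι] [Group G] (D : RG k ι R G) {A : Type}
  [CommRing A] [Algebra k A] (ρ : G →* (A ≃ₐ[k] A))

omit [Infinite k] in
private theorem pr_co (l : ι → ℤ) (α β γ : R) (h : D.co α = D.co β + D.co γ) :
    D.pr l α = D.pr l β + D.pr l γ := by
  unfold RG.pr
  rw [h, ← Finset.sum_add_distrib]
  refine Finset.sum_congr rfl fun i _ => ?_
  rw [Pi.add_apply, add_mul]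

omit [Infinite k] in
private theorem pr_neg' (l : ι → ℤ) (α : R) : D.pr l (D.neg α) = -D.pr l α := by
  unfold RG.pr
  rw [D.co_neg, ← Finset.sum_neg_distrib]
  refine Finset.sum_congr rfl fun i _ => ?_
  rw [Pi.neg_apply, neg_mul]

theorem pr_eq_zero (hρ : D.Rat ρ) (ψ : R) (hψ : 0 < D.ht ψ) (hψ' : ψ ∉ D.Pos ρ) (h : A)
    (hh : h ≠ 0) (hU : D.IsU ρ h) (l : ι → ℤ) (hl : D.IsWt ρ l h) : D.pr l ψ = 0 := by
  refine le_antisymm (not_lt.1 fun hlt => hψ' ⟨hψ, l, h, hh, hU, hl, hlt⟩) ?_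
  exact dominant D ρ hρ h hh hU l hl ψ hψ

theorem pos_add (hρ : D.Rat ρ) (γ : R) (hγ : γ ∈ D.Pos ρ) (δ : R)
    (hδ : ∀ h l, h ≠ 0 → D.IsU ρ h → D.IsWt ρ l h → 0 ≤ D.pr l δ) (β : R)
    (hco : D.co β = D.co γ + D.co δ) : β ∈ D.Pos ρ := by
  obtain ⟨hγ0, l, h, h0, hU, hl, hpos⟩ := hγ
  have h1 := pr_co D l β γ δ hco
  have h2 := hδ h l h0 hU hl
  refine ⟨?_, l, h, h0, hU, hl, by omega⟩
  by_contra hcon
  have h3 := D.ht_ne β
  have h4 : 0 < D.ht (D.neg β) := by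
    rw [D.ht_neg]
    omega
  have h5 := dominant D ρ hρ h h0 hU l hl _ h4
  rw [pr_neg'] at h5
  omega

theorem inv_pos_x (hρ : D.Rat ρ) (δ : R) (hδ : 0 < D.ht δ ∨ (0 < D.ht (D.neg δ) ∧ D.neg δ ∉ D.Pos ρ))
    (t : k) (a : A) (ha : a ∈ D.Fx ρ ⊥ (D.Pos ρ)) : ρ (D.x δ t) a ∈ D.Fx ρ ⊥ (D.Pos ρ) := by
  have hbot : ∀ (g : G), ∀ e ∈ (⊥ : Submodule k A), ρ g e ∈ (⊥ : Submodule k A) := by
    intro g e he
    rw [Submodule.mem_bot] at he ⊢
    rw [he, map_zero]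
  refine fx_x D ρ ⊥ (D.Pos ρ) δ (fun γ _ s => hbot _) (fun s => hbot _) ?_ ?_ t a ha
  · intro γ hγ h
    rcases hδ with h1 | ⟨-, h1⟩
    · have h2 := hγ.1
      rw [h, D.ht_neg] at h2
      omega
    · exact h1 (h ▸ hγ)
  · intro γ hγ β hco _
    refine pos_add D ρ hρ γ hγ δ ?_ β hco
    intro h l h0 hU hl
    rcases hδ with h1 | ⟨h1, h2⟩
    · exact dominant D ρ hρ h h0 hU l hl δ h1
    · have h3 := pr_eq_zero D ρ hρ (D.neg δ) h1 h2 h h0 hU l hl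
      rw [pr_neg'] at h3
      omega

theorem compl_add (hρ : D.Rat ρ) (γ δ β : R) (hγ : 0 < D.ht γ ∧ γ ∉ D.Pos ρ)
    (hδ : 0 < D.ht δ ∧ δ ∉ D.Pos ρ) (hco : D.co β = D.co γ + D.co δ)
    (hht : D.ht β = D.ht γ + D.ht δ) : 0 < D.ht β ∧ β ∉ D.Pos ρ := by
  refine ⟨by have h1 := hγ.1; have h2 := hδ.1; omega, ?_⟩
  rintro ⟨-, l, h, h0, hU, hl, hpos⟩
  rw [pr_co D l β γ δ hco, pr_eq_zero D ρ hρ γ hγ.1 hγ.2 h h0 hU l hl,
    pr_eq_zero D ρ hρ δ hδ.1 hδ.2 h h0 hU l hl] at hpos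
  omega

end Pool.Agent.MP_b525bf_ag_SA
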