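import Pool.Agent.Lib.MP_b525bf_ag_SA.LVA
import Pool.Agent.Lib.MP_b525bf_ag_SA.FXG
import Pool.Agent.Lib.MP_b525bf_ag_SA.WTC
import Pool.Agent.Lib.MP_b525bf_ag_SA.SL2

/-!
# A07: the roots in `Pos` (second part)

RECIPE (section I5 of the paper sla_paper_h12.txt). Let `Φ = D.Pos ρ`, `W = D.Fx ρ ⊥ Φ` (so the
given `a` is in `W`), `Ψ` = the finset of the positive roots not in `Φ` (classical), `E` = the
submodule of the `e ∈ W` fixed by all `D.x ψ s`, `D.x (D.neg ψ) s`, `ψ ∈ Ψ` (for instance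
`D.Fx ρ ⊥ (Φ ∪ Ψ ∪ D.neg '' Ψ)`). `W` and `E` are `T`-stable (`fx_T` with `E = ⊥`), `W` is stable
under `X_ψ`, `X_(-ψ)` (`inv_pos_x`; `D.neg_neg`). It suffices to show `W ≤ E`, as then `a` is
fixed by `Φ` and `Ψ`, all positive roots. Suppose not; `exists_fx` for `W, E, Ψ` (`compl_add`)
gives `w ∈ W`, `w ∉ E`, `w ∈ D.Fx ρ E Ψ`, and `exists_wt_not_mem` for `W ⊓ D.Fx ρ E Ψ` (stable by
`fx_T`) makes it a weight vector of weight `l'`. By `pr_nonneg`, `0 ≤ pr l' ψ` for `ψ ∈ Ψ` (`E` is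
fixed by `D.φ ψ g` for all `g`: `eq_top_of_up_lo` for the subgroup of the `g` which fix all
`e ∈ E`). Case 1: all `pr l' ψ = 0`. Then `ρ (D.φ ψ g) w - w ∈ E` for all `g`; `c g := ρ (D.φ ψ g)
w - w` satisfies `c (g g') = c g + c g'` (apply `ρ (D.φ ψ g)` to `c g' ∈ E`), so `c = 0` by
`hom_add_eq_zero`: `w` is fixed by `X_ψ`, `X_(-ψ)` (`D.lo_eq`), so `w ∈ E`, contradiction. Case 2:
`0 < pr l' ψ₀`. For each `ψ ∈ Ψ`, `up_fixed (ρ.comp (D.φ ψ)) _ w (pr l' ψ)` (`dg_wt`; the elements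
`ρ (D.x ψ s) w - w` are in `E`, so fixed by `D.φ ψ (dg t)`) gives `ρ (D.x ψ s) w = w`. So
`D.IsU ρ w`, `w ≠ 0`, of weight `l'`, and `ψ₀ ∈ Pos`: contradiction.
-/

set_option autoImplicit false

namespace Pool.Agent.MP_b525bf_ag_SA

open Pool.Agent.MP_b525bf_ag_R (up lo dg chi IsRat)
open scoped MatrixGroups

private lemma mem_fx_bot {k ι R G : Type} [Field k] [Group G]
    (D : RG k ι R G) {A : Type} [CommRing A] [Algebra k A] (ρ : G →* (A ≃ₐ[k] A)) (Γ : Set R)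
    (a : A) : a ∈ D.Fx ρ ⊥ Γ ↔ ∀ γ ∈ Γ, ∀ s, ρ (D.x γ s) a = a := by
  rw [RG.mem_Fx]
  simp only [Submodule.mem_bot, sub_eq_zero]

theorem isU_of_fixed {k ι R G : Type} [Field k] [Infinite k] [Fintype ι] [Finite R] [Group G]
    (D : RG k ι R G) {A : Type} [CommRing A] [Algebra k A] (ρ : G →* (A ≃ₐ[k] A))
    (hρ : D.Rat ρ) (a : A) (ha : ∀ α ∈ D.Pos ρ, ∀ s, ρ (D.x α s) a = a) : D.IsU ρ a := by
  classical
  have _ft : Fintype R := Fintype.ofFinite R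
  obtain ⟨Ψ, hΨ⟩ : ∃ Ψ : Finset R, ∀ ψ, ψ ∈ Ψ ↔ 0 < D.ht ψ ∧ ψ ∉ D.Pos ρ :=
    ⟨Finset.univ.filter (fun ψ => 0 < D.ht ψ ∧ ψ ∉ D.Pos ρ), fun ψ => by simp⟩
  obtain ⟨W, hW⟩ : ∃ W : Submodule k A, W = D.Fx ρ ⊥ (D.Pos ρ) := ⟨_, rfl⟩
  obtain ⟨E, hE⟩ : ∃ E : Submodule k A,
    E = D.Fx ρ ⊥ (D.Pos ρ ∪ ({γ | γ ∈ Ψ} ∪ {γ | D.neg γ ∈ Ψ})) := ⟨_, rfl⟩
  have hmW : ∀ b, b ∈ W ↔ ∀ γ ∈ D.Pos ρ, ∀ s, ρ (D.x γ s) b = b := fun b => by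
    rw [hW, mem_fx_bot]
  have hmE : ∀ b, b ∈ E ↔ (∀ γ ∈ D.Pos ρ, ∀ s, ρ (D.x γ s) b = b) ∧
      (∀ γ ∈ Ψ, ∀ s, ρ (D.x γ s) b = b) ∧ ∀ γ, D.neg γ ∈ Ψ → ∀ s, ρ (D.x γ s) b = b := by
    intro b
    rw [hE, mem_fx_bot]
    constructor
    · intro h
      exact ⟨fun γ hγ => h γ (Or.inl hγ), fun γ hγ => h γ (Or.inr (Or.inl hγ)),
        fun γ hγ => h γ (Or.inr (Or.inr hγ))⟩
    · rintro ⟨h1, h2, h3⟩ γ (hγ | hγ | hγ)
      · exact h1 γ hγ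
      · exact h2 γ hγ
      · exact h3 γ hγ
  have haW : a ∈ W := (hmW a).2 ha
  suffices hWE : a ∈ E by
    intro α hα s
    by_cases h1 : α ∈ D.Pos ρ
    · exact ha α h1 s
    · exact ((hmE a).1 hWE).2.1 α ((hΨ α).2 ⟨hα, h1⟩) s
  by_contra haE
  have hbotT : ∀ t, ∀ e ∈ (⊥ : Submodule k A), ρ (D.T t) e ∈ (⊥ : Submodule k A) := by
    intro t e he
    rw [Submodule.mem_bot] at he ⊢
    rw [he, map_zero]
  have hWT : ∀ t, ∀ b ∈ W, ρ (D.T t) b ∈ W := by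
    intro t b hb
    rw [hW] at hb ⊢
    exact fx_T D ρ ⊥ _ hbotT t b hb
  have hET : ∀ t, ∀ b ∈ E, ρ (D.T t) b ∈ E := by
    intro t b hb
    rw [hE] at hb ⊢
    exact fx_T D ρ ⊥ _ hbotT t b hb
  have hWx : ∀ γ ∈ Ψ, ∀ s, ∀ b ∈ W, ρ (D.x γ s) b ∈ W := by
    intro γ hγ s b hb
    rw [hW] at hb ⊢
    exact inv_pos_x D ρ hρ γ (Or.inl ((hΨ γ).1 hγ).1) s b hb
  have hEx : ∀ γ ∈ Ψ, ∀ s, ∀ b ∈ E, ρ (D.x γ s) b ∈ E := by
    intro γ hγ s b hb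
    rw [((hmE b).1 hb).2.1 γ hγ s]
    exact hb
  obtain ⟨w0, hw0W, hw0E, hw0Fx⟩ := exists_fx D ρ hρ W E Ψ (fun γ hγ => ((hΨ γ).1 hγ).1)
    (fun γ hγ δ hδ β hco hht => (hΨ β).2
      (compl_add D ρ hρ γ δ β ((hΨ γ).1 hγ) ((hΨ δ).1 hδ) hco hht)) hWx hEx a haW haE
  obtain ⟨w, hwWF, hwE, l, hl⟩ := exists_wt_not_mem D ρ hρ (W ⊓ D.Fx ρ E (Ψ : Set R)) E
    (fun t b hb => ⟨hWT t b hb.1, fx_T D ρ E _ hET t b hb.2⟩) w0 ⟨hw0W, hw0Fx⟩ hw0E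
  have hwW : w ∈ W := hwWF.1
  have hwF : ∀ ψ ∈ Ψ, ∀ s, ρ (D.x ψ s) w - w ∈ E := hwWF.2
  -- elements of E are fixed by SL_2
  have hfix : ∀ ψ ∈ Ψ, ∀ g, ∀ e ∈ E, ρ (D.φ ψ g) e = e := by
    intro ψ hψ
    let H : Subgroup SL(2, k) :=
      { carrier := {g | ∀ e ∈ E, ρ (D.φ ψ g) e = e}
        mul_mem' := by
          intro g g' hg hg' e he
          rw [map_mul, map_mul, AlgEquiv.mul_apply, hg' e he, hg e he]
        one_mem' := by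
          intro e _
          rw [map_one, map_one]
          rfl
        inv_mem' := by
          intro g hg e he
          have h1 : ρ (D.φ ψ g⁻¹) (ρ (D.φ ψ g) e) = e := by
            rw [← AlgEquiv.mul_apply, ← map_mul, ← map_mul, inv_mul_cancel, map_one, map_one]
            rfl
          rw [hg e he] at h1
          exact h1 }
    have hH : H = ⊤ := by
      refine eq_top_of_up_lo H ?_ ?_
      · intro s e he
        exact ((hmE e).1 he).2.1 ψ hψ s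
      · intro s e he
        change ρ (D.φ ψ (lo s)) e = e
        rw [D.lo_eq]
        exact ((hmE e).1 he).2.2 (D.neg ψ) (by rw [D.neg_neg]; exact hψ) s
    intro g
    have hg : g ∈ H := by rw [hH]; exact Subgroup.mem_top g
    exact hg
  have hpr : ∀ ψ ∈ Ψ, 0 ≤ D.pr l ψ ∧ (D.pr l ψ = 0 → ∀ g, ρ (D.φ ψ g) w - w ∈ E) := by
    intro ψ hψ
    refine pr_nonneg D ρ hρ ψ E (fun g e he => ?_) w hwE l hl (hwF ψ hψ)
    rw [hfix ψ hψ g e he]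
    exact he
  by_cases hall : ∀ ψ ∈ Ψ, D.pr l ψ = 0
  · -- the vector is fixed
    have hc : ∀ ψ ∈ Ψ, ∀ g, ρ (D.φ ψ g) w = w := by
      intro ψ hψ g
      have h1 := (hpr ψ hψ).2 (hall ψ hψ)
      have h2 := hom_add_eq_zero (fun g => ρ (D.φ ψ g) w - w) (by
        intro g g'
        have h3 := hfix ψ hψ g _ (h1 g')
        rw [map_sub] at h3
        have h4 : ρ (D.φ ψ (g * g')) w = ρ (D.φ ψ g) (ρ (D.φ ψ g') w) := by
          rw [map_mul, map_mul, AlgEquiv.mul_apply]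
        beta_reduce
        rw [h4, ← h3]
        ring) g
      exact sub_eq_zero.1 h2
    refine hwE ((hmE w).2 ⟨(hmW w).1 hwW, fun γ hγ s => hc γ hγ (up s), fun γ hγ s => ?_⟩)
    have h1 := hc (D.neg γ) hγ (lo s)
    rw [D.lo_eq, D.neg_neg] at h1
    exact h1
  · push Not at hall
    obtain ⟨ψ₀, hψ₀, hne⟩ := hall
    have hup : ∀ ψ ∈ Ψ, ∀ s, ρ (D.x ψ s) w = w := by
      intro ψ hψ s
      exact up_fixed (ρ.comp (D.φ ψ)) (hρ.sl ψ) w (D.pr l ψ) (hpr ψ hψ).1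
        (fun t => dg_wt D ρ ψ l w hl t) (fun s t => hfix ψ hψ (dg t) _ (hwF ψ hψ s)) s
    have hU : D.IsU ρ w := by
      intro α hα s
      by_cases h1 : α ∈ D.Pos ρ
      · exact (hmW w).1 hwW α h1 s
      · exact hup α ((hΨ α).2 ⟨hα, h1⟩) s
    have hw0 : w ≠ 0 := by
      rintro rfl
      exact hwE E.zero_mem
    refine ((hΨ ψ₀).1 hψ₀).2 ⟨((hΨ ψ₀).1 hψ₀).1, l, w, hw0, hU, hl, ?_⟩
    exact lt_of_le_of_ne (hpr ψ₀ hψ₀).1 (Ne.symm hne)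

end Pool.Agent.MP_b525bf_ag_SA
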