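import Pool.Agent.Lib.MP_b525bf_ag_SA.PHD
import Pool.Agent.Lib.MP_b525bf_ag_SA.ULU
import Pool.Agent.Lib.MP_b525bf_ag_SA.W0L

/-!
# C12: the function `Φ(x, y)` at generic points

RECIPE. Write `z = y⁻¹ * x`. `PHI_eq`: `lm j z = lm j (z * u) = ∏_(a < j) (z * u) a a ≠ 0` (`lm_mul_UU`,
`lm_mul`; the diagonal entries of a lower triangular matrix of determinant one are not zero), so
`chm z ≠ 0`; `exists_lu`, `lu_unique`: `cc z = u * diagonal (lm b z)`, so `evn (PD D) (x * cc z) =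
evn (PD D) ((x * u).1 * diagonal _) = (chm z) ^ D • evn (PD D) (x * u).1` (`prod_lm`), and
`chm z ^ (M - D) * chm z ^ D = chm z ^ M` as `D ≤ N₀ ≤ M`. The other statements: let `u` be from
`exists_lu z`. `x * xr a b s`: `u' = (xr a b s)⁻¹ * u`, `x * xr a b s * u' = x * u`, `chm_mul_UU`.
`x * dgn t`: `u' = (dgn t)⁻¹ * u * dgn t` is in `UU`, `x * dgn t * u' = x * u * dgn t`, `F0_dgn`,
`chm_mul_dgn`. `y * xr a b s * w0`: `z = (y * w0)⁻¹ * x` is replaced by `l * z` with `l = w0⁻¹ *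
(xr a b s)⁻¹ * w0 = xr (rev a) (rev b) _` lower unitriangular (`w0_conj_xr`), `l * z * u` is lower
triangular, the same `u`, `chm_LU_mul`. `y * dgn t * w0`: `l = w0⁻¹ * (dgn t)⁻¹ * w0 = dgn (fun i
=> t (rev i))` (`w0_conj_dgn` for `t⁻¹`), `chm_dgn_mul`. `PHI_map_ne`, `PHI_mem_ne`: `PHI_eq` for
`(x, y)` and `(h * x, h * y)` with the same `u`.
-/

set_option autoImplicit false

namespace Pool.Agent.MP_b525bf_ag_SA

open scoped MatrixGroups

variable {k A : Type} [Field k] {d : ℕ} [CommRing A] [Algebra k A] {N₀ M : ℕ}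
  {PD : ℕ → MvPolynomial (Fin (d + 1) × Fin (d + 1)) A}

private theorem ph1_lm_one (j : ℕ) : lm j (1 : Matrix (Fin (d + 1)) (Fin (d + 1)) k) = 1 := by
  have h1 : tr j (1 : Matrix (Fin (d + 1)) (Fin (d + 1)) k) = 1 := by
    ext a b
    rw [tr, Matrix.of_apply, Matrix.one_apply]
    split_ifs <;> rfl
  rw [lm, h1, Matrix.det_one]

private theorem ph1_chm_ne (z u : SL(d + 1, k)) (hu : UU u) (hl : LT (z * u)) :
    chm z.1 ≠ 0 := by
  have hdet : ∏ a, (z * u).1 a a = 1 := by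
    rw [← Matrix.det_of_isLowerTriangular]
    · exact (z * u).2
    · intro a b hab
      exact hl a b hab
  have hne : ∀ a, (z * u).1 a a ≠ 0 := fun a h0 => by
    exact zero_ne_one ((Finset.prod_eq_zero (f := fun a => (z * u).1 a a) (Finset.mem_univ a)
      h0).symm.trans hdet)
  rw [chm]
  refine Finset.prod_ne_zero_iff.2 fun j _ => ?_
  have h1 : lm ((j : ℕ) + 1) z.1 = lm ((j : ℕ) + 1) ((z * u).1 * 1 * 1) := by
    rw [mul_one, mul_one]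
    exact (lm_mul_UU _ z.1 u hu).symm
  rw [h1, lm_mul _ _ _ _ (fun a b hab => hl a b hab)
    (fun a b hab => Matrix.one_apply_ne hab.ne'), ph1_lm_one, mul_one]
  refine mul_ne_zero (Finset.prod_ne_zero_iff.2 fun a _ => hne a) ?_
  refine Finset.prod_ne_zero_iff.2 fun a _ => ?_
  rw [Matrix.one_apply_eq]
  exact one_ne_zero

theorem PHI_eq (hPD : CH k PD) (hM : N₀ ≤ M) (x y u : SL(d + 1, k)) (hu : UU u)
    (hl : LT (y⁻¹ * x * u)) : PHI N₀ M PD x y = chm (y⁻¹ * x).1 ^ M • F0 N₀ PD (x * u) := by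
  obtain ⟨u', hu', hl', hcc⟩ := exists_lu (y⁻¹ * x) (ph1_chm_ne _ u hu hl)
  have he : u' = u := lu_unique _ u' u hu' hu hl' hl
  rw [he] at hcc
  rw [PHI, F0, Finset.smul_sum]
  refine Finset.sum_congr rfl fun D hD => ?_
  have hD' : D ≤ M := (Nat.lt_succ_iff.1 (Finset.mem_range.1 hD)).trans hM
  rw [hcc, ← mul_assoc]
  change _ • evn (PD D) ((x * u).1 * _) = _
  rw [hPD, prod_lm, ← mul_smul, ← pow_add, Nat.sub_add_cancel hD']

theorem F0_dgn (hPD : CH k PD) (g : SL(d + 1, k)) (t : Fin d → kˣ) :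
    F0 N₀ PD (g * dgn t) = F0 N₀ PD g := by
  rw [F0, F0]
  refine Finset.sum_congr rfl fun D _ => ?_
  change evn (PD D) (g.1 * (dgn t).1) = _
  rw [dgn_coe, hPD, ← Units.coe_prod, prod_ex, Units.val_one, one_pow, one_smul]

private theorem ph1_LT_dgn (t : Fin d → kˣ) : LT (dgn t) := by
  intro a b hab
  rw [dgn_coe, Matrix.diagonal_apply_ne _ hab.ne]

private theorem ph1_conj (u : SL(d + 1, k)) (hu : UU u) (t : Fin d → kˣ) :
    UU ((dgn t)⁻¹ * u * dgn t) := by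
  have h1 : ∀ a b, ((dgn t)⁻¹ * u * dgn t).1 a b =
      ((ex t⁻¹ a : kˣ) : k) * u.1 a b * ((ex t b : kˣ) : k) := by
    intro a b
    rw [← map_inv]
    change ((dgn t⁻¹).1 * u.1 * (dgn t).1) a b = _
    rw [dgn_coe, dgn_coe, Matrix.mul_diagonal, Matrix.diagonal_mul]
  have h2 : ∀ a, ((ex t⁻¹ a : kˣ) : k) * ((ex t a : kˣ) : k) = 1 := by
    intro a
    have h3 : dgn t⁻¹ * dgn t = 1 := by
      rw [← map_mul, inv_mul_cancel, map_one]
    have h4 := congrFun (congrFun (congrArg Subtype.val h3) a) a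
    change ((dgn t⁻¹).1 * (dgn t).1) a a = (1 : Matrix (Fin (d + 1)) (Fin (d + 1)) k) a a at h4
    rw [dgn_coe, dgn_coe, Matrix.diagonal_mul_diagonal, Matrix.diagonal_apply_eq,
      Matrix.one_apply_eq] at h4
    exact h4
  constructor
  · intro a b hab
    rw [h1, hu.1 a b hab, mul_zero, zero_mul]
  · intro a
    rw [h1, hu.2 a, mul_one, h2]

private theorem ph1_xr_inv {a b : Fin (d + 1)} (h : a ≠ b) (s : k) :
    (xr a b s)⁻¹ = xr a b (-s) := by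
  rw [inv_eq_iff_mul_eq_one]
  refine Subtype.ext ?_
  change (xr a b s).1 * (xr a b (-s)).1 = 1
  rw [xr_coe h, xr_coe h]
  change Matrix.transvection a b s * Matrix.transvection a b (-s) = 1
  refine (Matrix.transvection_mul_transvection_same a b h s (-s)).trans ?_
  rw [add_neg_cancel, Matrix.transvection_zero]

private theorem ph1_xr_diag {a b : Fin (d + 1)} (h : a ≠ b) (s : k) (c : Fin (d + 1)) :
    (xr a b s).1 c c = 1 := by
  rw [xr_coe h, Matrix.add_apply, Matrix.one_apply_eq, Matrix.single_apply_of_ne, add_zero]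
  rintro ⟨rfl, rfl⟩
  exact h rfl

theorem PHI_xr_ne (hPD : CH k PD) (hM : N₀ ≤ M) (x y : SL(d + 1, k))
    (hz : chm (y⁻¹ * x).1 ≠ 0) (a b : Fin (d + 1)) (h : a < b) (s : k) :
    PHI N₀ M PD (x * xr a b s) y = PHI N₀ M PD x y := by
  obtain ⟨u, hu, hl, -⟩ := exists_lu _ hz
  have h1 : y⁻¹ * (x * xr a b s) * ((xr a b s)⁻¹ * u) = y⁻¹ * x * u := by group
  have h2 : x * xr a b s * ((xr a b s)⁻¹ * u) = x * u := by group
  rw [PHI_eq hPD hM x y u hu hl, PHI_eq hPD hM (x * xr a b s) y ((xr a b s)⁻¹ * u)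
    ((UU_xr h s).inv.mul hu) (by rw [h1]; exact hl), h2]
  congr 2
  rw [← mul_assoc]
  exact chm_mul_UU (y⁻¹ * x).1 (xr a b s) (UU_xr h s)

theorem PHI_dgn_ne (hPD : CH k PD) (hM : N₀ ≤ M) (x y : SL(d + 1, k))
    (hz : chm (y⁻¹ * x).1 ≠ 0) (t : Fin d → kˣ) :
    PHI N₀ M PD (x * dgn t) y = ((∏ i, t i : kˣ) : k) ^ M • PHI N₀ M PD x y := by
  obtain ⟨u, hu, hl, -⟩ := exists_lu _ hz
  have h1 : y⁻¹ * (x * dgn t) * ((dgn t)⁻¹ * u * dgn t) = y⁻¹ * x * u * dgn t := by group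
  have h2 : x * dgn t * ((dgn t)⁻¹ * u * dgn t) = x * u * dgn t := by group
  rw [PHI_eq hPD hM x y u hu hl, PHI_eq hPD hM (x * dgn t) y ((dgn t)⁻¹ * u * dgn t)
    (ph1_conj u hu t) (by rw [h1]; exact hl.mul (ph1_LT_dgn t)), h2, F0_dgn hPD, ← mul_smul,
    ← mul_pow]
  congr 2
  rw [← mul_assoc]
  exact chm_mul_dgn (y⁻¹ * x).1 t

theorem PHI_w_xr_ne (hPD : CH k PD) (hM : N₀ ≤ M) (x y : SL(d + 1, k))
    (hz : chm ((y * w0 k d)⁻¹ * x).1 ≠ 0) (a b : Fin (d + 1)) (h : a < b) (s : k) :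
    PHI N₀ M PD x (y * xr a b s * w0 k d) = PHI N₀ M PD x (y * w0 k d) := by
  obtain ⟨u, hu, hl, -⟩ := exists_lu _ hz
  have hab : Fin.rev b < Fin.rev a := Fin.rev_lt_rev.2 h
  have h3 : (w0 k d)⁻¹ * (xr a b s)⁻¹ * w0 k d =
      xr (Fin.rev a) (Fin.rev b) (-(wsgn k a * wsgn k b * s)) := by
    rw [← ph1_xr_inv hab.ne', ← w0_conj_xr a b h.ne s]
    group
  have h4 : (y * xr a b s * w0 k d)⁻¹ * x =
      xr (Fin.rev a) (Fin.rev b) (-(wsgn k a * wsgn k b * s)) * ((y * w0 k d)⁻¹ * x) := by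
    rw [← h3]
    group
  have h5 : (y * xr a b s * w0 k d)⁻¹ * x * u =
      xr (Fin.rev a) (Fin.rev b) (-(wsgn k a * wsgn k b * s)) * ((y * w0 k d)⁻¹ * x * u) := by
    rw [h4, mul_assoc]
  rw [PHI_eq hPD hM x (y * w0 k d) u hu hl, PHI_eq hPD hM x (y * xr a b s * w0 k d) u hu
    (by rw [h5]; exact (LT_xr hab _).mul hl), h4]
  congr 2
  exact chm_LU_mul _ _ (LT_xr hab _) (ph1_xr_diag hab.ne' _)

theorem PHI_w_dgn_ne (hPD : CH k PD) (hM : N₀ ≤ M) (x y : SL(d + 1, k))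
    (hz : chm ((y * w0 k d)⁻¹ * x).1 ≠ 0) (t : Fin d → kˣ) :
    PHI N₀ M PD x (y * dgn t * w0 k d) =
      ((∏ i, t i : kˣ) : k) ^ M • PHI N₀ M PD x (y * w0 k d) := by
  obtain ⟨u, hu, hl, -⟩ := exists_lu _ hz
  have h3 : (w0 k d)⁻¹ * (dgn t)⁻¹ * w0 k d = dgn fun i => t (Fin.rev i) := by
    have h6 : (fun i => t (Fin.rev i)) = (fun i => (t (Fin.rev i))⁻¹)⁻¹ := by
      funext i
      rw [Pi.inv_apply, inv_inv]
    rw [h6, map_inv, ← w0_conj_dgn t]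
    group
  have h4 : (y * dgn t * w0 k d)⁻¹ * x =
      (dgn fun i => t (Fin.rev i)) * ((y * w0 k d)⁻¹ * x) := by
    rw [← h3]
    group
  have h5 : (y * dgn t * w0 k d)⁻¹ * x * u =
      (dgn fun i => t (Fin.rev i)) * ((y * w0 k d)⁻¹ * x * u) := by
    rw [h4, mul_assoc]
  have h7 : (∏ i, t (Fin.rev i)) = ∏ i, t i := Equiv.prod_comp Fin.revPerm t
  rw [PHI_eq hPD hM x (y * w0 k d) u hu hl, PHI_eq hPD hM x (y * dgn t * w0 k d) u hu
    (by rw [h5]; exact (ph1_LT_dgn _).mul hl), h4, ← mul_smul, ← mul_pow]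
  congr 2
  rw [← h7]
  exact chm_dgn_mul _ _

theorem PHI_map_ne (hPD : CH k PD) (hM : N₀ ≤ M) (φ : A ≃ₐ[k] A) (c : k) (h : SL(d + 1, k))
    (hφ : ∀ g, φ (F0 N₀ PD g) = c • F0 N₀ PD (h * g)) (x y : SL(d + 1, k))
    (hz : chm (y⁻¹ * x).1 ≠ 0) : φ (PHI N₀ M PD x y) = c • PHI N₀ M PD (h * x) (h * y) := by
  obtain ⟨u, hu, hl, -⟩ := exists_lu _ hz
  have h1 : (h * y)⁻¹ * (h * x) = y⁻¹ * x := by group
  rw [PHI_eq hPD hM x y u hu hl, PHI_eq hPD hM (h * x) (h * y) u hu (by rw [h1]; exact hl), h1,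
    map_smul, hφ, mul_assoc, smul_comm]

theorem PHI_mem_ne (hPD : CH k PD) (hM : N₀ ≤ M) (w : A) (E : Submodule k A)
    (hE : ∀ g : SL(d + 1, k), F0 N₀ PD g - w ∈ E) (x y : SL(d + 1, k))
    (hz : chm (y⁻¹ * x).1 ≠ 0) : PHI N₀ M PD x y - chm (y⁻¹ * x).1 ^ M • w ∈ E := by
  obtain ⟨u, hu, hl, -⟩ := exists_lu _ hz
  rw [PHI_eq hPD hM x y u hu hl, ← smul_sub]
  exact E.smul_mem _ (hE _)

end Pool.Agent.MP_b525bf_ag_SA
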