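import Pool.Agent.Lib.MP_b525bf_ag_SA.PHD
import Pool.Agent.Lib.MP_b525bf_ag_SA.PLB

/-!
# C13: the function `Φ(x, y)` is polynomial in `x` and in `y`, with bounded degree

RECIPE. `polyFn_PHI_x`: the entries of `(y⁻¹ * x).1` are in `PolyFn 1` (`polyFn_entry`,
`PolyFn.left`), `polyFn_chm`, `polyFn_cc` with `E = 1`, the entries of `x.1 * cc z` by
`polyFn_sum`, `PolyFn.mul`; `polyFn_evn`, `PolyFn.pow`, `PolyFn.smul_fn`, `polyFn_sum`; the degree
bounds depend only on `d`, `N₀`, `M`, `PD` (take the maximum or the sum over `D ≤ N₀` and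
`PolyFn.mono`). `polyFn_PHI_y`: the same with the entries of `y⁻¹ * x` as functions of `y`:
`∑ c, (y⁻¹) a c * x c b`, `PolyFn.inv` of `polyFn_entry`.
-/

set_option autoImplicit false

namespace Pool.Agent.MP_b525bf_ag_SA

open scoped MatrixGroups

variable {k A : Type} [Field k] {d : ℕ} [CommRing A] [Algebra k A]

private theorem core_PHI (N₀ M : ℕ) (PD : ℕ → MvPolynomial (Fin (d + 1) × Fin (d + 1)) A)
    (E E' : ℕ) : ∃ D, ∀ Z X : SL(d + 1, k) → Matrix (Fin (d + 1)) (Fin (d + 1)) k,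
      (∀ a b, PolyFn (A := k) E fun x => Z x a b) →
      (∀ a b, PolyFn (A := k) E' fun x => X x a b) →
      PolyFn D fun x => ∑ D ∈ Finset.range (N₀ + 1),
        chm (Z x) ^ (M - D) • evn (PD D) (X x * cc (Z x)) := by
  refine ⟨∑ D ∈ Finset.range (N₀ + 1), ((M - D) * (d * ((d + 1) * E)) +
    (PD D).totalDegree * (E' + (d + 1) * E)), fun Z X hZ hX => ?_⟩
  refine polyFn_sum _ _ fun D hD => ?_
  have h1 : PolyFn (A := k) ((M - D) * (d * ((d + 1) * E))) fun x => chm (Z x) ^ (M - D) :=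
    (polyFn_chm Z hZ).pow (M - D)
  have h2 : ∀ a b, PolyFn (A := k) (E' + (d + 1) * E) fun x => (X x * cc (Z x)) a b := by
    intro a b
    have h3 : PolyFn (A := k) (E' + (d + 1) * E)
        fun x => ∑ c ∈ Finset.univ, X x a c * cc (Z x) c b :=
      polyFn_sum _ _ fun c _ => (hX a c).mul (polyFn_cc Z hZ c b)
    exact h3
  have h4 : PolyFn ((PD D).totalDegree * (E' + (d + 1) * E))
      fun x => evn (PD D) (X x * cc (Z x)) := polyFn_evn (PD D) (fun x => X x * cc (Z x)) h2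
  have h5 : (M - D) * (d * ((d + 1) * E)) + (PD D).totalDegree * (E' + (d + 1) * E) ≤
      ∑ D ∈ Finset.range (N₀ + 1), ((M - D) * (d * ((d + 1) * E)) +
        (PD D).totalDegree * (E' + (d + 1) * E)) :=
    Finset.single_le_sum (f := fun D => (M - D) * (d * ((d + 1) * E)) +
      (PD D).totalDegree * (E' + (d + 1) * E)) (fun _ _ => Nat.zero_le _) hD
  exact (h1.smul_fn h4).mono h5

theorem polyFn_PHI_x (N₀ M : ℕ) (PD : ℕ → MvPolynomial (Fin (d + 1) × Fin (d + 1)) A) :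
    ∃ D, ∀ y : SL(d + 1, k), PolyFn D fun x => PHI N₀ M PD x y := by
  obtain ⟨D, hD⟩ := core_PHI (k := k) N₀ M PD 1 1
  refine ⟨D, fun y => ?_⟩
  refine hD (fun x => (y⁻¹ * x).1) (fun x => x.1) (fun a b => ?_) fun a b => ?_
  · exact (polyFn_entry (A := k) a b).left y⁻¹
  · exact polyFn_entry (A := k) a b

theorem polyFn_PHI_y (N₀ M : ℕ) (PD : ℕ → MvPolynomial (Fin (d + 1) × Fin (d + 1)) A) :
    ∃ D, ∀ x : SL(d + 1, k), PolyFn D fun y => PHI N₀ M PD x y := by
  obtain ⟨D, hD⟩ := core_PHI (k := k) N₀ M PD (1 * (d + 1)) 1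
  refine ⟨D, fun x => ?_⟩
  refine hD (fun y => (y⁻¹ * x).1) (fun _ => x.1) (fun a b => ?_) fun a b => ?_
  · exact ((polyFn_entry (A := k) a b).right x).inv
  · exact polyFn_const 1 _

end Pool.Agent.MP_b525bf_ag_SA
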