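import Pool.Agent.Lib.MP_b525bf_ag_SA.PH1
import Pool.Agent.Lib.MP_b525bf_ag_SA.PH2
import Pool.Agent.Lib.MP_b525bf_ag_SA.DEN
import Pool.Agent.Lib.MP_b525bf_ag_SA.AVG

/-!
# C14: existence of `Φ(x, y)`
-/

set_option autoImplicit false

namespace Pool.Agent.MP_b525bf_ag_SA

open scoped MatrixGroups

private theorem polyFn_sub {k A : Type} [Field k] {d : ℕ} [CommRing A] [Algebra k A] {D D' : ℕ}
    {f g : SL(d + 1, k) → A} (hf : PolyFn D f) (hg : PolyFn D' g) :
    PolyFn (max D D') fun x => f x - g x := by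
  have h := (hf.mono (le_max_left D D')).add ((hg.const_smul (-1 : k)).mono (le_max_right D D'))
  have h2 : (fun x => f x + (-1 : k) • g x) = fun x => f x - g x := by
    funext x
    rw [neg_smul, one_smul, sub_eq_add_neg]
  rwa [h2] at h

private theorem dens_eq {k A : Type} [Field k] [Infinite k] {d : ℕ} [CommRing A] [Algebra k A]
    {D D' : ℕ} {f g : SL(d + 1, k) → A} (hf : PolyFn D f) (hg : PolyFn D' g) (z : SL(d + 1, k))
    (h : ∀ x, chm (z * x).1 ≠ 0 → f x = g x) (x : SL(d + 1, k)) : f x = g x := by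
  have := density (fun x => f x - g x) (polyFn_sub hf hg) z (⊥ : Submodule k A)
    (fun x hx => by
      rw [Submodule.mem_bot, sub_eq_zero]
      exact h x hx) x
  rwa [Submodule.mem_bot, sub_eq_zero] at this

theorem exists_phi {k A : Type} [Field k] [Infinite k] {d : ℕ} [CommRing A] [Algebra k A]
    (F : SL(d + 1, k) → A) (P : MvPolynomial (Fin (d + 1) × Fin (d + 1)) A)
    (hF : ∀ g, F g = evn P g.1) :
    ∃ N₀ : ℕ, ∀ M, N₀ ≤ M → ∃ (Φ : SL(d + 1, k) → SL(d + 1, k) → A) (D : ℕ),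
      (∀ y, PolyFn D fun x => Φ x y) ∧ (∀ x, PolyFn D fun y => Φ x y) ∧
      (∀ y, SI M fun x => Φ x y) ∧ (∀ x, SI M fun y => Φ x (y * w0 k d)) ∧
      (∀ (φ : A ≃ₐ[k] A) (c : k) (h : SL(d + 1, k)), (∀ g, φ (F g) = c • F (h * g)) →
        ∀ x y, φ (Φ x y) = c • Φ (h * x) (h * y)) ∧
      ∀ (w : A) (E : Submodule k A), (∀ g, F g - w ∈ E) →
        ∀ x y, Φ x y - chm (y⁻¹ * x).1 ^ M • w ∈ E := by
  obtain ⟨N₀, b, PD, hb, hsum, hCH⟩ := exists_avg (k := k) (d := d) P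
  have hPD : CH k PD := hCH
  have hF0 : ∀ g : SL(d + 1, k), F0 N₀ PD g = b.sum fun t c => c • F (g * dgn t) := by
    intro g
    rw [F0, ← hsum g]
    simp only [hF]
  refine ⟨N₀, fun M hM => ?_⟩
  obtain ⟨D1, hD1⟩ := polyFn_PHI_x (k := k) N₀ M PD
  obtain ⟨D2, hD2⟩ := polyFn_PHI_y (k := k) N₀ M PD
  refine ⟨PHI N₀ M PD, max D1 D2, fun y => (hD1 y).mono (le_max_left _ _),
    fun x => (hD2 x).mono (le_max_right _ _), fun y => ⟨?_, ?_⟩, fun x => ⟨?_, ?_⟩, ?_, ?_⟩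
  · intro x a b s hab
    exact dens_eq ((hD1 y).right (xr a b s)) (hD1 y) y⁻¹
      (fun x hx => PHI_xr_ne hPD hM x y hx a b hab s) x
  · intro x t
    exact dens_eq ((hD1 y).right (dgn t)) ((hD1 y).const_smul (((∏ i, t i : kˣ) : k) ^ M)) y⁻¹
      (fun x hx => PHI_dgn_ne hPD hM x y hx t) x
  · intro y a b s hab
    exact dens_eq (hD1 (y * xr a b s * w0 k d)) (hD1 (y * w0 k d)) (y * w0 k d)⁻¹
      (fun x hx => PHI_w_xr_ne hPD hM x y hx a b hab s) x
  · intro y t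
    exact dens_eq (hD1 (y * dgn t * w0 k d))
      ((hD1 (y * w0 k d)).const_smul (((∏ i, t i : kˣ) : k) ^ M)) (y * w0 k d)⁻¹
      (fun x hx => PHI_w_dgn_ne hPD hM x y hx t) x
  · intro φ c h hφ x y
    have hφ0 : ∀ g, φ (F0 N₀ PD g) = c • F0 N₀ PD (h * g) := by
      intro g
      rw [hF0, hF0, Finsupp.sum, Finsupp.sum, map_sum, Finset.smul_sum]
      refine Finset.sum_congr rfl fun t _ => ?_
      rw [map_smul, hφ, ← mul_assoc, smul_comm]
    exact dens_eq ((hD1 y).map φ) (((hD1 (h * y)).left h).const_smul c) y⁻¹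
      (fun x hx => PHI_map_ne hPD hM φ c h hφ0 x y hx) x
  · intro w E hE x y
    have hE0 : ∀ g : SL(d + 1, k), F0 N₀ PD g - w ∈ E := by
      intro g
      have h1 : F0 N₀ PD g - w = b.sum fun t c => c • (F (g * dgn t) - w) := by
        have h2 : w = b.sum fun _ c => c • w := by
          rw [Finsupp.sum, ← Finset.sum_smul]
          rw [Finsupp.sum] at hb
          rw [hb, one_smul]
        rw [hF0]
        conv_lhs => rw [h2]
        rw [Finsupp.sum, Finsupp.sum, Finsupp.sum, ← Finset.sum_sub_distrib]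
        refine Finset.sum_congr rfl fun t _ => ?_
        rw [smul_sub]
      rw [h1, Finsupp.sum]
      exact Submodule.sum_mem E fun t _ => E.smul_mem _ (hE _)
    have hent : ∀ a b, PolyFn (A := k) 1 fun x : SL(d + 1, k) => (y⁻¹ * x).1 a b := fun a b =>
      (polyFn_entry (A := k) a b).left y⁻¹
    have hchm := ((polyFn_chm (fun x : SL(d + 1, k) => (y⁻¹ * x).1) hent).pow M).smul_fn
      (polyFn_const (k := k) (d := d) 0 w)
    exact density (fun x => PHI N₀ M PD x y - chm (y⁻¹ * x).1 ^ M • w)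
      (polyFn_sub (hD1 y) hchm) y⁻¹ E (fun x hx => PHI_mem_ne hPD hM w E hE0 x y hx) x

end Pool.Agent.MP_b525bf_ag_SA
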