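import Pool.Agent.Lib.MP_b525bf_ag_SA.MDEF

/-!
# The function `Φ(x, y)`: definitions
-/

set_option autoImplicit false

namespace Pool.Agent.MP_b525bf_ag_SA

open scoped MatrixGroups

variable {k A : Type} [Field k] {d : ℕ} [CommRing A] [Algebra k A]

/-- The `PD D` are homogeneous of degree `D` in each column. -/
def CH (k : Type) {A : Type} [Field k] {d : ℕ} [CommRing A] [Algebra k A]
    (PD : ℕ → MvPolynomial (Fin (d + 1) × Fin (d + 1)) A) : Prop :=
  ∀ (D : ℕ) (X : Matrix (Fin (d + 1)) (Fin (d + 1)) k) (c : Fin (d + 1) → k),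
    evn (PD D) (X * Matrix.diagonal c) = (∏ a, c a) ^ D • evn (PD D) X

/-- The sum of the `PD D`. -/
noncomputable def F0 (N₀ : ℕ) (PD : ℕ → MvPolynomial (Fin (d + 1) × Fin (d + 1)) A)
    (g : SL(d + 1, k)) : A :=
  ∑ D ∈ Finset.range (N₀ + 1), evn (PD D) g.1

/-- The function `Φ(x, y)`, which is `chm (y⁻¹ x) ^ M • F0 (x u)` if `y⁻¹ x u` is lower triangular,
`u` upper unitriangular. -/
noncomputable def PHI (N₀ M : ℕ) (PD : ℕ → MvPolynomial (Fin (d + 1) × Fin (d + 1)) A)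
    (x y : SL(d + 1, k)) : A :=
  ∑ D ∈ Finset.range (N₀ + 1),
    chm (y⁻¹ * x).1 ^ (M - D) • evn (PD D) (x.1 * cc (y⁻¹ * x).1)

end Pool.Agent.MP_b525bf_ag_SA
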