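import Pool.Agent.Lib.MP_b525bf_ag_SA.MDEF

/-!
# The polynomials of the minors of the lower left corner: definitions
-/

set_option autoImplicit false

namespace Pool.Agent.MP_b525bf_ag_SA

open scoped MatrixGroups

/-- The generic lower unitriangular matrix. -/
noncomputable def umX (k : Type) [Field k] (d : ℕ) :
    Matrix (Fin (d + 1)) (Fin (d + 1)) (MvPolynomial (Lw d) k) :=
  Matrix.of fun a b => if h : b < a then MvPolynomial.X ⟨(a, b), h⟩ else if a = b then 1 else 0

/-- The product of the inverse of the longest element and the generic matrix. -/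
noncomputable def wumX (k : Type) [Field k] (d : ℕ) :
    Matrix (Fin (d + 1)) (Fin (d + 1)) (MvPolynomial (Lw d) k) :=
  Matrix.of fun a b => MvPolynomial.C (wsgn k (Fin.rev a)) * umX k d (Fin.rev a) b

/-- The height of an exponent. -/
def ht1 {d : ℕ} (α : Lw d →₀ ℕ) : ℕ := ∑ c : Lw d, α c * ((c.1.1 : ℕ) - (c.1.2 : ℕ))

/-- The quadratic height of an exponent. -/
def ht2 {d : ℕ} (α : Lw d →₀ ℕ) : ℕ := ∑ c : Lw d, α c * ((c.1.1 : ℕ) - (c.1.2 : ℕ)) ^ 2

/-- The exponent of the diagonal number `d + 1 - j`. -/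
noncomputable def dgE {d : ℕ} (j : ℕ) : Lw d →₀ ℕ :=
  Finsupp.equivFunOnFinite.symm fun c => if (c.1.1 : ℕ) + j = c.1.2 + (d + 1) then 1 else 0

end Pool.Agent.MP_b525bf_ag_SA
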