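import Pool.Agent.Lib.MP_b525bf_ag_SA.SL2
import Pool.Agent.Lib.MP_b525bf_ag_R.GRE

/-!
# C15: semi-invariant polynomial functions on `SL_2(k)`

RECIPE. `f (lo s) = ∑ j ∈ range (N + 1), s ^ j • c j` (`P` evaluated at the entries of `lo s`,
monomials). For `g 0 0 ≠ 0`: `g = lo (g10 / g00) * dg g00 * up (g01 / g00)`, so `f g = g00 ^ m •
∑ (g10 / g00) ^ j • c j`. For `g = (a, -1; 1, 0)` the left side is a polynomial in `a`, the right
side is `∑ a ^ (m - j) • c j` (`a ≠ 0`, integer exponents): multiply with `a ^ N` and compare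
coefficients (`Pool.Agent.MP_b525bf_ag_R.exists_coeff_pow_on` for `{a ≠ 0}`): `c j = 0` for `j > m`.
For `g 0 0 = 0`: `g 1 0 ≠ 0`; use the family `(a, (a * g11 - 1) / g10; g10, g11)`, both sides are
polynomials in `a` which agree for `a ≠ 0`, hence for `a = 0`. Everything is as in the proof of
`exists_orbit_formula` in MP_b525bf_ag_R/STA.lean (with `E = ⊥`).
-/

set_option autoImplicit false
set_option linter.unusedSimpArgs false

namespace Pool.Agent.MP_b525bf_ag_SA

open scoped MatrixGroups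

open Pool.Agent.MP_b525bf_ag_R (up lo dg ev)
open Pool.Agent.MP_b525bf_ag_R Matrix.SpecialLinearGroup

section Aux

variable {k : Type} [Field k] {A : Type} [CommRing A] [Algebra k A]

/-- The values of a polynomial function along a polynomial family of matrices. -/
private theorem ev_family (P : MvPolynomial (Fin 2 × Fin 2) A)
    (q : Matrix (Fin 2) (Fin 2) (Polynomial k)) :
    ∃ (D : ℕ) (d : ℕ → A), ∀ D', D ≤ D' → ∀ (a : k) (g : SL(2, k)),
      (∀ i j, g.1 i j = (q i j).eval a) →
      ev P g = ∑ j ∈ Finset.range (D' + 1), a ^ j • d j := by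
  let Q : Polynomial A :=
    MvPolynomial.eval₂ Polynomial.C (fun c => (q c.1 c.2).map (algebraMap k A)) P
  refine ⟨Q.natDegree, Q.coeff, ?_⟩
  intro D' hD a g hg
  have h1 : Q.eval (algebraMap k A a) = ev P g := by
    have h2 := MvPolynomial.eval₂_comp_left (Polynomial.evalRingHom (algebraMap k A a))
      Polynomial.C (fun c : Fin 2 × Fin 2 => (q c.1 c.2).map (algebraMap k A)) P
    have h3 : (Polynomial.evalRingHom (algebraMap k A a)).comp Polynomial.C = RingHom.id A := by
      ext x
      simp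
    rw [h3, MvPolynomial.eval₂_id, Polynomial.coe_evalRingHom] at h2
    change Polynomial.eval (algebraMap k A a) (MvPolynomial.eval₂ Polynomial.C
      (fun c => (q c.1 c.2).map (algebraMap k A)) P) = _
    rw [h2, ev]
    congr 2
    funext c
    rw [Function.comp_apply, Polynomial.eval_map_apply, hg]
  rw [← h1, Polynomial.eval_eq_sum_range' (Nat.lt_succ_of_le hD)]
  refine Finset.sum_congr rfl fun j _ => ?_
  rw [← map_pow, mul_comm, ← Algebra.smul_def]

private theorem sum_pick {ι : Type} (I : Finset ι) (e : ι → ℤ) (x : ι → A) (S : Finset ℤ)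
    (m₀ : ℤ) (b : kˣ →₀ k)
    (hb : ∀ i ∈ S, (b.sum fun t c => c * ((t ^ i : kˣ) : k)) = if i = m₀ then 1 else 0)
    (he : ∀ i ∈ I, e i ∈ S) :
    (b.sum fun t c => c • ∑ i ∈ I, ((t ^ e i : kˣ) : k) • x i) =
      ∑ i ∈ I, if e i = m₀ then x i else 0 := by
  simp only [Finsupp.sum, Finset.smul_sum, smul_smul]
  rw [Finset.sum_comm]
  refine Finset.sum_congr rfl fun i hi => ?_
  rw [← Finset.sum_smul]
  have := hb (e i) (he i hi)
  rw [Finsupp.sum] at this
  rw [this]
  split_ifs <;> simp

/-- If the values of a Laurent polynomial are in `E`, then so are its coefficients. -/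
private theorem coeff_mem [Infinite k] {ι κ : Type} (E : Submodule k A) (J : Finset ι)
    (I : Finset κ) (e : ι → ℤ) (f : κ → ℤ) (x : ι → A) (y : κ → A)
    (h : ∀ a : kˣ, ∑ j ∈ J, ((a ^ e j : kˣ) : k) • x j - ∑ i ∈ I, ((a ^ f i : kˣ) : k) • y i ∈ E)
    (m₀ : ℤ) :
    (∑ j ∈ J, if e j = m₀ then x j else 0) - (∑ i ∈ I, if f i = m₀ then y i else 0) ∈ E := by
  classical
  obtain ⟨b, hb⟩ := exists_coeff_zpow k (J.image e ∪ I.image f) m₀
  rw [← sum_pick J e x _ m₀ b hb fun i hi => Finset.mem_union_left _ (Finset.mem_image_of_mem e hi),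
    ← sum_pick I f y _ m₀ b hb fun i hi => Finset.mem_union_right _ (Finset.mem_image_of_mem f hi)]
  rw [Finsupp.sum, Finsupp.sum, ← Finset.sum_sub_distrib]
  refine Submodule.sum_mem _ fun a _ => ?_
  rw [← smul_sub]
  exact E.smul_mem _ (h a)

private theorem factor (g : SL(2, k)) (t : kˣ) (ht : g.1 0 0 = t) :
    g = lo (g.1 1 0 / t) * dg t * up (g.1 0 1 / t) := by
  have h0 : (t : k) ≠ 0 := t.ne_zero
  have hd := det_eq g
  rw [ht] at hd
  refine ext4 ?_ ?_ ?_ ?_
  · simp [mul00, mul01, mul10, mul11, ht]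
  · simp [mul00, mul01, mul10, mul11]
    field_simp
  · simp [mul00, mul01, mul10, mul11]
  · simp [mul00, mul01, mul10, mul11]
    field_simp
    linear_combination hd

end Aux

theorem exists_form {k : Type} [Field k] [Infinite k] {A : Type} [CommRing A] [Algebra k A]
    (f : SL(2, k) → A) (P : MvPolynomial (Fin 2 × Fin 2) A) (hf : ∀ g, f g = ev P g) (m : ℕ)
    (hu : ∀ g s, f (g * up s) = f g) (ht : ∀ (g : SL(2, k)) (t : kˣ), f (g * dg t) =
      (t : k) ^ m • f g) :
    ∃ c : ℕ → A, ∀ g : SL(2, k),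
      f g = ∑ j ∈ Finset.range (m + 1), (g.1 0 0 ^ (m - j) * g.1 1 0 ^ j) • c j := by
  classical
  have hP : ∀ g, f g = ev P g := hf
  have hdg : ∀ (g : SL(2, k)) (t : kˣ), f (g * dg t) = (t : k) ^ m • f g := ht
  -- the coefficients
  obtain ⟨D, d, hd⟩ := ev_family P (!![1, 0; Polynomial.X, 1] : Matrix (Fin 2) (Fin 2) (Polynomial k))
  obtain ⟨M, hM⟩ : ∃ M, M = max D m := ⟨_, rfl⟩
  obtain ⟨n, hn⟩ : ∃ n : ℤ, n = m := ⟨_, rfl⟩
  have hlo : ∀ s, f (lo s) = ∑ i ∈ Finset.range (M + 1), s ^ i • d i := by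
    intro s
    rw [hP]
    refine hd M (hM ▸ le_max_left _ _) s (lo s) ?_
    intro i j
    fin_cases i <;> fin_cases j <;> simp
  -- the formula on the big cell
  have hcell : ∀ (g : SL(2, k)) (t : kˣ), g.1 0 0 = t →
      f g - ∑ i ∈ Finset.range (M + 1), (((t ^ (n - i) : kˣ) : k) * g.1 1 0 ^ i) • d i ∈
        (⊥ : Submodule k A) := by
    intro g t ht
    have h1 : f g = ((t ^ n : kˣ) : k) • f (lo (g.1 1 0 / t)) := by
      conv_lhs => rw [factor g t ht, hu, hdg]
      rw [hn, zpow_natCast, Units.val_pow_eq_pow_val]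
    have h3 : ((t ^ n : kˣ) : k) • f (lo (g.1 1 0 / t)) =
        ∑ i ∈ Finset.range (M + 1), (((t ^ (n - i) : kˣ) : k) * g.1 1 0 ^ i) • d i := by
      rw [hlo, Finset.smul_sum]
      refine Finset.sum_congr rfl fun i _ => ?_
      rw [smul_smul]
      congr 1
      rw [zpow_sub, zpow_natCast, Units.val_mul, div_pow, ← Units.val_pow_eq_pow_val]
      simp only [Units.val_inv_eq_inv_val]
      ring
    rw [h1, h3, sub_self]
    exact Submodule.zero_mem _
  -- the coefficients with negative exponents are in `E`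
  have hneg : ∀ i₀ ∈ Finset.range (M + 1), n < i₀ → d i₀ ∈ (⊥ : Submodule k A) := by
    intro i₀ hi₀ hlt
    obtain ⟨D₂, d₂, hd₂⟩ := ev_family P
      (!![Polynomial.X, -1; 1, 0] : Matrix (Fin 2) (Fin 2) (Polynomial k))
    have h1 := coeff_mem (⊥ : Submodule k A) (Finset.range (D₂ + 1)) (Finset.range (M + 1))
      (fun j => (j : ℤ)) (fun i => n - i) d₂ d (by
        intro a
        have h2 := hcell ⟨!![(a : k), -1; 1, 0], by simp [Matrix.det_fin_two_of]⟩ a rfl
        rw [hP, hd₂ D₂ le_rfl (a : k) _ (by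
          intro i j
          fin_cases i <;> fin_cases j <;> simp)] at h2
        convert h2 using 3
        · rw [zpow_natCast, Units.val_pow_eq_pow_val]
        · simp) (n - i₀)
    have h2 : (∑ j ∈ Finset.range (D₂ + 1), if (j : ℤ) = n - i₀ then d₂ j else 0) = 0 := by
      refine Finset.sum_eq_zero fun j _ => ?_
      rw [if_neg]
      omega
    have h3 : (∑ i ∈ Finset.range (M + 1), if n - (i : ℤ) = n - i₀ then d i else 0) = d i₀ := by
      rw [Finset.sum_eq_single_of_mem i₀ hi₀]
      · rw [if_pos rfl]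
      · intro i _ hi
        rw [if_neg]
        omega
    rw [h2, h3, zero_sub] at h1
    simpa using Submodule.neg_mem _ h1
  subst hn
  have hn'M : m ≤ M := hM ▸ le_max_right _ _
  -- the formula on the big cell, with nonnegative exponents
  have hcell' : ∀ (g : SL(2, k)) (t : kˣ), g.1 0 0 = t →
      f g - ∑ i ∈ Finset.range (m + 1), ((t : k) ^ (m - i) * g.1 1 0 ^ i) • d i ∈
        (⊥ : Submodule k A) := by
    intro g t ht
    have h1 := hcell g t ht
    have h2 : ∑ i ∈ Finset.range (M + 1), (((t ^ ((m : ℤ) - i) : kˣ) : k) * g.1 1 0 ^ i) • d i =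
        ∑ i ∈ Finset.range (m + 1), ((t : k) ^ (m - i) * g.1 1 0 ^ i) • d i +
        ∑ i ∈ Finset.Ico (m + 1) (M + 1),
          (((t ^ ((m : ℤ) - i) : kˣ) : k) * g.1 1 0 ^ i) • d i := by
      rw [Finset.range_eq_Ico, ← Finset.sum_Ico_consecutive _ (Nat.zero_le (m + 1))
        (Nat.succ_le_succ hn'M)]
      congr 1
      rw [Finset.range_eq_Ico]
      refine Finset.sum_congr rfl fun i hi => ?_
      have hi' : i ≤ m := by
        have := (Finset.mem_Ico.1 hi).2
        omega
      have h3 : (m : ℤ) - i = ((m - i : ℕ) : ℤ) := by omega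
      rw [h3, zpow_natCast, Units.val_pow_eq_pow_val]
    rw [h2, ← sub_sub] at h1
    have h3 : ∑ i ∈ Finset.Ico (m + 1) (M + 1),
        (((t ^ ((m : ℤ) - i) : kˣ) : k) * g.1 1 0 ^ i) • d i ∈ (⊥ : Submodule k A) := by
      refine Submodule.sum_mem _ fun i hi => Submodule.smul_mem _ _ (hneg i ?_ ?_)
      · have := (Finset.mem_Ico.1 hi).2
        exact Finset.mem_range.2 this
      · have := (Finset.mem_Ico.1 hi).1
        exact_mod_cast this
    have h4 := Submodule.add_mem _ h1 h3
    rwa [sub_add_cancel] at h4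
  refine ⟨d, ?_⟩
  intro g
  rw [← sub_eq_zero, ← Submodule.mem_bot k]
  by_cases h0 : g.1 0 0 = 0
  · have hdet := det_eq g
    rw [h0, zero_mul, zero_sub] at hdet
    have h10 : g.1 1 0 ≠ 0 := by
      intro h
      rw [h, mul_zero, neg_zero] at hdet
      exact zero_ne_one hdet
    obtain ⟨D₃, d₃, hd₃⟩ := ev_family P
      (!![Polynomial.X, (Polynomial.X * Polynomial.C (g.1 1 1) - 1) * Polynomial.C (g.1 1 0)⁻¹;
        Polynomial.C (g.1 1 0), Polynomial.C (g.1 1 1)] :
        Matrix (Fin 2) (Fin 2) (Polynomial k))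
    have h1 := coeff_mem (⊥ : Submodule k A) (Finset.range (D₃ + 1)) (Finset.range (m + 1))
      (fun j => (j : ℤ)) (fun i => (m : ℤ) - i) d₃ (fun i => g.1 1 0 ^ i • d i) (by
        intro a
        have h2 := hcell' ⟨!![(a : k), (a * g.1 1 1 - 1) * (g.1 1 0)⁻¹; g.1 1 0, g.1 1 1], by
          rw [Matrix.det_fin_two_of]
          field_simp
          ring⟩ a rfl
        rw [hP, hd₃ D₃ le_rfl (a : k) _ (by
          intro i j
          fin_cases i <;> fin_cases j
          · simp
          · simp [Polynomial.eval_mul, Polynomial.eval_sub]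
            try exact Or.inl (mul_comm _ _)
          · simp
          · simp)] at h2
        have e1 : ∑ j ∈ Finset.range (D₃ + 1), ((a ^ (j : ℤ) : kˣ) : k) • d₃ j =
            ∑ j ∈ Finset.range (D₃ + 1), (a : k) ^ j • d₃ j :=
          Finset.sum_congr rfl fun j _ => by rw [zpow_natCast, Units.val_pow_eq_pow_val]
        have e2 : ∑ i ∈ Finset.range (m + 1), ((a ^ ((m : ℤ) - i) : kˣ) : k) •
            (g.1 1 0 ^ i • d i) =
            ∑ i ∈ Finset.range (m + 1), ((a : k) ^ (m - i) * g.1 1 0 ^ i) • d i := by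
          refine Finset.sum_congr rfl fun i hi => ?_
          have hi' : i ≤ m := Nat.lt_succ_iff.1 (Finset.mem_range.1 hi)
          have h3 : (m : ℤ) - i = ((m - i : ℕ) : ℤ) := by omega
          rw [h3, zpow_natCast, Units.val_pow_eq_pow_val, smul_smul]
        rw [e1, e2]
        exact h2) 0
    have h2 : f g = ∑ j ∈ Finset.range (D₃ + 1), if (j : ℤ) = 0 then d₃ j else 0 := by
      rw [hP, hd₃ D₃ le_rfl 0 g (by
        intro i j
        fin_cases i <;> fin_cases j
        · simpa using h0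
        · simp
          field_simp
          linear_combination -hdet
        · simp
        · simp)]
      refine Finset.sum_congr rfl fun j _ => ?_
      by_cases hj : j = 0
      · subst hj
        simp
      · rw [if_neg (by exact_mod_cast hj), zero_pow hj, zero_smul]
    have h3 : ∑ i ∈ Finset.range (m + 1), (g.1 0 0 ^ (m - i) * g.1 1 0 ^ i) • d i =
        ∑ i ∈ Finset.range (m + 1), if (m : ℤ) - i = 0 then g.1 1 0 ^ i • d i else 0 := by
      refine Finset.sum_congr rfl fun i hi => ?_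
      have hi' : i ≤ m := Nat.lt_succ_iff.1 (Finset.mem_range.1 hi)
      rw [h0]
      by_cases hi2 : i = m
      · subst hi2
        simp
      · rw [if_neg (by omega), zero_pow (by omega), zero_mul, zero_smul]
    rw [h2, h3]
    exact h1
  · exact hcell' g (Units.mk0 _ h0) rfl

end Pool.Agent.MP_b525bf_ag_SA
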