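import Pool.Agent.Lib.MP_b525bf_ag_SA.TPB

/-!
# C19: the top coefficient and one variable

RECIPE. `exists_subst_zero`: `aeval (fun w => if w = v then 0 else X w) P`; its variables do not
contain `v` (`MvPolynomial.vars_bind₁` or `mem_vars`). `coeff_top_mul`: `P' = g(X v) * R` by
`eq_of_evk`, with `g(X v) = g.sum fun n a => C (algebraMap k A a) * X v ^ n`; since no exponent of
`R` contains `v`, only `n = M` contributes to the coefficient of `topE σ M`
(`MvPolynomial.coeff_mul_X'`, `coeff_mul_monomial'`). `exists_comp`: the composition of a polynomial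
with a polynomial map (`MvPolynomial.bind₁`), and `v` does not occur if it does not occur in the
components.
-/

set_option autoImplicit false

namespace Pool.Agent.MP_b525bf_ag_SA

open scoped MatrixGroups

variable {k σ A : Type} [Field k] [Infinite k] [Fintype σ] [DecidableEq σ] [CommRing A]
  [Algebra k A]

omit [Field k] [Infinite k] [Fintype σ] [DecidableEq σ] [Algebra k A] in
private theorem not_mem_vars_aeval (P : MvPolynomial σ A) (v : σ) (f : σ → MvPolynomial σ A)
    (hf : ∀ i ∈ P.vars, v ∉ (f i).vars) : v ∉ (MvPolynomial.aeval f P : MvPolynomial σ A).vars := by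
  intro h
  obtain ⟨i, hi, hv⟩ := MvPolynomial.mem_vars_bind₁ f P h
  exact hf i hi hv

omit [Infinite k] [Fintype σ] [DecidableEq σ] in
private theorem evk_aeval (P : MvPolynomial σ A) (f : σ → MvPolynomial σ A) (s : σ → k) :
    evk (MvPolynomial.aeval f P : MvPolynomial σ A) s =
      MvPolynomial.eval (fun c => evk (f c) s) P := by
  have h := MvPolynomial.eval₂Hom_bind₁ (RingHom.id A) (fun c => algebraMap k A (s c)) f P
  exact h

theorem exists_subst_zero (P : MvPolynomial σ A) (v : σ) :
    ∃ P' : MvPolynomial σ A, (∀ s : σ → k, evk P' s = evk P (Function.update s v 0)) ∧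
      v ∉ P'.vars := by
  refine ⟨MvPolynomial.aeval (fun w => if w = v then 0 else MvPolynomial.X w) P, fun s => ?_,
    not_mem_vars_aeval _ _ _ fun i _ => ?_⟩
  · rw [evk_aeval, evk]
    refine congrArg (fun u => MvPolynomial.eval u P) (funext fun w => ?_)
    by_cases h : w = v
    · subst h
      simp only [if_true]
      rw [evk, map_zero, Function.update_self, map_zero]
    · simp only [if_neg h]
      rw [evk, MvPolynomial.eval_X, Function.update_of_ne h]
  · by_cases h : i = v
    · rw [if_pos h, MvPolynomial.vars_0]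
      exact Finset.notMem_empty v
    · rw [if_neg h]
      rcases subsingleton_or_nontrivial A with hA | hA
      · have h1 : (MvPolynomial.X i : MvPolynomial σ A) = 0 := Subsingleton.elim _ _
        rw [h1, MvPolynomial.vars_0]
        exact Finset.notMem_empty v
      · rw [MvPolynomial.vars_X, Finset.mem_singleton]
        exact fun hh => h hh.symm

omit [Field k] [Infinite k] [DecidableEq σ] [Algebra k A] in
private theorem coeff_X_pow_mul_top (M n : ℕ) (v : σ) (R : MvPolynomial σ A) (hv : v ∉ R.vars)
    (hn : n ≠ M) : (MvPolynomial.X v ^ n * R).coeff (topE σ M) = 0 := by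
  rw [MvPolynomial.X_pow_eq_monomial, MvPolynomial.coeff_monomial_mul']
  split_ifs with h
  · rw [one_mul]
    by_contra hc
    apply hv
    rw [MvPolynomial.mem_vars_iff_mem_support]
    refine ⟨_, MvPolynomial.mem_support_iff.2 hc, ?_⟩
    rw [Finsupp.mem_support_iff, Finsupp.tsub_apply, Finsupp.single_eq_same]
    have h1 : (topE σ M) v = M := rfl
    have h2 := h v
    rw [Finsupp.single_eq_same, h1] at h2
    rw [h1]
    omega
  · rfl

theorem coeff_top_mul (M : ℕ) (v : σ) (R : MvPolynomial σ A) (hv : v ∉ R.vars)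
    (g : Polynomial k) (P' : MvPolynomial σ A)
    (h : ∀ s : σ → k, evk P' s = g.eval (s v) • evk R s) :
    P'.coeff (topE σ M) = g.coeff M • (MvPolynomial.X v ^ M * R).coeff (topE σ M) := by
  have h1 : P' = ∑ n ∈ g.support, MvPolynomial.C (algebraMap k A (g.coeff n)) *
      (MvPolynomial.X v ^ n * R) := by
    refine eq_of_evk (k := k) _ _ fun s => ?_
    rw [h s, evk, evk, map_sum, Polynomial.eval_eq_sum, Polynomial.sum, Finset.sum_smul]
    refine Finset.sum_congr rfl fun n _ => ?_
    rw [map_mul, map_mul, map_pow, MvPolynomial.eval_C, MvPolynomial.eval_X, Algebra.smul_def,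
      map_mul, map_pow, mul_assoc]
  rw [h1, MvPolynomial.coeff_sum]
  simp only [MvPolynomial.coeff_C_mul]
  rw [Algebra.smul_def]
  refine Finset.sum_eq_single M (fun n _ hn => ?_) (fun hM => ?_)
  · rw [coeff_X_pow_mul_top M n v R hv hn, mul_zero]
  · rw [Polynomial.notMem_support_iff.1 hM, map_zero, zero_mul]

/-- Composition with a polynomial map whose components do not involve `v`, up to component `v`. -/
theorem exists_comp (P : MvPolynomial σ A) (v : σ) (hv : v ∉ P.vars)
    (θ : (σ → k) → (σ → k)) (Q : σ → MvPolynomial σ k) (hθ : ∀ s c, c ≠ v → θ s c = evk (Q c) s)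
    (hQ : ∀ c, c ≠ v → v ∉ (Q c).vars) :
    ∃ P' : MvPolynomial σ A, (∀ s : σ → k, evk P' s = evk P (θ s)) ∧ v ∉ P'.vars := by
  refine ⟨MvPolynomial.aeval (fun c => MvPolynomial.map (algebraMap k A) (Q c)) P, fun s => ?_,
    not_mem_vars_aeval _ _ _ fun i hi => ?_⟩
  · rw [evk_aeval, evk]
    refine MvPolynomial.eval₂Hom_congr' rfl (fun c hc _ => ?_) rfl
    have hcv : c ≠ v := fun hh => hv (hh ▸ hc)
    rw [hθ s c hcv, evk, evk, MvPolynomial.eval_map, MvPolynomial.eval₂_comp]
    rfl
  · have hiv : i ≠ v := fun hh => hv (hh ▸ hi)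
    exact fun hh => hQ i hiv (MvPolynomial.vars_map _ _ hh)

end Pool.Agent.MP_b525bf_ag_SA
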