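import Pool.Agent.Lib.MP_b525bf_ag_SA.CDF
import Pool.Agent.Lib.MP_b525bf_ag_SA.EMD
import Pool.Agent.Lib.MP_b525bf_ag_SA.SI2
import Pool.Agent.Lib.MP_b525bf_ag_SA.PLA
import Pool.Agent.Lib.MP_b525bf_ag_SA.TVV

/-!
# C21: semi-invariant functions in the coordinates of a simple root

RECIPE. `f = evn P`. For each `x` the function `g ↦ f (x * emb _ _ _ g)` on `SL_2(k)` is polynomial
(`emb_coe`: the entries of `x * emb g` are polynomials of degree one in the entries of `g`;
substitute) and satisfies the hypotheses of `exists_form` by `emb_up`, `emb_dg_simple` and `SI`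
(`∏ i, Pi.mulSingle i t` is `t`). So `f (x * emb g) = ∑ j, (g00 ^ (m₂ - j) * g10 ^ j) • c x j`. With
`g = lo s`: `f (x * xr i.succ i.castSucc s) = ∑ j, s ^ j • c x j`; with `β` from
`Pool.Agent.MP_b525bf_ag_R.exists_coeff_pow k m₂ j` (`sum_smul_eq_coeff`), `c x j = ∑ β s • f (x *
xr _ _ s)` for `j ≤ m₂`, so `x ↦ c x j` is in `PolyFn D` (`polyFn_comb`, `PolyFn.right`), say
`evn P_j`; `C j` from `exists_subst_zero (res P_j) (vI i)` and `evk_res`.
-/

set_option autoImplicit false

namespace Pool.Agent.MP_b525bf_ag_SA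

open scoped MatrixGroups

open Pool.Agent.MP_b525bf_ag_R (up lo dg ev)

private theorem eval_aeval' {A σ τ : Type} [CommRing A] (P : MvPolynomial σ A)
    (f : σ → MvPolynomial τ A) (v : τ → A) :
    MvPolynomial.eval v (MvPolynomial.aeval f P : MvPolynomial τ A) =
      MvPolynomial.eval (fun c => MvPolynomial.eval v (f c)) P :=
  MvPolynomial.eval₂Hom_bind₁ (RingHom.id A) v f P

private theorem exists_poly_emb {k A : Type} [Field k] {d : ℕ} [CommRing A] [Algebra k A]
    (a b : Fin (d + 1)) (h : a ≠ b) (P : MvPolynomial (Fin (d + 1) × Fin (d + 1)) A)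
    (x : SL(d + 1, k)) :
    ∃ R : MvPolynomial (Fin 2 × Fin 2) A, ∀ g : SL(2, k), evn P (x * emb a b h g).1 = ev R g := by
  set L : Fin (d + 1) → Fin (d + 1) → MvPolynomial (Fin 2 × Fin 2) A := fun e c =>
    MvPolynomial.C (algebraMap k A ((1 : Matrix (Fin (d + 1)) (Fin (d + 1)) k) e c)) +
    (MvPolynomial.X (0, 0) - 1) * MvPolynomial.C (algebraMap k A (Matrix.single a a 1 e c)) +
    MvPolynomial.X (0, 1) * MvPolynomial.C (algebraMap k A (Matrix.single a b 1 e c)) +
    MvPolynomial.X (1, 0) * MvPolynomial.C (algebraMap k A (Matrix.single b a 1 e c)) +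
    (MvPolynomial.X (1, 1) - 1) * MvPolynomial.C (algebraMap k A (Matrix.single b b 1 e c)) with hL
  have hLe : ∀ (g : SL(2, k)) (e c : Fin (d + 1)),
      MvPolynomial.eval (fun c => algebraMap k A (g.1 c.1 c.2)) (L e c) =
        algebraMap k A ((emb a b h g).1 e c) := by
    intro g e c
    rw [emb_coe, hL]
    simp only [Matrix.add_apply, Matrix.smul_apply, smul_eq_mul, map_add, map_mul, map_sub,
      map_one, MvPolynomial.eval_C, MvPolynomial.eval_X]
  refine ⟨MvPolynomial.aeval (fun c : Fin (d + 1) × Fin (d + 1) =>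
    ∑ e, MvPolynomial.C (algebraMap k A (x.1 c.1 e)) * L e c.2) P, fun g => ?_⟩
  rw [ev, eval_aeval', evn]
  refine congrArg (fun u => MvPolynomial.eval u P) (funext fun c => ?_)
  have h2 : (x * emb a b h g).1 c.1 c.2 = ∑ e, x.1 c.1 e * (emb a b h g).1 e c.2 :=
    Matrix.mul_apply
  rw [h2, map_sum, map_sum]
  refine Finset.sum_congr rfl fun e _ => ?_
  rw [map_mul, map_mul, MvPolynomial.eval_C, hLe]

theorem exists_repr {k A : Type} [Field k] [Infinite k] {d : ℕ} [CommRing A] [Algebra k A]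
    (i : Fin d) (h : i.castSucc ≠ i.succ) {D m₂ : ℕ} (f : SL(d + 1, k) → A) (hf : PolyFn D f)
    (hsi : SI m₂ f) :
    ∃ C : ℕ → MvPolynomial (Lw d) A, (∀ j, vI i ∉ (C j).vars) ∧
      ∀ (s : Lw d → k) (g : SL(2, k)),
        f (um (Function.update s (vI i) 0) * emb i.castSucc i.succ h g) =
          ∑ j ∈ Finset.range (m₂ + 1), (g.1 0 0 ^ (m₂ - j) * g.1 1 0 ^ j) • evk (C j) s := by
  have hx : ∀ x : SL(d + 1, k), ∃ c : ℕ → A, ∀ g : SL(2, k),
      f (x * emb i.castSucc i.succ h g) =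
        ∑ j ∈ Finset.range (m₂ + 1), (g.1 0 0 ^ (m₂ - j) * g.1 1 0 ^ j) • c j := by
    intro x
    obtain ⟨P, -, hP⟩ := hf
    obtain ⟨R, hR⟩ := exists_poly_emb i.castSucc i.succ h P x
    refine exists_form (fun g => f (x * emb i.castSucc i.succ h g)) R
      (fun g => (hP _).trans (hR g)) m₂ (fun g s => ?_) (fun g t => ?_)
    · rw [map_mul, emb_up, ← mul_assoc]
      exact hsi.1 _ _ _ _ Fin.castSucc_lt_succ
    · rw [map_mul, emb_dg_simple, ← mul_assoc, hsi.2]
      congr 2
      rw [Finset.prod_eq_single i]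
      · rw [Pi.mulSingle_eq_same]
      · intro j _ hj
        rw [Pi.mulSingle_eq_of_ne hj]
      · intro hi
        exact absurd (Finset.mem_univ i) hi
  choose c hc using hx
  have hlo : ∀ (x : SL(d + 1, k)) (s : k), f (x * xr i.succ i.castSucc s) =
      ∑ j ∈ Finset.range (m₂ + 1), s ^ j • c x j := by
    intro x s
    rw [← emb_lo i.castSucc i.succ h s, hc x (lo s)]
    refine Finset.sum_congr rfl fun j _ => ?_
    rw [Pool.Agent.MP_b525bf_ag_R.lo00, Pool.Agent.MP_b525bf_ag_R.lo10, one_pow, one_mul]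
  have hCj : ∀ j : ℕ, ∃ Cj : MvPolynomial (Lw d) A, vI i ∉ Cj.vars ∧
      (j < m₂ + 1 → ∀ s : Lw d → k, evk Cj s = c (um (Function.update s (vI i) 0)) j) := by
    intro j
    by_cases hj : j < m₂ + 1
    · obtain ⟨β, hβ⟩ := Pool.Agent.MP_b525bf_ag_R.exists_coeff_pow k m₂ j (Nat.lt_succ_iff.1 hj)
      have h1 : ∀ x, c x j = β.sum fun s a => a • f (x * xr i.succ i.castSucc s) := by
        intro x
        refine (Pool.Agent.MP_b525bf_ag_R.sum_smul_eq_coeff (fun (n : ℕ) (s : k) => s ^ n)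
          (Finset.range (m₂ + 1)) j (Finset.mem_range.2 hj) β (fun n hn => ?_)
          (fun s => f (x * xr i.succ i.castSucc s)) (c x) (hlo x)).symm
        exact hβ n (Nat.lt_succ_iff.1 (Finset.mem_range.1 hn))
      have h2 : PolyFn D fun x => c x j := by
        have h3 := polyFn_comb β (fun s x => f (x * xr i.succ i.castSucc s))
          (fun s => hf.right (xr i.succ i.castSucc s))
        have h4 : (fun x => c x j) =
            fun x => β.sum fun s a => a • f (x * xr i.succ i.castSucc s) := funext h1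
        rw [h4]
        exact h3
      obtain ⟨Pj, -, hPj⟩ := h2
      obtain ⟨Cj, hCj, hv⟩ := exists_subst_zero (k := k) (res Pj) (vI i)
      refine ⟨Cj, hv, fun _ s => ?_⟩
      rw [hCj, evk_res]
      exact (hPj _).symm
    · refine ⟨0, ?_, fun hh => absurd hh hj⟩
      rw [MvPolynomial.vars_0]
      exact Finset.notMem_empty _
  choose C hC1 hC2 using hCj
  refine ⟨C, hC1, fun s g => ?_⟩
  rw [hc]
  refine Finset.sum_congr rfl fun j hj => ?_
  rw [hC2 j (Finset.mem_range.1 hj) s]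

end Pool.Agent.MP_b525bf_ag_SA
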