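import Pool.Agent.Lib.MP_b525bf_ag_SA.RPR
import Pool.Agent.Lib.MP_b525bf_ag_SA.CN1
import Pool.Agent.Lib.MP_b525bf_ag_SA.CN2
import Pool.Agent.Lib.MP_b525bf_ag_SA.BIN

/-!
# C22: invariance of `tau`, simple root subgroups
-/

set_option autoImplicit false

namespace Pool.Agent.MP_b525bf_ag_SA

open scoped MatrixGroups

open Pool.Agent.MP_b525bf_ag_R (up lo dg)

private theorem evk_subst {k σ A : Type} [Field k] [CommRing A] [Algebra k A]
    (P : MvPolynomial σ A) (Q : σ → MvPolynomial σ k) :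
    ∃ P' : MvPolynomial σ A, ∀ s : σ → k, evk P' s = evk P fun c => evk (Q c) s := by
  refine ⟨MvPolynomial.bind₁ (fun c => MvPolynomial.map (algebraMap k A) (Q c)) P, fun s => ?_⟩
  unfold evk
  rw [MvPolynomial.eval, MvPolynomial.eval₂Hom_bind₁, MvPolynomial.eval]
  congr 1
  congr 1
  funext c
  rw [← MvPolynomial.eval, MvPolynomial.eval_map]
  have h := MvPolynomial.eval₂_comp_left (algebraMap k A) (RingHom.id k)
    (fun c => algebraMap k k (s c)) (Q c)
  rw [RingHom.comp_id] at h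
  exact h.symm

private theorem exists_aeval_mul {k σ A : Type} [Field k] [CommRing A] [Algebra k A]
    (v : σ) (g : Polynomial k) (R : MvPolynomial σ A) :
    ∃ P' : MvPolynomial σ A, ∀ s : σ → k, evk P' s = g.eval (s v) • evk R s := by
  refine ⟨g.eval₂ (algebraMap k (MvPolynomial σ A)) (MvPolynomial.X v) * R, fun s => ?_⟩
  unfold evk
  rw [map_mul, Polynomial.hom_eval₂, MvPolynomial.eval_X, Algebra.smul_def]
  congr 1
  have h : (MvPolynomial.eval fun c => algebraMap k A (s c)).comp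
      (algebraMap k (MvPolynomial σ A)) = algebraMap k A := by
    ext r
    rw [RingHom.comp_apply, MvPolynomial.algebraMap_apply, MvPolynomial.eval_C]
  rw [h]
  exact Polynomial.eval₂_at_apply _ _

private theorem evk_sum {k σ A : Type} [Field k] [CommRing A] [Algebra k A] (S : Finset ℕ)
    (P : ℕ → MvPolynomial σ A) (s : σ → k) : evk (∑ j ∈ S, P j) s = ∑ j ∈ S, evk (P j) s := by
  unfold evk
  rw [map_sum]

/-- The polynomials of the map `th`. -/
private theorem th_poly {k : Type} [Field k] {d : ℕ} (i : Fin d) :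
    ∃ Q : Lw d → MvPolynomial (Lw d) k, ∀ s, (th i s : Lw d → k) = fun c => evk (Q c) s := by
  refine ⟨fun c => MvPolynomial.X c + if h : c.1.2 = i.castSucc ∧ i.succ < c.1.1 then
    MvPolynomial.X (vI i) * MvPolynomial.X ⟨(c.1.1, i.succ), h.2⟩ else 0, fun s => ?_⟩
  funext c
  simp only [th, evk]
  split_ifs with h
  · simp
  · simp

private theorem core {k A : Type} [Field k] [Infinite k] {d : ℕ}
    [CommRing A] [Algebra k A] (M : ℕ) {D : ℕ}
    {b : (Lw d → k) →₀ k} (hb : IsTop M D b) (f : SL(d + 1, k) → A) (hf : PolyFn D f)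
    (i : Fin d) (h' : SL(d + 1, k)) (w : (Lw d → k) → (Lw d → k)) (g : ℕ → Polynomial k)
    (C : ℕ → MvPolynomial (Lw d) A) (hC : ∀ j, vI i ∉ (C j).vars)
    (hrep : ∀ s, f (h' * um (th i s)) =
      ∑ j ∈ Finset.range (2 * M + 1), (g j).eval (s (vI i)) • evk (C j) (w s))
    (Q : Lw d → MvPolynomial (Lw d) k) (hQ1 : ∀ s c, c ≠ vI i → w s c = evk (Q c) s)
    (hQ2 : ∀ c, c ≠ vI i → vI i ∉ (Q c).vars)
    (hg : ∀ j ≤ 2 * M, (g j).coeff M = if j = M then 1 else 0)
    (htop : ∀ P P' : MvPolynomial (Lw d) A, (∀ s : Lw d → k, evk P' s = evk P (w s)) →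
      P'.coeff (topE (Lw d) M) = P.coeff (topE (Lw d) M))
    (hth : ∀ P P' : MvPolynomial (Lw d) A, (∀ s : Lw d → k, evk P' s = evk P (th i s)) →
      P'.coeff (topE (Lw d) M) = P.coeff (topE (Lw d) M))
    (hw : ∀ s, w s (vI i) = s (vI i)) :
    tau b (fun x => f (h' * x)) =
      (MvPolynomial.X (vI i) ^ M * C M).coeff (topE (Lw d) M) := by
  classical
  obtain ⟨P, hP1, hP2⟩ := hf.left h'
  rw [tau_eq hb _ P hP1 hP2]
  obtain ⟨QT, hQT⟩ := th_poly (k := k) i
  obtain ⟨P', hP'⟩ := evk_subst (k := k) (res P) QT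
  have hP'2 : ∀ s : Lw d → k, evk P' s = evk (res P) (th i s) := by
    intro s
    rw [hP', hQT]
  rw [← hth (res P) P' hP'2]
  have h1 : ∀ j, ∃ R : MvPolynomial (Lw d) A, (∀ s : Lw d → k, evk R s = evk (C j) (w s)) ∧
      vI i ∉ R.vars := fun j => exists_comp (C j) (vI i) (hC j) w Q hQ1 hQ2
  choose R hR1 hR2 using h1
  have h2 : ∀ j, ∃ T : MvPolynomial (Lw d) A, ∀ s : Lw d → k,
      evk T s = (g j).eval (s (vI i)) • evk (R j) s :=
    fun j => exists_aeval_mul (vI i) (g j) (R j)
  choose T hT using h2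
  have h3 : P' = ∑ j ∈ Finset.range (2 * M + 1), T j := by
    refine eq_of_evk (k := k) _ _ fun s => ?_
    rw [hP'2, evk_res, ← hP2, evk_sum]
    change f (h' * um (th i s)) = _
    rw [hrep]
    refine Finset.sum_congr rfl fun j _ => ?_
    rw [hT, hR1]
  have h4 : ∀ j ∈ Finset.range (2 * M + 1), (T j).coeff (topE (Lw d) M) =
      if j = M then (MvPolynomial.X (vI i) ^ M * R j).coeff (topE (Lw d) M) else 0 := by
    intro j hj
    rw [coeff_top_mul M (vI i) (R j) (hR2 j) (g j) (T j) (hT j),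
      hg j (Nat.lt_succ_iff.1 (Finset.mem_range.1 hj))]
    split_ifs
    · rw [one_smul]
    · rw [zero_smul]
  rw [h3, MvPolynomial.coeff_sum, Finset.sum_congr rfl h4, Finset.sum_ite_eq' _ M,
    if_pos (Finset.mem_range.2 (by omega))]
  refine htop (MvPolynomial.X (vI i) ^ M * C M) (MvPolynomial.X (vI i) ^ M * R M) fun s => ?_
  have h5 := hR1 M s
  unfold evk at h5 ⊢
  rw [map_mul, map_mul, map_pow, map_pow, MvPolynomial.eval_X, MvPolynomial.eval_X, h5, hw]

private theorem vI_notMem_X {k : Type} [Field k] {d : ℕ} (i : Fin d) (c : Lw d)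
    (h : c ≠ vI i) : vI i ∉ (MvPolynomial.X c : MvPolynomial (Lw d) k).vars := by
  rw [MvPolynomial.vars_X, Finset.mem_singleton]
  exact fun h2 => h h2.symm

private theorem vI_notMem_CX {k : Type} [Field k] {d : ℕ} (i : Fin d) (c : Lw d) (m : k)
    (h : c ≠ vI i) :
    vI i ∉ (MvPolynomial.C m * MvPolynomial.X c : MvPolynomial (Lw d) k).vars := by
  classical
  intro h2
  have h3 := MvPolynomial.vars_mul _ _ h2
  rw [MvPolynomial.vars_C, Finset.empty_union] at h3
  exact vI_notMem_X i c h h3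

private theorem vI_notMem_add {k : Type} [Field k] {d : ℕ} (i : Fin d)
    (P Q : MvPolynomial (Lw d) k) (hP : vI i ∉ P.vars) (hQ : vI i ∉ Q.vars) :
    vI i ∉ (P + Q).vars := by
  classical
  intro h
  rcases Finset.mem_union.1 (MvPolynomial.vars_add_subset _ _ h) with h | h
  · exact hP h
  · exact hQ h

/-- The polynomials of the map `lw`. -/
private theorem lw_poly {k : Type} [Field k] {d : ℕ} (i : Fin d) (m : k) :
    ∃ Q : Lw d → MvPolynomial (Lw d) k, (∀ s c, c ≠ vI i → lw i m s c = evk (Q c) s) ∧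
      ∀ c, c ≠ vI i → vI i ∉ (Q c).vars := by
  refine ⟨fun c => MvPolynomial.X c + if h : c.1.1 = i.succ ∧ c.1.2 < i.castSucc then
    MvPolynomial.C m * MvPolynomial.X ⟨(i.castSucc, c.1.2), h.2⟩ else
    if h : c.1.2 = i.castSucc ∧ i.succ < c.1.1 then
      MvPolynomial.C (-m) * MvPolynomial.X ⟨(c.1.1, i.succ), h.2⟩ else 0, fun s c _ => ?_,
    fun c hc => ?_⟩
  · simp only [lw, evk]
    split_ifs with h1 h2
    · simp
    · simp
    · simp
  · refine vI_notMem_add i _ _ (vI_notMem_X i c hc) ?_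
    split_ifs with h1 h2
    · refine vI_notMem_CX i _ m fun h3 => ?_
      have h4 := congrArg (fun x : Lw d => x.1.1) h3
      exact absurd h4 Fin.castSucc_lt_succ.ne
    · refine vI_notMem_CX i _ (-m) fun h3 => ?_
      have h4 := congrArg (fun x : Lw d => x.1.2) h3
      exact absurd h4 Fin.castSucc_lt_succ.ne'
    · rw [MvPolynomial.vars_0]
      exact Finset.notMem_empty _

/-- The polynomials of the map `uw`. -/
private theorem uw_poly {k : Type} [Field k] {d : ℕ} (i : Fin d) (m : k) :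
    ∃ Q : Lw d → MvPolynomial (Lw d) k, (∀ s c, c ≠ vI i → uw i m s c = evk (Q c) s) ∧
      ∀ c, c ≠ vI i → vI i ∉ (Q c).vars := by
  refine ⟨fun c => MvPolynomial.X c + if h : c.1.1 = i.castSucc then
    MvPolynomial.C m * MvPolynomial.X ⟨(i.succ, c.1.2),
      (c.2.trans_eq h).trans Fin.castSucc_lt_succ⟩ else
    if h : c.1.2 = i.succ then
      MvPolynomial.C (-m) * MvPolynomial.X ⟨(c.1.1, i.castSucc),
        (Fin.castSucc_lt_succ.trans_eq h.symm).trans c.2⟩ else 0, fun s c _ => ?_,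
    fun c hc => ?_⟩
  · simp only [uw, evk]
    split_ifs with h1 h2
    · simp
    · simp
    · simp
  · refine vI_notMem_add i _ _ (vI_notMem_X i c hc) ?_
    split_ifs with h1 h2
    · refine vI_notMem_CX i _ m fun h3 => ?_
      have h4 : c.1.2 = i.castSucc := congrArg (fun x : Lw d => x.1.2) h3
      have h5 := c.2
      rw [h1, h4] at h5
      exact lt_irrefl _ h5
    · refine vI_notMem_CX i _ (-m) fun h3 => ?_
      have h4 : c.1.1 = i.succ := congrArg (fun x : Lw d => x.1.1) h3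
      have h5 := c.2
      rw [h2, h4] at h5
      exact lt_irrefl _ h5
    · rw [MvPolynomial.vars_0]
      exact Finset.notMem_empty _

theorem tau_simple (p : ℕ) [Fact p.Prime] {k A : Type} [Field k] [Infinite k] [CharP k p] {d : ℕ}
    [CommRing A] [Algebra k A] [CharP A p] (M e : ℕ) (hM : M + 1 = p ^ e) {D : ℕ}
    {b : (Lw d → k) →₀ k} (hb : IsTop M D b) (f : SL(d + 1, k) → A) (hf : PolyFn D f)
    (hsi : SI (2 * M) f) (i : Fin d) (m : k) :
    tau b (fun x => f (xr i.succ i.castSucc m * x)) = tau b f ∧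
      tau b (fun x => f (xr i.castSucc i.succ m * x)) = tau b f := by
  have h : i.castSucc ≠ i.succ := Fin.castSucc_lt_succ.ne
  obtain ⟨C, hC1, hC2⟩ := exists_repr i h f hf hsi
  have hlo : ∀ s : k, xr i.succ i.castSucc s = emb i.castSucc i.succ h (lo s) :=
    fun s => (emb_lo _ _ h s).symm
  have hup : ∀ s : k, xr i.castSucc i.succ s = emb i.castSucc i.succ h (up s) :=
    fun s => (emb_up _ _ h s).symm
  have key1 : ∀ m : k, tau b (fun x => f (xr i.succ i.castSucc m * x)) =
      (MvPolynomial.X (vI i) ^ M * C M).coeff (topE (Lw d) M) := by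
    intro m
    obtain ⟨Q, hQ1, hQ2⟩ := lw_poly (k := k) i m
    refine core M hb f hf i (xr i.succ i.castSucc m) (lw i m)
      (fun j => (Polynomial.X + Polynomial.C m) ^ j) C hC1 ?_ Q hQ1 hQ2
      (fun j hj => coeff_lo p k M e hM j hj m) (fun P P' hP => top_lw p M e hM i P P' m hP)
      (fun P P' hP => top_th p M e hM i P P' hP) (lw_vI i m)
    intro s
    have h1 : xr i.succ i.castSucc m * um (th i s) =
        um (Function.update (lw i m s) (vI i) 0) *
          emb i.castSucc i.succ h (lo (m + s (vI i))) := by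
      rw [← um_th, ← um_lw, hlo, hlo, hlo, mul_assoc _ (emb _ _ h (lo (-m))), ← map_mul,
        ← MP_b525bf_ag_R.lo_add, neg_add_cancel_left, ← mul_assoc]
    rw [h1, hC2]
    refine Finset.sum_congr rfl fun j _ => ?_
    rw [MP_b525bf_ag_R.lo00, MP_b525bf_ag_R.lo10, one_pow, one_mul, Polynomial.eval_pow,
      Polynomial.eval_add, Polynomial.eval_X, Polynomial.eval_C, add_comm]
  have key2 : ∀ m : k, tau b (fun x => f (xr i.castSucc i.succ m * x)) =
      (MvPolynomial.X (vI i) ^ M * C M).coeff (topE (Lw d) M) := by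
    intro m
    obtain ⟨Q, hQ1, hQ2⟩ := uw_poly (k := k) i m
    refine core M hb f hf i (xr i.castSucc i.succ m) (uw i m)
      (fun j => (1 + Polynomial.C m * Polynomial.X) ^ (2 * M - j) * Polynomial.X ^ j) C hC1 ?_
      Q hQ1 hQ2
      (fun j hj => coeff_up p k M e hM j hj m) (fun P P' hP => top_uw p M e hM i P P' m hP)
      (fun P P' hP => top_th p M e hM i P P' hP) (uw_vI i m)
    intro s
    have h1 : xr i.castSucc i.succ m * um (th i s) =
        um (Function.update (uw i m s) (vI i) 0) *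
          emb i.castSucc i.succ h (up m * lo (s (vI i))) := by
      rw [← um_th, ← um_uw, hup, hup, hlo, mul_assoc _ (emb _ _ h (up (-m))), ← map_mul,
        ← mul_assoc (up (-m)), ← MP_b525bf_ag_R.up_add, neg_add_cancel, MP_b525bf_ag_R.up_zero,
        one_mul, ← mul_assoc]
    rw [h1, hC2]
    refine Finset.sum_congr rfl fun j _ => ?_
    rw [MP_b525bf_ag_R.mul00, MP_b525bf_ag_R.mul10]
    simp
  have key0 : tau b f = (MvPolynomial.X (vI i) ^ M * C M).coeff (topE (Lw d) M) := by
    rw [← key1 0, hlo, MP_b525bf_ag_R.lo_zero, map_one]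
    simp only [one_mul]
  exact ⟨(key1 m).trans key0.symm, (key2 m).trans key0.symm⟩

end Pool.Agent.MP_b525bf_ag_SA
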