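import Pool.Agent.Lib.MP_b525bf_ag_SA.LVB
import Pool.Agent.Lib.MP_b525bf_ag_R.TRU
import Pool.Agent.Lib.MP_b525bf_ag_R.TWT

/-!
# A08: the upper bound for the transcendence degree

RECIPE. `Φ := D.Pos ρ` is finite. For a finset `Γ'` of roots let `Inv Γ'` be the subalgebra of the
`a` fixed by all `D.x γ s`, `γ ∈ Γ'` (compare `uTo` in MP_b525bf_ag_R/CHN.lean). By induction on
the number of elements of `Γ' ⊆ Φ` with `∀ β ∈ Γ', ∀ γ ∈ Φ, D.ht β < D.ht γ → γ ∈ Γ'`:
`trdeg k A ≤ trdeg k (Inv Γ') + Γ'.card`. Step: `β ∈ Γ'` of least height, `Γ'' = Γ'.erase β`: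
`Pool.Agent.MP_b525bf_ag_R.trdeg_le_of_unipotent (fun s => ρ (D.x β s))` with `Inv Γ''`, `Inv Γ'`;
`hrat` from `Pool.Agent.MP_b525bf_ag_R.exists_up (ρ.comp (D.φ β)) (hρ.sl β)`; `Inv Γ''` is stable
by `fx_x` with `E = ⊥` (`γ ≠ D.neg β` by heights; `γ + β ∈ Φ` by `pos_add` and `dominant`, of
larger height than `β`, so in `Γ''`). For `Γ' = Φ`: `Inv Φ = C` by `isU_of_fixed`. `Γ' = ∅`:
`Inv ∅ = ⊤`, `Algebra.trdeg k ⊤ = Algebra.trdeg k A` (see how CHN.lean, `trdeg_uTo`, does it).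
-/

set_option autoImplicit false

namespace Pool.Agent.MP_b525bf_ag_SA

open Pool.Agent.MP_b525bf_ag_R (up lo dg chi IsRat)
open scoped MatrixGroups

private lemma mem_fx_bot {k ι R G : Type} [Field k] [Group G]
    (D : RG k ι R G) {A : Type} [CommRing A] [Algebra k A] (ρ : G →* (A ≃ₐ[k] A)) (Γ : Set R)
    (a : A) : a ∈ D.Fx ρ ⊥ Γ ↔ ∀ γ ∈ Γ, ∀ s, ρ (D.x γ s) a = a := by
  rw [RG.mem_Fx]
  simp only [Submodule.mem_bot, sub_eq_zero]

/-- the elements fixed by the root subgroups of the roots in `Γ` -/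
private def inv {k ι R G : Type} [Field k] [Group G] (D : RG k ι R G) {A : Type} [CommRing A]
    [Algebra k A] (ρ : G →* (A ≃ₐ[k] A)) (Γ : Finset R) : Subalgebra k A where
  carrier := {a | ∀ γ ∈ Γ, ∀ s, ρ (D.x γ s) a = a}
  mul_mem' := by
    intro a b ha hb γ hγ s
    rw [map_mul, ha γ hγ s, hb γ hγ s]
  add_mem' := by
    intro a b ha hb γ hγ s
    rw [map_add, ha γ hγ s, hb γ hγ s]
  algebraMap_mem' := by
    intro c γ _ s
    exact AlgEquiv.commutes _ _

private lemma mem_inv {k ι R G : Type} [Field k] [Group G] (D : RG k ι R G) {A : Type}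
    [CommRing A] [Algebra k A] (ρ : G →* (A ≃ₐ[k] A)) (Γ : Finset R) (a : A) :
    a ∈ inv D ρ Γ ↔ ∀ γ ∈ Γ, ∀ s, ρ (D.x γ s) a = a := Iff.rfl

private lemma trdeg_inv {k ι R G : Type} [Field k] [Infinite k] [Fintype ι] [DecidableEq R]
    [Group G] (D : RG k ι R G) {A : Type} [CommRing A] [IsDomain A] [Algebra k A]
    (ρ : G →* (A ≃ₐ[k] A)) (hρ : D.Rat ρ) (n : ℕ) : ∀ Γ : Finset R, Γ.card = n →
      (∀ γ ∈ Γ, γ ∈ D.Pos ρ) → (∀ β ∈ Γ, ∀ γ ∈ D.Pos ρ, D.ht β < D.ht γ → γ ∈ Γ) →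
      Algebra.trdeg k A ≤ Algebra.trdeg k (inv D ρ Γ) + Γ.card := by
  induction n with
  | zero =>
    intro Γ hn _ _
    rw [Finset.card_eq_zero] at hn
    subst hn
    have h0 : inv D ρ (∅ : Finset R) = ⊤ := by
      rw [eq_top_iff]
      intro a _ i hi
      exact absurd hi (Finset.notMem_empty i)
    rw [h0, (Subalgebra.topEquiv (R := k) (A := A)).symm.trdeg_eq]
    exact le_self_add
  | succ n ih =>
    intro Γ hn hpos hup
    have hne : Γ.Nonempty := by
      rw [← Finset.card_pos]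
      omega
    obtain ⟨β, hβ, hmin⟩ := Γ.exists_min_image D.ht hne
    have hβ0 : 0 < D.ht β := (hpos β hβ).1
    have hcard : (Γ.erase β).card = n := by
      rw [Finset.card_erase_of_mem hβ, hn]
      rfl
    have hpos' : ∀ γ ∈ Γ.erase β, γ ∈ D.Pos ρ := fun γ hγ => hpos γ (Finset.mem_of_mem_erase hγ)
    have hup' : ∀ β' ∈ Γ.erase β, ∀ γ ∈ D.Pos ρ, D.ht β' < D.ht γ → γ ∈ Γ.erase β := by
      intro β' hβ' γ hγ hlt
      have h1 := hmin β' (Finset.mem_of_mem_erase hβ')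
      refine Finset.mem_erase.2 ⟨?_, hup β' (Finset.mem_of_mem_erase hβ') γ hγ hlt⟩
      rintro rfl
      exact absurd hlt (not_lt.2 h1)
    have h1 := ih (Γ.erase β) hcard hpos' hup'
    have h2 : Algebra.trdeg k (inv D ρ (Γ.erase β)) ≤ Algebra.trdeg k (inv D ρ Γ) + 1 := by
      refine Pool.Agent.MP_b525bf_ag_R.trdeg_le_of_unipotent (fun s => ρ (D.x β s)) ?_ ?_
        (inv D ρ (Γ.erase β)) (inv D ρ Γ) ?_ ?_
      · intro s s' a
        rw [D.x_add, map_mul]
        rfl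
      · intro a
        obtain ⟨N, c, b, -, -, h⟩ :=
          Pool.Agent.MP_b525bf_ag_R.exists_up (ρ.comp (D.φ β)) (hρ.sl β) a
        exact ⟨N, c, h⟩
      · intro s a ha
        have h3 : ∀ δ s, ∀ e ∈ (⊥ : Submodule k A), ρ (D.x δ s) e ∈ (⊥ : Submodule k A) := by
          intro δ s e he
          rw [Submodule.mem_bot] at he ⊢
          rw [he, map_zero]
        have h4 := fx_x D ρ ⊥ ((Γ.erase β : Finset R) : Set R) β (fun γ _ => h3 γ) (h3 β)
          (by
            rintro γ hγ rfl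
            have h5 := (hpos' _ (Finset.mem_coe.1 hγ)).1
            rw [D.ht_neg] at h5
            omega)
          (by
            intro γ hγ β' hco hht
            have hγ' := hpos' _ (Finset.mem_coe.1 hγ)
            have h5 : β' ∈ D.Pos ρ := pos_add D ρ hρ γ hγ' β
              (fun h l hh hU hl => dominant D ρ hρ h hh hU l hl β hβ0) β' hco
            have h6 : D.ht β < D.ht β' := by
              have := hγ'.1
              omega
            refine Finset.mem_coe.2 (Finset.mem_erase.2 ⟨?_, hup β hβ β' h5 h6⟩)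
            rintro rfl
            exact lt_irrefl _ h6) s a ((mem_fx_bot D ρ _ a).2 fun γ hγ s => ha γ hγ s)
        exact fun γ hγ s => (mem_fx_bot D ρ _ _).1 h4 γ hγ s
      · intro a
        constructor
        · intro h
          exact ⟨fun γ hγ s => h γ (Finset.mem_of_mem_erase hγ) s, fun s => h β hβ s⟩
        · rintro ⟨h, h'⟩ γ hγ s
          by_cases hγβ : γ = β
          · rw [hγβ]
            exact h' s
          · exact h γ (Finset.mem_erase.2 ⟨hγβ, hγ⟩) s
    refine h1.trans ?_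
    rw [hcard, hn]
    push_cast
    rw [add_comm (n : Cardinal) 1, ← add_assoc]
    exact add_le_add_left h2 _

theorem trdeg_le_pos {k ι R G : Type} [Field k] [Infinite k] [Fintype ι] [Finite R] [Group G]
    (D : RG k ι R G) {A : Type} [CommRing A] [IsDomain A] [Algebra k A] (ρ : G →* (A ≃ₐ[k] A))
    (hρ : D.Rat ρ) (C : Subalgebra k A) (hC : ∀ a, a ∈ C ↔ D.IsU ρ a) :
    Algebra.trdeg k A ≤ Algebra.trdeg k C + (D.Pos ρ).ncard := by
  classical
  have hfin : (D.Pos ρ).Finite := Set.toFinite _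
  have h1 := trdeg_inv D ρ hρ hfin.toFinset.card hfin.toFinset rfl
    (fun γ hγ => hfin.mem_toFinset.1 hγ) (fun β _ γ hγ _ => hfin.mem_toFinset.2 hγ)
  have h2 : inv D ρ hfin.toFinset = C := by
    ext a
    rw [hC]
    constructor
    · intro h
      exact isU_of_fixed D ρ hρ a fun α hα s => h α (hfin.mem_toFinset.2 hα) s
    · intro h γ hγ s
      exact h γ (hfin.mem_toFinset.1 hγ).1 s
  rw [h2] at h1
  rw [Set.ncard_eq_toFinset_card _ hfin]
  exact h1

end Pool.Agent.MP_b525bf_ag_SA
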